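import Mathlib

/-!
# Points on circles over F_p (MP_d33b62, T5)
-/

set_option autoImplicit false

open Finset

namespace Pool.Agent.Wd33b62c

theorem crC_le (p : ℕ) [Fact p.Prime] (a b c d : ZMod p) (hab : a ^ 2 + b ^ 2 = c) (hc : c ≠ 0) :
    ((univ : Finset (ZMod p × ZMod p)).filter (fun q => q.1 ^ 2 + q.2 ^ 2 = d)).card ≤
      ((univ : Finset (ZMod p × ZMod p)).filter (fun q => q.1 ^ 2 + q.2 ^ 2 = c * d)).card := by
  apply Finset.card_le_card_of_injOn (fun q => (a * q.1 - b * q.2, a * q.2 + b * q.1))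
  · intro q hq
    simp only [coe_filter, mem_univ, true_and, Set.mem_ofPred_eq] at hq ⊢
    linear_combination c * hq + (q.1 ^ 2 + q.2 ^ 2) * hab
  · intro q _ q' _ h
    have h1 : a * q.1 - b * q.2 = a * q'.1 - b * q'.2 := congrArg Prod.fst h
    have h2 : a * q.2 + b * q.1 = a * q'.2 + b * q'.1 := congrArg Prod.snd h
    have e1 : c * (q.1 - q'.1) = 0 := by
      linear_combination a * h1 + b * h2 - (q.1 - q'.1) * hab
    have e2 : c * (q.2 - q'.2) = 0 := by
      linear_combination a * h2 - b * h1 - (q.2 - q'.2) * hab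
    have f1 : q.1 = q'.1 := sub_eq_zero.1 ((mul_eq_zero.1 e1).resolve_left hc)
    have f2 : q.2 = q'.2 := sub_eq_zero.1 ((mul_eq_zero.1 e2).resolve_left hc)
    exact Prod.ext f1 f2

theorem crC_eq (p : ℕ) [Fact p.Prime] (c : ZMod p) (hc : c ≠ 0) :
    ((univ : Finset (ZMod p × ZMod p)).filter (fun q => q.1 ^ 2 + q.2 ^ 2 = c)).card =
      ((univ : Finset (ZMod p × ZMod p)).filter (fun q => q.1 ^ 2 + q.2 ^ 2 = 1)).card := by
  obtain ⟨a, b, hab⟩ := ZMod.sq_add_sq p c
  apply le_antisymm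
  · have h := crC_le p (a / c) (b / c) c⁻¹ c (by field_simp; linear_combination hab) (inv_ne_zero hc)
    rwa [inv_mul_cancel₀ hc] at h
  · have h := crC_le p a b c 1 hab hc
    rwa [mul_one] at h

theorem cr_circ0 (p : ℕ) [Fact p.Prime] (hp : p ≠ 2) :
    (((univ : Finset (ZMod p × ZMod p)).filter (fun q => q.1 ^ 2 + q.2 ^ 2 = 0)).card : ℤ) =
      p + ZMod.χ₄ p * (p - 1) := by
  have hch : ringChar (ZMod p) ≠ 2 := by rwa [ZMod.ringChar_zmod_n]
  have h1 : ((univ : Finset (ZMod p × ZMod p)).filter (fun q => q.1 ^ 2 + q.2 ^ 2 = 0)).card =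
      ∑ x : ZMod p, (Finset.univ.filter (fun y : ZMod p => y ^ 2 = - x ^ 2)).card := by
    rw [← Finset.univ_product_univ, Finset.card_filter, Finset.sum_product]
    refine Finset.sum_congr rfl fun x _ => ?_
    rw [Finset.card_filter]
    refine Finset.sum_congr rfl fun y _ => ?_
    have : (x ^ 2 + y ^ 2 = 0) ↔ (y ^ 2 = - x ^ 2) :=
      ⟨fun h => by linear_combination h, fun h => by linear_combination h⟩
    simp only [this]
  have h2 : ∀ x : ZMod p, ((Finset.univ.filter (fun y : ZMod p => y ^ 2 = - x ^ 2)).card : ℤ) =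
      quadraticChar (ZMod p) (- x ^ 2) + 1 := by
    intro x
    rw [← quadraticChar_card_sqrts hch]
    congr 2
    ext y
    simp
  have h3 : ∀ x : ZMod p, quadraticChar (ZMod p) (- x ^ 2) = if x = 0 then 0 else ZMod.χ₄ p := by
    intro x
    split_ifs with hx
    · subst hx; simp
    · rw [show (- x ^ 2 : ZMod p) = (-1) * x ^ 2 by ring, map_mul, quadraticChar_sq_one' hx, mul_one,
        quadraticChar_neg_one hch, ZMod.card]
  rw [h1]
  push_cast
  simp only [h2, h3]
  rw [Finset.sum_add_distrib, Finset.sum_ite]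
  simp only [Finset.sum_const, nsmul_eq_mul]
  have h4 : ((univ : Finset (ZMod p)).filter (fun x => ¬ x = 0)).card = p - 1 := by
    rw [Finset.filter_not, Finset.filter_eq' , if_pos (mem_univ _), Finset.card_sdiff_of_subset (Finset.subset_univ _),
      Finset.card_univ, ZMod.card, Finset.card_singleton]
  rw [h4, Finset.card_univ, ZMod.card, Nat.cast_sub (Fact.out : p.Prime).one_lt.le]
  push_cast
  ring

/-- Points on a circle over `F_p`: `p - 1` or `p + 1` (as `p = 1` or `3 mod 4`).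
Proof. All `N(c)`, `c ≠ 0`, are equal (multiply with an element of norm `c`, every residue is a sum of two squares:
`ZMod.sq_add_sq`), `∑_c N(c) = p²`, `N(0) = 2 p - 1` or `1`. -/
theorem cr_circ (p : ℕ) [Fact p.Prime] (hp : p ≠ 2) (c : ZMod p) (hc : c ≠ 0) :
    (((univ : Finset (ZMod p × ZMod p)).filter (fun q => q.1 ^ 2 + q.2 ^ 2 = c)).card : ℤ) = p - ZMod.χ₄ p := by
  have h0 := cr_circ0 p hp
  set N : ZMod p → ℕ := fun c => ((univ : Finset (ZMod p × ZMod p)).filter (fun q => q.1 ^ 2 + q.2 ^ 2 = c)).card with hN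
  have hs : ∑ c : ZMod p, N c = p ^ 2 := by
    have := Finset.card_eq_sum_card_fiberwise (s := (univ : Finset (ZMod p × ZMod p))) (t := (univ : Finset (ZMod p)))
      (f := fun q => q.1 ^ 2 + q.2 ^ 2) (by intro x _; simp)
    rw [Finset.card_univ, Fintype.card_prod, ZMod.card] at this
    rw [pow_two]
    exact this.symm
  have hs2 : ∑ c : ZMod p, N c = N 0 + (p - 1) * N 1 := by
    rw [← Finset.add_sum_erase _ _ (mem_univ (0 : ZMod p))]
    congr 1
    rw [Finset.sum_congr rfl (fun x hx => crC_eq p x (Finset.ne_of_mem_erase hx)), Finset.sum_const, Finset.card_erase_of_mem (mem_univ _), Finset.card_univ, ZMod.card, smul_eq_mul]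
  have h1 : ((N 0 : ℕ) : ℤ) = p + ZMod.χ₄ p * (p - 1) := h0
  have h2 : ((N c : ℕ) : ℤ) = N 1 := by exact_mod_cast crC_eq p c hc
  change ((N c : ℕ) : ℤ) = _
  rw [h2]
  have h3 : ((p : ℤ)) ^ 2 = N 0 + (p - 1) * N 1 := by
    have : p ^ 2 = N 0 + (p - 1) * N 1 := by rw [← hs, hs2]
    have h5 : ((p ^ 2 : ℕ) : ℤ) = ((N 0 + (p - 1) * N 1 : ℕ) : ℤ) := by rw [this]
    push_cast [Nat.cast_sub (Fact.out : p.Prime).one_lt.le] at h5
    exact h5
  have h6 : ((p : ℤ) - 1) ≠ 0 := by
    have := (Fact.out : p.Prime).one_lt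
    omega
  apply mul_left_cancel₀ h6
  rw [h1] at h3
  linear_combination (-1 : ℤ) * h3

end Pool.Agent.Wd33b62c
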