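import Mathlib

/-!
# The constants `cM` (MP_d33b62, T5)
-/

set_option autoImplicit false

open Finset

namespace Pool.Agent.Wd33b62c

open ArithmeticFunction in
/-- The terms `μ(e) / e²`, `(e, M) = 1`. -/
noncomputable def cMt (M e : ℕ) : ℝ := if Nat.Coprime e M then ((moebius e : ℤ) : ℝ) / (e : ℝ) ^ 2 else 0

/-- `∑_{(e, M) = 1} μ(e) / e²`. -/
noncomputable def cM (M : ℕ) : ℝ := ∑' e : ℕ, cMt M e

theorem SmA_abs (M e : ℕ) : |cMt M e| ≤ ((e : ℝ) ^ 2)⁻¹ := by
  unfold cMt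
  split_ifs with h
  · rw [abs_div, abs_of_nonneg (by positivity : (0 : ℝ) ≤ (e : ℝ) ^ 2), div_eq_mul_inv]
    have h1 : |((ArithmeticFunction.moebius e : ℤ) : ℝ)| ≤ 1 := by
      exact_mod_cast ArithmeticFunction.abs_moebius_le_one (n := e)
    have h2 : (0 : ℝ) ≤ ((e : ℝ) ^ 2)⁻¹ := by positivity
    nlinarith
  · simp only [abs_zero]; positivity

theorem cm_sum (M : ℕ) : Summable (cMt M) := by
  refine Summable.of_norm_bounded (g := fun e : ℕ => ((e : ℝ) ^ 2)⁻¹) ?_ ?_
  · exact Real.summable_nat_pow_inv.2 (by norm_num)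
  · intro e; rw [Real.norm_eq_abs]; exact SmA_abs M e

/-- The tail: `|cM M - ∑_{e ≤ N} ...| ≤ 1 / N`. -/
theorem cm_tail (M N : ℕ) (hN : 0 < N) : |cM M - ∑ e ∈ range (N + 1), cMt M e| ≤ 1 / N := by
  have hs := (cm_sum M).hasSum.tendsto_sum_nat
  have h1 : Filter.Tendsto (fun n => |∑ e ∈ range n, cMt M e - ∑ e ∈ range (N + 1), cMt M e|) Filter.atTop
      (nhds |cM M - ∑ e ∈ range (N + 1), cMt M e|) := (hs.sub_const _).abs
  refine le_of_tendsto h1 ?_
  filter_upwards [Filter.eventually_ge_atTop (N + 1)] with n hn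
  have h2 : ∑ e ∈ range n, cMt M e - ∑ e ∈ range (N + 1), cMt M e = ∑ e ∈ Ico (N + 1) n, cMt M e := by
    rw [sum_Ico_eq_sub _ hn]
  rw [h2]
  calc |∑ e ∈ Ico (N + 1) n, cMt M e| ≤ ∑ e ∈ Ico (N + 1) n, |cMt M e| := abs_sum_le_sum_abs _ _
    _ ≤ ∑ e ∈ Ico (N + 1) n, ((e : ℝ) ^ 2)⁻¹ := sum_le_sum fun e _ => SmA_abs M e
    _ = ∑ e ∈ Ioc N (n - 1), ((e : ℝ) ^ 2)⁻¹ := by
        congr 1; ext e; simp only [mem_Ico, mem_Ioc]; omega
    _ ≤ (N : ℝ)⁻¹ - ((n - 1 : ℕ) : ℝ)⁻¹ := sum_Ioc_inv_sq_le_sub (by omega) (by omega)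
    _ ≤ 1 / N := by
        have : (0 : ℝ) ≤ ((n - 1 : ℕ) : ℝ)⁻¹ := by positivity
        rw [one_div]; linarith

/-- Splitting off the multiples of a prime `p ∤ M`: the `e` prime to `M` are the `e` prime to `M p` and `e = p e'`;
for those `μ(p e') = - μ(e')` if `p ∤ e'` and `0` otherwise. -/
theorem cm_rec (M p : ℕ) (hM : 0 < M) (hp : p.Prime) (hpM : ¬ p ∣ M) : cM M = (1 - 1 / (p : ℝ) ^ 2) * cM (M * p) := by
  classical
  set g : ℕ → ℝ := fun e => if p ∣ e then cMt M e else 0 with hg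
  have hco : ∀ e : ℕ, Nat.Coprime e (M * p) ↔ Nat.Coprime e M ∧ ¬ p ∣ e := by
    intro e
    rw [Nat.coprime_mul_iff_right, Nat.coprime_comm (m := p), hp.coprime_iff_not_dvd]
  have h1 : ∀ e, cMt M e = cMt (M * p) e + g e := by
    intro e
    simp only [hg, cMt, hco]
    by_cases ha : Nat.Coprime e M <;> by_cases hb : p ∣ e <;> simp [ha, hb]
  have hgs : Summable g := by
    have : g = fun e => cMt M e - cMt (M * p) e := by
      funext e; rw [h1 e]; ring
    rw [this]; exact (cm_sum M).sub (cm_sum (M * p))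
  have h2 : ∀ e', g (p * e') = - (1 / (p : ℝ) ^ 2) * cMt (M * p) e' := by
    intro e'
    simp only [hg, cMt, hco, dvd_mul_right, if_true]
    have hpc : Nat.Coprime p M := (hp.coprime_iff_not_dvd).2 hpM
    have h3 : Nat.Coprime (p * e') M ↔ Nat.Coprime e' M := by
      rw [Nat.coprime_mul_iff_left]; exact ⟨fun h => h.2, fun h => ⟨hpc, h⟩⟩
    by_cases ha : Nat.Coprime e' M
    · by_cases hb : p ∣ e'
      · have h4 : ArithmeticFunction.moebius (p * e') = 0 := by
          apply ArithmeticFunction.moebius_eq_zero_of_not_squarefree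
          intro hsq
          obtain ⟨t, ht⟩ := hb
          have := hsq p ⟨t, by rw [ht]; ring⟩
          exact hp.one_lt.ne' (Nat.isUnit_iff.1 this)
        simp [h3, hb, h4]
      · have h4 : ArithmeticFunction.moebius (p * e') = - ArithmeticFunction.moebius e' := by
          rw [ArithmeticFunction.isMultiplicative_moebius.map_mul_of_coprime ((hp.coprime_iff_not_dvd).2 hb),
            ArithmeticFunction.moebius_apply_prime hp]; ring
        rw [if_pos (h3.2 ha), if_pos ⟨ha, hb⟩, h4]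
        push_cast
        rcases Nat.eq_zero_or_pos e' with rfl | he
        · simp
        · have : (p : ℝ) ≠ 0 := by exact_mod_cast hp.ne_zero
          have : (e' : ℝ) ≠ 0 := by exact_mod_cast he.ne'
          field_simp
    · simp [h3, ha]
  have h5 : ∑' e, g e = ∑' e', g (p * e') := by
    have hinj : Function.Injective (fun e' : ℕ => p * e') := fun a b h => Nat.eq_of_mul_eq_mul_left hp.pos h
    rw [← hinj.tsum_eq (f := g)]
    intro e he
    simp only [hg, Function.mem_support, ne_eq, ite_eq_right_iff, not_forall] at he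
    obtain ⟨⟨t, ht⟩, _⟩ := he
    exact ⟨t, ht.symm⟩
  have h6 : cM M = cM (M * p) + ∑' e, g e := by
    unfold cM
    rw [← (cm_sum (M * p)).tsum_add hgs]
    exact tsum_congr h1
  rw [h6, h5]
  simp only [h2]
  rw [tsum_mul_left]
  unfold cM
  ring

/-- Iterated. -/
theorem cm_prod (M : ℕ) (hM : 0 < M) (S : Finset ℕ) (hS : ∀ p ∈ S, p.Prime ∧ ¬ p ∣ M) :
    cM M = (∏ p ∈ S, (1 - 1 / (p : ℝ) ^ 2)) * cM (M * ∏ p ∈ S, p) := by
  classical
  induction S using Finset.induction_on with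
  | empty => simp
  | @insert p S hpS ih =>
    have ih' := ih fun q hq => hS q (mem_insert_of_mem hq)
    obtain ⟨hp, hpM⟩ := hS p (mem_insert_self _ _)
    have hpos : 0 < M * ∏ q ∈ S, q :=
      Nat.mul_pos hM (prod_pos fun q hq => (hS q (mem_insert_of_mem hq)).1.pos)
    have hnd : ¬ p ∣ M * ∏ q ∈ S, q := by
      intro h
      rcases (hp.dvd_mul).1 h with h | h
      · exact hpM h
      · obtain ⟨q, hq, hpq⟩ := (hp.prime.dvd_finsetProd_iff _).1 h
        have := (Nat.prime_dvd_prime_iff_eq hp (hS q (mem_insert_of_mem hq)).1).1 hpq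
        exact hpS (this ▸ hq)
    rw [ih', prod_insert hpS, prod_insert hpS, cm_rec _ p hpos hp hnd]
    have : M * (∏ q ∈ S, q) * p = M * (p * ∏ q ∈ S, q) := by ring
    rw [this]; ring

/-- Proof. For `N` let `S` be the primes `≤ N` prime to `M`: `cM M = ∏ (1 - 1 / p²) cM (M ∏ p)` and the last factor is
`1 + O(1 / N)` (only `e = 1` and `e > N` are prime to `M ∏ p`). -/
theorem cm_bd (M : ℕ) (hM : 0 < M) : 0 ≤ cM M ∧ cM M ≤ 1 := by
  classical
  have key : ∀ N : ℕ, 0 < N → 0 ≤ cM M ∧ cM M ≤ 1 + 1 / N := by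
    intro N hN
    set S := (range (N + 1)).filter (fun p => p.Prime ∧ ¬ p ∣ M) with hS
    have h1 := cm_prod M hM S (fun p hp => (mem_filter.1 hp).2)
    set M' := M * ∏ p ∈ S, p with hM'
    have h2 := cm_tail M' N hN
    have h3 : ∑ e ∈ range (N + 1), cMt M' e = 1 := by
      rw [sum_eq_single 1]
      · simp [cMt]
      · intro e he he1
        unfold cMt
        rcases Nat.eq_zero_or_pos e with rfl | he0
        · simp
        · rw [if_neg]
          intro hc
          obtain ⟨p, hp, hpe⟩ := Nat.exists_prime_and_dvd he1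
          have hpM' : p ∣ M' := by
            by_cases hpM : p ∣ M
            · exact hpM.mul_right _
            · have : p ∈ S := by
                rw [hS, mem_filter]
                exact ⟨mem_range.2 (lt_of_le_of_lt (Nat.le_of_dvd he0 hpe) (mem_range.1 he)), hp, hpM⟩
              exact (dvd_prod_of_mem _ this).mul_left _
          exact hp.one_lt.ne' (Nat.eq_one_of_dvd_coprimes hc hpe hpM')
      · intro h; exact absurd (mem_range.2 (by omega)) h
    rw [h3] at h2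
    have h4 := abs_le.1 h2
    have h5 : ∀ p ∈ S, 0 ≤ 1 - 1 / (p : ℝ) ^ 2 ∧ 1 - 1 / (p : ℝ) ^ 2 ≤ 1 := by
      intro p hp
      have hp' := (mem_filter.1 hp).2.1
      have h6 : (1 : ℝ) ≤ (p : ℝ) ^ 2 := by
        have : (1 : ℝ) ≤ p := by exact_mod_cast hp'.one_lt.le
        nlinarith
      have h7 : 1 / (p : ℝ) ^ 2 ≤ 1 := by rw [div_le_one (by linarith)]; exact h6
      have h8 : 0 ≤ 1 / (p : ℝ) ^ 2 := by positivity
      constructor <;> linarith
    have h6 : 0 ≤ ∏ p ∈ S, (1 - 1 / (p : ℝ) ^ 2) := prod_nonneg fun p hp => (h5 p hp).1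
    have h7 : ∏ p ∈ S, (1 - 1 / (p : ℝ) ^ 2) ≤ 1 := prod_le_one (fun p hp => (h5 p hp).1) fun p hp => (h5 p hp).2
    have h8 : 1 / (N : ℝ) ≤ 1 := by
      rw [div_le_one (by exact_mod_cast hN)]; exact_mod_cast hN
    have h9 : 0 ≤ cM M' := by linarith [h4.1]
    refine ⟨?_, ?_⟩
    · rw [h1]; exact mul_nonneg h6 h9
    · rw [h1]
      calc _ ≤ 1 * cM M' := mul_le_mul_of_nonneg_right h7 h9
        _ ≤ 1 + 1 / N := by linarith [h4.2]
  refine ⟨(key 1 one_pos).1, ?_⟩
  have ht : Filter.Tendsto (fun N : ℕ => 1 + 1 / (N : ℝ)) Filter.atTop (nhds (1 + 0)) :=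
    tendsto_const_nhds.add tendsto_one_div_atTop_nhds_zero_nat
  rw [add_zero] at ht
  refine ge_of_tendsto ht ?_
  filter_upwards [Filter.eventually_gt_atTop 0] with N hN
  exact (key N hN).2

end Pool.Agent.Wd33b62c
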