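import Pool.Agent.W_d33b62t5_h98.T5C

/-!
# Pairs of circles of different curvatures (MP_d33b62, T5): the statement SMc
-/

set_option autoImplicit false

open Finset

namespace Pool.Agent.Wd33b62c

open Pool.Agent.W33f

/-- The parameters of a pair of circles of a family. -/
def par {k : ℕ} (D : Dat k) (xi xi' : ℤ × ℤ) : Par k where
  W := D.W
  a := D.a xi
  a' := D.a xi'
  r1 := D.rho.1
  r2 := D.rho.2
  h := ((D.a xi : ℤ) - D.a xi') / (4 * D.W)
  l1 := xi.1 - xi.2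
  l2 := xi.1 + xi.2
  l1' := xi'.1 - xi'.2
  l2' := xi'.1 + xi'.2
  c := fun l => D.h D.i + D.a xi - D.h l

theorem t5d_W0 {w W : ℕ} (h : Wok w W) : 0 < W := by
  rcases Nat.eq_zero_or_pos W with h0 | h0
  · exact absurd (h0 ▸ dvd_zero 16) h.2.2
  · exact h0

/-- A prime `a > w ≥ 10 ^ 6` does not divide both linear coefficients. -/
theorem t5d_al {a : ℕ} (ha : a.Prime) (ha2 : 2 < a) {x y : ℤ} (hg : Int.gcd x y = 1) :
    ¬ ((a : ℤ) ∣ x - y ∧ (a : ℤ) ∣ x + y) := by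
  rintro ⟨h1, h2⟩
  have hap : Prime (a : ℤ) := Nat.prime_iff_prime_int.1 ha
  have h3 : ¬ (a : ℤ) ∣ 2 := by
    intro h
    have := Int.le_of_dvd (by norm_num) h
    omega
  have h4 : (a : ℤ) ∣ 2 * x := by
    have := dvd_add h1 h2
    rwa [show x - y + (x + y) = 2 * x by ring] at this
  have h5 : (a : ℤ) ∣ 2 * y := by
    have := dvd_sub h2 h1
    rwa [show x + y - (x - y) = 2 * y by ring] at this
  have h6 : (a : ℤ) ∣ x := (hap.dvd_or_dvd h4).resolve_left h3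
  have h7 : (a : ℤ) ∣ y := (hap.dvd_or_dvd h5).resolve_left h3
  have h8 : (a : ℤ) ∣ Int.gcd x y := Int.dvd_coe_gcd h6 h7
  rw [hg] at h8
  have := Int.le_of_dvd (by norm_num) h8
  push_cast at this
  omega

/-- Consistency, for large `Y` (`a > w`).
Proof. `a = a' = α mod 4 W`; `a ∣ l1, l2` would give `a ∣ 2 xi.1, 2 xi.2`, but `gcd(xi) = 1`. -/
theorem sm_par {k : ℕ} (D : Dat k) (hD : D.ok) (Y B B' : ℕ) (C η : ℝ) (xi xi' : ℤ × ℤ) (h1 : D.Fam Y B B' C η xi)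
    (h2 : D.Fam Y B B' C η xi') (hne : D.a xi ≠ D.a xi') (hw : D.w < D.a xi) (hw' : D.w < D.a xi') :
    (par D xi xi').ok ∧ 4 * (D.W : ℤ) * (par D xi xi').h = D.a xi - D.a xi' := by
  have hW0 : 0 < D.W := t5d_W0 hD.wok
  have hdvd : (4 * (D.W : ℤ)) ∣ (D.a xi : ℤ) - D.a xi' := by
    have h3 := (h2.cl.trans h1.cl.symm)
    have h4 := (Nat.modEq_iff_dvd.1 h3)
    push_cast at h4
    exact h4
  have hh : 4 * (D.W : ℤ) * (par D xi xi').h = D.a xi - D.a xi' := Int.mul_ediv_cancel' hdvd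
  have hw6 := hD.hw
  have hp : Prime ((D.a xi : ℕ) : ℤ) := Nat.prime_iff_prime_int.1 h1.ap
  have hp' : Prime ((D.a xi' : ℕ) : ℤ) := Nat.prime_iff_prime_int.1 h2.ap
  refine ⟨⟨?_, hW0, hD.hrho1, h1.ap, h2.ap, hne, ?_, ?_, ?_, ?_, ?_, ?_, ?_⟩, hh⟩
  · exact (by norm_num : (4 : ℕ) ∣ 8).trans hD.wok.2.1
  · intro h
    have := (hD.wok.1 _ h1.ap).1 h
    omega
  · intro h
    have := (hD.wok.1 _ h2.ap).1 h
    omega
  · intro h
    have h3 : ((D.a xi : ℕ) : ℤ) ∣ D.a xi - D.a xi' := hh ▸ Dvd.dvd.mul_left h _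
    have h4 : ((D.a xi : ℕ) : ℤ) ∣ ((D.a xi' : ℕ) : ℤ) := (dvd_sub_right (dvd_refl _)).1 h3
    exact hne ((Nat.prime_dvd_prime_iff_eq h1.ap h2.ap).1 (Int.natCast_dvd_natCast.1 h4))
  · intro h
    have h3 : ((D.a xi' : ℕ) : ℤ) ∣ D.a xi - D.a xi' := hh ▸ Dvd.dvd.mul_left h _
    have h4 : ((D.a xi' : ℕ) : ℤ) ∣ ((D.a xi : ℕ) : ℤ) := (dvd_sub_left (dvd_refl _)).1 h3
    exact hne ((Nat.prime_dvd_prime_iff_eq h2.ap h1.ap).1 (Int.natCast_dvd_natCast.1 h4)).symm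
  · exact t5d_al h1.ap (by omega) h1.gcd
  · exact t5d_al h2.ap (by omega) h2.gcd
  · intro h
    rw [h, mul_zero] at hh
    apply hne
    omega

theorem t5d_ZS_fin {k : ℕ} (D : Dat k) (xi : ℤ × ℤ) (n : ℤ) : (D.ZS xi n).Finite := by
  refine Set.Finite.subset (Set.finite_Icc
    ((-(n + D.h D.i + D.a xi : ℤ), -(n + D.h D.i + D.a xi : ℤ)) : ℤ × ℤ)
    ((n + D.h D.i + D.a xi : ℤ), (n + D.h D.i + D.a xi : ℤ))) ?_
  rintro ⟨x, y⟩ ⟨_, _, _, _, _, h⟩
  simp only [nm] at h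
  rw [← Set.Icc_prod_Icc]
  refine ⟨⟨?_, ?_⟩, ⟨?_, ?_⟩⟩ <;> dsimp only <;> nlinarith [sq_nonneg (x - 1), sq_nonneg (x + 1), sq_nonneg (y - 1),
    sq_nonneg (y + 1), sq_nonneg x, sq_nonneg y]

open Classical in
/-- The triples `(n, z, z')`. The map `(n, z, z') ↦ (z, z')` is injective. -/
theorem sm_pairs {k : ℕ} (D : Dat k) (hD : D.ok) (Y : ℕ) (z : ℝ) (xi xi' : ℤ × ℤ) :
    ∃ F : Finset ((ℤ × ℤ) × (ℤ × ℤ)), (∀ q ∈ F, (par D xi xi').Cnd (D.h D.i) Y (Pw D.w z) q) ∧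
      (∑ n ∈ D.N1 Y z, D.R xi n * D.R xi' n : ℕ) = F.card := by
  refine ⟨(D.N1 Y z).biUnion fun n => (t5d_ZS_fin D xi n).toFinset ×ˢ (t5d_ZS_fin D xi' n).toFinset, ?_, ?_⟩
  · rintro ⟨u, v⟩ hq
    simp only [Finset.mem_biUnion, Finset.mem_product, Set.Finite.mem_toFinset] at hq
    obtain ⟨n, hn, hu, hv⟩ := hq
    obtain ⟨u1, u2, u3, u4, u5, u6⟩ := hu
    obtain ⟨v1, v2, v3, v4, v5, v6⟩ := hv
    simp only [Dat.N1, Finset.mem_filter, Finset.mem_Ioc] at hn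
    obtain ⟨⟨n1, n2⟩, n3, n4⟩ := hn
    refine ⟨?_, ?_, ?_, ?_, u3, v3, u5, v5, ?_, ?_, ?_, ?_⟩
    · exact (Int.modEq_iff_dvd.1 u1.symm)
    · exact (Int.modEq_iff_dvd.1 u2.symm)
    · exact (Int.modEq_iff_dvd.1 v1.symm)
    · exact (Int.modEq_iff_dvd.1 v2.symm)
    · show 2 * nm u - (D.a xi : ℤ) = 2 * nm v - (D.a xi' : ℤ)
      rw [u6, v6]
      ring
    · show (Y : ℤ) < 2 * nm u - D.h D.i - (D.a xi : ℤ)
      rw [u6]
      have : (Y : ℤ) < n := by exact_mod_cast n1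
      linarith
    · show 2 * nm u - D.h D.i - (D.a xi : ℤ) ≤ 2 * Y
      rw [u6]
      have : (n : ℤ) ≤ 2 * Y := by exact_mod_cast n2
      linarith
    · intro p hp l hdiv
      apply n4 p hp l
      have e : 2 * nm u - (par D xi xi').c l = n + D.h l := by
        show 2 * nm u - ((D.h D.i : ℤ) + D.a xi - D.h l) = n + D.h l
        rw [u6]
        ring
      rw [← e]
      exact hdiv
  · rw [Finset.card_biUnion]
    · refine Finset.sum_congr rfl fun n _ => ?_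
      rw [Finset.card_product, Dat.R, Dat.R, Set.ncard_eq_toFinset_card _ (t5d_ZS_fin D xi n),
        Set.ncard_eq_toFinset_card _ (t5d_ZS_fin D xi' n)]
    · intro n _ m _ hnm
      simp only [Function.onFun]
      rw [Finset.disjoint_left]
      rintro ⟨u, v⟩ h1 h2
      simp only [Finset.mem_product, Set.Finite.mem_toFinset] at h1 h2
      obtain ⟨⟨_, _, _, _, _, u6⟩, _⟩ := h1
      obtain ⟨⟨_, _, _, _, _, v6⟩, _⟩ := h2
      apply hnm
      have : (n : ℤ) = m := by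
        rw [u6] at v6
        linarith
      exact_mod_cast this

/-- The choice of `c₁₀`. -/
theorem t5d_c1 (C : ℝ) (hC : 1 ≤ C) (n : ℕ) : ∃ c₁₀ : ℝ, 0 < c₁₀ ∧ c₁₀ ≤ 1 / C ∧ c₁₀ ≤ 1 ∧ ∀ c₁ : ℝ, 0 < c₁ → c₁ ≤ c₁₀ →
    C * Real.exp (-(1 / (C * c₁))) ≤ c₁ ^ n / 100 := by
  have hC0 : 0 < C := by linarith
  have ht := Real.tendsto_pow_mul_exp_neg_atTop_nhds_zero n
  have he := ht.eventually (eventually_le_nhds (show (0 : ℝ) < 1 / (100 * C ^ (n + 1)) by positivity))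
  obtain ⟨x₀, hx⟩ := (he.and (Filter.eventually_ge_atTop (1 : ℝ))).exists_forall_of_atTop
  have hx1 : 1 ≤ max x₀ 1 := le_max_right _ _
  have hx10 : 0 < max x₀ 1 := by linarith
  refine ⟨1 / (C * max x₀ 1), by positivity, ?_, ?_, ?_⟩
  · apply one_div_le_one_div_of_le hC0
    nlinarith
  · rw [div_le_one (by positivity)]
    nlinarith
  · intro c₁ h0 h1
    obtain ⟨x, hxd⟩ : ∃ x : ℝ, x = 1 / (C * c₁) := ⟨_, rfl⟩
    have hxp : 0 < x := by rw [hxd]; positivity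
    have hx2 : max x₀ 1 ≤ x := by
      rw [hxd, le_div_iff₀ (by positivity)]
      rw [le_div_iff₀ (by positivity)] at h1
      linarith
    have h3 := (hx x ((le_max_left _ _).trans hx2)).1
    have hc : c₁ = 1 / (C * x) := by
      rw [hxd]
      field_simp
    rw [← hxd, hc]
    have h4 : x ^ n * Real.exp (-x) * (100 * C ^ (n + 1)) ≤ 1 := by
      rw [le_div_iff₀ (by positivity)] at h3
      exact h3
    rw [div_pow, one_pow, mul_pow, div_div, le_div_iff₀ (by positivity)]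
    refine le_trans (le_of_eq ?_) h4
    ring

/-- The choice of `η`. -/
theorem t5d_eta (k : ℕ) (e : ℝ) (he : 0 < e) : ∃ η : ℝ, 0 < η ∧ (1 + η) ^ (2 * k) ≤ 1 + e := by
  have hc : ContinuousAt (fun x : ℝ => (1 + x) ^ (2 * k)) 0 := by fun_prop
  have h1 : Filter.Tendsto (fun x : ℝ => (1 + x) ^ (2 * k)) (nhds 0) (nhds 1) := by
    have := hc.tendsto
    simpa using this
  have h2 := h1.eventually (eventually_le_nhds (show (1 : ℝ) < 1 + e by linarith))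
  obtain ⟨δ, hδ, h3⟩ := Metric.eventually_nhds_iff.1 h2
  refine ⟨δ / 2, by positivity, h3 ?_⟩
  rw [Real.dist_eq, sub_zero, abs_of_pos (by positivity)]
  linarith

theorem t5d_EE0 (k w : ℕ) (m : ℤ) : 0 ≤ EE (CC k) w m := by
  unfold EE CC
  exact Finset.prod_nonneg fun p _ => by positivity

/-- **SMc** (the statement of `W33f.SMc`).
Proof. `t5_main` with `c₁` small (`C e^(- 1 / (C c₁)) ≤ c₁ ^ (k + 1) / 100`), `w₀` large (`C / w ≤ c₁ ^ (k + 1) / 100`),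
`ε = c₁ ^ (k + 1) / 100`, `η` with `(1 + η) ^ (2 k) ≤ 1 + c₁ ^ (k + 1) / 100` (`good` for `c l` and
`c l - 4 W h = h i + a' - h l`); `mu W a * mu W a' * (Y / (4 W)) = π² Y / (16 W³ a a')`. -/
theorem sm_c (k : ℕ) : ∃ (c₁₀ : ℝ) (B : ℕ), 0 < c₁₀ ∧ ∀ c₁ : ℝ, 0 < c₁ → c₁ ≤ c₁₀ → ∃ (η : ℝ) (w₀ : ℕ), 0 < η ∧
    ∀ w ≥ w₀, ∀ W, Wok w W → ∀ B' : ℕ, ∃ Y₀ : ℕ, ∀ Y ≥ Y₀, ∀ D : Dat k, D.w = w → D.W = W → D.ok →
      ∀ xi xi', D.Fam Y B B' (CC k) η xi → D.Fam Y B B' (CC k) η xi' → D.a xi ≠ D.a xi' →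
        ((∑ n ∈ D.N1 Y ((Y : ℝ) ^ c₁), D.R xi n * D.R xi' n : ℕ) : ℝ) ≤
          (1 + c₁ ^ (k + 1) / 8) * (mu W (D.a xi) * mu W (D.a xi') * EE (CC k) w ((D.a xi : ℤ) - D.a xi') *
            (Y / (4 * W : ℕ)) * VV k w ((Y : ℝ) ^ c₁)) := by
  obtain ⟨C, hC, hmain⟩ := t5_main k
  have hC0 : 0 < C := by linarith
  obtain ⟨c₁₀, hc0, hc1, hc2, hc3⟩ := t5d_c1 C hC (k + 1)
  refine ⟨c₁₀, 1, hc0, fun c₁ h0 h1 => ?_⟩
  obtain ⟨e, he⟩ : ∃ e : ℝ, e = c₁ ^ (k + 1) / 100 := ⟨_, rfl⟩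
  have he0 : 0 < e := by rw [he]; positivity
  have he1 : e ≤ 1 / 100 := by
    rw [he]
    have : c₁ ^ (k + 1) ≤ 1 := pow_le_one₀ h0.le (h1.trans hc2)
    linarith
  have he2 := hc3 c₁ h0 h1
  rw [← he] at he2
  obtain ⟨η, hη0, hη⟩ := t5d_eta k e he0
  obtain ⟨w₁, hw₁⟩ := exists_nat_ge (max (C / e) (C + 4 * k + 10))
  refine ⟨η, w₁, hη0, fun w hw W hW B' => ?_⟩
  have hwr : (w₁ : ℝ) ≤ w := by exact_mod_cast hw
  have hCw : C ≤ w := by
    have := (le_max_right _ _).trans (hw₁.trans hwr)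
    have hk : (0 : ℝ) ≤ k := Nat.cast_nonneg k
    linarith
  have hw0 : (0 : ℝ) < w := by linarith
  have hkw : 2 * k ≤ w := by
    have := (le_max_right _ _).trans (hw₁.trans hwr)
    have h5 : (2 * k : ℝ) ≤ w := by
      have hk : (0 : ℝ) ≤ k := Nat.cast_nonneg k
      linarith
    exact_mod_cast h5
  have hCe : C / w ≤ e := by
    have h3 := (le_max_left _ _).trans (hw₁.trans hwr)
    rw [div_le_iff₀ he0] at h3
    rw [div_le_iff₀ hw0]
    linarith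
  obtain ⟨Y₁, hY₁⟩ := hmain c₁ h0 (h1.trans hc1) w W hCw hW B' e he0
  obtain ⟨Y₂, hY₂⟩ := ((Real.tendsto_log_atTop.comp tendsto_natCast_atTop_atTop).eventually
    (Filter.eventually_gt_atTop (w : ℝ))).exists_forall_of_atTop
  refine ⟨max Y₁ Y₂, fun Y hY D hDw hDW hD xi xi' hF hF' hne => ?_⟩
  subst hDw hDW
  have hYlog : (D.w : ℝ) < Real.log Y := hY₂ Y ((le_max_right _ _).trans hY)
  have ha : D.w < D.a xi := by
    have := hF.lo
    rw [pow_one] at this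
    exact_mod_cast hYlog.trans_le this
  have ha' : D.w < D.a xi' := by
    have := hF'.lo
    rw [pow_one] at this
    exact_mod_cast hYlog.trans_le this
  obtain ⟨hok, hh⟩ := sm_par D hD Y 1 B' (CC k) η xi xi' hF hF' hne ha ha'
  obtain ⟨F, hF1, hF2⟩ := sm_pairs D hD Y ((Y : ℝ) ^ c₁) xi xi'
  have hw6 := hD.hw
  have hhi := hD.hh D.i
  have key := hY₁ Y ((le_max_left _ _).trans hY) (par D xi xi') (D.h D.i) rfl hok hh ha ha' hF.hi hF'.hi
    (by positivity) (by exact_mod_cast hhi.trans hw6) ?_ ?_ ⟨D.i, ?_⟩ F hF1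
  · rw [hF2]
    refine key.trans ?_
    have hg : ∀ l : Fin k, EE (CC k) D.w ((par D xi xi').c l) *
        EE (CC k) D.w ((par D xi xi').c l - 4 * (par D xi xi').W * (par D xi xi').h) ≤ (1 + η) ^ 2 := by
      intro l
      have e1 : (par D xi xi').c l = (D.a xi : ℤ) + D.h D.i - D.h l := by
        show (D.h D.i : ℤ) + D.a xi - D.h l = _
        ring
      have e2 : (par D xi xi').c l - 4 * (par D xi xi').W * (par D xi xi').h = (D.a xi' : ℤ) + D.h D.i - D.h l := by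
        rw [e1]
        have : 4 * ((par D xi xi').W : ℤ) * (par D xi xi').h = D.a xi - D.a xi' := hh
        rw [this]
        ring
      rw [e2, e1, sq]
      exact mul_le_mul (hF.good l) (hF'.good l) (t5d_EE0 _ _ _) (by positivity)
    have hprod : ∏ l : Fin k, (EE (CC k) D.w ((par D xi xi').c l) *
        EE (CC k) D.w ((par D xi xi').c l - 4 * (par D xi xi').W * (par D xi xi').h)) ≤ (1 + η) ^ (2 * k) := by
      refine (Finset.prod_le_prod (fun l _ => mul_nonneg (t5d_EE0 _ _ _) (t5d_EE0 _ _ _)) fun l _ => hg l).trans ?_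
      rw [Finset.prod_const, Finset.card_univ, Fintype.card_fin, ← pow_mul]
    have hprod0 : 0 ≤ ∏ l : Fin k, (EE (CC k) D.w ((par D xi xi').c l) *
        EE (CC k) D.w ((par D xi xi').c l - 4 * (par D xi xi').W * (par D xi xi').h)) :=
      Finset.prod_nonneg fun l _ => mul_nonneg (t5d_EE0 _ _ _) (t5d_EE0 _ _ _)
    obtain ⟨Q, hQ⟩ : ∃ Q : ℝ, Q = ∏ l : Fin k, (EE (CC k) D.w ((par D xi xi').c l) *
        EE (CC k) D.w ((par D xi xi').c l - 4 * (par D xi xi').W * (par D xi xi').h)) := ⟨_, rfl⟩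
    rw [← hQ] at hprod hprod0 ⊢
    have hQ1 : Q ≤ 1 + e := hprod.trans hη
    have hVV : 0 ≤ VV k D.w ((Y : ℝ) ^ c₁) := by
      unfold VV
      refine Finset.prod_nonneg fun p hp => ?_
      simp only [Pw, Finset.mem_filter] at hp
      have hp1 : (k : ℝ) ≤ p := by
        have : k ≤ p := by omega
        exact_mod_cast this
      have hp2 : (0 : ℝ) < p := by
        have : 0 < p := hp.2.1.pos
        exact_mod_cast this
      rw [sub_nonneg, div_le_one hp2]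
      exact hp1
    have hE0 := t5d_EE0 k D.w ((D.a xi : ℤ) - D.a xi')
    have hW0 : (0 : ℝ) < D.W := by exact_mod_cast t5d_W0 hD.wok
    have ha0 : (0 : ℝ) < D.a xi := by
      have : 0 < D.a xi := by omega
      exact_mod_cast this
    have ha0' : (0 : ℝ) < D.a xi' := by
      have : 0 < D.a xi' := by omega
      exact_mod_cast this
    obtain ⟨T, hT⟩ : ∃ T : ℝ, T = mu D.W (D.a xi) * mu D.W (D.a xi') * EE (CC k) D.w ((D.a xi : ℤ) - D.a xi') *
      (Y / (4 * D.W : ℕ)) * VV k D.w ((Y : ℝ) ^ c₁) := ⟨_, rfl⟩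
    have hT0 : 0 ≤ T := by
      rw [hT]
      unfold mu
      have := Real.pi_pos
      positivity
    have hTe : Real.pi ^ 2 * Y / (16 * D.W ^ 3 * D.a xi * D.a xi') * VV k D.w ((Y : ℝ) ^ c₁) *
        EE (CC k) D.w ((D.a xi : ℤ) - D.a xi') = T := by
      rw [hT]
      unfold mu
      push_cast
      field_simp
      ring
    rw [← hT]
    have e3 : (1 + C * Real.exp (-(1 / (C * c₁))) + C / D.w + e) *
        (Real.pi ^ 2 * Y / (16 * D.W ^ 3 * D.a xi * D.a xi')) * VV k D.w ((Y : ℝ) ^ c₁) *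
          (EE (CC k) D.w ((D.a xi : ℤ) - D.a xi') * Q) =
        ((1 + C * Real.exp (-(1 / (C * c₁))) + C / D.w + e) * Q) * T := by
      rw [← hTe]
      ring
    refine (le_of_eq e3).trans ?_
    refine mul_le_mul_of_nonneg_right ?_ hT0
    have e4 : c₁ ^ (k + 1) / 8 = 100 / 8 * e := by
      rw [he]
      ring
    rw [e4]
    have h6 : 1 + C * Real.exp (-(1 / (C * c₁))) + C / D.w + e ≤ 1 + 3 * e := by linarith
    calc (1 + C * Real.exp (-(1 / (C * c₁))) + C / D.w + e) * Q ≤ (1 + 3 * e) * (1 + e) :=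
          mul_le_mul h6 hQ1 hprod0 (by positivity)
      _ ≤ 1 + 100 / 8 * e := by nlinarith
  · intro l l' hll
    have hne : D.h l ≠ D.h l' := fun h => hll (hD.inj h)
    have e1 : (par D xi xi').c l = (D.h D.i : ℤ) + D.a xi - D.h l := rfl
    have e2 : (par D xi xi').c l' = (D.h D.i : ℤ) + D.a xi - D.h l' := rfl
    rw [e1, e2]
    have b1 := hD.hh l
    have b2 := hD.hh l'
    refine ⟨by omega, ?_⟩
    rw [abs_le]
    constructor <;> omega
  · intro l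
    have e1 : (par D xi xi').c l = (D.h D.i : ℤ) + D.a xi - D.h l := rfl
    have e2 : (par D xi xi').c l - 4 * (par D xi xi').W * (par D xi xi').h = (D.a xi' : ℤ) + D.h D.i - D.h l := by
      rw [e1]
      have : 4 * ((par D xi xi').W : ℤ) * (par D xi xi').h = D.a xi - D.a xi' := hh
      rw [this]
      ring
    rw [e2, e1]
    have b1 := hD.hh l
    constructor <;> omega
  · show (D.h D.i : ℤ) + D.a xi - D.h D.i = _
    simp only [par]
    ring

end Pool.Agent.Wd33b62c
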