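import Mathlib

/-!
# Classes: definitions (MP_d33b62, T5)
-/

set_option autoImplicit false

open Finset

namespace Pool.Agent.Wd33b62c

/-- Predicates of four integers. -/
abbrev Pd := ℤ → ℤ → ℤ → ℤ → Prop

/-- `P` depends only on the classes modulo `m`. -/
def Per (m : ℕ) (P : Pd) : Prop := ∀ x1 x2 x3 x4 y1 y2 y3 y4 : ℤ, (m : ℤ) ∣ x1 - y1 → (m : ℤ) ∣ x2 - y2 →
  (m : ℤ) ∣ x3 - y3 → (m : ℤ) ∣ x4 - y4 → (P x1 x2 x3 x4 ↔ P y1 y2 y3 y4)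

/-- The classes modulo `m` with the property `P`. -/
noncomputable def Cl (m : ℕ) (P : Pd) : Finset (ℕ × ℕ × ℕ × ℕ) := by
  classical
  exact (range m ×ˢ range m ×ˢ range m ×ˢ range m).filter (fun q => P q.1 q.2.1 q.2.2.1 q.2.2.2)

/-- The conditions at `W`. `(s1, s2, k1, k2)`. -/
def PW (W : ℕ) (r1 r2 h : ℤ) : Pd := fun s1 s2 k1 k2 =>
  (W : ℤ) ∣ s1 - (r1 + (W / 2 : ℕ) * k1) ∧ (W : ℤ) ∣ s2 - (r2 + (W / 2 : ℕ) * k2) ∧ (W : ℤ) ∣ s1 * k1 + s2 * k2 - h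

/-- The conditions at `a`; `ε = 1` for `z`, `ε = -1` for `z'`. -/
def PA (W a : ℕ) (h l1 l2 ε : ℤ) : Pd := fun s1 s2 k1 k2 =>
  (a : ℤ) ∣ s1 * k1 + s2 * k2 - h ∧
    (a : ℤ) ∣ l1 * (s1 + ε * (W / 2 : ℕ) * k1) + l2 * (s2 + ε * (W / 2 : ℕ) * k2)

/-- The conditions at the sieve prime `p`: `2 |z|² = c l` for some `l`. -/
def PP (W p : ℕ) (h : ℤ) {k : ℕ} (c : Fin k → ℤ) : Pd := fun s1 s2 k1 k2 =>
  (p : ℤ) ∣ s1 * k1 + s2 * k2 - h ∧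
    ∃ l, (p : ℤ) ∣ 2 * ((s1 + (W / 2 : ℕ) * k1) ^ 2 + (s2 + (W / 2 : ℕ) * k2) ^ 2) - c l

end Pool.Agent.Wd33b62c
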