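import Pool.Agent.W_d33b62t5_h98.SmB
import Pool.Agent.W_d33b62t5_h98.CrD

/-!
# The points of a box with a periodic condition: decomposition into classes (MP_d33b62, T5)
-/

set_option autoImplicit false

open Finset

namespace Pool.Agent.Wd33b62c

/-- The coordinate `κ1` of the point `(s1, s2, κ2)`. -/
def KK (h : ℤ) (q : ℕ × ℤ × ℤ) : ℤ := (h - q.2.1 * q.2.2) / (q.1 : ℤ)

open Classical in
/-- The points `(s1, s2, κ2)` of a box with `s1 ∣ h - s2 κ2`. -/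
noncomputable def BX (h : ℤ) (a1 b1 : ℕ) (a b c d : ℤ) : Finset (ℕ × ℤ × ℤ) :=
  (Ioc a1 b1 ×ˢ Ioc a b ×ˢ Ioc c d).filter (fun q => (q.1 : ℤ) ∣ h - q.2.1 * q.2.2)

open Classical in
/-- The weight of the points with the property `P`. -/
noncomputable def WX (P : Pd) (h : ℤ) (a1 b1 : ℕ) (a b c d : ℤ) : ℝ :=
  ∑ q ∈ (BX h a1 b1 a b c d).filter (fun q => P q.1 q.2.1 (KK h q) q.2.2), (q.1 : ℝ)

/-- The representative in `[0, M)`. -/
theorem BxA_rep (M : ℕ) (hM : 0 < M) (z : ℤ) : (z % M).toNat < M ∧ (M : ℤ) ∣ z - ((z % M).toNat : ℤ) := by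
  have hM' : (0 : ℤ) < M := by exact_mod_cast hM
  have h0 := Int.emod_nonneg z hM'.ne'
  have h1 := Int.emod_lt_of_pos z hM'
  refine ⟨by omega, ?_⟩
  rw [Int.toNat_of_nonneg h0]
  exact ⟨z / M, by have := Int.emod_add_mul_ediv z M; linarith⟩

theorem BxA_uni (M : ℕ) (z : ℤ) (x y : ℕ) (hx : x < M) (hy : y < M) (h1 : (M : ℤ) ∣ z - x) (h2 : (M : ℤ) ∣ z - y) :
    x = y := by
  have h3 : (M : ℤ) ∣ (y : ℤ) - x := by
    have : (y : ℤ) - x = (z - x) - (z - y) := by ring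
    rw [this]; exact dvd_sub h1 h2
  have h4 : ((y : ℤ) - x) = 0 := by
    apply Int.eq_zero_of_abs_lt_dvd h3
    rw [abs_lt]; constructor <;> omega
  omega

open Classical in
theorem BxA_one (M : ℕ) (hM : 0 < M) (P : Pd) (hP : Per M P) (h : ℤ) (s : ℕ) (hs : 0 < s) (s2 k2 : ℤ) :
    (∑ x ∈ Cl M P, if ((M : ℤ) ∣ (s : ℤ) - x.1 ∧ (M : ℤ) ∣ s2 - x.2.1 ∧ (M : ℤ) ∣ k2 - x.2.2.2 ∧
      ∃ y : ℤ, (M : ℤ) ∣ y - x.2.2.1 ∧ s * y + s2 * k2 = h) then (1 : ℝ) else 0) =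
    if ((s : ℤ) ∣ h - s2 * k2 ∧ P s s2 (KK h (s, s2, k2)) k2) then (1 : ℝ) else 0 := by
  have hs' : (s : ℤ) ≠ 0 := by exact_mod_cast hs.ne'
  have hK : ∀ y : ℤ, s * y + s2 * k2 = h → KK h (s, s2, k2) = y := by
    intro y hy
    unfold KK
    simp only
    have : h - s2 * k2 = s * y := by linarith
    rw [this]; exact Int.mul_ediv_cancel_left _ hs'
  by_cases hc : ((s : ℤ) ∣ h - s2 * k2 ∧ P s s2 (KK h (s, s2, k2)) k2)
  · rw [if_pos hc]
    obtain ⟨⟨y, hy⟩, hPP⟩ := hc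
    have hy' : s * y + s2 * k2 = h := by linarith
    rw [hK y hy'] at hPP
    obtain ⟨a1, a2⟩ := BxA_rep M hM s
    obtain ⟨b1, b2⟩ := BxA_rep M hM s2
    obtain ⟨c1, c2⟩ := BxA_rep M hM y
    obtain ⟨d1, d2⟩ := BxA_rep M hM k2
    rw [sum_eq_single ((((s : ℤ) % M).toNat, (s2 % M).toNat, (y % M).toNat, (k2 % M).toNat) : ℕ × ℕ × ℕ × ℕ)]
    · rw [if_pos]
      exact ⟨a2, b2, d2, y, c2, hy'⟩
    · rintro ⟨x1, x2, x3, x4⟩ hx hne
      rw [if_neg]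
      rintro ⟨e1, e2, e3, z, e4, e5⟩
      have hzy : z = y := by
        have : (s : ℤ) * z = s * y := by linarith
        exact mul_left_cancel₀ hs' this
      subst hzy
      simp only [Cl, mem_filter, mem_product, mem_range] at hx
      obtain ⟨⟨f1, f2, f3, f4⟩, _⟩ := hx
      apply hne
      have g1 := BxA_uni M s x1 _ f1 a1 e1 a2
      have g2 := BxA_uni M s2 x2 _ f2 b1 e2 b2
      have g3 := BxA_uni M z x3 _ f3 c1 e4 c2
      have g4 := BxA_uni M k2 x4 _ f4 d1 e3 d2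
      rw [g1, g2, g3, g4]
    · intro hn
      exfalso
      apply hn
      simp only [Cl, mem_filter, mem_product, mem_range]
      exact ⟨⟨a1, b1, c1, d1⟩, (hP _ _ _ _ _ _ _ _ a2 b2 c2 d2).1 hPP⟩
  · rw [if_neg hc]
    apply sum_eq_zero
    rintro ⟨x1, x2, x3, x4⟩ hx
    rw [if_neg]
    rintro ⟨e1, e2, e3, z, e4, e5⟩
    apply hc
    refine ⟨⟨z, by linarith⟩, ?_⟩
    rw [hK z e5]
    simp only [Cl, mem_filter] at hx
    exact (hP _ _ _ _ _ _ _ _ e1 e2 e4 e3).2 hx.2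

open Classical in
/-- **Decomposition.** For a point of the box with `P` let `(σ1, σ2, k1, k2)` be its class (representatives in
`[0, M)`). -/
theorem bx_dec (M : ℕ) (hM : 0 < M) (P : Pd) (hP : Per M P) (h : ℤ) (a1 b1 : ℕ) (a b c d : ℤ) :
    WX P h a1 b1 a b c d = ∑ x ∈ Cl M P, ∑ s ∈ (Ioc a1 b1).filter (fun s : ℕ => (M : ℤ) ∣ (s : ℤ) - x.1),
      (s : ℝ) * FX M s h x.2.1 x.2.2.1 x.2.2.2 a b c d := by
  have hL : WX P h a1 b1 a b c d = ∑ s ∈ Ioc a1 b1, ∑ q ∈ Ioc a b ×ˢ Ioc c d,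
      (s : ℝ) * (if ((s : ℤ) ∣ h - q.1 * q.2 ∧ P s q.1 (KK h (s, q.1, q.2)) q.2) then (1 : ℝ) else 0) := by
    unfold WX BX
    rw [filter_filter, sum_filter, sum_product]
    refine sum_congr rfl fun s _ => sum_congr rfl fun q _ => ?_
    simp only
    split_ifs <;> simp
  have hR : ∀ x : ℕ × ℕ × ℕ × ℕ, ∑ s ∈ (Ioc a1 b1).filter (fun s : ℕ => (M : ℤ) ∣ (s : ℤ) - x.1),
      (s : ℝ) * FX M s h x.2.1 x.2.2.1 x.2.2.2 a b c d = ∑ s ∈ Ioc a1 b1, ∑ q ∈ Ioc a b ×ˢ Ioc c d,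
      (s : ℝ) * (if ((M : ℤ) ∣ (s : ℤ) - x.1 ∧ (M : ℤ) ∣ q.1 - x.2.1 ∧ (M : ℤ) ∣ q.2 - x.2.2.2 ∧
        ∃ y : ℤ, (M : ℤ) ∣ y - x.2.2.1 ∧ s * y + q.1 * q.2 = h) then (1 : ℝ) else 0) := by
    intro x
    rw [sum_filter]
    refine sum_congr rfl fun s _ => ?_
    split_ifs with h1
    · unfold FX
      rw [card_filter]
      push_cast
      rw [mul_sum]
      refine sum_congr rfl fun q _ => ?_
      congr 1
      simp only [h1, true_and]
    · symm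
      apply sum_eq_zero
      intro q _
      rw [if_neg (fun h2 => h1 h2.1), mul_zero]
  rw [hL]
  simp only [hR]
  conv_rhs => rw [sum_comm]
  refine sum_congr rfl fun s hs => ?_
  conv_rhs => rw [sum_comm]
  refine sum_congr rfl fun q _ => ?_
  rw [← mul_sum, BxA_one M hM P hP h s (by rw [mem_Ioc] at hs; omega) q.1 q.2]

end Pool.Agent.Wd33b62c
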