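import Pool.Agent.W_d33b62t5_h98.BxA

/-!
# The points of a box with a periodic condition: asymptotic formula (MP_d33b62, T5)
-/

set_option autoImplicit false

open Finset

namespace Pool.Agent.Wd33b62c

/-- `M = W m`: the hypotheses of `fx_main` for `s` in the class `σ1`. -/
theorem bx_cop (W m s : ℕ) (hW : 0 < W) (hm : Squarefree m) (hc : Nat.Coprime W m) (hs : 0 < s) (hsW : Nat.Coprime s W)
    (h : ℤ) (hh : Nat.Coprime h.natAbs m) :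
    Nat.Coprime (W * m / Nat.gcd s (W * m)) s ∧ Nat.Coprime h.natAbs (Nat.gcd s (W * m)) := by
  have e1 : Nat.gcd s (W * m) = Nat.gcd s m := Nat.Coprime.gcd_mul_left_cancel_right m hsW.symm
  rw [e1]
  refine ⟨?_, Nat.Coprime.coprime_dvd_right (Nat.gcd_dvd_right s m) hh⟩
  have e2 : W * m / Nat.gcd s m = W * (m / Nat.gcd s m) := Nat.mul_div_assoc W (Nat.gcd_dvd_right s m)
  rw [e2]
  refine Nat.Coprime.mul_left hsW.symm ?_
  rw [Nat.coprime_comm]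
  have hd0 : 0 < Nat.gcd s m := Nat.gcd_pos_of_pos_left _ hs
  refine Nat.Coprime.symm (Nat.Coprime.symm (Nat.coprime_of_dvd fun p hp hps hpm => ?_))
  have hmd : m = Nat.gcd s m * (m / Nat.gcd s m) := (Nat.mul_div_cancel' (Nat.gcd_dvd_right s m)).symm
  have hpm' : p ∣ m := by
    rw [hmd]
    exact hpm.mul_left _
  have hpd : p ∣ Nat.gcd s m := Nat.dvd_gcd hps hpm'
  have hpp : p * p ∣ m := by
    rw [hmd]
    exact mul_dvd_mul hpd hpm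
  exact hp.one_lt.ne' (Nat.isUnit_iff.1 (hm p hpp))

/-- The estimate for one class. -/
theorem BxB_one : ∃ C : ℝ, 1 ≤ C ∧ ∀ (X : ℝ) (W m : ℕ) (h : ℤ), 1 ≤ X → 0 < W → Squarefree m →
    Nat.Coprime W m → h ≠ 0 → |(h : ℝ)| ≤ X → Nat.Coprime h.natAbs m →
    ∀ (r t k1 k2 : ℤ), ((W * m : ℕ) : ℤ) ∣ r * k1 + t * k2 - h → IsCoprime r (W : ℤ) →
    ∀ (a1 b1 : ℕ) (a b c d : ℤ), a1 ≤ b1 → (∀ s ∈ Ioc a1 b1, X / 4 ≤ (s : ℝ)) → (b1 : ℝ) ≤ 2 * X → a ≤ b → c ≤ d →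
      ((b - a : ℤ) : ℝ) ≤ 4 * X → ((d - c : ℤ) : ℝ) ≤ 4 * X →
      |∑ s ∈ (Ioc a1 b1).filter (fun s : ℕ => ((W * m : ℕ) : ℤ) ∣ (s : ℤ) - r), (s : ℝ) * FX (W * m) s h t k1 k2 a b c d -
        ((b1 : ℝ) - a1) * ((b - a : ℤ) : ℝ) * ((d - c : ℤ) : ℝ) *
        (cM (W * m) / ((W * m : ℕ) : ℝ) ^ 3 * GG (W * m) h)| ≤
        C * X ^ (14 / 5 : ℝ) * ((W * m : ℕ) : ℝ) * (h : ℝ) ^ 2 := by
  obtain ⟨C1, hC1, hfx⟩ := fx_main
  obtain ⟨C2, hC2, hsm⟩ := sm_main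
  refine ⟨4 * C1 + 48 * C2, by linarith, ?_⟩
  intro X W m h hX hW hm hc hh hhX hhm r t k1 k2 hdiv hr a1 b1 a b c d hab1 hXs hb1 hab hcd hba hdc
  have hm0 : 0 < m := Nat.pos_of_ne_zero hm.ne_zero
  have hM : 0 < W * m := Nat.mul_pos hW hm0
  set M := W * m with hMdef
  have hM1 : (1 : ℝ) ≤ (M : ℝ) := by exact_mod_cast hM
  have hM0 : (0 : ℝ) < (M : ℝ) := by linarith
  have hX0 : (0 : ℝ) < X := by linarith
  set F := (Ioc a1 b1).filter (fun s : ℕ => (M : ℤ) ∣ (s : ℤ) - r) with hF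
  set L : ℝ := ((b - a : ℤ) : ℝ) * ((d - c : ℤ) : ℝ) / (M : ℝ) ^ 2 with hL
  have hba0 : (0 : ℝ) ≤ ((b - a : ℤ) : ℝ) := by exact_mod_cast sub_nonneg.2 hab
  have hdc0 : (0 : ℝ) ≤ ((d - c : ℤ) : ℝ) := by exact_mod_cast sub_nonneg.2 hcd
  have hL0 : 0 ≤ L := by positivity
  have hL16 : L ≤ 16 * X ^ 2 := by
    rw [hL, div_le_iff₀ (by positivity)]
    have h1 : ((b - a : ℤ) : ℝ) * ((d - c : ℤ) : ℝ) ≤ (4 * X) * (4 * X) :=
      mul_le_mul hba hdc hdc0 (by positivity)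
    have h2 : (1 : ℝ) ≤ (M : ℝ) ^ 2 := one_le_pow₀ hM1
    nlinarith [mul_le_mul_of_nonneg_left h2 (by positivity : (0 : ℝ) ≤ 16 * X ^ 2)]
  have hh2 : |(h : ℝ)| ≤ (h : ℝ) ^ 2 := by
    rw [← sq_abs]
    have h1 : (1 : ℝ) ≤ |(h : ℝ)| := by
      have : (1 : ℤ) ≤ |h| := Int.one_le_abs hh
      exact_mod_cast this
    nlinarith
  have hX14 : X ^ (14 / 5 : ℝ) = X ^ 2 * X ^ (4 / 5 : ℝ) := by
    have : (14 / 5 : ℝ) = (2 : ℕ) + 4 / 5 := by norm_num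
    rw [this, Real.rpow_add hX0, Real.rpow_natCast]
  have hX45 : (1 : ℝ) ≤ X ^ (4 / 5 : ℝ) := Real.one_le_rpow hX (by norm_num)
  -- each s
  have hterm : ∀ s ∈ F, |(s : ℝ) * FX M s h t k1 k2 a b c d - L * fM M h s| ≤
      2 * X * (C1 * (h : ℝ) ^ 2 * X ^ (4 / 5 : ℝ) * M) := by
    intro s hs
    rw [hF, Finset.mem_filter] at hs
    obtain ⟨hs1, hs2⟩ := hs
    have hsX := hXs s hs1
    have hs0 : (0 : ℝ) < s := by linarith
    have hs0' : 0 < s := by exact_mod_cast hs0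
    have hs2X : (s : ℝ) ≤ 2 * X := by
      have : (s : ℝ) ≤ b1 := by exact_mod_cast (Finset.mem_Ioc.1 hs1).2
      linarith
    have hsW : Nat.Coprime s W := by
      rw [← Nat.isCoprime_iff_coprime]
      have hWd : (W : ℤ) ∣ (s : ℤ) - r := by
        refine Dvd.dvd.trans ?_ hs2
        rw [hMdef, Nat.cast_mul]
        exact Dvd.intro _ rfl
      obtain ⟨w, hw⟩ := hWd
      have hse : (s : ℤ) = r + W * w := by linarith
      rw [hse]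
      exact hr.add_mul_left_left w
    obtain ⟨hcop1, hcop2⟩ := bx_cop W m s hW hm hc hs0' hsW h hhm
    have hdiv' : (M : ℤ) ∣ s * k1 + t * k2 - h := by
      have e1 : (s : ℤ) * k1 + t * k2 - h = (r * k1 + t * k2 - h) + (s - r) * k1 := by ring
      rw [e1]
      exact dvd_add hdiv (Dvd.dvd.mul_right hs2 _)
    have hmain := hfx X M s h t k1 k2 hX hM hsX hs2X hh hhX hcop1 hcop2 hdiv' a b c d hab hcd hba hdc
    have e2 : (s : ℝ) * FX M s h t k1 k2 a b c d - L * fM M h s =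
        s * ((FX M s h t k1 k2 a b c d : ℝ) - ((b - a : ℤ) : ℝ) * ((d - c : ℤ) : ℝ) / (s * M ^ 2) * fM M h s) := by
      rw [hL]
      field_simp
    rw [e2, abs_mul, abs_of_pos hs0]
    exact mul_le_mul hs2X hmain (abs_nonneg _) (by positivity)
  have hcard : (F.card : ℝ) ≤ 2 * X := by
    have h1 : F.card ≤ b1 := by
      calc F.card ≤ (Ioc a1 b1).card := Finset.card_filter_le _ _
        _ = b1 - a1 := Nat.card_Ioc _ _
        _ ≤ b1 := Nat.sub_le _ _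
    have h2 : (F.card : ℝ) ≤ b1 := by exact_mod_cast h1
    linarith
  have hsum1 : |∑ s ∈ F, (s : ℝ) * FX M s h t k1 k2 a b c d - L * ∑ s ∈ F, fM M h s| ≤
      4 * C1 * (X ^ (14 / 5 : ℝ) * M * (h : ℝ) ^ 2) := by
    rw [Finset.mul_sum, ← Finset.sum_sub_distrib]
    calc |∑ s ∈ F, ((s : ℝ) * FX M s h t k1 k2 a b c d - L * fM M h s)|
        ≤ ∑ s ∈ F, |(s : ℝ) * FX M s h t k1 k2 a b c d - L * fM M h s| := Finset.abs_sum_le_sum_abs _ _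
      _ ≤ ∑ s ∈ F, 2 * X * (C1 * (h : ℝ) ^ 2 * X ^ (4 / 5 : ℝ) * M) := Finset.sum_le_sum hterm
      _ = F.card * (2 * X * (C1 * (h : ℝ) ^ 2 * X ^ (4 / 5 : ℝ) * M)) := by
          rw [Finset.sum_const, nsmul_eq_mul]
      _ ≤ (2 * X) * (2 * X * (C1 * (h : ℝ) ^ 2 * X ^ (4 / 5 : ℝ) * M)) := by
          refine mul_le_mul_of_nonneg_right hcard ?_
          positivity
      _ = 4 * C1 * (X ^ (14 / 5 : ℝ) * M * (h : ℝ) ^ 2) := by
          rw [hX14]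
          ring
  have hcopr : Nat.Coprime (Int.gcd r h) M := by
    rw [hMdef]
    refine Nat.Coprime.mul_right ?_ ?_
    · have h1 : Int.gcd r (W : ℤ) = 1 := Int.isCoprime_iff_gcd_eq_one.1 hr
      have h2 : Nat.Coprime r.natAbs W := by simpa [Int.gcd] using h1
      exact Nat.Coprime.coprime_dvd_left (Nat.gcd_dvd_left _ _) h2
    · exact Nat.Coprime.coprime_dvd_left (Nat.gcd_dvd_right _ _) hhm
  have hlog : 1 + Real.log X ≤ 3 * X ^ (4 / 5 : ℝ) := by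
    have h1 := Real.log_le_rpow_div (le_of_lt hX0) (by norm_num : (0 : ℝ) < 4 / 5)
    have h2 : X ^ (4 / 5 : ℝ) / (4 / 5) = 5 / 4 * X ^ (4 / 5 : ℝ) := by ring
    rw [h2] at h1
    linarith
  have hsum2 : |L * ∑ s ∈ F, fM M h s - L * (((b1 : ℝ) - a1) / M * cM M * GG M h)| ≤
      48 * C2 * (X ^ (14 / 5 : ℝ) * M * (h : ℝ) ^ 2) := by
    rw [← mul_sub, abs_mul, abs_of_nonneg hL0]
    have h1 := hsm X M h r hX hM hh hcopr a1 b1 hab1 hb1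
    calc L * |∑ s ∈ F, fM M h s - ((b1 : ℝ) - a1) / M * cM M * GG M h|
        ≤ (16 * X ^ 2) * (C2 * |(h : ℝ)| * (1 + Real.log X)) :=
          mul_le_mul hL16 h1 (abs_nonneg _) (by positivity)
      _ ≤ (16 * X ^ 2) * (C2 * (h : ℝ) ^ 2 * (3 * X ^ (4 / 5 : ℝ))) := by
          have h3 : 0 ≤ Real.log X := Real.log_nonneg hX
          gcongr
      _ = 48 * C2 * (X ^ (14 / 5 : ℝ) * 1 * (h : ℝ) ^ 2) := by
          rw [hX14]
          ring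
      _ ≤ 48 * C2 * (X ^ (14 / 5 : ℝ) * M * (h : ℝ) ^ 2) := by
          gcongr
  have hfin : L * (((b1 : ℝ) - a1) / M * cM M * GG M h) =
      ((b1 : ℝ) - a1) * ((b - a : ℤ) : ℝ) * ((d - c : ℤ) : ℝ) * (cM M / (M : ℝ) ^ 3 * GG M h) := by
    rw [hL]
    field_simp
  rw [← hfin]
  have htri := abs_sub_le (∑ s ∈ F, (s : ℝ) * FX M s h t k1 k2 a b c d) (L * ∑ s ∈ F, fM M h s)
    (L * (((b1 : ℝ) - a1) / M * cM M * GG M h))
  calc _ ≤ _ := htri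
    _ ≤ 4 * C1 * (X ^ (14 / 5 : ℝ) * M * (h : ℝ) ^ 2) + 48 * C2 * (X ^ (14 / 5 : ℝ) * M * (h : ℝ) ^ 2) :=
        add_le_add hsum1 hsum2
    _ = (4 * C1 + 48 * C2) * X ^ (14 / 5 : ℝ) * M * (h : ℝ) ^ 2 := by ring

/-- **The box.** Main term and error for the weight `s1`.
Proof. `bx_dec`; for `x ∈ Cl M P` and `s = x.1 mod M`: `s` is prime to `W` and `M ∣ s k1 + σ2 k2 - h` (hypothesis on
`P` and periodicity), `bx_cop`, `fx_main`: `s FX = (b - a) (d - c) / M² fM M h s + O(s h² X^(4/5) M)`; `sm_main` for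
the sum over `s` (`gcd(x.1, h, M) = 1`). The number of classes is at most `M⁴`. -/
theorem bx_main : ∃ C : ℝ, 1 ≤ C ∧ ∀ (X : ℝ) (W m : ℕ) (h : ℤ) (P : Pd), 1 ≤ X → 0 < W → Squarefree m →
    Nat.Coprime W m → h ≠ 0 → |(h : ℝ)| ≤ X → Nat.Coprime h.natAbs m → Per (W * m) P →
    (∀ x1 x2 x3 x4 : ℤ, P x1 x2 x3 x4 → ((W * m : ℕ) : ℤ) ∣ x1 * x3 + x2 * x4 - h ∧ IsCoprime x1 (W : ℤ)) →
    ∀ (a1 b1 : ℕ) (a b c d : ℤ), a1 ≤ b1 → (∀ s ∈ Ioc a1 b1, X / 4 ≤ (s : ℝ)) → (b1 : ℝ) ≤ 2 * X → a ≤ b → c ≤ d →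
      ((b - a : ℤ) : ℝ) ≤ 4 * X → ((d - c : ℤ) : ℝ) ≤ 4 * X →
      |WX P h a1 b1 a b c d - ((b1 : ℝ) - a1) * ((b - a : ℤ) : ℝ) * ((d - c : ℤ) : ℝ) *
        (cM (W * m) * ((Cl (W * m) P).card : ℝ) / ((W * m : ℕ) : ℝ) ^ 3 * GG (W * m) h)| ≤
        C * X ^ (14 / 5 : ℝ) * ((W * m : ℕ) : ℝ) ^ 5 * (h : ℝ) ^ 2 := by
  classical
  obtain ⟨C, hC, hone⟩ := BxB_one
  refine ⟨C, hC, ?_⟩
  intro X W m h P hX hW hm hc hh hhX hhm hP hPP a1 b1 a b c d hab1 hXs hb1 hab hcd hba hdc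
  have hm0 : 0 < m := Nat.pos_of_ne_zero hm.ne_zero
  have hM : 0 < W * m := Nat.mul_pos hW hm0
  rw [bx_dec (W * m) hM P hP h a1 b1 a b c d]
  set T : ℝ := ((b1 : ℝ) - a1) * ((b - a : ℤ) : ℝ) * ((d - c : ℤ) : ℝ) *
        (cM (W * m) / ((W * m : ℕ) : ℝ) ^ 3 * GG (W * m) h) with hT
  have e1 : ((b1 : ℝ) - a1) * ((b - a : ℤ) : ℝ) * ((d - c : ℤ) : ℝ) *
        (cM (W * m) * ((Cl (W * m) P).card : ℝ) / ((W * m : ℕ) : ℝ) ^ 3 * GG (W * m) h) =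
        ∑ _x ∈ Cl (W * m) P, T := by
    rw [Finset.sum_const, nsmul_eq_mul, hT]
    ring
  rw [e1, ← Finset.sum_sub_distrib]
  have hcard : ((Cl (W * m) P).card : ℝ) ≤ ((W * m : ℕ) : ℝ) ^ 4 := by
    have h1 : (Cl (W * m) P).card ≤ (W * m) ^ 4 := by
      unfold Cl
      refine (Finset.card_filter_le _ _).trans ?_
      simp only [Finset.card_product, Finset.card_range]
      exact le_of_eq (by ring)
    exact_mod_cast h1
  have hX0 : (0 : ℝ) < X := by linarith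
  calc _ ≤ ∑ x ∈ Cl (W * m) P, |∑ s ∈ (Ioc a1 b1).filter (fun s : ℕ => ((W * m : ℕ) : ℤ) ∣ (s : ℤ) - x.1),
        (s : ℝ) * FX (W * m) s h x.2.1 x.2.2.1 x.2.2.2 a b c d - T| := Finset.abs_sum_le_sum_abs _ _
    _ ≤ ∑ _x ∈ Cl (W * m) P, C * X ^ (14 / 5 : ℝ) * ((W * m : ℕ) : ℝ) * (h : ℝ) ^ 2 := by
        refine Finset.sum_le_sum fun x hx => ?_
        have hPx : P x.1 x.2.1 x.2.2.1 x.2.2.2 := by
          unfold Cl at hx
          exact (Finset.mem_filter.1 hx).2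
        obtain ⟨hd, hco⟩ := hPP _ _ _ _ hPx
        exact hone X W m h hX hW hm hc hh hhX hhm x.1 x.2.1 x.2.2.1 x.2.2.2 hd hco a1 b1 a b c d hab1 hXs hb1
          hab hcd hba hdc
    _ = ((Cl (W * m) P).card : ℝ) * (C * X ^ (14 / 5 : ℝ) * ((W * m : ℕ) : ℝ) * (h : ℝ) ^ 2) := by
        rw [Finset.sum_const, nsmul_eq_mul]
    _ ≤ ((W * m : ℕ) : ℝ) ^ 4 * (C * X ^ (14 / 5 : ℝ) * ((W * m : ℕ) : ℝ) * (h : ℝ) ^ 2) := by
        refine mul_le_mul_of_nonneg_right hcard ?_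
        positivity
    _ = C * X ^ (14 / 5 : ℝ) * ((W * m : ℕ) : ℝ) ^ 5 * (h : ℝ) ^ 2 := by ring

end Pool.Agent.Wd33b62c
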