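import Mathlib

/-!
# Completion: the Fourier transform of an interval (MP_d33b62, T5)
-/

set_option autoImplicit false

open Finset

namespace Pool.Agent.Wd33b62c

/-- The Fourier transform of an interval. -/
noncomputable def IH (Q : ℕ) [NeZero Q] (a b : ℤ) (t : ZMod Q) : ℂ :=
  ∑ x ∈ Ioc a b, ZMod.stdAddChar (-(t * (x : ZMod Q)))

/-- `1[x = y] = (1 / Q) ∑_t e(t (y - x) / Q)`, so the number of `x ∈ (a, b]` with `x = y mod Q` is
`(1 / Q) ∑_t IH(t) e(t y / Q)`. -/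
theorem co_inv (Q : ℕ) [NeZero Q] (a b : ℤ) (y : ZMod Q) :
    (((Ioc a b).filter (fun x : ℤ => (x : ZMod Q) = y)).card : ℂ) =
      (1 / Q) * ∑ t : ZMod Q, IH Q a b t * ZMod.stdAddChar (t * y) := by
  classical
  have h1 : ∑ t : ZMod Q, IH Q a b t * ZMod.stdAddChar (t * y) =
      ∑ x ∈ Ioc a b, ∑ t : ZMod Q, (ZMod.stdAddChar (t * (y - (x : ZMod Q))) : ℂ) := by
    rw [sum_comm]
    refine sum_congr rfl (fun t _ => ?_)
    unfold IH
    rw [sum_mul]
    refine sum_congr rfl (fun x _ => ?_)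
    rw [← AddChar.map_add_eq_mul]
    congr 1
    ring
  have h2 : ∀ x : ℤ, ∑ t : ZMod Q, (ZMod.stdAddChar (t * (y - (x : ZMod Q))) : ℂ) =
      if (x : ZMod Q) = y then (Q : ℂ) else 0 := by
    intro x
    rw [AddChar.sum_mulShift _ (ZMod.isPrimitive_stdAddChar Q)]
    by_cases h : (x : ZMod Q) = y
    · rw [if_pos h, if_pos (by rw [h, sub_self]), ZMod.card]
    · rw [if_neg h, if_neg (fun h2 => h (sub_eq_zero.1 h2).symm)]
      simp
  have hQ : (Q : ℂ) ≠ 0 := Nat.cast_ne_zero.2 (NeZero.ne Q)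
  rw [h1, sum_congr rfl (fun x _ => h2 x), ← sum_filter, sum_const, nsmul_eq_mul]
  field_simp

theorem CoA_norm (Q : ℕ) [NeZero Q] (j : ZMod Q) : ‖(ZMod.stdAddChar j : ℂ)‖ = 1 := by
  rw [ZMod.stdAddChar_apply]
  exact Circle.norm_coe _

theorem CoA_sum (Q : ℕ) [NeZero Q] (a b : ℤ) (t : ZMod Q)
    (ht : (ZMod.stdAddChar (-t) : ℂ) ≠ 1) :
    ‖IH Q a b t‖ ≤ 2 / ‖(ZMod.stdAddChar (-t) : ℂ) - 1‖ := by
  have hpos : 0 < ‖(ZMod.stdAddChar (-t) : ℂ) - 1‖ := norm_pos_iff.2 (sub_ne_zero.2 ht)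
  rcases le_total b a with hab | hab
  · have h1 : IH Q a b t = 0 := by
      unfold IH
      rw [Ioc_eq_empty (by omega), sum_empty]
    rw [h1, norm_zero]
    positivity
  · obtain ⟨n, rfl⟩ : ∃ n : ℕ, b = a + n := ⟨(b - a).toNat, by omega⟩
    have h1 : IH Q a (a + n) t = (ZMod.stdAddChar (-(t * ((a + 1 : ℤ) : ZMod Q))) : ℂ) *
        ∑ k ∈ range n, (ZMod.stdAddChar (-t) : ℂ) ^ k := by
      unfold IH
      rw [mul_sum]
      symm
      refine sum_nbij' (fun k : ℕ => a + 1 + (k : ℤ)) (fun x : ℤ => (x - a - 1).toNat) ?_ ?_ ?_ ?_ ?_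
      · intro k hk
        rw [mem_range] at hk
        rw [mem_Ioc]
        omega
      · intro x hx
        rw [mem_Ioc] at hx
        rw [mem_range]
        omega
      · intro k _
        omega
      · intro x hx
        rw [mem_Ioc] at hx
        omega
      · intro k _
        rw [← AddChar.map_nsmul_eq_pow, ← AddChar.map_add_eq_mul]
        congr 1
        push_cast
        rw [nsmul_eq_mul]
        ring
    rw [h1, norm_mul, CoA_norm, one_mul, geom_sum_eq ht, norm_div]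
    refine div_le_div_of_nonneg_right ?_ hpos.le
    refine (norm_sub_le _ _).trans ?_
    rw [norm_pow, CoA_norm, one_pow, norm_one]
    norm_num

theorem CoA_sin (Q : ℕ) [NeZero Q] (t : ZMod Q) (ht : t ≠ 0) :
    4 * ((min t.val (Q - t.val) : ℕ) : ℝ) / Q ≤ ‖(ZMod.stdAddChar (-t) : ℂ) - 1‖ := by
  have hQ : (0 : ℝ) < Q := Nat.cast_pos.2 (Nat.pos_of_ne_zero (NeZero.ne Q))
  have hv : t.val < Q := ZMod.val_lt t
  have hv0 : 0 < t.val := Nat.pos_of_ne_zero (fun h => ht ((ZMod.val_eq_zero t).1 h))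
  have h1 : (ZMod.stdAddChar (-t) : ℂ) =
      Complex.exp (Complex.I * ((-(2 * Real.pi * (t.val / Q)) : ℝ) : ℂ)) := by
    have h2 : -t = ((-(t.val : ℤ) : ℤ) : ZMod Q) := by
      push_cast
      rw [ZMod.natCast_zmod_val]
    rw [h2, ZMod.stdAddChar_coe]
    congr 1
    push_cast
    ring
  rw [h1, Complex.norm_exp_I_mul_ofReal_sub_one]
  have h3 : Real.sin (-(2 * Real.pi * (t.val / Q)) / 2) = -Real.sin (Real.pi * (t.val / Q)) := by
    rw [← Real.sin_neg]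
    congr 1
    ring
  rw [h3, mul_neg, norm_neg, norm_mul, Real.norm_eq_abs, Real.norm_eq_abs]
  have h4 : 2 * ((min t.val (Q - t.val) : ℕ) : ℝ) / Q ≤ Real.sin (Real.pi * (t.val / Q)) := by
    have key : ∀ v : ℕ, 2 * v ≤ Q → 2 * (v : ℝ) / Q ≤ Real.sin (Real.pi * (v / Q)) := by
      intro v hv
      have e1 : (v : ℝ) / Q ≤ 1 / 2 := by
        rw [div_le_div_iff₀ hQ (by norm_num)]
        have : (2 * v : ℝ) ≤ Q := by exact_mod_cast hv
        linarith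
      have e2 := Real.mul_le_sin (x := Real.pi * (v / Q)) (by positivity)
        (by nlinarith [Real.pi_pos])
      have e3 : 2 / Real.pi * (Real.pi * (v / Q)) = 2 * (v : ℝ) / Q := by
        have := Real.pi_pos
        field_simp
      rw [e3] at e2
      exact e2
    rcases le_total t.val (Q - t.val) with h | h
    · rw [min_eq_left h]
      exact key _ (by omega)
    · rw [min_eq_right h]
      have e1 := key (Q - t.val) (by omega)
      have e2 : Real.pi * (((Q - t.val : ℕ) : ℝ) / Q) = Real.pi - Real.pi * (t.val / Q) := by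
        rw [Nat.cast_sub hv.le]
        field_simp
      rw [e2, Real.sin_pi_sub] at e1
      exact e1
  have h5 : (0 : ℝ) ≤ 2 * ((min t.val (Q - t.val) : ℕ) : ℝ) / Q := by positivity
  rw [abs_of_nonneg (h5.trans h4), abs_of_pos (by norm_num : (0 : ℝ) < 2)]
  have h6 : 4 * ((min t.val (Q - t.val) : ℕ) : ℝ) / Q =
      2 * (2 * ((min t.val (Q - t.val) : ℕ) : ℝ) / Q) := by ring
  rw [h6]
  linarith

/-- Geometric sum: `|IH(t)| ≤ Q / (2 min(t, Q - t))` for `t ≠ 0`.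
(`|1 - e(θ)| = 2 |sin(π θ)| ≥ 4 ‖θ‖`.) -/
theorem co_geo (Q : ℕ) [NeZero Q] (a b : ℤ) (t : ZMod Q) (ht : t ≠ 0) :
    ‖IH Q a b t‖ ≤ (Q : ℝ) / (2 * (min t.val (Q - t.val) : ℕ)) := by
  have hQ : (0 : ℝ) < Q := Nat.cast_pos.2 (Nat.pos_of_ne_zero (NeZero.ne Q))
  have hv : t.val < Q := ZMod.val_lt t
  have hv0 : 0 < t.val := Nat.pos_of_ne_zero (fun h => ht ((ZMod.val_eq_zero t).1 h))
  have hm : 0 < min t.val (Q - t.val) := by
    rw [lt_min_iff]
    omega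
  have hm' : (0 : ℝ) < ((min t.val (Q - t.val) : ℕ) : ℝ) := Nat.cast_pos.2 hm
  have h1 := CoA_sin Q t ht
  have h2 : (ZMod.stdAddChar (-t) : ℂ) ≠ 1 := by
    intro h
    rw [h, sub_self, norm_zero] at h1
    have : 0 < 4 * ((min t.val (Q - t.val) : ℕ) : ℝ) / Q := by positivity
    linarith
  refine (CoA_sum Q a b t h2).trans ?_
  have h3 : (0 : ℝ) < 4 * ((min t.val (Q - t.val) : ℕ) : ℝ) / Q := by positivity
  refine (div_le_div_of_nonneg_left (by norm_num) h3 h1).trans (le_of_eq ?_)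
  field_simp
  norm_num

theorem co_zero (Q : ℕ) [NeZero Q] (a b : ℤ) (hab : a ≤ b) : IH Q a b 0 = ((b - a : ℤ) : ℂ) := by
  unfold IH
  have h1 : ∀ x ∈ Ioc a b, (ZMod.stdAddChar (-((0 : ZMod Q) * (x : ZMod Q))) : ℂ) = 1 := by
    intro x _
    rw [zero_mul, neg_zero, AddChar.map_zero_eq_one]
  rw [sum_congr rfl h1, sum_const, nsmul_eq_mul, mul_one, Int.card_Ioc]
  have h2 : ((b - a).toNat : ℤ) = b - a := Int.toNat_of_nonneg (by omega)
  exact (Int.cast_natCast _).symm.trans (congrArg (fun z : ℤ => (z : ℂ)) h2)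

/-! ### sums over the non-zero frequencies -/

theorem CoA_val (Q : ℕ) [NeZero Q] (F : ℕ → ℝ) :
    ∑ t ∈ (univ : Finset (ZMod Q)).erase 0, F t.val = ∑ n ∈ Ioo 0 Q, F n := by
  refine sum_nbij' (fun t : ZMod Q => t.val) (fun n : ℕ => (n : ZMod Q)) ?_ ?_ ?_ ?_ ?_
  · intro t ht
    rw [mem_erase] at ht
    rw [mem_Ioo]
    exact ⟨Nat.pos_of_ne_zero (fun h => ht.1 ((ZMod.val_eq_zero t).1 h)), ZMod.val_lt t⟩
  · intro n hn
    rw [mem_Ioo] at hn
    rw [mem_erase]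
    refine ⟨?_, mem_univ _⟩
    intro h
    have h1 := congrArg ZMod.val h
    rw [ZMod.val_natCast_of_lt hn.2, ZMod.val_zero] at h1
    omega
  · intro t _
    exact ZMod.natCast_zmod_val t
  · intro n hn
    rw [mem_Ioo] at hn
    exact ZMod.val_natCast_of_lt hn.2
  · intro t _
    rfl

/-- the weighted sum over the non-zero frequencies -/
theorem CoA_weight (Q : ℕ) [NeZero Q] (a b : ℤ) (G : ℕ → ℝ) (hG : ∀ n, 0 ≤ G n)
    (hs : ∀ n, 0 < n → n < Q → G (Q - n) = G n) :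
    ∑ t ∈ (univ : Finset (ZMod Q)).erase 0, G t.val * ‖IH Q a b t‖ ≤
      Q * ∑ n ∈ Ioo 0 Q, G n / n := by
  have hQ : (0 : ℝ) < Q := Nat.cast_pos.2 (Nat.pos_of_ne_zero (NeZero.ne Q))
  have h1 : ∑ t ∈ (univ : Finset (ZMod Q)).erase 0, G t.val * ‖IH Q a b t‖ ≤
      ∑ t ∈ (univ : Finset (ZMod Q)).erase 0,
        (fun n : ℕ => G n * ((Q : ℝ) / (2 * (min n (Q - n) : ℕ)))) t.val := by
    refine sum_le_sum (fun t ht => ?_)
    rw [mem_erase] at ht
    exact mul_le_mul_of_nonneg_left (co_geo Q a b t ht.1) (hG _)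
  refine h1.trans ?_
  rw [CoA_val Q (fun n : ℕ => G n * ((Q : ℝ) / (2 * (min n (Q - n) : ℕ))))]
  have h2 : ∀ n ∈ Ioo 0 Q, G n * ((Q : ℝ) / (2 * (min n (Q - n) : ℕ))) ≤
      (Q : ℝ) / 2 * (G n / n) + (Q : ℝ) / 2 * (G (Q - n) / ((Q - n : ℕ) : ℝ)) := by
    intro n hn
    rw [mem_Ioo] at hn
    rw [hs n hn.1 hn.2]
    have e1 : (0 : ℝ) < n := Nat.cast_pos.2 hn.1
    have e2 : (0 : ℝ) < ((Q - n : ℕ) : ℝ) := Nat.cast_pos.2 (by omega)
    have e3 : (1 : ℝ) / ((min n (Q - n) : ℕ) : ℝ) ≤ 1 / n + 1 / ((Q - n : ℕ) : ℝ) := by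
      rcases le_total n (Q - n) with h | h
      · rw [min_eq_left h]
        have : 0 < 1 / ((Q - n : ℕ) : ℝ) := by positivity
        linarith
      · rw [min_eq_right h]
        have : 0 < 1 / (n : ℝ) := by positivity
        linarith
    have e4 : G n * ((Q : ℝ) / (2 * (min n (Q - n) : ℕ))) =
        (G n * (Q / 2)) * (1 / ((min n (Q - n) : ℕ) : ℝ)) := by
      rw [div_mul_eq_div_div]
      ring
    rw [e4]
    refine (mul_le_mul_of_nonneg_left e3 (mul_nonneg (hG n) (by positivity))).trans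
      (le_of_eq ?_)
    ring
  refine (sum_le_sum h2).trans ?_
  rw [sum_add_distrib, ← mul_sum, ← mul_sum]
  have h3 : ∑ n ∈ Ioo 0 Q, G (Q - n) / ((Q - n : ℕ) : ℝ) = ∑ n ∈ Ioo 0 Q, G n / n := by
    refine sum_nbij' (fun n => Q - n) (fun n => Q - n) ?_ ?_ ?_ ?_ ?_
    · intro n hn
      rw [mem_Ioo] at hn ⊢
      omega
    · intro n hn
      rw [mem_Ioo] at hn ⊢
      omega
    · intro n hn
      rw [mem_Ioo] at hn
      omega
    · intro n hn
      rw [mem_Ioo] at hn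
      omega
    · intro n _
      rfl
  rw [h3]
  linarith

/-- the harmonic sum -/
theorem CoA_harm (Q : ℕ) : ∑ n ∈ Icc 1 Q, (1 : ℝ) / n ≤ 1 + Real.log Q := by
  have h1 := harmonic_le_one_add_log Q
  have h2 : ((harmonic Q : ℚ) : ℝ) = ∑ n ∈ Icc 1 Q, (1 : ℝ) / n := by
    rw [harmonic_eq_sum_Icc]
    push_cast
    exact sum_congr rfl (fun n _ => by rw [one_div])
  rw [← h2]
  exact h1

/-- `∑_{t ≠ 0} gcd(t, Q) |IH(t)| ≤ Q τ(Q) (1 + log Q)`.
Proof. By `co_geo` and `t ↦ Q - t` it is at most `∑_{1 ≤ t ≤ Q / 2} gcd(t, Q) Q / t` (each `t` counted twice with the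
factor `1/2`). For `c ∣ Q` the `t` with `gcd(t, Q) = c` are `c t'`, `t' ≤ Q / (2 c)`, and give at most
`Q ∑_{t' ≤ Q} 1 / t' ≤ Q (1 + log Q)`. -/
theorem co_gcd (Q : ℕ) [NeZero Q] (a b : ℤ) :
    ∑ t ∈ (univ : Finset (ZMod Q)).erase 0, (Nat.gcd t.val Q : ℝ) * ‖IH Q a b t‖ ≤
      Q * (Q.divisors.card : ℝ) * (1 + Real.log Q) := by
  have hQ0 : Q ≠ 0 := NeZero.ne Q
  have hQ : (0 : ℝ) < Q := Nat.cast_pos.2 (Nat.pos_of_ne_zero hQ0)
  refine (CoA_weight Q a b (fun n => (Nat.gcd n Q : ℝ)) (fun n => by positivity) ?_).trans ?_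
  · intro n h0 hn
    show ((Nat.gcd (Q - n) Q : ℕ) : ℝ) = ((Nat.gcd n Q : ℕ) : ℝ)
    congr 1
    rw [Nat.gcd_self_sub_left hn.le]
  · rw [mul_assoc]
    refine mul_le_mul_of_nonneg_left ?_ hQ.le
    have h1 : ∑ n ∈ Ioo 0 Q, (Nat.gcd n Q : ℝ) / n =
        ∑ p ∈ (Ioo 0 Q).image (fun n => (Nat.gcd n Q, n / Nat.gcd n Q)), (1 : ℝ) / p.2 := by
      rw [sum_image]
      · refine sum_congr rfl (fun n hn => ?_)
        rw [mem_Ioo] at hn
        have hg : 0 < Nat.gcd n Q := Nat.gcd_pos_of_pos_left Q hn.1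
        have hg' : ((Nat.gcd n Q : ℕ) : ℝ) ≠ 0 := Nat.cast_ne_zero.2 hg.ne'
        have hn' : (n : ℝ) ≠ 0 := Nat.cast_ne_zero.2 hn.1.ne'
        show (Nat.gcd n Q : ℝ) / n = 1 / ((n / Nat.gcd n Q : ℕ) : ℝ)
        rw [Nat.cast_div (Nat.gcd_dvd_left n Q) hg']
        field_simp
      · intro n hn n' hn' h
        rw [Prod.mk.injEq] at h
        obtain ⟨e1, e2⟩ := h
        have f1 := Nat.div_mul_cancel (Nat.gcd_dvd_left n Q)
        have f2 := Nat.div_mul_cancel (Nat.gcd_dvd_left n' Q)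
        rw [← f1, ← f2, e2, e1]
    rw [h1]
    have h2 : (Ioo 0 Q).image (fun n => (Nat.gcd n Q, n / Nat.gcd n Q)) ⊆
        Q.divisors ×ˢ Icc 1 Q := by
      intro p hp
      rw [mem_image] at hp
      obtain ⟨n, hn, rfl⟩ := hp
      rw [mem_Ioo] at hn
      rw [mem_product, Nat.mem_divisors, mem_Icc]
      refine ⟨⟨Nat.gcd_dvd_right n Q, hQ0⟩, ?_, ?_⟩
      · exact Nat.div_pos (Nat.le_of_dvd hn.1 (Nat.gcd_dvd_left n Q))
          (Nat.gcd_pos_of_pos_left Q hn.1)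
      · exact (Nat.div_le_self _ _).trans hn.2.le
    refine (sum_le_sum_of_subset_of_nonneg h2 (fun p _ _ => by positivity)).trans ?_
    rw [sum_product]
    refine (sum_le_sum (fun x _ => CoA_harm Q)).trans ?_
    rw [sum_const, nsmul_eq_mul]

/-- `∑_u |IH(u)| ≤ (b - a) + Q (1 + log Q)`. -/
theorem co_one (Q : ℕ) [NeZero Q] (a b : ℤ) (hab : a ≤ b) :
    ∑ t : ZMod Q, ‖IH Q a b t‖ ≤ (b - a : ℤ) + Q * (1 + Real.log Q) := by
  have hQ : (0 : ℝ) < Q := Nat.cast_pos.2 (Nat.pos_of_ne_zero (NeZero.ne Q))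
  rw [← add_sum_erase _ _ (mem_univ (0 : ZMod Q)), co_zero Q a b hab]
  have h1 : ‖((b - a : ℤ) : ℂ)‖ = ((b - a : ℤ) : ℝ) := by
    rw [Complex.norm_intCast, abs_of_nonneg]
    exact_mod_cast (by omega : (0 : ℤ) ≤ b - a)
  rw [h1]
  refine add_le_add le_rfl ?_
  have h2 := CoA_weight Q a b (fun _ => 1) (fun _ => zero_le_one) (fun _ _ _ => rfl)
  simp only [one_mul] at h2
  refine h2.trans (mul_le_mul_of_nonneg_left ?_ hQ.le)
  refine le_trans ?_ (CoA_harm Q)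
  refine sum_le_sum_of_subset_of_nonneg ?_ (fun n _ _ => by positivity)
  intro n hn
  rw [mem_Ioo] at hn
  rw [mem_Icc]
  omega

end Pool.Agent.Wd33b62c
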