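import Pool.Agent.W_d33b62t5_h98.CoA

/-!
# Completion: points on a graph in a rectangle (MP_d33b62, T5)
-/

set_option autoImplicit false

open Finset

namespace Pool.Agent.Wd33b62c

/-- The number of the `x ∈ (a, b]` in the class `v`. -/
noncomputable def cobN (Q : ℕ) (a b : ℤ) (v : ZMod Q) : ℕ := ((Ioc a b).filter (fun x : ℤ => (x : ZMod Q) = v)).card

theorem cob_fib (Q : ℕ) [NeZero Q] (A : Finset (ZMod Q)) (a b : ℤ) :
    ((Ioc a b).filter (fun x : ℤ => (x : ZMod Q) ∈ A)).card = ∑ v ∈ A, cobN Q a b v := by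
  classical
  have key := card_eq_sum_card_fiberwise (s := (Ioc a b).filter (fun x : ℤ => (x : ZMod Q) ∈ A))
    (f := fun x : ℤ => (x : ZMod Q)) (t := A) (fun x hx => (mem_filter.1 (mem_coe.1 hx)).2)
  rw [key]
  refine sum_congr rfl fun v hv => ?_
  unfold cobN
  congr 1
  ext x
  rw [mem_filter, mem_filter, mem_filter]
  constructor
  · rintro ⟨⟨h1, _⟩, h3⟩
    exact ⟨h1, h3⟩
  · rintro ⟨h1, h3⟩
    exact ⟨⟨h1, h3 ▸ hv⟩, h3⟩

theorem cob_pair (Q : ℕ) [NeZero Q] (A : Finset (ZMod Q)) (c : ZMod Q → ZMod Q) (a b c' d : ℤ) :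
    (((Ioc a b) ×ˢ (Ioc c' d)).filter (fun q : ℤ × ℤ => (q.1 : ZMod Q) ∈ A ∧
        (q.2 : ZMod Q) = c (q.1 : ZMod Q))).card = ∑ v ∈ A, cobN Q a b v * cobN Q c' d (c v) := by
  classical
  rw [card_eq_sum_card_fiberwise (f := fun q : ℤ × ℤ => (q.1 : ZMod Q)) (t := A) (fun q hq => (mem_filter.1 hq).2.1)]
  refine sum_congr rfl fun v hv => ?_
  unfold cobN
  rw [← card_product]
  congr 1
  ext q
  rw [mem_filter, mem_filter, mem_product, mem_product, mem_filter, mem_filter]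
  constructor
  · rintro ⟨⟨⟨h1, h2⟩, _, h4⟩, h5⟩
    exact ⟨⟨h1, h5⟩, ⟨h2, by rw [h4, h5]⟩⟩
  · rintro ⟨⟨h1, h5⟩, ⟨h2, h4⟩⟩
    exact ⟨⟨⟨h1, h2⟩, h5 ▸ hv, by rw [h4, h5]⟩, h5⟩

/-- The inner sum for `t ≠ 0`. -/
theorem cob_inner (Q : ℕ) [NeZero Q] (A : Finset (ZMod Q)) (c : ZMod Q → ZMod Q) (B : ℝ) (hB : 0 ≤ B)
    (hK : ∀ u t : ZMod Q, t ≠ 0 → ‖∑ x ∈ A, (ZMod.stdAddChar (u * x + t * c x) : ℂ)‖ ≤ (Nat.gcd t.val Q : ℝ) * B)
    (a b : ℤ) (hab : a ≤ b) (t : ZMod Q) (ht : t ≠ 0) :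
    ‖∑ v ∈ A, (cobN Q a b v : ℂ) * ZMod.stdAddChar (t * c v)‖ ≤
      (((b - a : ℤ) : ℝ) / Q + 1 + Real.log Q) * ((Nat.gcd t.val Q : ℝ) * B) := by
  have hQ0 : (0 : ℝ) < Q := by exact_mod_cast Nat.pos_of_ne_zero (NeZero.ne Q)
  have h1 : ∑ v ∈ A, (cobN Q a b v : ℂ) * ZMod.stdAddChar (t * c v) =
      (1 / Q) * ∑ u : ZMod Q, IH Q a b u * ∑ v ∈ A, (ZMod.stdAddChar (u * v + t * c v) : ℂ) := by
    have e1 : ∀ v ∈ A, (cobN Q a b v : ℂ) * ZMod.stdAddChar (t * c v) =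
        ∑ u : ZMod Q, (1 / Q) * (IH Q a b u * (ZMod.stdAddChar (u * v + t * c v) : ℂ)) := by
      intro v _
      unfold cobN
      rw [co_inv, mul_sum, sum_mul]
      refine sum_congr rfl fun u _ => ?_
      rw [AddChar.map_add_eq_mul]
      ring
    rw [sum_congr rfl e1, sum_comm, mul_sum]
    refine sum_congr rfl fun u _ => ?_
    rw [← mul_sum, ← mul_sum]
  rw [h1, norm_mul]
  have h2 : ‖∑ u : ZMod Q, IH Q a b u * ∑ v ∈ A, (ZMod.stdAddChar (u * v + t * c v) : ℂ)‖ ≤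
      (∑ u : ZMod Q, ‖IH Q a b u‖) * ((Nat.gcd t.val Q : ℝ) * B) := by
    refine (norm_sum_le _ _).trans ?_
    rw [sum_mul]
    refine sum_le_sum fun u _ => ?_
    rw [norm_mul]
    exact mul_le_mul_of_nonneg_left (hK u t ht) (norm_nonneg _)
  have h3 := co_one Q a b hab
  have hg : 0 ≤ (Nat.gcd t.val Q : ℝ) * B := by positivity
  have h4 := h2.trans (mul_le_mul_of_nonneg_right h3 hg)
  have h5 : ‖(1 / Q : ℂ)‖ = 1 / Q := by
    rw [norm_div, norm_one, Complex.norm_natCast]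
  rw [h5]
  have h6 := mul_le_mul_of_nonneg_left h4 (show 0 ≤ 1 / (Q : ℝ) by positivity)
  refine h6.trans (le_of_eq ?_)
  field_simp
  ring

/-- **Completion.** `A` a set of residues, `c` a map such that all exponential sums
`∑_{x ∈ A} e((u x + t c(x)) / Q)` with `t ≠ 0` are at most `gcd(t, Q) B`. Then the number of
`(x, y) ∈ (a, b] × (c', d]` with `x ∈ A`, `y = c(x)` is `((d - c') / Q) #{x ∈ (a, b] : x ∈ A}` with the error
`((b - a) / Q + 1 + log Q) (1 + log Q) τ(Q) B`.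
Proof. By `co_inv` for `y` the number is `(1 / Q) ∑_t IH_J(t) ∑_{x ∈ I, x ∈ A} e(t c(x) / Q)`; `t = 0` is the main
term (`co_zero`). For `t ≠ 0` the inner sum is `∑_{v ∈ A} e(t c(v)) #{x ∈ I : x = v}
= (1 / Q) ∑_u IH_I(u) ∑_{v ∈ A} e(u v + t c(v))`, at most `(1 / Q) (∑_u |IH_I(u)|) gcd(t, Q) B`. Use `co_one`,
`co_gcd`. -/
theorem co_main (Q : ℕ) [NeZero Q] (A : Finset (ZMod Q)) (c : ZMod Q → ZMod Q) (B : ℝ) (hB : 0 ≤ B)
    (hK : ∀ u t : ZMod Q, t ≠ 0 → ‖∑ x ∈ A, (ZMod.stdAddChar (u * x + t * c x) : ℂ)‖ ≤ (Nat.gcd t.val Q : ℝ) * B)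
    (a b c' d : ℤ) (hab : a ≤ b) (hcd : c' ≤ d) :
    |((((Ioc a b) ×ˢ (Ioc c' d)).filter (fun q : ℤ × ℤ => (q.1 : ZMod Q) ∈ A ∧
        (q.2 : ZMod Q) = c (q.1 : ZMod Q))).card : ℝ) -
      ((d - c' : ℤ) : ℝ) / Q * (((Ioc a b).filter (fun x : ℤ => (x : ZMod Q) ∈ A)).card : ℝ)| ≤
      (((b - a : ℤ) : ℝ) / Q + 1 + Real.log Q) * (1 + Real.log Q) * (Q.divisors.card : ℝ) * B := by
  classical
  have hQ0 : (0 : ℝ) < Q := by exact_mod_cast Nat.pos_of_ne_zero (NeZero.ne Q)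
  have hQc : (Q : ℂ) ≠ 0 := by exact_mod_cast hQ0.ne'
  rw [cob_pair, cob_fib]
  have h1 : ((∑ v ∈ A, cobN Q a b v * cobN Q c' d (c v) : ℕ) : ℂ) =
      (1 / Q) * ∑ t : ZMod Q, IH Q c' d t * ∑ v ∈ A, (cobN Q a b v : ℂ) * ZMod.stdAddChar (t * c v) := by
    push_cast
    have e1 : ∀ v ∈ A, (cobN Q a b v : ℂ) * (cobN Q c' d (c v) : ℂ) =
        ∑ t : ZMod Q, (1 / Q) * (IH Q c' d t * ((cobN Q a b v : ℂ) * ZMod.stdAddChar (t * c v))) := by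
      intro v _
      have e2 : (cobN Q c' d (c v) : ℂ) = (1 / Q) * ∑ t : ZMod Q, IH Q c' d t * ZMod.stdAddChar (t * c v) := by
        unfold cobN
        exact co_inv Q c' d (c v)
      rw [e2, mul_sum, mul_sum]
      refine sum_congr rfl fun t _ => ?_
      ring
    rw [sum_congr rfl e1, sum_comm, mul_sum]
    refine sum_congr rfl fun t _ => ?_
    rw [← mul_sum, ← mul_sum]
  have h3 : ((((∑ v ∈ A, cobN Q a b v * cobN Q c' d (c v) : ℕ) : ℝ) -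
      ((d - c' : ℤ) : ℝ) / Q * ((∑ v ∈ A, cobN Q a b v : ℕ) : ℝ) : ℝ) : ℂ) =
      (1 / Q) * ∑ t ∈ (univ : Finset (ZMod Q)).erase 0,
        IH Q c' d t * ∑ v ∈ A, (cobN Q a b v : ℂ) * ZMod.stdAddChar (t * c v) := by
    have e1 : ((((∑ v ∈ A, cobN Q a b v * cobN Q c' d (c v) : ℕ) : ℝ) -
      ((d - c' : ℤ) : ℝ) / Q * ((∑ v ∈ A, cobN Q a b v : ℕ) : ℝ) : ℝ) : ℂ) =
      ((∑ v ∈ A, cobN Q a b v * cobN Q c' d (c v) : ℕ) : ℂ) -
      ((d - c' : ℤ) : ℂ) / Q * ((∑ v ∈ A, cobN Q a b v : ℕ) : ℂ) := by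
      push_cast
      ring
    rw [e1, h1, ← add_sum_erase (univ : Finset (ZMod Q)) _ (mem_univ 0), co_zero Q c' d hcd]
    have e2 : ∑ v ∈ A, (cobN Q a b v : ℂ) * (ZMod.stdAddChar ((0 : ZMod Q) * c v) : ℂ) =
        ((∑ v ∈ A, cobN Q a b v : ℕ) : ℂ) := by
      push_cast
      refine sum_congr rfl fun v _ => ?_
      rw [zero_mul, AddChar.map_zero_eq_one, mul_one]
    rw [e2]
    ring
  have h4 : |((∑ v ∈ A, cobN Q a b v * cobN Q c' d (c v) : ℕ) : ℝ) -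
      ((d - c' : ℤ) : ℝ) / Q * ((∑ v ∈ A, cobN Q a b v : ℕ) : ℝ)| =
      ‖(1 / Q : ℂ) * ∑ t ∈ (univ : Finset (ZMod Q)).erase 0,
        IH Q c' d t * ∑ v ∈ A, (cobN Q a b v : ℂ) * ZMod.stdAddChar (t * c v)‖ := by
    rw [← h3, Complex.norm_real, Real.norm_eq_abs]
  rw [h4, norm_mul]
  have h5 : ‖(1 / Q : ℂ)‖ = 1 / Q := by
    rw [norm_div, norm_one, Complex.norm_natCast]
  rw [h5]
  obtain ⟨L, hL⟩ : ∃ L : ℝ, L = ((b - a : ℤ) : ℝ) / Q + 1 + Real.log Q := ⟨_, rfl⟩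
  have hlog : 0 ≤ Real.log Q := Real.log_natCast_nonneg Q
  have hba : (0 : ℝ) ≤ ((b - a : ℤ) : ℝ) := by
    have : (0 : ℤ) ≤ b - a := by linarith
    exact_mod_cast this
  have hL0 : 0 ≤ L := by rw [hL]; positivity
  have h6 : ‖∑ t ∈ (univ : Finset (ZMod Q)).erase 0,
        IH Q c' d t * ∑ v ∈ A, (cobN Q a b v : ℂ) * ZMod.stdAddChar (t * c v)‖ ≤
      (L * B) * ∑ t ∈ (univ : Finset (ZMod Q)).erase 0, (Nat.gcd t.val Q : ℝ) * ‖IH Q c' d t‖ := by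
    refine (norm_sum_le _ _).trans ?_
    rw [mul_sum]
    refine sum_le_sum fun t ht => ?_
    rw [norm_mul]
    have h7 := cob_inner Q A c B hB hK a b hab t (ne_of_mem_erase ht)
    rw [← hL] at h7
    refine (mul_le_mul_of_nonneg_left h7 (norm_nonneg _)).trans (le_of_eq ?_)
    ring
  have h8 := h6.trans (mul_le_mul_of_nonneg_left (co_gcd Q c' d) (by positivity))
  have h9 := mul_le_mul_of_nonneg_left h8 (show 0 ≤ 1 / (Q : ℝ) by positivity)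
  refine h9.trans (le_of_eq ?_)
  rw [hL]
  field_simp

end Pool.Agent.Wd33b62c
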