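import Pool.Agent.W_d33b62t5_h98.CrD
import Pool.Agent.W_d33b62t5_h98.CrC

/-!
# Classes at a (MP_d33b62, T5)
-/

set_option autoImplicit false

open Finset

namespace Pool.Agent.Wd33b62c

theorem crA_chi (x : ZMod 4) : ZMod.χ₄ x ≤ 1 ∧ -1 ≤ ZMod.χ₄ x := by
  revert x
  decide

/-- number of points on a circle, in one formula -/
theorem crA_circ (p : ℕ) [Fact p.Prime] (hp : p ≠ 2) (c : ZMod p) :
    ((univ : Finset (ZMod p × ZMod p)).filter (fun q => q.1 ^ 2 + q.2 ^ 2 = c)).card ≤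
      (p + 1) + (if c = 0 then p - 2 else 0) := by
  have h1 := crA_chi (p : ZMod 4)
  have h2 : 2 ≤ p := (Fact.out : p.Prime).two_le
  split_ifs with hc
  · subst hc
    have h := cr_circ0 p hp
    have h3 : (ZMod.χ₄ p) * ((p : ℤ) - 1) ≤ 1 * ((p : ℤ) - 1) :=
      mul_le_mul_of_nonneg_right h1.1 (by omega)
    zify [h2]
    rw [h]
    push_cast
    linarith
  · have h := cr_circ p hp c hc
    zify
    rw [h]
    linarith [h1.2]

/-- points of a line -/
theorem crA_line (p : ℕ) [Fact p.Prime] (l1 l2 : ZMod p) (hl : ¬ (l1 = 0 ∧ l2 = 0)) :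
    ((univ : Finset (ZMod p × ZMod p)).filter (fun q => l1 * q.1 + l2 * q.2 = 0)).card ≤ p := by
  rcases ne_or_eq l1 0 with h | h
  · calc _ ≤ (univ : Finset (ZMod p)).card := by
          refine Finset.card_le_card_of_injOn (fun q => q.2) (fun _ _ => mem_coe.2 (mem_univ _)) ?_
          intro q hq q' hq' e
          have h1 := (mem_filter.1 (mem_coe.1 hq)).2
          have h2 := (mem_filter.1 (mem_coe.1 hq')).2
          have e' : q.2 = q'.2 := e
          have h3 : l1 * (q.1 - q'.1) = 0 := by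
            linear_combination h1 - h2 - l2 * e'
          exact Prod.ext (sub_eq_zero.1 ((mul_eq_zero.1 h3).resolve_left h)) e'
      _ = p := by rw [card_univ, ZMod.card]
  · have h' : l2 ≠ 0 := fun h2 => hl ⟨h, h2⟩
    calc _ ≤ (univ : Finset (ZMod p)).card := by
          refine Finset.card_le_card_of_injOn (fun q => q.1) (fun _ _ => mem_coe.2 (mem_univ _)) ?_
          intro q hq q' hq' e
          have h1 := (mem_filter.1 (mem_coe.1 hq)).2
          have h2 := (mem_filter.1 (mem_coe.1 hq')).2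
          have e' : q.1 = q'.1 := e
          have h3 : l2 * (q.2 - q'.2) = 0 := by
            linear_combination h1 - h2 - l1 * e'
          exact Prod.ext e' (sub_eq_zero.1 ((mul_eq_zero.1 h3).resolve_left h'))
      _ = p := by rw [card_univ, ZMod.card]

/-- two points of a line through `0` with the same nonzero norm -/
theorem crA_pm (p : ℕ) [Fact p.Prime] (l1 l2 D : ZMod p) (hl : ¬ (l1 = 0 ∧ l2 = 0)) (hD : D ≠ 0)
    {x y x' y' : ZMod p} (h1 : l1 * x + l2 * y = 0) (h2 : l1 * x' + l2 * y' = 0)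
    (h3 : x ^ 2 + y ^ 2 = D) (h4 : x' ^ 2 + y' ^ 2 = D) :
    (x', y') = (x, y) ∨ (x', y') = (-x, -y) := by
  have hcross : x * y' - y * x' = 0 := by
    rcases ne_or_eq l1 0 with h | h
    · have : l1 * (x * y' - y * x') = 0 := by linear_combination y' * h1 - y * h2
      exact (mul_eq_zero.1 this).resolve_left h
    · have h' : l2 ≠ 0 := fun h2 => hl ⟨h, h2⟩
      have : l2 * (x * y' - y * x') = 0 := by linear_combination x * h2 - x' * h1
      exact (mul_eq_zero.1 this).resolve_left h'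
  have hs : (x' - x) * (x' + x) = 0 ∧ (y' - y) * (y' + y) = 0 := by
    have e1 : D * ((x' - x) * (x' + x)) = 0 := by
      linear_combination (-(x' ^ 2)) * h3 + x ^ 2 * h4 - (x * y' + y * x') * hcross
    have e2 : D * ((y' - y) * (y' + y)) = 0 := by
      linear_combination (-(y' ^ 2)) * h3 + y ^ 2 * h4 + (x * y' + y * x') * hcross
    exact ⟨(mul_eq_zero.1 e1).resolve_left hD, (mul_eq_zero.1 e2).resolve_left hD⟩
  rcases mul_eq_zero.1 hs.1 with a | a <;> rcases mul_eq_zero.1 hs.2 with b | b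
  · left
    rw [sub_eq_zero.1 a, sub_eq_zero.1 b]
  · -- x' = x, y' = -y
    have e1 : x' = x := sub_eq_zero.1 a
    have e2 : y' = -y := by linear_combination b
    subst e1 e2
    by_cases hx : x' = 0
    · right
      rw [hx, neg_zero]
    · have h5 : 2 * y * x' = 0 := by linear_combination (-1 : ZMod p) * hcross
      have h6 : 2 * y = 0 := (mul_eq_zero.1 h5).resolve_right hx
      left
      have : -y = y := by linear_combination (-1 : ZMod p) * h6
      rw [this]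
  · have e1 : x' = -x := by linear_combination a
    have e2 : y' = y := sub_eq_zero.1 b
    subst e1 e2
    by_cases hy : y' = 0
    · right
      rw [hy, neg_zero]
    · have h5 : 2 * x * y' = 0 := by linear_combination hcross
      have h6 : 2 * x = 0 := (mul_eq_zero.1 h5).resolve_right hy
      left
      have : -x = x := by linear_combination (-1 : ZMod p) * h6
      rw [this]
  · right
    have e1 : x' = -x := by linear_combination a
    have e2 : y' = -y := by linear_combination b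
    rw [e1, e2]

theorem crA_two (p : ℕ) [Fact p.Prime] (l1 l2 D : ZMod p) (hl : ¬ (l1 = 0 ∧ l2 = 0))
    (hD : D ≠ 0) :
    (((univ : Finset (ZMod p × ZMod p)).filter (fun q => l1 * q.1 + l2 * q.2 = 0)).filter
      (fun q => q.1 ^ 2 + q.2 ^ 2 - D = 0)).card ≤ 2 := by
  rcases Finset.eq_empty_or_nonempty (((univ : Finset (ZMod p × ZMod p)).filter
    (fun q => l1 * q.1 + l2 * q.2 = 0)).filter (fun q => q.1 ^ 2 + q.2 ^ 2 - D = 0)) with h | ⟨q, hq⟩
  · rw [h]
    simp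
  · rw [mem_filter, mem_filter] at hq
    have hsub : (((univ : Finset (ZMod p × ZMod p)).filter (fun q => l1 * q.1 + l2 * q.2 = 0)).filter
      (fun q => q.1 ^ 2 + q.2 ^ 2 - D = 0)) ⊆ {q, (-q.1, -q.2)} := by
      intro q' hq'
      rw [mem_filter, mem_filter] at hq'
      have := crA_pm p l1 l2 D hl hD hq.1.2 hq'.1.2 (sub_eq_zero.1 hq.2) (sub_eq_zero.1 hq'.2)
      rw [mem_insert, mem_singleton]
      exact this
    exact (card_le_card hsub).trans card_le_two

theorem crA_count (p : ℕ) [Fact p.Prime] (hp : p ≠ 2) (l1 l2 D : ZMod p)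
    (hl : ¬ (l1 = 0 ∧ l2 = 0)) (hD : D ≠ 0) :
    ((univ : Finset ((ZMod p × ZMod p) × (ZMod p × ZMod p))).filter
      (fun q => l1 * q.1.1 + l2 * q.1.2 = 0 ∧
        q.2.1 ^ 2 + q.2.2 ^ 2 = q.1.1 ^ 2 + q.1.2 ^ 2 - D)).card ≤ p ^ 2 + 3 * p := by
  have h2 : 2 ≤ p := (Fact.out : p.Prime).two_le
  set L := (univ : Finset (ZMod p × ZMod p)).filter (fun q => l1 * q.1 + l2 * q.2 = 0) with hL
  have h1 : ((univ : Finset ((ZMod p × ZMod p) × (ZMod p × ZMod p))).filter
      (fun q => l1 * q.1.1 + l2 * q.1.2 = 0 ∧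
        q.2.1 ^ 2 + q.2.2 ^ 2 = q.1.1 ^ 2 + q.1.2 ^ 2 - D)).card ≤
      ∑ z ∈ L, ((univ : Finset (ZMod p × ZMod p)).filter
        (fun q => q.1 ^ 2 + q.2 ^ 2 = z.1 ^ 2 + z.2 ^ 2 - D)).card := by
    rw [Finset.card_filter, ← Finset.univ_product_univ, Finset.sum_product, hL, Finset.sum_filter]
    refine Finset.sum_le_sum fun z _ => ?_
    by_cases hz : l1 * z.1 + l2 * z.2 = 0
    · rw [if_pos hz, Finset.card_filter]
      refine Finset.sum_le_sum fun w _ => ?_
      by_cases hw : w.1 ^ 2 + w.2 ^ 2 = z.1 ^ 2 + z.2 ^ 2 - D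
      · rw [if_pos ⟨hz, hw⟩, if_pos hw]
      · rw [if_neg hw, if_neg fun h => hw h.2]
    · rw [if_neg hz]
      refine (Finset.sum_eq_zero fun w _ => ?_).le
      rw [if_neg fun h => hz h.1]
  refine h1.trans ?_
  calc ∑ z ∈ L, ((univ : Finset (ZMod p × ZMod p)).filter
        (fun q => q.1 ^ 2 + q.2 ^ 2 = z.1 ^ 2 + z.2 ^ 2 - D)).card
      ≤ ∑ z ∈ L, ((p + 1) + (if z.1 ^ 2 + z.2 ^ 2 - D = 0 then p - 2 else 0)) :=
        Finset.sum_le_sum fun z _ => crA_circ p hp _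
    _ = L.card * (p + 1) + (L.filter (fun z => z.1 ^ 2 + z.2 ^ 2 - D = 0)).card * (p - 2) := by
        rw [Finset.sum_add_distrib, Finset.sum_const, smul_eq_mul, ← Finset.sum_filter,
          Finset.sum_const, smul_eq_mul]
    _ ≤ p * (p + 1) + 2 * (p - 2) := by
        refine Nat.add_le_add (Nat.mul_le_mul_right _ (crA_line p l1 l2 hl))
          (Nat.mul_le_mul_right _ (crA_two p l1 l2 D hl hD))
    _ ≤ p ^ 2 + 3 * p := by
        have : p * (p + 1) = p ^ 2 + p := by ring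
        omega

/-- At most `a² + 3 a` classes at `a`.
Proof. Coordinates `z = s + ε (W / 2) κ`, `z' = s - ε (W / 2) κ` (an invertible linear map mod `a`):
`|z|² - |z'|² = 2 ε W h` (as `4 (W / 2) = 2 W`), `l(z) = 0`. The `z` with `l(z) = 0` are `a` multiples of a vector; for each of
them `|z'|² = |z|² - 2 ε W h` has at most `a + 1` solutions if the right side is not `0`, and at most `2 a - 1`
if it is; the latter happens for at most two multiples (as `2 W h ≠ 0 mod a`):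
`a (a + 1) + 2 (a - 2) ≤ a² + 3 a`. -/
theorem cr_A (W a : ℕ) (hW : 4 ∣ W) (ha : a.Prime) (ha2 : a ≠ 2) (haW : ¬ a ∣ W) (h l1 l2 ε : ℤ)
    (hε : ε = 1 ∨ ε = -1) (hh : ¬ (a : ℤ) ∣ h) (hl : ¬ ((a : ℤ) ∣ l1 ∧ (a : ℤ) ∣ l2)) :
    (Cl a (PA W a h l1 l2 ε)).card ≤ a ^ 2 + 3 * a := by
  classical
  haveI : Fact a.Prime := ⟨ha⟩
  have hdvd : ∀ x : ℤ, (a : ℤ) ∣ x ↔ (x : ZMod a) = 0 := fun x =>
    (ZMod.intCast_zmod_eq_zero_iff_dvd x a).symm
  have h2 : (2 : ZMod a) ≠ 0 := by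
    have : ¬ (a : ℤ) ∣ 2 := by
      intro hd
      have h3 : a ∣ 2 := by exact_mod_cast hd
      exact ha2 ((Nat.prime_dvd_prime_iff_eq ha Nat.prime_two).1 h3)
    rw [hdvd] at this
    exact_mod_cast this
  have hc : ((W / 2 : ℕ) : ZMod a) ≠ 0 := by
    intro h0
    rw [ZMod.natCast_eq_zero_iff] at h0
    apply haW
    have h4 : W = 2 * (W / 2) := by
      obtain ⟨w, rfl⟩ := hW
      omega
    rw [h4]
    exact h0.mul_left 2
  have hε0 : (ε : ZMod a) ≠ 0 := by
    rcases hε with rfl | rfl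
    · simp
    · simp
  have hh0 : (h : ZMod a) ≠ 0 := fun h0 => hh ((hdvd h).2 h0)
  have hl0 : ¬ ((l1 : ZMod a) = 0 ∧ (l2 : ZMod a) = 0) := fun h0 =>
    hl ⟨(hdvd l1).2 h0.1, (hdvd l2).2 h0.2⟩
  have hD : (4 * ε * (W / 2 : ℕ) * h : ZMod a) ≠ 0 := by
    have : (4 : ZMod a) = 2 * 2 := by norm_num
    rw [this]
    exact mul_ne_zero (mul_ne_zero (mul_ne_zero (mul_ne_zero h2 h2) hε0) hc) hh0
  refine le_trans ?_ (crA_count a ha2 (l1 : ZMod a) (l2 : ZMod a) _ hl0 hD)
  refine Finset.card_le_card_of_injOn (fun q : ℕ × ℕ × ℕ × ℕ =>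
    (((q.1 : ZMod a) + ε * (W / 2 : ℕ) * q.2.2.1, (q.2.1 : ZMod a) + ε * (W / 2 : ℕ) * q.2.2.2),
      ((q.1 : ZMod a) - ε * (W / 2 : ℕ) * q.2.2.1, (q.2.1 : ZMod a) - ε * (W / 2 : ℕ) * q.2.2.2)))
    ?_ ?_
  · intro q hq
    have hq' : q ∈ Cl a (PA W a h l1 l2 ε) := mem_coe.1 hq
    unfold Cl at hq'
    have hP := (mem_filter.1 hq').2
    obtain ⟨e1, e2⟩ := hP
    rw [hdvd] at e1 e2
    simp only [Int.cast_add, Int.cast_mul, Int.cast_sub, Int.cast_natCast] at e1 e2
    refine mem_coe.2 (mem_filter.2 ⟨mem_univ _, ?_, ?_⟩)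
    · exact e2
    · show ((q.1 : ZMod a) - ε * (W / 2 : ℕ) * q.2.2.1) ^ 2 +
        ((q.2.1 : ZMod a) - ε * (W / 2 : ℕ) * q.2.2.2) ^ 2 =
        ((q.1 : ZMod a) + ε * (W / 2 : ℕ) * q.2.2.1) ^ 2 +
        ((q.2.1 : ZMod a) + ε * (W / 2 : ℕ) * q.2.2.2) ^ 2 - 4 * ε * (W / 2 : ℕ) * h
      linear_combination (-4 * (ε : ZMod a) * ((W / 2 : ℕ) : ZMod a)) * e1
  · intro q hq q' hq' e
    have hm : q ∈ Cl a (PA W a h l1 l2 ε) := mem_coe.1 hq
    have hm' : q' ∈ Cl a (PA W a h l1 l2 ε) := mem_coe.1 hq'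
    unfold Cl at hm hm'
    have r := (mem_filter.1 hm).1
    have r' := (mem_filter.1 hm').1
    simp only [mem_product, mem_range] at r r'
    have e0 := Prod.mk.inj e
    have e1 := Prod.mk.inj e0.1
    have e2 := Prod.mk.inj e0.2
    have cast_inj : ∀ x y : ℕ, x < a → y < a → (x : ZMod a) = y → x = y := by
      intro x y hx hy hxy
      have := (ZMod.natCast_eq_natCast_iff' x y a).1 hxy
      rwa [Nat.mod_eq_of_lt hx, Nat.mod_eq_of_lt hy] at this
    have hs1 : (q.1 : ZMod a) = q'.1 := by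
      have : (2 : ZMod a) * ((q.1 : ZMod a) - q'.1) = 0 := by linear_combination e1.1 + e2.1
      exact sub_eq_zero.1 ((mul_eq_zero.1 this).resolve_left h2)
    have hs2 : (q.2.1 : ZMod a) = q'.2.1 := by
      have : (2 : ZMod a) * ((q.2.1 : ZMod a) - q'.2.1) = 0 := by linear_combination e1.2 + e2.2
      exact sub_eq_zero.1 ((mul_eq_zero.1 this).resolve_left h2)
    have hk1 : (q.2.2.1 : ZMod a) = q'.2.2.1 := by
      have : (2 * (ε * ((W / 2 : ℕ) : ZMod a))) * ((q.2.2.1 : ZMod a) - q'.2.2.1) = 0 := by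
        linear_combination e1.1 - e2.1
      exact sub_eq_zero.1 ((mul_eq_zero.1 this).resolve_left
        (mul_ne_zero h2 (mul_ne_zero hε0 hc)))
    have hk2 : (q.2.2.2 : ZMod a) = q'.2.2.2 := by
      have : (2 * (ε * ((W / 2 : ℕ) : ZMod a))) * ((q.2.2.2 : ZMod a) - q'.2.2.2) = 0 := by
        linear_combination e1.2 - e2.2
      exact sub_eq_zero.1 ((mul_eq_zero.1 this).resolve_left
        (mul_ne_zero h2 (mul_ne_zero hε0 hc)))
    exact Prod.ext (cast_inj _ _ r.1 r'.1 hs1) (Prod.ext (cast_inj _ _ r.2.1 r'.2.1 hs2)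
      (Prod.ext (cast_inj _ _ r.2.2.1 r'.2.2.1 hk1) (cast_inj _ _ r.2.2.2 r'.2.2.2 hk2)))

end Pool.Agent.Wd33b62c
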