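import Pool.Agent.W_d33b62t5_h98.CrD

/-!
# Classes: CRT (MP_d33b62, T5)
-/

set_option autoImplicit false

open Finset

namespace Pool.Agent.Wd33b62c

theorem crM_mem (m : ℕ) (P : Pd) (q : ℕ × ℕ × ℕ × ℕ) :
    q ∈ Cl m P ↔ (q.1 < m ∧ q.2.1 < m ∧ q.2.2.1 < m ∧ q.2.2.2 < m) ∧ P q.1 q.2.1 q.2.2.1 q.2.2.2 := by
  classical
  unfold Cl
  simp only [mem_filter, mem_product, mem_range]

theorem crM_mod (m x : ℕ) : (m : ℤ) ∣ (x : ℤ) - ((x % m : ℕ) : ℤ) := by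
  rw [Int.natCast_mod]
  exact Int.dvd_self_sub_emod

theorem crM_inj (m n a b : ℕ) (hc : Nat.Coprime m n) (ha : a < m * n) (hb : b < m * n)
    (h1 : a % m = b % m) (h2 : a % n = b % n) : a = b := by
  have h : a ≡ b [MOD m * n] := (Nat.modEq_and_modEq_iff_modEq_mul hc).1 ⟨h1, h2⟩
  exact Nat.ModEq.eq_of_lt_of_lt h ha hb

theorem crM_ex (m n a b : ℕ) (hm : 0 < m) (hn : 0 < n) (hc : Nat.Coprime m n) (ha : a < m) (hb : b < n) :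
    ∃ x, x < m * n ∧ x % m = a ∧ x % n = b := by
  refine ⟨Nat.chineseRemainder hc a b, Nat.chineseRemainder_lt_mul hc a b hm.ne' hn.ne', ?_, ?_⟩
  · have := (Nat.chineseRemainder hc a b).2.1
    rw [this, Nat.mod_eq_of_lt ha]
  · have := (Nat.chineseRemainder hc a b).2.2
    rw [this, Nat.mod_eq_of_lt hb]

/-- CRT. -/
theorem cr_mul (m n : ℕ) (hm : 0 < m) (hn : 0 < n) (hc : Nat.Coprime m n) (P Q : Pd) (hP : Per m P) (hQ : Per n Q) :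
    (Cl (m * n) (fun x1 x2 x3 x4 => P x1 x2 x3 x4 ∧ Q x1 x2 x3 x4)).card = (Cl m P).card * (Cl n Q).card := by
  classical
  rw [← Finset.card_product]
  refine Finset.card_bij (fun q _ => ((q.1 % m, q.2.1 % m, q.2.2.1 % m, q.2.2.2 % m),
    (q.1 % n, q.2.1 % n, q.2.2.1 % n, q.2.2.2 % n))) ?_ ?_ ?_
  · intro q hq
    rw [crM_mem] at hq
    obtain ⟨-, h1, h2⟩ := hq
    rw [mem_product, crM_mem, crM_mem]
    refine ⟨⟨⟨Nat.mod_lt _ hm, Nat.mod_lt _ hm, Nat.mod_lt _ hm, Nat.mod_lt _ hm⟩, ?_⟩,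
      ⟨⟨Nat.mod_lt _ hn, Nat.mod_lt _ hn, Nat.mod_lt _ hn, Nat.mod_lt _ hn⟩, ?_⟩⟩
    · exact (hP _ _ _ _ _ _ _ _ (crM_mod m _) (crM_mod m _) (crM_mod m _) (crM_mod m _)).1 h1
    · exact (hQ _ _ _ _ _ _ _ _ (crM_mod n _) (crM_mod n _) (crM_mod n _) (crM_mod n _)).1 h2
  · intro q hq q' hq' h
    rw [crM_mem] at hq hq'
    obtain ⟨⟨a1, a2, a3, a4⟩, -⟩ := hq
    obtain ⟨⟨b1, b2, b3, b4⟩, -⟩ := hq'
    simp only [Prod.mk.injEq] at h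
    obtain ⟨⟨c1, c2, c3, c4⟩, d1, d2, d3, d4⟩ := h
    exact Prod.ext (crM_inj m n _ _ hc a1 b1 c1 d1) (Prod.ext (crM_inj m n _ _ hc a2 b2 c2 d2)
      (Prod.ext (crM_inj m n _ _ hc a3 b3 c3 d3) (crM_inj m n _ _ hc a4 b4 c4 d4)))
  · intro r hr
    rw [mem_product, crM_mem, crM_mem] at hr
    obtain ⟨⟨⟨a1, a2, a3, a4⟩, hp⟩, ⟨b1, b2, b3, b4⟩, hq⟩ := hr
    obtain ⟨x1, c1, d1, e1⟩ := crM_ex m n _ _ hm hn hc a1 b1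
    obtain ⟨x2, c2, d2, e2⟩ := crM_ex m n _ _ hm hn hc a2 b2
    obtain ⟨x3, c3, d3, e3⟩ := crM_ex m n _ _ hm hn hc a3 b3
    obtain ⟨x4, c4, d4, e4⟩ := crM_ex m n _ _ hm hn hc a4 b4
    refine ⟨(x1, x2, x3, x4), ?_, ?_⟩
    · rw [crM_mem]
      refine ⟨⟨c1, c2, c3, c4⟩, ?_, ?_⟩
      · refine (hP _ _ _ _ _ _ _ _ (crM_mod m _) (crM_mod m _) (crM_mod m _) (crM_mod m _)).2 ?_
        simp only [d1, d2, d3, d4]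
        exact hp
      · refine (hQ _ _ _ _ _ _ _ _ (crM_mod n _) (crM_mod n _) (crM_mod n _) (crM_mod n _)).2 ?_
        simp only [e1, e2, e3, e4]
        exact hq
    · simp only [d1, d2, d3, d4, e1, e2, e3, e4]

theorem crM_bil (m : ℤ) (h x1 x2 x3 x4 y1 y2 y3 y4 : ℤ) (h1 : m ∣ x1 - y1) (h2 : m ∣ x2 - y2)
    (h3 : m ∣ x3 - y3) (h4 : m ∣ x4 - y4) : m ∣ x1 * x3 + x2 * x4 - h ↔ m ∣ y1 * y3 + y2 * y4 - h := by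
  apply dvd_iff_dvd_of_dvd_sub
  have e : x1 * x3 + x2 * x4 - h - (y1 * y3 + y2 * y4 - h) =
    (x1 - y1) * x3 + (x3 - y3) * y1 + (x2 - y2) * x4 + (x4 - y4) * y2 := by ring
  rw [e]
  exact dvd_add (dvd_add (dvd_add (h1.mul_right _) (h3.mul_right _)) (h2.mul_right _)) (h4.mul_right _)

theorem crM_lin (m w r x1 x3 y1 y3 : ℤ) (h1 : m ∣ x1 - y1) (h3 : m ∣ x3 - y3) :
    m ∣ x1 - (r + w * x3) ↔ m ∣ y1 - (r + w * y3) := by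
  apply dvd_iff_dvd_of_dvd_sub
  have e : x1 - (r + w * x3) - (y1 - (r + w * y3)) = (x1 - y1) - (x3 - y3) * w := by ring
  rw [e]
  exact dvd_sub h1 (h3.mul_right _)

theorem cr_perW (W : ℕ) (r1 r2 h : ℤ) : Per W (PW W r1 r2 h) := by
  intro x1 x2 x3 x4 y1 y2 y3 y4 h1 h2 h3 h4
  unfold PW
  rw [crM_bil _ h _ _ _ _ _ _ _ _ h1 h2 h3 h4, crM_lin _ _ _ _ _ _ _ h1 h3, crM_lin _ _ _ _ _ _ _ h2 h4]

theorem cr_perA (W a : ℕ) (h l1 l2 ε : ℤ) : Per a (PA W a h l1 l2 ε) := by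
  intro x1 x2 x3 x4 y1 y2 y3 y4 h1 h2 h3 h4
  unfold PA
  rw [crM_bil _ h _ _ _ _ _ _ _ _ h1 h2 h3 h4]
  have h5 : (a : ℤ) ∣ l1 * (x1 + ε * (W / 2 : ℕ) * x3) + l2 * (x2 + ε * (W / 2 : ℕ) * x4) ↔
      (a : ℤ) ∣ l1 * (y1 + ε * (W / 2 : ℕ) * y3) + l2 * (y2 + ε * (W / 2 : ℕ) * y4) := by
    apply dvd_iff_dvd_of_dvd_sub
    have e : l1 * (x1 + ε * (W / 2 : ℕ) * x3) + l2 * (x2 + ε * (W / 2 : ℕ) * x4) -
        (l1 * (y1 + ε * (W / 2 : ℕ) * y3) + l2 * (y2 + ε * (W / 2 : ℕ) * y4)) =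
        (x1 - y1) * l1 + (x3 - y3) * (l1 * ε * (W / 2 : ℕ)) + (x2 - y2) * l2 +
          (x4 - y4) * (l2 * ε * (W / 2 : ℕ)) := by ring
    rw [e]
    exact dvd_add (dvd_add (dvd_add (h1.mul_right _) (h3.mul_right _)) (h2.mul_right _)) (h4.mul_right _)
  rw [h5]

theorem cr_perP (W p : ℕ) (h : ℤ) {k : ℕ} (c : Fin k → ℤ) : Per p (PP W p h c) := by
  intro x1 x2 x3 x4 y1 y2 y3 y4 h1 h2 h3 h4
  unfold PP
  rw [crM_bil _ h _ _ _ _ _ _ _ _ h1 h2 h3 h4]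
  refine and_congr Iff.rfl (exists_congr fun l => ?_)
  apply dvd_iff_dvd_of_dvd_sub
  have e : 2 * ((x1 + (W / 2 : ℕ) * x3) ^ 2 + (x2 + (W / 2 : ℕ) * x4) ^ 2) - c l -
      (2 * ((y1 + (W / 2 : ℕ) * y3) ^ 2 + (y2 + (W / 2 : ℕ) * y4) ^ 2) - c l) =
      (x1 - y1) * (2 * (x1 + (W / 2 : ℕ) * x3 + (y1 + (W / 2 : ℕ) * y3))) +
      (x3 - y3) * ((W / 2 : ℕ) * (2 * (x1 + (W / 2 : ℕ) * x3 + (y1 + (W / 2 : ℕ) * y3)))) +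
      (x2 - y2) * (2 * (x2 + (W / 2 : ℕ) * x4 + (y2 + (W / 2 : ℕ) * y4))) +
      (x4 - y4) * ((W / 2 : ℕ) * (2 * (x2 + (W / 2 : ℕ) * x4 + (y2 + (W / 2 : ℕ) * y4)))) := by ring
  rw [e]
  exact dvd_add (dvd_add (dvd_add (h1.mul_right _) (h3.mul_right _)) (h2.mul_right _)) (h4.mul_right _)

end Pool.Agent.Wd33b62c
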