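import Pool.Agent.W_d33b62t5_h98.CrD
import Pool.Agent.W_d33b62t5_h98.CrC

/-!
# Classes at a sieve prime (MP_d33b62, T5)
-/

set_option autoImplicit false

open Finset

namespace Pool.Agent.Wd33b62c

theorem crP_mem (m : ℕ) (P : Pd) (q : ℕ × ℕ × ℕ × ℕ) :
    q ∈ Cl m P ↔ (q.1 < m ∧ q.2.1 < m ∧ q.2.2.1 < m ∧ q.2.2.2 < m) ∧ P q.1 q.2.1 q.2.2.1 q.2.2.2 := by
  classical
  unfold Cl
  simp only [mem_filter, mem_product, mem_range]

theorem crP_PP (W p : ℕ) (h : ℤ) {k : ℕ} (c : Fin k → ℤ) (s1 s2 k1 k2 : ℕ) :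
    PP W p h c s1 s2 k1 k2 ↔ ((s1 : ZMod p) * k1 + s2 * k2 = (h : ZMod p) ∧
      ∃ l, 2 * (((s1 : ZMod p) + ((W / 2 : ℕ) : ZMod p) * k1) ^ 2 +
        ((s2 : ZMod p) + ((W / 2 : ℕ) : ZMod p) * k2) ^ 2) = (c l : ZMod p)) := by
  unfold PP
  generalize (W / 2 : ℕ) = w
  refine and_congr ?_ (exists_congr fun l => ?_)
  · rw [← ZMod.intCast_zmod_eq_zero_iff_dvd]
    push_cast
    rw [sub_eq_zero]
  · rw [← ZMod.intCast_zmod_eq_zero_iff_dvd]
    push_cast
    rw [sub_eq_zero]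

/-- Exactly `k (p - χ)²` classes at a sieve prime.
Proof. Coordinates `z, z'` as in `cr_A`: `2 |z|² = c l`, `2 |z'|² = c l - 4 W h`, both prime to `p`
(`|z|² - |z'|² = 2 W h`, `W = 2 (W / 2)`); `cr_circ` twice;
the `k` alternatives exclude each other. -/
theorem cr_P (W p : ℕ) (hW : 4 ∣ W) (hp : p.Prime) (hp2 : p ≠ 2) (hpW : ¬ p ∣ W) (h : ℤ) (hh : ¬ (p : ℤ) ∣ h)
    {k : ℕ} (c : Fin k → ℤ)
    (hc : ∀ l l', l ≠ l' → ¬ (p : ℤ) ∣ c l - c l') (hc0 : ∀ l, ¬ (p : ℤ) ∣ c l)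
    (hc1 : ∀ l, ¬ (p : ℤ) ∣ c l - 4 * W * h) :
    (((Cl p (PP W p h c)).card : ℕ) : ℤ) = k * (p - ZMod.χ₄ p) ^ 2 := by
  classical
  have : Fact p.Prime := ⟨hp⟩
  obtain ⟨w, hw⟩ : ∃ w : ZMod p, w = ((W / 2 : ℕ) : ZMod p) := ⟨_, rfl⟩
  have h2 : (2 : ZMod p) ≠ 0 := by
    intro h0
    have : ((2 : ℕ) : ZMod p) = 0 := by exact_mod_cast h0
    rw [ZMod.natCast_eq_zero_iff] at this
    exact hp2 ((Nat.prime_dvd_prime_iff_eq hp Nat.prime_two).1 this)
  have hW2 : 2 * w = (W : ZMod p) := by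
    obtain ⟨v, rfl⟩ := hW
    rw [hw, show 4 * v / 2 = 2 * v by omega]
    push_cast
    ring
  have hW0 : (W : ZMod p) ≠ 0 := by
    rwa [Ne, ZMod.natCast_eq_zero_iff]
  have hw0 : w ≠ 0 := by
    rintro rfl
    rw [mul_zero] at hW2
    exact hW0 hW2.symm
  let C : ZMod p → Finset (ZMod p × ZMod p) := fun d => univ.filter (fun q => q.1 ^ 2 + q.2 ^ 2 = d)
  let T : Fin k → Finset ((ZMod p × ZMod p) × (ZMod p × ZMod p)) := fun l =>
    C ((c l : ZMod p) / 2) ×ˢ C (((c l - 4 * W * h : ℤ) : ZMod p) / 2)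
  have hC : ∀ d q, q ∈ C d ↔ q.1 ^ 2 + q.2 ^ 2 = d := by
    intro d q
    simp only [C, mem_filter, mem_univ, true_and]
  have hT : (Cl p (PP W p h c)).card = (univ.biUnion T).card := by
    refine Finset.card_bij (fun q _ => (((q.1 : ZMod p) + w * q.2.2.1, (q.2.1 : ZMod p) + w * q.2.2.2),
      ((q.1 : ZMod p) - w * q.2.2.1, (q.2.1 : ZMod p) - w * q.2.2.2))) ?_ ?_ ?_
    · rintro ⟨s1, s2, k1, k2⟩ hq
      rw [crP_mem, crP_PP, ← hw] at hq
      obtain ⟨-, e1, l, e2⟩ := hq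
      rw [mem_biUnion]
      refine ⟨l, mem_univ _, ?_⟩
      simp only [T]
      rw [mem_product, hC, hC]
      constructor
      · rw [eq_div_iff h2]
        linear_combination e2
      · rw [eq_div_iff h2]
        push_cast
        linear_combination e2 - 4 * (s1 * k1 + s2 * k2) * hW2 - 4 * (W : ZMod p) * e1
    · rintro ⟨s1, s2, k1, k2⟩ hq ⟨s1', s2', k1', k2'⟩ hq' he
      rw [crP_mem] at hq hq'
      obtain ⟨⟨a1, a2, a3, a4⟩, -⟩ := hq
      obtain ⟨⟨b1, b2, b3, b4⟩, -⟩ := hq'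
      simp only [Prod.mk.injEq] at he
      obtain ⟨⟨u1, u2⟩, v1, v2⟩ := he
      have cast_inj : ∀ a b : ℕ, a < p → b < p → (a : ZMod p) = b → a = b := by
        intro a b ha hb hab
        have := congrArg ZMod.val hab
        rwa [ZMod.val_cast_of_lt ha, ZMod.val_cast_of_lt hb] at this
      have x1 : (s1 : ZMod p) = s1' := by
        apply mul_left_cancel₀ h2
        linear_combination u1 + v1
      have x2 : (s2 : ZMod p) = s2' := by
        apply mul_left_cancel₀ h2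
        linear_combination u2 + v2
      have x3 : (k1 : ZMod p) = k1' := by
        apply mul_left_cancel₀ hw0
        linear_combination u1 - x1
      have x4 : (k2 : ZMod p) = k2' := by
        apply mul_left_cancel₀ hw0
        linear_combination u2 - x2
      simp only [Prod.mk.injEq]
      exact ⟨cast_inj _ _ a1 b1 x1, cast_inj _ _ a2 b2 x2, cast_inj _ _ a3 b3 x3, cast_inj _ _ a4 b4 x4⟩
    · rintro ⟨⟨z1, z2⟩, z1', z2'⟩ hz
      rw [mem_biUnion] at hz
      obtain ⟨l, -, hz⟩ := hz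
      simp only [T] at hz
      rw [mem_product, hC, hC, eq_div_iff h2, eq_div_iff h2] at hz
      obtain ⟨e1, e2⟩ := hz
      push_cast at e1 e2
      have hv : ∀ x : ZMod p, ((x.val : ℕ) : ZMod p) = x := fun x => ZMod.natCast_zmod_val x
      refine ⟨(((z1 + z1') / 2).val, ((z2 + z2') / 2).val, ((z1 - z1') / (2 * w)).val, ((z2 - z2') / (2 * w)).val),
        ?_, ?_⟩
      · rw [crP_mem, crP_PP, ← hw]
        refine ⟨⟨ZMod.val_lt _, ZMod.val_lt _, ZMod.val_lt _, ZMod.val_lt _⟩, ?_, l, ?_⟩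
        · simp only [hv]
          have h8 : (8 : ZMod p) * w ≠ 0 := by
            have : (8 : ZMod p) = 2 * 2 * 2 := by norm_num
            rw [this]
            exact mul_ne_zero (mul_ne_zero (mul_ne_zero h2 h2) h2) hw0
          apply mul_left_cancel₀ h8
          have e3 : 8 * w * ((z1 + z1') / 2 * ((z1 - z1') / (2 * w)) + (z2 + z2') / 2 * ((z2 - z2') / (2 * w))) =
              2 * ((z1 ^ 2 + z2 ^ 2) - (z1' ^ 2 + z2' ^ 2)) := by
            field_simp
            ring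
          rw [e3]
          linear_combination e1 - e2 - 4 * (h : ZMod p) * hW2
        · simp only [hv]
          have e3 : (z1 + z1') / 2 + w * ((z1 - z1') / (2 * w)) = z1 := by
            field_simp
            ring
          have e4 : (z2 + z2') / 2 + w * ((z2 - z2') / (2 * w)) = z2 := by
            field_simp
            ring
          rw [e3, e4]
          linear_combination e1
      · simp only [hv]
        simp only [Prod.mk.injEq]
        refine ⟨⟨?_, ?_⟩, ?_, ?_⟩ <;> · field_simp; ring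
  have hcard : ∀ l, (((T l).card : ℕ) : ℤ) = (p - ZMod.χ₄ p) ^ 2 := by
    intro l
    simp only [T]
    rw [card_product]
    push_cast
    have n1 : ((c l : ZMod p) / 2) ≠ 0 := by
      apply div_ne_zero _ h2
      rw [Ne, ZMod.intCast_zmod_eq_zero_iff_dvd]
      exact hc0 l
    have n2 : (((c l - 4 * W * h : ℤ) : ZMod p) / 2) ≠ 0 := by
      apply div_ne_zero _ h2
      rw [Ne, ZMod.intCast_zmod_eq_zero_iff_dvd]
      exact hc1 l
    have r1 := cr_circ p hp2 _ n1
    have r2 := cr_circ p hp2 _ n2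
    push_cast at r2
    simp only [C]
    rw [r1, r2]
    ring
  rw [hT, card_biUnion]
  · push_cast
    rw [Finset.sum_congr rfl (fun l _ => hcard l)]
    simp only [sum_const, card_univ, Fintype.card_fin, nsmul_eq_mul]
  · intro l _ l' _ hl
    rw [Function.onFun, Finset.disjoint_left]
    rintro ⟨z, z'⟩ hz hz'
    simp only [T] at hz hz'
    rw [mem_product, hC, eq_div_iff h2] at hz hz'
    have e : ((c l - c l' : ℤ) : ZMod p) = 0 := by
      push_cast
      rw [← hz.1, ← hz'.1]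
      ring
    rw [ZMod.intCast_zmod_eq_zero_iff_dvd] at e
    exact hc l l' hl e

end Pool.Agent.Wd33b62c
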