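import Pool.Agent.W_d33b62t5_h98.CrD

/-!
# Classes at W (MP_d33b62, T5)
-/

set_option autoImplicit false

open Finset

namespace Pool.Agent.Wd33b62c

/-- Two integers in `[0, m)` which are congruent modulo `m` are equal. -/
theorem crW_eq {m a b : ℕ} (ha : a < m) (hb : b < m) (h : (m : ℤ) ∣ (a : ℤ) - b) : a = b := by
  have h1 : (b : ℤ) ≡ a [ZMOD m] := Int.modEq_iff_dvd.2 h
  have h2 : b ≡ a [MOD m] := Int.natCast_modEq_iff.1 h1
  have h3 : b % m = a % m := h2
  rw [Nat.mod_eq_of_lt ha, Nat.mod_eq_of_lt hb] at h3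
  exact h3.symm

/-- At most `W` classes at `W`.
Proof. `s1, s2` are determined by `k1, k2`; for given `k2` two solutions `k1, k1'` satisfy
`(k1 - k1') (r1 + (W / 2) (k1 + k1')) = 0 mod W`, and the second factor is prime to `W`: every prime divisor of `W`
divides `W / 2` (`4 ∣ W`). -/
theorem cr_W (W : ℕ) (hW : 4 ∣ W) (hW0 : 0 < W) (r1 r2 h : ℤ) (hr : IsCoprime r1 (W : ℤ)) :
    (Cl W (PW W r1 r2 h)).card ≤ W := by
  classical
  obtain ⟨n, rfl⟩ := hW
  have hM : (4 * n / 2 : ℕ) = 2 * n := by omega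
  have hc : (Cl (4 * n) (PW (4 * n) r1 r2 h)).card ≤ (range (4 * n)).card := by
    refine Finset.card_le_card_of_injOn (fun q => q.2.2.2) ?_ ?_
    · intro q hq
      rw [mem_coe] at hq ⊢
      simp only [Cl, mem_filter, mem_product] at hq
      exact hq.1.2.2.2
    · rintro ⟨s1, s2, k1, k2⟩ hq ⟨s1', s2', k1', k2'⟩ hq' he
      simp only at he
      subst he
      rw [mem_coe] at hq hq'
      simp only [Cl, mem_filter, mem_product, mem_range, PW, hM] at hq hq'
      obtain ⟨⟨a1, a2, a3, a4⟩, ⟨x, hx⟩, ⟨y, hy⟩, ⟨z, hz⟩⟩ := hq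
      obtain ⟨⟨b1, b2, b3, b4⟩, ⟨x', hx'⟩, ⟨y', hy'⟩, ⟨z', hz'⟩⟩ := hq'
      push_cast at hx hy hz hx' hy' hz' hr
      have hs2 : s2 = s2' := by
        refine crW_eq a2 b2 ⟨y - y', ?_⟩
        push_cast
        linear_combination hy - hy'
      have hcop : IsCoprime (4 * (n : ℤ)) (r1 + 2 * n * (k1 + k1')) := by
        have h1 : IsCoprime (4 * (n : ℤ)) ((r1 + 2 * n * (k1 + k1')) * (r1 - 2 * n * (k1 + k1'))) := by
          have h2 : IsCoprime (r1 * r1 + (4 * (n : ℤ)) * (-(n * (k1 + k1') ^ 2))) (4 * (n : ℤ)) :=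
            IsCoprime.add_mul_left_left (hr.mul_left hr) _
          have h3 : r1 * r1 + (4 * (n : ℤ)) * (-(n * (k1 + k1') ^ 2))
              = (r1 + 2 * n * (k1 + k1')) * (r1 - 2 * n * (k1 + k1')) := by ring
          rw [h3] at h2
          exact h2.symm
        exact h1.of_mul_right_left
      have hk1 : k1 = k1' := by
        refine crW_eq a3 b3 ?_
        have h1 : (4 * (n : ℤ)) ∣ (r1 + 2 * n * (k1 + k1')) * ((k1 : ℤ) - k1') := by
          refine ⟨z - z' - x * k1 + x' * k1' - (y - y') * k2, ?_⟩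
          linear_combination hz - hz' - hx * k1 + hx' * k1' - (hy - hy') * k2
        have h2 := hcop.dvd_of_dvd_mul_left h1
        push_cast
        exact h2
      subst hk1
      have hs1 : s1 = s1' := by
        refine crW_eq a1 b1 ⟨x - x', ?_⟩
        push_cast
        linear_combination hx - hx'
      rw [hs1, hs2]
  rwa [card_range] at hc

end Pool.Agent.Wd33b62c
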