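import Pool.Agent.W_d33b62t5_h98.HyB

/-!
# Fixed `s1`: splitting by `g = gcd(s2, s1 D)` (MP_d33b62, T5)
-/

set_option autoImplicit false

open Finset

namespace Pool.Agent.Wd33b62c

open Classical in
/-- The points `(s2, κ2)` of the class with a partner `κ1`. -/
noncomputable def FX (M s : ℕ) (h t k1 k2 a b c d : ℤ) : ℕ :=
  (((Ioc a b) ×ˢ (Ioc c d)).filter (fun q : ℤ × ℤ => (M : ℤ) ∣ q.1 - t ∧ (M : ℤ) ∣ q.2 - k2 ∧
    ∃ x : ℤ, (M : ℤ) ∣ x - k1 ∧ s * x + q.1 * q.2 = h)).card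

/-- A divisor of `gcd(s, h)` is prime to `M`. -/
theorem FxA_cop (M s g : ℕ) (h : ℤ) (h2 : Nat.Coprime h.natAbs (Nat.gcd s M)) (hg : g ∣ Nat.gcd s h.natAbs) :
    Nat.Coprime g M := by
  have ha : Nat.gcd g M ∣ Nat.gcd s M :=
    Nat.dvd_gcd ((Nat.gcd_dvd_left g M).trans (hg.trans (Nat.gcd_dvd_left _ _))) (Nat.gcd_dvd_right g M)
  have hb : Nat.gcd g M ∣ h.natAbs := (Nat.gcd_dvd_left g M).trans (hg.trans (Nat.gcd_dvd_right _ _))
  have hc : Nat.gcd g M ∣ Nat.gcd h.natAbs (Nat.gcd s M) := Nat.dvd_gcd hb ha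
  rw [h2] at hc
  exact Nat.dvd_one.1 hc

open Classical in
/-- The fibre over `g`. -/
theorem FxA_fib (M' D s g Q : ℕ) (hM' : 0 < M') (hg : 0 < g) (hQ : s * D = g * Q) (H H' u t k2 a b c d : ℤ)
    (hH : H = g * H') (hgM : IsCoprime (g : ℤ) ((M' * D : ℕ) : ℤ)) (hMD : IsCoprime (M' : ℤ) (D : ℤ))
    (hu : ((M' * D : ℕ) : ℤ) ∣ g * u - t) :
    (((Ioc a b) ×ˢ (Ioc c d)).filter (fun q : ℤ × ℤ => ((M' * D : ℕ) : ℤ) ∣ q.1 - t ∧ (M' : ℤ) ∣ q.2 - k2 ∧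
      ((s * D : ℕ) : ℤ) ∣ q.1 * q.2 - H ∧ Int.gcd q.1 ((s * D : ℕ) : ℤ) = g)).card =
    CG Q M' D u u k2 H' ((a - g * u) / (g * M' : ℕ)) ((b - g * u) / (g * M' : ℕ)) ((c - k2) / (M' : ℕ))
      ((d - k2) / (M' : ℕ)) := by
  have hM0 : (0 : ℤ) < (M' : ℤ) := by exact_mod_cast hM'
  have hg0 : (0 : ℤ) < (g : ℤ) := by exact_mod_cast hg
  have hgM0 : (0 : ℤ) < ((g * M' : ℕ) : ℤ) := by exact_mod_cast Nat.mul_pos hg hM'
  have hgM' : IsCoprime (g : ℤ) (M' : ℤ) := by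
    rw [Nat.cast_mul] at hgM
    exact hgM.of_mul_right_left
  have hgD : IsCoprime (g : ℤ) (D : ℤ) := by
    rw [Nat.cast_mul] at hgM
    exact hgM.of_mul_right_right
  symm
  unfold CG
  refine Finset.card_bij (fun q _ => (g * (u + M' * q.1), k2 + M' * q.2)) ?_ ?_ ?_
  · rintro ⟨x, y⟩ hq
    simp only [Finset.mem_filter, Finset.mem_product, Finset.mem_Ioc] at hq ⊢
    obtain ⟨⟨⟨hx1, hx2⟩, hy1, hy2⟩, hc, hD, hQd⟩ := hq
    rw [Int.ediv_lt_iff_lt_mul hgM0] at hx1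
    rw [Int.le_ediv_iff_mul_le hgM0] at hx2
    rw [Int.ediv_lt_iff_lt_mul hM0] at hy1
    rw [Int.le_ediv_iff_mul_le hM0] at hy2
    rw [Nat.cast_mul] at hx1 hx2
    refine ⟨⟨⟨by nlinarith, by nlinarith⟩, by nlinarith, by nlinarith⟩, ?_, ?_, ?_, ?_⟩
    · -- M ∣ g (u + M' x) - t
      have h1 : ((M' * D : ℕ) : ℤ) ∣ g * (M' * x) := by
        have h2 : (D : ℤ) ∣ M' * x := by
          have : u + (M' : ℤ) * x - u = M' * x := by ring
          rwa [this] at hD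
        have h3 : (D : ℤ) ∣ x := (hMD.symm).dvd_of_dvd_mul_left h2
        rw [Nat.cast_mul]
        exact Dvd.dvd.mul_left (mul_dvd_mul_left _ h3) _
      have h2 : (g : ℤ) * (u + M' * x) - t = (g * u - t) + g * (M' * x) := by ring
      rw [h2]
      exact dvd_add hu h1
    · exact ⟨y, by ring⟩
    · have h1 : (g : ℤ) * (u + M' * x) * (k2 + M' * y) - H = g * ((u + M' * x) * (k2 + M' * y) - H') := by
        rw [hH]; ring
      rw [h1, hQ, Nat.cast_mul]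
      exact mul_dvd_mul_left _ hQd
    · rw [hQ, Nat.cast_mul, Int.gcd_mul_left, Int.isCoprime_iff_gcd_eq_one.1 hc]
      simp
  · rintro ⟨x, y⟩ _ ⟨x', y'⟩ _ he
    simp only [Prod.mk.injEq] at he ⊢
    obtain ⟨h1, h2⟩ := he
    have h3 := mul_left_cancel₀ hg0.ne' h1
    have h4 := mul_left_cancel₀ hM0.ne' (add_left_cancel h3)
    have h5 := mul_left_cancel₀ hM0.ne' (add_left_cancel h2)
    exact ⟨h4, h5⟩
  · rintro ⟨p, r⟩ hq
    simp only [Finset.mem_filter, Finset.mem_product, Finset.mem_Ioc] at hq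
    obtain ⟨⟨⟨hx1, hx2⟩, hy1, hy2⟩, hMp, hMr, hsD, hgcd⟩ := hq
    obtain ⟨y, hy⟩ := hMr
    have hr : r = k2 + M' * y := by linarith
    have hgp : (g : ℤ) ∣ p := by
      rw [← hgcd]
      exact Int.gcd_dvd_left _ _
    obtain ⟨x0, hx0⟩ := hgp
    have hMx : ((M' * D : ℕ) : ℤ) ∣ x0 - u := by
      have h1 : ((M' * D : ℕ) : ℤ) ∣ g * (x0 - u) := by
        have h2 : (g : ℤ) * (x0 - u) = (p - t) - (g * u - t) := by rw [hx0]; ring
        rw [h2]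
        exact dvd_sub hMp hu
      exact hgM.symm.dvd_of_dvd_mul_left h1
    have hMx' : (M' : ℤ) ∣ x0 - u := by
      rw [Nat.cast_mul] at hMx
      exact (Dvd.intro _ rfl).trans hMx
    have hDx : (D : ℤ) ∣ x0 - u := by
      rw [Nat.cast_mul] at hMx
      exact (Dvd.intro_left _ rfl).trans hMx
    obtain ⟨x, hx⟩ := hMx'
    have hx0' : x0 = u + M' * x := by linarith
    refine ⟨(x, y), ?_, ?_⟩
    · simp only [Finset.mem_filter, Finset.mem_product, Finset.mem_Ioc]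
      rw [Int.ediv_lt_iff_lt_mul hgM0, Int.le_ediv_iff_mul_le hgM0, Int.ediv_lt_iff_lt_mul hM0,
        Int.le_ediv_iff_mul_le hM0, Nat.cast_mul]
      rw [hx0, hx0'] at hx1 hx2
      rw [hr] at hy1 hy2
      refine ⟨⟨⟨by nlinarith, by nlinarith⟩, by nlinarith, by nlinarith⟩, ?_, ?_, ?_⟩
      · rw [← hx0', Int.isCoprime_iff_gcd_eq_one]
        rw [hx0, hQ, Nat.cast_mul, Int.gcd_mul_left] at hgcd
        simp only [Int.natAbs_natCast] at hgcd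
        exact Nat.eq_of_mul_eq_mul_left hg (by rw [hgcd, mul_one])
      · rw [← hx0']
        exact hDx
      · rw [← hx0', ← hr]
        rw [hQ, Nat.cast_mul, hx0, hH] at hsD
        have h1 : (g : ℤ) * x0 * r - g * H' = g * (x0 * r - H') := by ring
        rw [h1] at hsD
        exact Int.dvd_of_mul_dvd_mul_left hg0.ne' hsD
    · simp only [Prod.mk.injEq]
      exact ⟨by rw [hx0, hx0'], hr.symm⟩

/-- The condition modulo `s D`. -/
theorem FxA_cond (M' D s : ℕ) (hs : D ∣ s) (h t k1 k2 : ℤ) (h1 : IsCoprime (M' : ℤ) (s : ℤ))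
    (h2 : IsCoprime h (D : ℤ)) (h3 : ((M' * D : ℕ) : ℤ) ∣ s * k1 + t * k2 - h) (p r : ℤ) :
    (((M' * D : ℕ) : ℤ) ∣ p - t ∧ ((M' * D : ℕ) : ℤ) ∣ r - k2 ∧ ∃ x : ℤ, ((M' * D : ℕ) : ℤ) ∣ x - k1 ∧ s * x + p * r = h) ↔
    (((M' * D : ℕ) : ℤ) ∣ p - t ∧ (M' : ℤ) ∣ r - k2 ∧ ((s * D : ℕ) : ℤ) ∣ p * r - (h - s * k1)) := by
  have hDs : (D : ℤ) ∣ s := by exact_mod_cast hs
  constructor
  · rintro ⟨hp, hr, x, hx, he⟩
    refine ⟨hp, ?_, ?_⟩
    · rw [Nat.cast_mul] at hr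
      exact (Dvd.intro _ rfl).trans hr
    · obtain ⟨y, hy⟩ := hx
      refine ⟨-(M' * y), ?_⟩
      rw [Nat.cast_mul] at hy ⊢
      have hxe : x = k1 + M' * D * y := by linarith
      rw [hxe] at he
      linear_combination he
  · rintro ⟨hp, hr, hsD⟩
    have hDM : (D : ℤ) ∣ ((M' * D : ℕ) : ℤ) := by
      rw [Nat.cast_mul]
      exact Dvd.intro_left _ rfl
    have hMM : (M' : ℤ) ∣ ((M' * D : ℕ) : ℤ) := by
      rw [Nat.cast_mul]
      exact Dvd.intro _ rfl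
    have hcMD : IsCoprime (M' : ℤ) (D : ℤ) := h1.of_isCoprime_of_dvd_right hDs
    -- t k2 = h mod D
    have ht : (D : ℤ) ∣ t * k2 - h := by
      have e1 : t * k2 - h = (s * k1 + t * k2 - h) - s * k1 := by ring
      rw [e1]
      exact dvd_sub (hDM.trans h3) (Dvd.dvd.mul_right hDs _)
    have htc : IsCoprime (D : ℤ) t := by
      obtain ⟨w, hw⟩ := ht
      obtain ⟨α, β, hab⟩ := h2
      refine ⟨β - α * w, α * k2, ?_⟩
      have : h = t * k2 - D * w := by linarith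
      rw [this] at hab
      linear_combination hab
    have hDr : (D : ℤ) ∣ r - k2 := by
      have e1 : (D : ℤ) ∣ p * r - h := by
        have e2 : p * r - h = (p * r - (h - s * k1)) - s * k1 := by ring
        rw [e2]
        refine dvd_sub (Dvd.dvd.trans ?_ hsD) (Dvd.dvd.mul_right hDs _)
        rw [Nat.cast_mul]
        exact Dvd.intro_left _ rfl
      have e3 : (D : ℤ) ∣ t * (r - k2) := by
        have e4 : t * (r - k2) = (p * r - h) - (t * k2 - h) - (p - t) * r := by ring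
        rw [e4]
        exact dvd_sub (dvd_sub e1 ht) (Dvd.dvd.mul_right (hDM.trans hp) _)
      exact htc.dvd_of_dvd_mul_left e3
    have hMr : ((M' * D : ℕ) : ℤ) ∣ r - k2 := by
      rw [Nat.cast_mul]
      exact hcMD.mul_dvd hr hDr
    refine ⟨hp, hMr, ?_⟩
    have hM1 : ((M' * D : ℕ) : ℤ) ∣ p * r - (h - s * k1) := by
      have e4 : p * r - (h - s * k1) = (s * k1 + t * k2 - h) + (p - t) * r + t * (r - k2) := by ring
      rw [e4]
      exact dvd_add (dvd_add h3 (Dvd.dvd.mul_right hp _)) (Dvd.dvd.mul_left hMr _)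
    have hc2 : IsCoprime (M' : ℤ) ((s * D : ℕ) : ℤ) := by
      rw [Nat.cast_mul]
      exact h1.mul_right hcMD
    have hall : (M' : ℤ) * ((s * D : ℕ) : ℤ) ∣ p * r - (h - s * k1) := hc2.mul_dvd (hMM.trans hM1) hsD
    obtain ⟨y, hy⟩ := hall
    refine ⟨k1 - M' * D * y, ⟨-y, by rw [Nat.cast_mul]; ring⟩, ?_⟩
    rw [Nat.cast_mul] at hy
    linear_combination hy

/-- The divisor `g`. -/
theorem FxA_g (M' D s : ℕ) (hs : 0 < s) (hD : D ∣ s) (h t k1 k2 : ℤ) (hh : h ≠ 0)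
    (h2 : IsCoprime h (D : ℤ)) (h3 : ((M' * D : ℕ) : ℤ) ∣ s * k1 + t * k2 - h) (p r : ℤ)
    (hp : ((M' * D : ℕ) : ℤ) ∣ p - t) (hq : ((s * D : ℕ) : ℤ) ∣ p * r - (h - s * k1)) :
    Int.gcd p ((s * D : ℕ) : ℤ) ∈ (Nat.gcd s h.natAbs).divisors := by
  have hDs : (D : ℤ) ∣ s := by exact_mod_cast hD
  have hDM : (D : ℤ) ∣ ((M' * D : ℕ) : ℤ) := by
    rw [Nat.cast_mul]
    exact Dvd.intro_left _ rfl
  have ht : (D : ℤ) ∣ t * k2 - h := by
    have e1 : t * k2 - h = (s * k1 + t * k2 - h) - s * k1 := by ring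
    rw [e1]
    exact dvd_sub (hDM.trans h3) (Dvd.dvd.mul_right hDs _)
  have htc : IsCoprime (D : ℤ) t := by
    obtain ⟨w, hw⟩ := ht
    obtain ⟨α, β, hab⟩ := h2
    refine ⟨β - α * w, α * k2, ?_⟩
    have : h = t * k2 - D * w := by linarith
    rw [this] at hab
    linear_combination hab
  have hpc : IsCoprime (D : ℤ) p := by
    obtain ⟨w, hw⟩ := hDM.trans hp
    obtain ⟨α, β, hab⟩ := htc
    refine ⟨α - β * w, β, ?_⟩
    have : t = p - D * w := by linarith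
    rw [this] at hab
    linear_combination hab
  set g := Int.gcd p ((s * D : ℕ) : ℤ) with hg
  have hgp : (g : ℤ) ∣ p := Int.gcd_dvd_left _ _
  have hgs : (g : ℤ) ∣ ((s * D : ℕ) : ℤ) := Int.gcd_dvd_right _ _
  have hgD : IsCoprime (g : ℤ) (D : ℤ) := (hpc.of_isCoprime_of_dvd_right hgp).symm
  have hgs' : (g : ℤ) ∣ (s : ℤ) := by
    rw [Nat.cast_mul] at hgs
    exact hgD.dvd_of_dvd_mul_right hgs
  have hgh : (g : ℤ) ∣ h := by
    have e1 : h = p * r + s * k1 - (p * r - (h - s * k1)) := by ring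
    rw [e1]
    exact dvd_sub (dvd_add (Dvd.dvd.mul_right hgp _) (Dvd.dvd.mul_right hgs' _)) (hgs.trans hq)
  rw [Nat.mem_divisors]
  refine ⟨Nat.dvd_gcd (by exact_mod_cast hgs') (Int.natCast_dvd.1 hgh), ?_⟩
  exact (Nat.gcd_pos_of_pos_left _ hs).ne'

/-- **The splitting.** `D = gcd(s, M)`, `M' = M / D`.
Proof. With `H = h - s k1` the condition is `s M ∣ s2 κ2 - H`. As `M'` is prime to `s D` and `M ∣ s k1 + t k2 - h`, it
is `s D ∣ s2 κ2 - H`. Modulo `D`: `H = h` is a unit, `t k2 = h`, so `s2 = t` is a unit and the condition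
`κ2 = k2 mod D` is automatic. Let `g = gcd(s2, s D)`: prime to `D`, so `g ∣ s`, and `g ∣ H`, so `g ∣ h`. For given
`g ∣ gcd(s, h)` write `s2 = g x`: `x` prime to `Q = s D / g`, `Q ∣ x κ2 - H / g`, `x = u mod M` where `g u = t mod M`
(`g` is prime to `M`): `x = u + M' ξ`, `D ∣ x - u`; `κ2 = k2 + M' η`. -/
theorem fx_split (M s : ℕ) (hM : 0 < M) (hs : 0 < s) (h : ℤ) (hh : h ≠ 0) (t k1 k2 : ℤ)
    (h1 : Nat.Coprime (M / Nat.gcd s M) s) (h2 : Nat.Coprime h.natAbs (Nat.gcd s M)) (h3 : (M : ℤ) ∣ s * k1 + t * k2 - h)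
    (u : ℕ → ℤ) (hu : ∀ g ∈ (Nat.gcd s h.natAbs).divisors, (M : ℤ) ∣ g * u g - t) (a b c d : ℤ) :
    FX M s h t k1 k2 a b c d = ∑ g ∈ (Nat.gcd s h.natAbs).divisors,
      CG (s * Nat.gcd s M / g) (M / Nat.gcd s M) (Nat.gcd s M) (u g) (u g) k2 ((h - s * k1) / g)
        ((a - g * u g) / (g * (M / Nat.gcd s M) : ℕ)) ((b - g * u g) / (g * (M / Nat.gcd s M) : ℕ))
        ((c - k2) / (M / Nat.gcd s M : ℕ)) ((d - k2) / (M / Nat.gcd s M : ℕ)) := by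
  classical
  have hcop : ∀ g ∈ (Nat.gcd s h.natAbs).divisors, Nat.Coprime g M := fun g hg =>
    FxA_cop M s g h h2 (Nat.dvd_of_mem_divisors hg)
  have hDs : Nat.gcd s M ∣ s := Nat.gcd_dvd_left _ _
  have hDM : Nat.gcd s M ∣ M := Nat.gcd_dvd_right _ _
  have hD0 : 0 < Nat.gcd s M := Nat.gcd_pos_of_pos_left _ hs
  generalize Nat.gcd s M = D at *
  obtain ⟨M', rfl⟩ : ∃ M', M = M' * D := ⟨M / D, (Nat.div_mul_cancel hDM).symm⟩
  rw [Nat.mul_div_cancel _ hD0] at *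
  have hM' : 0 < M' := Nat.pos_of_mul_pos_right hM
  have h1' : IsCoprime (M' : ℤ) (s : ℤ) := Nat.isCoprime_iff_coprime.2 h1
  have h2' : IsCoprime h (D : ℤ) := by
    rw [Int.isCoprime_iff_gcd_eq_one]
    simpa [Int.gcd] using h2
  have hMD : IsCoprime (M' : ℤ) (D : ℤ) := h1'.of_isCoprime_of_dvd_right (by exact_mod_cast hDs)
  unfold FX
  have hfil : ((Ioc a b) ×ˢ (Ioc c d)).filter (fun q : ℤ × ℤ => ((M' * D : ℕ) : ℤ) ∣ q.1 - t ∧
      ((M' * D : ℕ) : ℤ) ∣ q.2 - k2 ∧ ∃ x : ℤ, ((M' * D : ℕ) : ℤ) ∣ x - k1 ∧ s * x + q.1 * q.2 = h) =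
      ((Ioc a b) ×ˢ (Ioc c d)).filter (fun q : ℤ × ℤ => ((M' * D : ℕ) : ℤ) ∣ q.1 - t ∧ (M' : ℤ) ∣ q.2 - k2 ∧
        ((s * D : ℕ) : ℤ) ∣ q.1 * q.2 - (h - s * k1)) := by
    refine Finset.filter_congr fun q _ => ?_
    exact FxA_cond M' D s hDs h t k1 k2 h1' h2' h3 q.1 q.2
  rw [hfil]
  rw [Finset.card_eq_sum_card_fiberwise (f := fun q : ℤ × ℤ => Int.gcd q.1 ((s * D : ℕ) : ℤ))
    (t := (Nat.gcd s h.natAbs).divisors)]
  · refine Finset.sum_congr rfl fun g hg => ?_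
    have hgd := Nat.dvd_of_mem_divisors hg
    have hgs : g ∣ s := hgd.trans (Nat.gcd_dvd_left _ _)
    have hgh : g ∣ h.natAbs := hgd.trans (Nat.gcd_dvd_right _ _)
    have hg0 : 0 < g := Nat.pos_of_mem_divisors hg
    have hQ : s * D = g * (s * D / g) := (Nat.mul_div_cancel' (hgs.mul_right D)).symm
    have hH : h - s * k1 = g * ((h - s * k1) / g) := by
      have e1 : (g : ℤ) ∣ h - s * k1 :=
        dvd_sub (Int.natCast_dvd.2 hgh) (Dvd.dvd.mul_right (by exact_mod_cast hgs) _)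
      exact (Int.mul_ediv_cancel' e1).symm
    have hgM : IsCoprime (g : ℤ) ((M' * D : ℕ) : ℤ) := Nat.isCoprime_iff_coprime.2 (hcop g hg)
    rw [← FxA_fib M' D s g (s * D / g) hM' hg0 hQ (h - s * k1) ((h - s * k1) / g) (u g) t k2 a b c d hH hgM hMD
      (hu g hg), Finset.filter_filter]
    congr 1
    refine Finset.filter_congr fun q _ => ?_
    tauto
  · intro q hq
    rw [Finset.mem_coe, Finset.mem_filter] at hq
    rw [Finset.mem_coe]
    exact FxA_g M' D s hs hDs h t k1 k2 hh h2' h3 q.1 q.2 hq.2.1 hq.2.2.2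

/-- The numbers `u g` exist: `g` is prime to `M`. -/
theorem fx_u (M s : ℕ) (hM : 0 < M) (hs : 0 < s) (h : ℤ) (hh : h ≠ 0) (t : ℤ)
    (h1 : Nat.Coprime (M / Nat.gcd s M) s) (h2 : Nat.Coprime h.natAbs (Nat.gcd s M)) :
    ∃ u : ℕ → ℤ, ∀ g ∈ (Nat.gcd s h.natAbs).divisors, (M : ℤ) ∣ g * u g - t := by
  refine ⟨fun g => t * Nat.gcdA g M, fun g hg => ?_⟩
  have hc := FxA_cop M s g h h2 (Nat.dvd_of_mem_divisors hg)
  have e1 := Nat.gcd_eq_gcd_ab g M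
  rw [hc] at e1
  push_cast at e1
  refine ⟨-(t * Nat.gcdB g M), ?_⟩
  linear_combination (-t) * e1

end Pool.Agent.Wd33b62c
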