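import Pool.Agent.W_d33b62t5_h98.FxA
import Pool.Agent.W_fd120a_h34.Div

/-!
# Fixed `s1`: the estimate for one `g` (MP_d33b62, T5)
-/

set_option autoImplicit false

open Finset

namespace Pool.Agent.Wd33b62c

/-- The greatest common divisor of `H / g` and `Q`. `A = h / g`, `B = s / g`: `gcd(A - B k1, B D) = gcd(A, B)`, as
`D ∣ B` and `A` is prime to `D`. -/
theorem fx_gcd (s D g : ℕ) (hs : 0 < s) (h k1 : ℤ) (hh : h ≠ 0) (hD : D ∣ s) (hg : g ∣ Nat.gcd s h.natAbs)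
    (h2 : Nat.Coprime h.natAbs D) : Int.gcd ((h - s * k1) / g) ((s * D / g : ℕ) : ℤ) ≤ h.natAbs := by
  have hg1 : g ∣ s := hg.trans (Nat.gcd_dvd_left _ _)
  have hg2 : g ∣ h.natAbs := hg.trans (Nat.gcd_dvd_right _ _)
  have hg0 : 0 < g := Nat.pos_of_dvd_of_pos hg1 hs
  obtain ⟨B, hB⟩ := hg1
  obtain ⟨A, hA⟩ : (g : ℤ) ∣ h := Int.natCast_dvd.2 hg2
  have hgz : (g : ℤ) ≠ 0 := by exact_mod_cast hg0.ne'
  have e1 : (h - s * k1) / g = A - B * k1 := by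
    have h0 : h - s * k1 = g * (A - B * k1) := by
      rw [hA, hB]
      push_cast
      ring
    rw [h0]
    exact Int.mul_ediv_cancel_left _ hgz
  have e2 : s * D / g = B * D := by
    rw [hB, mul_assoc, Nat.mul_div_cancel_left _ hg0]
  rw [e1, e2]
  have hgD : Nat.Coprime g D := Nat.Coprime.coprime_dvd_left hg2 h2
  have hDB : D ∣ B := by
    have h0 : D ∣ g * B := by rw [← hB]; exact hD
    exact hgD.symm.dvd_of_dvd_mul_left h0
  have h3 : ((Int.gcd (A - B * k1) ((B * D : ℕ) : ℤ) : ℕ) : ℤ) ∣ A - B * k1 := Int.gcd_dvd_left ..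
  have h4 : Int.gcd (A - B * k1) ((B * D : ℕ) : ℤ) ∣ B * D := by
    have h0 : ((Int.gcd (A - B * k1) ((B * D : ℕ) : ℤ) : ℕ) : ℤ) ∣ ((B * D : ℕ) : ℤ) :=
      Int.gcd_dvd_right ..
    exact_mod_cast h0
  generalize Int.gcd (A - B * k1) ((B * D : ℕ) : ℤ) = e at h3 h4 ⊢
  have hAh : A.natAbs ∣ h.natAbs := by
    rw [hA, Int.natAbs_mul]
    exact dvd_mul_left _ _
  have h5 : Nat.Coprime e D := by
    have h6 : Nat.gcd e D ∣ B := (Nat.gcd_dvd_right e D).trans hDB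
    have h7 : ((Nat.gcd e D : ℕ) : ℤ) ∣ A - B * k1 := (Int.natCast_dvd_natCast.2 (Nat.gcd_dvd_left e D)).trans h3
    have h8 : ((Nat.gcd e D : ℕ) : ℤ) ∣ A := by
      have h9 : ((Nat.gcd e D : ℕ) : ℤ) ∣ B * k1 := (Int.natCast_dvd_natCast.2 h6).mul_right _
      have h10 := dvd_add h7 h9
      rwa [sub_add_cancel] at h10
    have h11 : Nat.gcd e D ∣ h.natAbs := (Int.natCast_dvd.1 h8).trans hAh
    have h12 : Nat.gcd e D ∣ Nat.gcd h.natAbs D := Nat.dvd_gcd h11 (Nat.gcd_dvd_right e D)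
    rw [h2] at h12
    exact Nat.dvd_one.1 h12
  have h6 : e ∣ B := h5.dvd_of_dvd_mul_right h4
  have h7 : (e : ℤ) ∣ A := by
    have h9 : (e : ℤ) ∣ B * k1 := (Int.natCast_dvd_natCast.2 h6).mul_right _
    have h10 := dvd_add h3 h9
    rwa [sub_add_cancel] at h10
  have hh' : 0 < h.natAbs := Int.natAbs_pos.2 hh
  exact Nat.le_of_dvd hh' ((Int.natCast_dvd.1 h7).trans hAh)

/-- Lengths: `⌊(b - r) / m⌋ - ⌊(a - r) / m⌋ = (b - a) / m + θ`. -/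
theorem fx_len (m : ℕ) (hm : 0 < m) (a b r : ℤ) :
    |(((b - r) / (m : ℤ) - (a - r) / (m : ℤ) : ℤ) : ℝ) - ((b - a : ℤ) : ℝ) / m| ≤ 1 := by
  have hmz : (0 : ℤ) < (m : ℤ) := by exact_mod_cast hm
  have hmr : (0 : ℝ) < (m : ℝ) := by exact_mod_cast hm
  have h1 := Int.emod_add_mul_ediv (b - r) (m : ℤ)
  have h2 := Int.emod_add_mul_ediv (a - r) (m : ℤ)
  have h3 := Int.emod_nonneg (b - r) hmz.ne'
  have h4 := Int.emod_nonneg (a - r) hmz.ne'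
  have h5 := Int.emod_lt_of_pos (b - r) hmz
  have h6 := Int.emod_lt_of_pos (a - r) hmz
  have h7 : (m : ℤ) * ((b - r) / (m : ℤ) - (a - r) / (m : ℤ)) - (b - a) =
      (a - r) % (m : ℤ) - (b - r) % (m : ℤ) := by linarith
  have h8 : (m : ℝ) * ((((b - r) / (m : ℤ) - (a - r) / (m : ℤ) : ℤ) : ℝ) - ((b - a : ℤ) : ℝ) / m) =
      (((a - r) % (m : ℤ) - (b - r) % (m : ℤ) : ℤ) : ℝ) := by
    rw [← h7]
    rw [mul_sub, mul_div_cancel₀ _ hmr.ne']
    push_cast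
    ring
  have h9 : |(((a - r) % (m : ℤ) - (b - r) % (m : ℤ) : ℤ) : ℝ)| ≤ (m : ℝ) := by
    rw [abs_le]
    constructor
    · have : -(m : ℤ) ≤ (a - r) % (m : ℤ) - (b - r) % (m : ℤ) := by linarith
      exact_mod_cast this
    · have : (a - r) % (m : ℤ) - (b - r) % (m : ℤ) ≤ (m : ℤ) := by linarith
      exact_mod_cast this
  rw [← h8, abs_mul, abs_of_pos hmr] at h9
  have h10 : (m : ℝ) * |(((b - r) / (m : ℤ) - (a - r) / (m : ℤ) : ℤ) : ℝ) - ((b - a : ℤ) : ℝ) / m| ≤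
      (m : ℝ) * 1 := by rw [mul_one]; exact h9
  exact le_of_mul_le_mul_left h10 hmr

/-- A crude bound: logarithms and divisors. -/
theorem fx_div : ∃ C : ℝ, 1 ≤ C ∧ ∀ Q : ℕ, 0 < Q →
    (18 + Real.log Q) * (1 + Real.log Q) * (Q.divisors.card : ℝ) * (Q.divisors.card : ℝ) ≤ C * (Q : ℝ) ^ (1 / 20 : ℝ) := by
  obtain ⟨C1, hC1, hd⟩ := FD120.divisor_bound (1 / 80) (by norm_num)
  refine ⟨max 1 (98 * 81 * C1 * C1), le_max_left _ _, fun Q hQ => ?_⟩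
  have hQ1 : (1 : ℝ) ≤ Q := by exact_mod_cast hQ
  have hQ0 : (0 : ℝ) < Q := by linarith
  set z : ℝ := (Q : ℝ) ^ (1 / 80 : ℝ) with hz
  have hz1 : 1 ≤ z := Real.one_le_rpow hQ1 (by norm_num)
  have hl0 : 0 ≤ Real.log Q := Real.log_nonneg hQ1
  have hl : Real.log Q ≤ 80 * z := by
    have h0 := Real.log_le_rpow_div hQ0.le (ε := 1 / 80) (by norm_num)
    rw [← hz] at h0
    linarith
  have h1 : 18 + Real.log Q ≤ 98 * z := by linarith
  have h2 : 1 + Real.log Q ≤ 81 * z := by linarith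
  have h3 : (Q.divisors.card : ℝ) ≤ C1 * z := hd Q hQ
  have hz20 : (Q : ℝ) ^ (1 / 20 : ℝ) = z * z * z * z := by
    rw [hz, ← Real.rpow_add hQ0, ← Real.rpow_add hQ0, ← Real.rpow_add hQ0]
    norm_num
  have hc0 : (0 : ℝ) ≤ (Q.divisors.card : ℝ) := Nat.cast_nonneg _
  calc (18 + Real.log Q) * (1 + Real.log Q) * (Q.divisors.card : ℝ) * (Q.divisors.card : ℝ)
      ≤ (98 * z) * (81 * z) * (C1 * z) * (C1 * z) := by gcongr
    _ = (98 * 81 * C1 * C1) * (z * z * z * z) := by ring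
    _ ≤ max 1 (98 * 81 * C1 * C1) * (z * z * z * z) :=
        mul_le_mul_of_nonneg_right (le_max_right _ _) (by positivity)
    _ = max 1 (98 * 81 * C1 * C1) * (Q : ℝ) ^ (1 / 20 : ℝ) := by rw [hz20]

theorem FxB_phM (M D B : ℕ) (hB : 0 < B) (hD0 : 0 < D) (hM : D ∣ M) (h1 : Nat.Coprime (M / D) B) :
    phM D (B * D) = phM M B := by
  unfold phM
  congr 1
  ext e
  simp only [Finset.mem_filter, Nat.mem_divisors]
  constructor
  · rintro ⟨⟨h2, h3⟩, h4⟩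
    have h5 : e ∣ B := h4.dvd_of_dvd_mul_right h2
    refine ⟨⟨h5, hB.ne'⟩, ?_⟩
    rw [← Nat.mul_div_cancel' hM]
    exact Nat.Coprime.mul_right h4 (Nat.Coprime.coprime_dvd_left h5 h1.symm)
  · rintro ⟨⟨h2, h3⟩, h4⟩
    exact ⟨⟨h2.mul_right D, (Nat.mul_pos hB hD0).ne'⟩, Nat.Coprime.coprime_dvd_right hM h4⟩

theorem FxB_unit (M s g D : ℕ) (h t k1 k2 u : ℤ) (hD1 : D ∣ s) (hD2 : D ∣ M) (h2 : Nat.Coprime h.natAbs D)
    (h3 : (M : ℤ) ∣ s * k1 + t * k2 - h) (hu : (M : ℤ) ∣ g * u - t) : IsCoprime u (D : ℤ) := by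
  have hDM : (D : ℤ) ∣ (M : ℤ) := Int.natCast_dvd_natCast.2 hD2
  have hDs : (D : ℤ) ∣ (s : ℤ) := Int.natCast_dvd_natCast.2 hD1
  have h4 : (D : ℤ) ∣ u * (g * k2) - h := by
    have h5 : (D : ℤ) ∣ (s * k1 + t * k2 - h) - s * k1 + (g * u - t) * k2 :=
      dvd_add (dvd_sub (hDM.trans h3) (hDs.mul_right _)) ((hDM.trans hu).mul_right _)
    have h6 : (s * k1 + t * k2 - h) - s * k1 + (g * u - t) * k2 = u * (g * k2) - h := by ring
    rwa [h6] at h5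
  obtain ⟨w, hw⟩ := h4
  have h5 : IsCoprime h (D : ℤ) := by
    rw [Int.isCoprime_iff_gcd_eq_one]
    exact h2
  have h6 := h5.add_mul_left_left w
  have h7 : h + (D : ℤ) * w = u * (g * k2) := by rw [← hw]; ring
  rw [h7] at h6
  exact h6.of_mul_left_left

/-- The error terms. -/
theorem FxB_err (C0 : ℝ) (hC0 : 1 ≤ C0) (hdiv : ∀ Q : ℕ, 0 < Q →
    (18 + Real.log Q) * (1 + Real.log Q) * (Q.divisors.card : ℝ) * (Q.divisors.card : ℝ) ≤ C0 * (Q : ℝ) ^ (1 / 20 : ℝ))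
    (X : ℝ) (hX : 1 ≤ X) (M' D g B : ℕ) (hM' : 0 < M') (hD : 0 < D) (hg : 0 < g) (hB : 0 < B)
    (hs1 : X / 4 ≤ (g * B : ℝ)) (hs2 : (g * B : ℝ) ≤ 2 * X) (hh : ℝ) (hh1 : (g : ℝ) ≤ hh) (hD1 : (B : ℝ) * D ≤ 2 * X * (D * M'))
    (ab cd Lx Ly CGr CXr ph : ℝ) (hab0 : 0 ≤ ab) (hcd0 : 0 ≤ cd) (hab : ab ≤ 4 * X) (hcd : cd ≤ 4 * X)
    (hLx0 : 0 ≤ Lx) (hLy0 : 0 ≤ Ly) (hLx : |Lx - ab / (g * M')| ≤ 1) (hLy : |Ly - cd / M'| ≤ 1)
    (hph0 : 0 ≤ ph) (hph1 : ph ≤ 1)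
    (h1 : |CGr - Ly / (B * D : ℕ) * CXr| ≤ (Lx / (B * D : ℕ) + 1 + Real.log (B * D : ℕ)) * (1 + Real.log (B * D : ℕ)) *
      ((B * D).divisors.card : ℝ) * (2 * hh * ((B * D : ℕ) : ℝ) ^ (3 / 4 : ℝ) * ((B * D).divisors.card : ℝ)))
    (h2 : |CXr - Lx / D * ph| ≤ ((B * D).divisors.card : ℝ)) :
    |CGr - ab * cd / ((g * B) * (D * M') ^ 2) * ph| ≤ (44 * C0 + 36) * hh * X ^ (4 / 5 : ℝ) * (D * M') := by
  have hQ : 0 < B * D := Nat.mul_pos hB hD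
  have hdQ := hdiv (B * D) hQ
  have hQr : (((B * D : ℕ) : ℝ)) = (B : ℝ) * D := by push_cast; ring
  have hM1 : (1 : ℝ) ≤ M' := by exact_mod_cast hM'
  have hD1' : (1 : ℝ) ≤ D := by exact_mod_cast hD
  have hg1 : (1 : ℝ) ≤ g := by exact_mod_cast hg
  have hB1 : (1 : ℝ) ≤ B := by exact_mod_cast hB
  have hhp : (1 : ℝ) ≤ hh := hg1.trans hh1
  have hQ1 : (1 : ℝ) ≤ ((B * D : ℕ) : ℝ) := by exact_mod_cast hQ
  have hτ1 : (1 : ℝ) ≤ ((B * D).divisors.card : ℝ) := by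
    have : 0 < (B * D).divisors.card := Finset.card_pos.2 ⟨1, Nat.one_mem_divisors.2 hQ.ne'⟩
    exact_mod_cast this
  have hl0 : 0 ≤ Real.log ((B * D : ℕ) : ℝ) := Real.log_nonneg hQ1
  rw [hQr] at h1 hdQ hQ1 hl0
  set q : ℝ := (B : ℝ) * D with hq
  set τ : ℝ := ((B * D).divisors.card : ℝ) with hτ
  set l : ℝ := Real.log q with hl
  have hq0 : 0 < q := by linarith
  have hX0 : 0 < X := by linarith
  -- `X ≤ 4 g q`
  have hXq : X ≤ 4 * (g * q) := by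
    have : (g : ℝ) * B * 1 ≤ g * B * D := mul_le_mul_of_nonneg_left hD1' (by positivity)
    rw [hq]
    have h0 : (g : ℝ) * (B * D) = g * B * D := by ring
    rw [h0]
    linarith
  have hXh : X ≤ 4 * hh * q := by
    have : (g : ℝ) * q ≤ hh * q := mul_le_mul_of_nonneg_right hh1 hq0.le
    linarith
  -- powers
  set R : ℝ := X ^ (4 / 5 : ℝ) with hR
  have hR1 : 1 ≤ R := Real.one_le_rpow hX (by norm_num)
  have hMM : (1 : ℝ) ≤ (D : ℝ) * M' := one_le_mul_of_one_le_of_one_le hD1' hM1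
  have hq45 : q ^ (4 / 5 : ℝ) ≤ 2 * R * (D * M') := by
    have e1 : q ^ (4 / 5 : ℝ) ≤ (2 * X * (D * M')) ^ (4 / 5 : ℝ) :=
      Real.rpow_le_rpow hq0.le hD1 (by norm_num)
    have e2 : (2 * X * ((D : ℝ) * M')) ^ (4 / 5 : ℝ) = 2 ^ (4 / 5 : ℝ) * R * ((D : ℝ) * M') ^ (4 / 5 : ℝ) := by
      rw [Real.mul_rpow (by positivity) (by positivity), Real.mul_rpow (by norm_num) hX0.le]
    have e3 : (2 : ℝ) ^ (4 / 5 : ℝ) ≤ 2 := by
      calc (2 : ℝ) ^ (4 / 5 : ℝ) ≤ (2 : ℝ) ^ (1 : ℝ) :=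
            Real.rpow_le_rpow_of_exponent_le (by norm_num) (by norm_num)
        _ = 2 := Real.rpow_one 2
    have e4 : ((D : ℝ) * M') ^ (4 / 5 : ℝ) ≤ (D : ℝ) * M' := by
      calc ((D : ℝ) * M') ^ (4 / 5 : ℝ) ≤ ((D : ℝ) * M') ^ (1 : ℝ) :=
            Real.rpow_le_rpow_of_exponent_le hMM (by norm_num)
        _ = (D : ℝ) * M' := Real.rpow_one _
    rw [e2] at e1
    refine e1.trans ?_
    have e5 : (0 : ℝ) ≤ ((D : ℝ) * M') ^ (4 / 5 : ℝ) := by positivity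
    have e6 : (0 : ℝ) ≤ R := by linarith
    gcongr
  have hq34 : q ^ (3 / 4 : ℝ) * q ^ (1 / 20 : ℝ) = q ^ (4 / 5 : ℝ) := by
    rw [← Real.rpow_add hq0]
    norm_num
  have hq120 : q ^ (1 / 20 : ℝ) ≤ q ^ (4 / 5 : ℝ) :=
    Real.rpow_le_rpow_of_exponent_le hQ1 (by norm_num)
  set y : ℝ := q ^ (3 / 4 : ℝ) with hy
  have hy0 : 0 ≤ y := by positivity
  set W : ℝ := R * (D * M') with hW
  have hW1 : 1 ≤ W := one_le_mul_of_one_le_of_one_le hR1 hMM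
  have hq45' : q ^ (4 / 5 : ℝ) ≤ 2 * W := by rw [hW]; linarith
  -- lengths
  have hxh0 : 0 ≤ ab / (g * M') := by positivity
  have hyh0 : 0 ≤ cd / M' := by positivity
  have hgM : (g : ℝ) ≤ g * M' := le_mul_of_one_le_right (by linarith) hM1
  have hxh : ab / (g * M') ≤ 4 * X / g := by
    gcongr
  have hxh4 : ab / (g * M') ≤ 4 * X := by
    exact hxh.trans (div_le_self (by linarith) hg1)
  have hyh4 : cd / M' ≤ 4 * X := (div_le_self hcd0 hM1).trans hcd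
  have hLx' := abs_le.1 hLx
  have hLy' := abs_le.1 hLy
  -- first error
  have E1 : (Lx / q + 1 + l) * (1 + l) * τ * (2 * hh * y * τ) ≤ 4 * C0 * hh * W := by
    have e1 : Lx / q ≤ 17 := by
      rw [div_le_iff₀ hq0]
      have e2 : 4 * X / g ≤ 16 * q := by
        rw [div_le_iff₀ (by linarith)]
        linarith
      linarith
    calc (Lx / q + 1 + l) * (1 + l) * τ * (2 * hh * y * τ)
        ≤ (18 + l) * (1 + l) * τ * (2 * hh * y * τ) := by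
          have e3 : Lx / q + 1 + l ≤ 18 + l := by linarith
          have e4 : 0 ≤ (1 + l) * τ * (2 * hh * y * τ) := by positivity
          calc (Lx / q + 1 + l) * (1 + l) * τ * (2 * hh * y * τ)
              = (Lx / q + 1 + l) * ((1 + l) * τ * (2 * hh * y * τ)) := by ring
            _ ≤ (18 + l) * ((1 + l) * τ * (2 * hh * y * τ)) := mul_le_mul_of_nonneg_right e3 e4
            _ = (18 + l) * (1 + l) * τ * (2 * hh * y * τ) := by ring
      _ = 2 * hh * y * ((18 + l) * (1 + l) * τ * τ) := by ring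
      _ ≤ 2 * hh * y * (C0 * q ^ (1 / 20 : ℝ)) := mul_le_mul_of_nonneg_left hdQ (by positivity)
      _ = 2 * hh * C0 * (y * q ^ (1 / 20 : ℝ)) := by ring
      _ = 2 * hh * C0 * q ^ (4 / 5 : ℝ) := by rw [hq34]
      _ ≤ 2 * hh * C0 * (2 * W) := mul_le_mul_of_nonneg_left hq45' (by positivity)
      _ = 4 * C0 * hh * W := by ring
  have E2 : Ly / q * τ ≤ 40 * C0 * hh * W := by
    have e1 : Ly / q ≤ 20 * hh := by
      rw [div_le_iff₀ hq0]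
      linarith
    have e2 : τ ≤ (18 + l) * (1 + l) * τ * τ := by
      have e3 : (1 : ℝ) ≤ (18 + l) * (1 + l) :=
        one_le_mul_of_one_le_of_one_le (by linarith) (by linarith)
      have e4 : (1 : ℝ) ≤ (18 + l) * (1 + l) * τ := one_le_mul_of_one_le_of_one_le e3 hτ1
      exact le_mul_of_one_le_left (by linarith) e4
    have e5 : τ ≤ 2 * C0 * W := by
      have e6 : C0 * q ^ (1 / 20 : ℝ) ≤ C0 * (2 * W) :=
        mul_le_mul_of_nonneg_left (hq120.trans hq45') (by linarith)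
      linarith
    calc Ly / q * τ ≤ (20 * hh) * (2 * C0 * W) := by
          have e7 : 0 ≤ Ly / q := by positivity
          have e8 : (0 : ℝ) ≤ τ := by linarith
          have e9 : (0 : ℝ) ≤ 20 * hh := by linarith
          exact mul_le_mul e1 e5 e8 e9
      _ = 40 * C0 * hh * W := by ring
  have E3 : |(Ly * Lx - cd / M' * (ab / (g * M'))) / (q * D) * ph| ≤ 36 * hh * W := by
    rw [abs_mul, abs_div, abs_of_nonneg hph0, abs_of_pos (by positivity : (0 : ℝ) < q * D)]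
    have e1 : |Ly * Lx - cd / M' * (ab / (g * M'))| ≤ 9 * X := by
      have e2 : Ly * Lx - cd / M' * (ab / (g * M')) =
          (Ly - cd / M') * (Lx - ab / (g * M')) + (Ly - cd / M') * (ab / (g * M')) +
            cd / M' * (Lx - ab / (g * M')) := by ring
      rw [e2]
      have e3 : |(Ly - cd / M') * (Lx - ab / (g * M'))| ≤ 1 := by
        rw [abs_mul]
        calc |Ly - cd / M'| * |Lx - ab / (g * M')| ≤ 1 * 1 :=
              mul_le_mul hLy hLx (abs_nonneg _) (by norm_num)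
          _ = 1 := by norm_num
      have e4 : |(Ly - cd / M') * (ab / (g * M'))| ≤ 4 * X := by
        rw [abs_mul, abs_of_nonneg hxh0]
        calc |Ly - cd / M'| * (ab / (g * M')) ≤ 1 * (4 * X) :=
              mul_le_mul hLy hxh4 hxh0 (by norm_num)
          _ = 4 * X := by ring
      have e5 : |cd / M' * (Lx - ab / (g * M'))| ≤ 4 * X := by
        rw [abs_mul, abs_of_nonneg hyh0]
        calc cd / M' * |Lx - ab / (g * M')| ≤ (4 * X) * 1 :=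
              mul_le_mul hyh4 hLx (abs_nonneg _) (by linarith)
          _ = 4 * X := by ring
      have e6 := abs_add_le ((Ly - cd / M') * (Lx - ab / (g * M')) + (Ly - cd / M') * (ab / (g * M')))
        (cd / M' * (Lx - ab / (g * M')))
      have e7 := abs_add_le ((Ly - cd / M') * (Lx - ab / (g * M'))) ((Ly - cd / M') * (ab / (g * M')))
      linarith
    have e8 : |Ly * Lx - cd / M' * (ab / (g * M'))| / (q * D) ≤ 36 * hh := by
      rw [div_le_iff₀ (by positivity)]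
      have e9 : q ≤ q * D := le_mul_of_one_le_right hq0.le hD1'
      have e10 : 36 * hh * q ≤ 36 * hh * (q * D) := mul_le_mul_of_nonneg_left e9 (by positivity)
      linarith
    calc |Ly * Lx - cd / M' * (ab / (g * M'))| / (q * D) * ph ≤ (36 * hh) * 1 :=
          mul_le_mul e8 hph1 hph0 (by positivity)
      _ ≤ 36 * hh * W := mul_le_mul_of_nonneg_left hW1 (by positivity)
  have hsplit : CGr - ab * cd / ((g * B) * (D * M') ^ 2) * ph =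
      (CGr - Ly / q * CXr) + Ly / q * (CXr - Lx / D * ph) +
        (Ly * Lx - cd / M' * (ab / (g * M'))) / (q * D) * ph := by
    have g0 : (g : ℝ) ≠ 0 := by positivity
    have g1 : (B : ℝ) ≠ 0 := by positivity
    have g2 : (D : ℝ) ≠ 0 := by positivity
    have g3 : (M' : ℝ) ≠ 0 := by positivity
    rw [hq]
    field_simp
    ring
  rw [hsplit]
  have t1 := abs_add_le ((CGr - Ly / q * CXr) + Ly / q * (CXr - Lx / D * ph))
    ((Ly * Lx - cd / M' * (ab / (g * M'))) / (q * D) * ph)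
  have t2 := abs_add_le (CGr - Ly / q * CXr) (Ly / q * (CXr - Lx / D * ph))
  have t3 : |Ly / q * (CXr - Lx / D * ph)| ≤ Ly / q * τ := by
    rw [abs_mul, abs_of_nonneg (by positivity : 0 ≤ Ly / q)]
    exact mul_le_mul_of_nonneg_left h2 (by positivity)
  have t4 : (44 * C0 + 36) * hh * R * (D * M') = 4 * C0 * hh * W + 40 * C0 * hh * W + 36 * hh * W := by
    rw [hW]; ring
  rw [t4]
  linarith

/-- **One `g`.**
Proof. `D = gcd(s, M)`, `M' = M / D`, `Q = s D / g`, `hy_main` with `B = (2 |h| Q³ τ³)^(1/4)` (`fx_gcd`), `hy_cnt`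
(`phM D Q = phM M (s / g)`: `e ∣ (s / g) D` and `(e, D) = 1` iff `e ∣ s / g` and `(e, M) = 1`), `fx_len` twice. Main
term: `(d - c) / M' / Q (b - a) / (g M') / D = (b - a) (d - c) / (s M²)`. Errors: `(b' - a') / Q ≤ 17`,
`Q ≤ 2 X M`, `Q ≥ X / (4 g)`, `fx_div`. -/
theorem fx_one : ∃ C : ℝ, 1 ≤ C ∧ ∀ (X : ℝ) (M s : ℕ) (h t k1 k2 : ℤ), 1 ≤ X → 0 < M → X / 4 ≤ s → (s : ℝ) ≤ 2 * X →
    h ≠ 0 → |(h : ℝ)| ≤ X → Nat.Coprime (M / Nat.gcd s M) s → Nat.Coprime h.natAbs (Nat.gcd s M) →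
    (M : ℤ) ∣ s * k1 + t * k2 - h → ∀ g ∈ (Nat.gcd s h.natAbs).divisors, ∀ u : ℤ, (M : ℤ) ∣ g * u - t →
    ∀ a b c d : ℤ, a ≤ b → c ≤ d → ((b - a : ℤ) : ℝ) ≤ 4 * X → ((d - c : ℤ) : ℝ) ≤ 4 * X →
    |(CG (s * Nat.gcd s M / g) (M / Nat.gcd s M) (Nat.gcd s M) u u k2 ((h - s * k1) / g)
        ((a - g * u) / (g * (M / Nat.gcd s M) : ℕ)) ((b - g * u) / (g * (M / Nat.gcd s M) : ℕ))
        ((c - k2) / (M / Nat.gcd s M : ℕ)) ((d - k2) / (M / Nat.gcd s M : ℕ)) : ℝ) -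
      ((b - a : ℤ) : ℝ) * ((d - c : ℤ) : ℝ) / (s * M ^ 2) * phM M (s / g)| ≤ C * |(h : ℝ)| * X ^ (4 / 5 : ℝ) * M := by
  obtain ⟨C0, hC0, hdiv⟩ := fx_div
  refine ⟨44 * C0 + 36, by linarith, ?_⟩
  intro X M s h t k1 k2 hX hM hs1 hs2 hh hhX hc1 hc2 h3 g hg u hu a b c d hab hcd habX hcdX
  have hs0 : 0 < s := by
    have : (0 : ℝ) < s := by linarith
    exact_mod_cast this
  have hgd : g ∣ Nat.gcd s h.natAbs := (Nat.mem_divisors.1 hg).1
  have hgs : g ∣ s := hgd.trans (Nat.gcd_dvd_left _ _)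
  have hgh : g ∣ h.natAbs := hgd.trans (Nat.gcd_dvd_right _ _)
  have hg0 : 0 < g := Nat.pos_of_dvd_of_pos hgs hs0
  have hDs : Nat.gcd s M ∣ s := Nat.gcd_dvd_left _ _
  have hDM : Nat.gcd s M ∣ M := Nat.gcd_dvd_right _ _
  have hD0 : 0 < Nat.gcd s M := Nat.gcd_pos_of_pos_left _ hs0
  have hunit := FxB_unit M s g (Nat.gcd s M) h t k1 k2 u hDs hDM hc2 h3 hu
  have hgcd := fx_gcd s (Nat.gcd s M) g hs0 h k1 hh hDs hgd hc2
  generalize hD : Nat.gcd s M = D at *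
  obtain ⟨M', hM'⟩ := hDM
  have hMD : M / D = M' := by rw [hM', Nat.mul_div_cancel_left _ hD0]
  rw [hMD] at hc1 ⊢
  obtain ⟨B, hB⟩ := hgs
  have hB0 : 0 < B := by
    rcases Nat.eq_zero_or_pos B with h0 | h0
    · rw [h0, mul_zero] at hB
      omega
    · exact h0
  have hM'0 : 0 < M' := by
    rcases Nat.eq_zero_or_pos M' with h0 | h0
    · rw [h0, mul_zero] at hM'
      omega
    · exact h0
  have hQ : s * D / g = B * D := by
    rw [hB, mul_assoc, Nat.mul_div_cancel_left _ hg0]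
  have hsg : s / g = B := by rw [hB, Nat.mul_div_cancel_left _ hg0]
  rw [hQ] at hgcd ⊢
  rw [hsg]
  have hQ0 : 0 < B * D := Nat.mul_pos hB0 hD0
  have hcoB : Nat.Coprime M' B := Nat.Coprime.coprime_dvd_right ⟨g, by rw [hB, mul_comm]⟩ hc1
  have hcoD : Nat.Coprime M' D := Nat.Coprime.coprime_dvd_right hDs hc1
  have hcoQ : Nat.Coprime (B * D) M' := (Nat.Coprime.mul_right hcoB hcoD).symm
  have hph : phM D (B * D) = phM M B := FxB_phM M D B hB0 hD0 ⟨M', hM'⟩ (by rw [hMD]; exact hcoB)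
  have hhn : 0 < h.natAbs := Int.natAbs_pos.2 hh
  have hhabs : |(h : ℝ)| = (h.natAbs : ℝ) := by
    rw [← Int.cast_abs, Int.abs_eq_natAbs, Int.cast_natCast]
  have hgM0 : (0 : ℤ) < ((g * M' : ℕ) : ℤ) := by exact_mod_cast Nat.mul_pos hg0 hM'0
  have hM0 : (0 : ℤ) < ((M' : ℕ) : ℤ) := by exact_mod_cast hM'0
  have hab' : (a - g * u) / ((g * M' : ℕ) : ℤ) ≤ (b - g * u) / ((g * M' : ℕ) : ℤ) :=
    Int.ediv_le_ediv hgM0 (by linarith)
  have hcd' : (c - k2) / ((M' : ℕ) : ℤ) ≤ (d - k2) / ((M' : ℕ) : ℤ) :=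
    Int.ediv_le_ediv hM0 (by linarith)
  have hl1 := fx_len (g * M') (Nat.mul_pos hg0 hM'0) a b (g * u)
  have hl2 := fx_len M' hM'0 c d k2
  have hτ1 : (1 : ℝ) ≤ ((B * D).divisors.card : ℝ) := by
    have : 0 < (B * D).divisors.card := Finset.card_pos.2 ⟨1, Nat.one_mem_divisors.2 hQ0.ne'⟩
    exact_mod_cast this
  have hq1 : (1 : ℝ) ≤ ((B * D : ℕ) : ℝ) := by exact_mod_cast hQ0
  have hh1 : (1 : ℝ) ≤ |(h : ℝ)| := by rw [hhabs]; exact_mod_cast hhn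
  have hBB : 2 * (Int.gcd ((h - s * k1) / g) ((B * D : ℕ) : ℤ) : ℝ) * ((B * D : ℕ) : ℝ) ^ 3 *
      ((B * D).divisors.card : ℝ) ^ 3 ≤
      (2 * |(h : ℝ)| * ((B * D : ℕ) : ℝ) ^ (3 / 4 : ℝ) * ((B * D).divisors.card : ℝ)) ^ 4 := by
    have e1 : (((B * D : ℕ) : ℝ) ^ (3 / 4 : ℝ)) ^ 4 = ((B * D : ℕ) : ℝ) ^ 3 := by
      rw [← Real.rpow_natCast, ← Real.rpow_mul (by linarith), ← Real.rpow_natCast]
      norm_num
    have e2 : (Int.gcd ((h - s * k1) / g) ((B * D : ℕ) : ℤ) : ℝ) ≤ |(h : ℝ)| := by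
      rw [hhabs]
      exact_mod_cast hgcd
    rw [mul_pow, mul_pow, mul_pow, e1]
    generalize (Int.gcd ((h - s * k1) / g) ((B * D : ℕ) : ℤ) : ℝ) = γ at e2
    generalize |(h : ℝ)| = η at e2 hh1
    generalize ((B * D).divisors.card : ℝ) = τ at hτ1
    generalize ((B * D : ℕ) : ℝ) = q at hq1
    have e3 : η ≤ η ^ 4 := by
      calc η = η ^ 1 := (pow_one η).symm
        _ ≤ η ^ 4 := pow_le_pow_right₀ hh1 (by norm_num)
    have e4 : τ ^ 3 ≤ τ ^ 4 := pow_le_pow_right₀ hτ1 (by norm_num)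
    have e5 : 0 ≤ q ^ 3 := by positivity
    have e6 : 0 ≤ τ ^ 3 := by positivity
    calc 2 * γ * q ^ 3 * τ ^ 3 ≤ 2 * η ^ 4 * q ^ 3 * τ ^ 3 := by
          have : 2 * γ ≤ 2 * η ^ 4 := by linarith
          gcongr
      _ ≤ 2 * η ^ 4 * q ^ 3 * τ ^ 4 := by gcongr
      _ ≤ 2 ^ 4 * η ^ 4 * q ^ 3 * τ ^ 4 := by
          have h0 : (0 : ℝ) ≤ η ^ 4 * q ^ 3 * τ ^ 4 := by positivity
          have h1 : 2 * η ^ 4 * q ^ 3 * τ ^ 4 = 2 * (η ^ 4 * q ^ 3 * τ ^ 4) := by ring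
          have h2 : 2 ^ 4 * η ^ 4 * q ^ 3 * τ ^ 4 = 16 * (η ^ 4 * q ^ 3 * τ ^ 4) := by ring
          rw [h1, h2]
          linarith
  have hhy := hy_main (B * D) M' D hQ0 hM'0 hcoQ (dvd_mul_left _ _) u k2 u ((h - s * k1) / g)
    (2 * |(h : ℝ)| * ((B * D : ℕ) : ℝ) ^ (3 / 4 : ℝ) * ((B * D).divisors.card : ℝ))
    (mul_nonneg (mul_nonneg (mul_nonneg (by norm_num) (abs_nonneg _)) (Real.rpow_nonneg (Nat.cast_nonneg _) _))
      (Nat.cast_nonneg _)) hBB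
    ((a - g * u) / ((g * M' : ℕ) : ℤ)) ((b - g * u) / ((g * M' : ℕ) : ℤ))
    ((c - k2) / ((M' : ℕ) : ℤ)) ((d - k2) / ((M' : ℕ) : ℤ)) hab' hcd'
  have hcn := hy_cnt (B * D) M' D hQ0 hM'0 hcoQ (dvd_mul_left _ _) u u hunit
    ((a - g * u) / ((g * M' : ℕ) : ℤ)) ((b - g * u) / ((g * M' : ℕ) : ℤ)) hab'
  rw [hph] at hcn
  have hpb := phM_bd M B hB0
  have hsr : (s : ℝ) = (g : ℝ) * B := by rw [hB]; push_cast; ring
  have hMr : (M : ℝ) = (D : ℝ) * M' := by rw [hM']; push_cast; ring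
  have hgh' : (g : ℝ) ≤ |(h : ℝ)| := by
    rw [hhabs]
    exact_mod_cast Nat.le_of_dvd hhn hgh
  have hfin := FxB_err C0 hC0 hdiv X hX M' D g B hM'0 hD0 hg0 hB0 (by rw [← hsr]; exact hs1)
    (by rw [← hsr]; exact hs2) |(h : ℝ)| hgh' ?_ ((b - a : ℤ) : ℝ) ((d - c : ℤ) : ℝ)
    (((b - g * u) / ((g * M' : ℕ) : ℤ) - (a - g * u) / ((g * M' : ℕ) : ℤ) : ℤ) : ℝ)
    (((d - k2) / ((M' : ℕ) : ℤ) - (c - k2) / ((M' : ℕ) : ℤ) : ℤ) : ℝ)
    _ _ (phM M B) ?_ ?_ habX hcdX ?_ ?_ ?_ hl2 hpb.1 hpb.2 hhy hcn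
  · rw [hsr, hMr]
    exact hfin
  · -- `B D ≤ 2 X D M'`
    have e1 : (B : ℝ) ≤ g * B := by
      have : (1 : ℝ) ≤ g := by exact_mod_cast hg0
      exact le_mul_of_one_le_left (Nat.cast_nonneg _) this
    have e2 : (B : ℝ) ≤ 2 * X := by rw [← hsr] at e1; linarith
    have e3 : (1 : ℝ) ≤ M' := by exact_mod_cast hM'0
    have e4 : (1 : ℝ) ≤ D := by exact_mod_cast hD0
    have e5 : (D : ℝ) ≤ D * M' := le_mul_of_one_le_right (Nat.cast_nonneg _) e3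
    have e6 : (0 : ℝ) ≤ 2 * X := by linarith
    exact mul_le_mul e2 e5 (by linarith) e6
  · exact_mod_cast sub_nonneg.2 hab
  · exact_mod_cast sub_nonneg.2 hcd
  · exact_mod_cast sub_nonneg.2 hab'
  · exact_mod_cast sub_nonneg.2 hcd'
  · have e1 : ((g * M' : ℕ) : ℝ) = (g : ℝ) * M' := by push_cast; ring
    rw [← e1]
    exact hl1

end Pool.Agent.Wd33b62c
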