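import Pool.Agent.W_d33b62t5_h98.FxB

/-!
# Fixed `s1`: the result (MP_d33b62, T5)
-/

set_option autoImplicit false

open Finset

namespace Pool.Agent.Wd33b62c

/-- The arithmetic factor. -/
noncomputable def fM (M : ℕ) (h : ℤ) (s : ℕ) : ℝ := ∑ g ∈ (Nat.gcd s h.natAbs).divisors, phM M (s / g)

/-- **Fixed `s1`.** Sum of `fx_one` over the at most `|h|` divisors `g` (`fx_split`, `fx_u`). -/
theorem fx_main : ∃ C : ℝ, 1 ≤ C ∧ ∀ (X : ℝ) (M s : ℕ) (h t k1 k2 : ℤ), 1 ≤ X → 0 < M → X / 4 ≤ s → (s : ℝ) ≤ 2 * X →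
    h ≠ 0 → |(h : ℝ)| ≤ X → Nat.Coprime (M / Nat.gcd s M) s → Nat.Coprime h.natAbs (Nat.gcd s M) →
    (M : ℤ) ∣ s * k1 + t * k2 - h →
    ∀ a b c d : ℤ, a ≤ b → c ≤ d → ((b - a : ℤ) : ℝ) ≤ 4 * X → ((d - c : ℤ) : ℝ) ≤ 4 * X →
    |(FX M s h t k1 k2 a b c d : ℝ) - ((b - a : ℤ) : ℝ) * ((d - c : ℤ) : ℝ) / (s * M ^ 2) * fM M h s| ≤
      C * (h : ℝ) ^ 2 * X ^ (4 / 5 : ℝ) * M := by
  obtain ⟨C, hC, hone⟩ := fx_one
  refine ⟨C, hC, ?_⟩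
  intro X M s h t k1 k2 hX hM hXs hsX hh hhX hco1 hco2 hdiv a b c d hab hcd hba hdc
  have hs : 0 < s := by
    have : (0 : ℝ) < s := by linarith
    exact_mod_cast this
  obtain ⟨u, hu⟩ := fx_u M s hM hs h hh t hco1 hco2
  rw [fx_split M s hM hs h hh t k1 k2 hco1 hco2 hdiv u hu a b c d, fM, mul_sum]
  push_cast
  rw [← sum_sub_distrib]
  have hcard : ((Nat.gcd s h.natAbs).divisors.card : ℝ) ≤ |(h : ℝ)| := by
    have h1 : (Nat.gcd s h.natAbs).divisors.card ≤ Nat.gcd s h.natAbs :=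
      Nat.card_divisors_le_self _
    have h2 : Nat.gcd s h.natAbs ≤ h.natAbs :=
      Nat.le_of_dvd (Int.natAbs_pos.2 hh) (Nat.gcd_dvd_right _ _)
    have h3 : ((h.natAbs : ℕ) : ℝ) = |(h : ℝ)| := by
      rw [← Int.cast_abs, Int.abs_eq_natAbs]
      simp
    rw [← h3]
    exact_mod_cast h1.trans h2
  have hb : ∀ g ∈ (Nat.gcd s h.natAbs).divisors, |(CG (s * Nat.gcd s M / g) (M / Nat.gcd s M)
      (Nat.gcd s M) (u g) (u g) k2 ((h - s * k1) / g)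
        ((a - g * u g) / (g * (M / Nat.gcd s M) : ℕ)) ((b - g * u g) / (g * (M / Nat.gcd s M) : ℕ))
        ((c - k2) / (M / Nat.gcd s M : ℕ)) ((d - k2) / (M / Nat.gcd s M : ℕ)) : ℝ) -
      ((b - a : ℤ) : ℝ) * ((d - c : ℤ) : ℝ) / (s * M ^ 2) * phM M (s / g)| ≤
      C * |(h : ℝ)| * X ^ (4 / 5 : ℝ) * M := fun g hg =>
    hone X M s h t k1 k2 hX hM hXs hsX hh hhX hco1 hco2 hdiv g hg (u g) (hu g hg) a b c d hab hcd
      hba hdc
  have hK : 0 ≤ C * |(h : ℝ)| * X ^ (4 / 5 : ℝ) * M := by positivity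
  refine (abs_sum_le_sum_abs _ _).trans ?_
  calc _ ≤ ∑ _g ∈ (Nat.gcd s h.natAbs).divisors, C * |(h : ℝ)| * X ^ (4 / 5 : ℝ) * M := by
        refine sum_le_sum fun g hg => ?_
        have := hb g hg
        push_cast at this
        exact this
    _ = ((Nat.gcd s h.natAbs).divisors.card : ℝ) * (C * |(h : ℝ)| * X ^ (4 / 5 : ℝ) * M) := by
        rw [sum_const, nsmul_eq_mul]
    _ ≤ |(h : ℝ)| * (C * |(h : ℝ)| * X ^ (4 / 5 : ℝ) * M) := mul_le_mul_of_nonneg_right hcard hK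
    _ = C * (h : ℝ) ^ 2 * X ^ (4 / 5 : ℝ) * M := by
        rw [← sq_abs (h : ℝ)]
        ring

end Pool.Agent.Wd33b62c
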