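import Pool.Agent.W_d33b62t5_h98.GeD

/-!
# Geometry: bounds, compactness (MP_d33b62, T5)
-/

set_option autoImplicit false

open MeasureTheory

namespace Pool.Agent.Wd33b62c

private theorem GeA_x {η x y : ℝ} (hη0 : 0 ≤ η) (hη : η ≤ 1 / 100) (h1 : |y| ≤ x + η)
    (h2 : 1 / 2 - η ≤ x ^ 2 + y ^ 2) (h3 : x ^ 2 + y ^ 2 ≤ 1 + η) :
    2 / 5 ≤ x ∧ x ≤ 11 / 10 ∧ |y| ≤ 11 / 10 := by
  have h0 := abs_nonneg y
  have h4 : y ^ 2 ≤ (x + η) ^ 2 := by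
    rw [← sq_abs y]
    exact pow_le_pow_left₀ h0 h1 2
  refine ⟨?_, ?_, ?_⟩
  · by_contra hx
    push Not at hx
    have h5 : (x + η) ^ 2 ≤ (41 / 100) ^ 2 :=
      pow_le_pow_left₀ (h0.trans h1) (by linarith) 2
    have h7 : -(1 / 100) ≤ x := by linarith
    have h6 : x ^ 2 ≤ (2 / 5) ^ 2 := by nlinarith
    nlinarith
  · nlinarith [sq_nonneg y]
  · have h7 : |y| ^ 2 = y ^ 2 := sq_abs y
    nlinarith [sq_nonneg x]

/-- Bounds in the relaxed region.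
Proof. `x = u + c k`, `y = v + c t`, `x' = u - c k`, `y' = v - c t`: `x ^ 2 + y ^ 2 ≤ 1 + η`,
`|y| ≤ x + η`, so `(x + η) ^ 2 + x ^ 2 ≥ 1 / 2 - η`, `x ≥ 0` or small; `u = (x + x') / 2` and so on. -/
theorem ge_bd (c η : ℝ) (hc : 1 ≤ c) (hη0 : 0 ≤ η) (hη : η ≤ 1 / 100) (u v k t : ℝ) (h : (u, v, k, t) ∈ R4 c η) :
    2 / 5 ≤ u ∧ u ≤ 11 / 10 ∧ |v| ≤ 11 / 10 ∧ |k| ≤ 11 / 10 ∧ |t| ≤ 11 / 10 := by
  obtain ⟨_, h1, h2, h3, h4, h5, h6⟩ := h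
  simp only at h1 h2 h3 h4 h5 h6
  obtain ⟨a1, a2, a3⟩ := GeA_x hη0 hη h1 h3 h4
  obtain ⟨b1, b2, b3⟩ := GeA_x hη0 hη h2 h5 h6
  rw [abs_le] at a3 b3
  have hck : ∀ z : ℝ, |c * z| ≤ 11 / 10 → |z| ≤ 11 / 10 := by
    intro z hz
    rw [abs_mul, abs_of_nonneg (by linarith : (0 : ℝ) ≤ c)] at hz
    nlinarith [abs_nonneg z]
  refine ⟨by linarith, by linarith, ?_, hck k ?_, hck t ?_⟩
  · rw [abs_le]
    constructor <;> linarith [a3.1, a3.2, b3.1, b3.2]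
  · rw [abs_le]
    constructor <;> linarith
  · rw [abs_le]
    constructor <;> linarith [a3.1, a3.2, b3.1, b3.2]

theorem ge_u (c : ℝ) (hc : 1 ≤ c) (p : ℝ × ℝ × ℝ) (h : p ∈ E3 c) : 1 / 2 ≤ p.1 := by
  obtain ⟨k, _, h1, h2, h3, _, h5, _⟩ := h
  simp only at h1 h2 h3 h5
  have key : ∀ x y : ℝ, |y| ≤ x + 0 → 1 / 2 - 0 ≤ x ^ 2 + y ^ 2 → 1 / 2 ≤ x := by
    intro x y g1 g2
    have g0 := abs_nonneg y
    have g3 : y ^ 2 ≤ (x + 0) ^ 2 := by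
      rw [← sq_abs y]
      exact pow_le_pow_left₀ g0 g1 2
    nlinarith
  have a1 := key _ _ h1 h3
  have a2 := key _ _ h2 h5
  linarith

theorem ge_cpt (c : ℝ) (hc : 1 ≤ c) : IsCompact (E3 c) := by
  have hcl : IsClosed (R4 c 0) := by
    have e : R4 c 0 = {q : ℝ × ℝ × ℝ × ℝ | |q.1 * q.2.2.1 + q.2.1 * q.2.2.2| ≤ 0} ∩
        ({q | |q.2.1 + c * q.2.2.2| ≤ q.1 + c * q.2.2.1 + 0} ∩
        ({q | |q.2.1 - c * q.2.2.2| ≤ q.1 - c * q.2.2.1 + 0} ∩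
        ({q | 1 / 2 - 0 ≤ (q.1 + c * q.2.2.1) ^ 2 + (q.2.1 + c * q.2.2.2) ^ 2} ∩
        ({q | (q.1 + c * q.2.2.1) ^ 2 + (q.2.1 + c * q.2.2.2) ^ 2 ≤ 1 + 0} ∩
        ({q | 1 / 2 - 0 ≤ (q.1 - c * q.2.2.1) ^ 2 + (q.2.1 - c * q.2.2.2) ^ 2} ∩
        {q | (q.1 - c * q.2.2.1) ^ 2 + (q.2.1 - c * q.2.2.2) ^ 2 ≤ 1 + 0}))))) := rfl
    rw [e]
    refine IsClosed.inter (isClosed_le (by fun_prop) (by fun_prop)) ?_
    refine IsClosed.inter (isClosed_le (by fun_prop) (by fun_prop)) ?_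
    refine IsClosed.inter (isClosed_le (by fun_prop) (by fun_prop)) ?_
    refine IsClosed.inter (isClosed_le (by fun_prop) (by fun_prop)) ?_
    refine IsClosed.inter (isClosed_le (by fun_prop) (by fun_prop)) ?_
    refine IsClosed.inter (isClosed_le (by fun_prop) (by fun_prop)) ?_
    exact isClosed_le (by fun_prop) (by fun_prop)
  have hcp : IsCompact (R4 c 0) := by
    refine IsCompact.of_isClosed_subset
      ((isCompact_Icc (a := (-(11 / 10) : ℝ)) (b := 11 / 10)).prod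
        ((isCompact_Icc (a := (-(11 / 10) : ℝ)) (b := 11 / 10)).prod
          ((isCompact_Icc (a := (-(11 / 10) : ℝ)) (b := 11 / 10)).prod
            (isCompact_Icc (a := (-(11 / 10) : ℝ)) (b := 11 / 10))))) hcl ?_
    rintro ⟨u, v, k, t⟩ h
    obtain ⟨h1, h2, h3, h4, h5⟩ := ge_bd c 0 hc le_rfl (by norm_num) u v k t h
    rw [abs_le] at h3 h4 h5
    exact ⟨⟨by linarith, h2⟩, h3, h4, h5⟩
  have e : E3 c = (fun q : ℝ × ℝ × ℝ × ℝ => (q.1, q.2.1, q.2.2.2)) '' R4 c 0 := by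
    ext p
    constructor
    · rintro ⟨k, hk⟩
      exact ⟨(p.1, p.2.1, k, p.2.2), hk, rfl⟩
    · rintro ⟨⟨u, v, k, t⟩, hq, rfl⟩
      exact ⟨k, hq⟩
  rw [e]
  exact hcp.image (by fun_prop)

end Pool.Agent.Wd33b62c
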