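import Pool.Agent.W_d33b62t5_h98.GeD

/-!
# Geometry: the variable tau, the last integral (MP_d33b62, T5)
-/

set_option autoImplicit false

open MeasureTheory

namespace Pool.Agent.Wd33b62c

theorem geB_cone (u v τ : ℝ) (hu : 0 < u) :
    (|v + u * τ| ≤ u + -(v * τ) ∧ |v - u * τ| ≤ u - -(v * τ)) ↔
      |v| * (1 + |τ|) ≤ u * (1 - |τ|) := by
  rw [abs_le, abs_le]
  constructor
  · rintro ⟨⟨h1, h2⟩, ⟨h3, h4⟩⟩
    have ht1 : τ ≤ 1 := by
      by_contra h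
      push Not at h
      nlinarith
    have ht2 : -1 ≤ τ := by
      by_contra h
      push Not at h
      nlinarith
    rcases abs_cases v with ⟨e1, e2⟩ | ⟨e1, e2⟩ <;> rcases abs_cases τ with ⟨e3, e4⟩ | ⟨e3, e4⟩ <;>
      rw [e1, e3] <;> nlinarith
  · intro h
    have h0 : 0 ≤ |v| * (1 + |τ|) := by positivity
    have ht : |τ| ≤ 1 := by
      by_contra h'
      push Not at h'
      nlinarith
    have hp := mul_nonneg (abs_nonneg v) (abs_nonneg τ)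
    have hq := mul_nonneg hu.le (abs_nonneg τ)
    rcases abs_cases v with ⟨e1, e2⟩ | ⟨e1, e2⟩ <;> rcases abs_cases τ with ⟨e3, e4⟩ | ⟨e3, e4⟩ <;>
      rw [e1, e3] at h hp <;> rw [e3] at hq <;> refine ⟨⟨?_, ?_⟩, ⟨?_, ?_⟩⟩ <;> nlinarith

/-- The region in the variable `τ`, `t = u τ / c`.
Proof. `k = - v t / u`, `c k = - τ v`, `c t = τ u`; `z = (u - τ v, v + τ u)`, `z' = (u + τ v, v - τ u)`,
`|z| ^ 2 = |z'| ^ 2 = (u ^ 2 + v ^ 2) (1 + τ ^ 2)`; the two cone conditions say `|v| (1 + τ) ≤ u (1 - τ)`,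
`|v| (1 - τ) ≤ u (1 + τ)`. -/
theorem ge_tau (c : ℝ) (hc : 1 ≤ c) (u v τ : ℝ) (hu : 0 < u) : (u, v, u * τ / c) ∈ E3 c ↔
    (|v| * (1 + |τ|) ≤ u * (1 - |τ|) ∧ 1 / 2 ≤ (u ^ 2 + v ^ 2) * (1 + τ ^ 2) ∧
      (u ^ 2 + v ^ 2) * (1 + τ ^ 2) ≤ 1) := by
  have hc0 : c ≠ 0 := by positivity
  have e1 : c * (u * τ / c) = u * τ := by field_simp
  have e2 : (u + -(v * τ)) ^ 2 + (v + u * τ) ^ 2 = (u ^ 2 + v ^ 2) * (1 + τ ^ 2) := by ring
  have e3 : (u - -(v * τ)) ^ 2 + (v - u * τ) ^ 2 = (u ^ 2 + v ^ 2) * (1 + τ ^ 2) := by ring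
  have key : ∀ k : ℝ, c * k = -(v * τ) → ((u, v, k, u * τ / c) ∈ R4 c 0 ↔
      (u * k + v * (u * τ / c) = 0 ∧ (|v| * (1 + |τ|) ≤ u * (1 - |τ|) ∧
        1 / 2 ≤ (u ^ 2 + v ^ 2) * (1 + τ ^ 2) ∧ (u ^ 2 + v ^ 2) * (1 + τ ^ 2) ≤ 1))) := by
    intro k hk
    have hR : (u, v, k, u * τ / c) ∈ R4 c 0 ↔ (|u * k + v * (u * τ / c)| ≤ 0 ∧
      |v + c * (u * τ / c)| ≤ u + c * k + 0 ∧ |v - c * (u * τ / c)| ≤ u - c * k + 0 ∧
      1 / 2 - 0 ≤ (u + c * k) ^ 2 + (v + c * (u * τ / c)) ^ 2 ∧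
      (u + c * k) ^ 2 + (v + c * (u * τ / c)) ^ 2 ≤ 1 + 0 ∧
      1 / 2 - 0 ≤ (u - c * k) ^ 2 + (v - c * (u * τ / c)) ^ 2 ∧
      (u - c * k) ^ 2 + (v - c * (u * τ / c)) ^ 2 ≤ 1 + 0) := Iff.rfl
    rw [hR, abs_nonpos_iff, e1, hk, e2, e3, add_zero, add_zero, add_zero, sub_zero,
      ← geB_cone u v τ hu]
    tauto
  constructor
  · rintro ⟨k, hk⟩
    have h0 : |u * k + v * (u * τ / c)| ≤ 0 := hk.1
    rw [abs_nonpos_iff] at h0
    have hk' : c * k = -(v * τ) := by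
      have h1 : u * (c * k + v * τ) = 0 := by
        have : u * (c * k + v * τ) = c * (u * k + v * (u * τ / c)) := by
          rw [mul_add c, ← mul_assoc c v, mul_comm c v, mul_assoc v c, e1]
          ring
        rw [this, h0, mul_zero]
      have h2 := (mul_eq_zero.1 h1).resolve_left hu.ne'
      linarith
    exact ((key k hk').1 hk).2
  · intro h
    have hk : c * (-(v * τ) / c) = -(v * τ) := by field_simp
    refine ⟨-(v * τ) / c, (key _ hk).2 ⟨?_, h⟩⟩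
    field_simp
    ring

theorem geB_pos : ∫ τ in (0 : ℝ)..1, (Real.pi / 2 - 2 * Real.arctan |τ|) / (4 * (1 + τ ^ 2)) =
    Real.pi ^ 2 / 64 := by
  have h1 : ∫ τ in (0 : ℝ)..1, (Real.pi / 2 - 2 * Real.arctan |τ|) / (4 * (1 + τ ^ 2)) =
      ∫ τ in (0 : ℝ)..1, (Real.pi / 2 - 2 * Real.arctan τ) / (4 * (1 + τ ^ 2)) := by
    refine intervalIntegral.integral_congr fun τ hτ => ?_
    rw [Set.uIcc_of_le zero_le_one] at hτ
    show (Real.pi / 2 - 2 * Real.arctan |τ|) / (4 * (1 + τ ^ 2)) = _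
    rw [abs_of_nonneg hτ.1]
  rw [h1]
  have hd : ∀ τ ∈ Set.uIcc (0 : ℝ) 1, HasDerivAt
      (fun τ => (Real.pi / 2 * Real.arctan τ - Real.arctan τ ^ 2) / 4)
      ((Real.pi / 2 - 2 * Real.arctan τ) / (4 * (1 + τ ^ 2))) τ := by
    intro τ _
    have ha := Real.hasDerivAt_arctan τ
    have h2 := ((ha.const_mul (Real.pi / 2)).sub (ha.pow 2)).div_const 4
    refine HasDerivAt.congr_deriv
      (f := fun τ => (Real.pi / 2 * Real.arctan τ - Real.arctan τ ^ 2) / 4) h2 ?_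
    have : (1 + τ ^ 2) ≠ 0 := by positivity
    push_cast
    rw [pow_one]
    field_simp
  have hi : IntervalIntegrable (fun τ : ℝ => (Real.pi / 2 - 2 * Real.arctan τ) /
      (4 * (1 + τ ^ 2))) volume 0 1 := by
    apply Continuous.intervalIntegrable
    refine Continuous.div (by fun_prop) (by fun_prop) fun τ => by positivity
  rw [intervalIntegral.integral_eq_sub_of_hasDerivAt hd hi, Real.arctan_one, Real.arctan_zero]
  ring

theorem geB_neg : ∫ τ in (-1 : ℝ)..0, (Real.pi / 2 - 2 * Real.arctan |τ|) / (4 * (1 + τ ^ 2)) =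
    Real.pi ^ 2 / 64 := by
  have h1 : ∫ τ in (-1 : ℝ)..0, (Real.pi / 2 - 2 * Real.arctan |τ|) / (4 * (1 + τ ^ 2)) =
      ∫ τ in (-1 : ℝ)..0, (Real.pi / 2 + 2 * Real.arctan τ) / (4 * (1 + τ ^ 2)) := by
    refine intervalIntegral.integral_congr fun τ hτ => ?_
    rw [Set.uIcc_of_le (by norm_num)] at hτ
    show (Real.pi / 2 - 2 * Real.arctan |τ|) / (4 * (1 + τ ^ 2)) = _
    rw [abs_of_nonpos hτ.2, Real.arctan_neg]
    ring
  rw [h1]
  have hd : ∀ τ ∈ Set.uIcc (-1 : ℝ) 0, HasDerivAt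
      (fun τ => (Real.pi / 2 * Real.arctan τ + Real.arctan τ ^ 2) / 4)
      ((Real.pi / 2 + 2 * Real.arctan τ) / (4 * (1 + τ ^ 2))) τ := by
    intro τ _
    have ha := Real.hasDerivAt_arctan τ
    have h2 := ((ha.const_mul (Real.pi / 2)).add (ha.pow 2)).div_const 4
    refine HasDerivAt.congr_deriv
      (f := fun τ => (Real.pi / 2 * Real.arctan τ + Real.arctan τ ^ 2) / 4) h2 ?_
    have : (1 + τ ^ 2) ≠ 0 := by positivity
    push_cast
    rw [pow_one]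
    field_simp
  have hi : IntervalIntegrable (fun τ : ℝ => (Real.pi / 2 + 2 * Real.arctan τ) /
      (4 * (1 + τ ^ 2))) volume (-1) 0 := by
    apply Continuous.intervalIntegrable
    refine Continuous.div (by fun_prop) (by fun_prop) fun τ => by positivity
  rw [intervalIntegral.integral_eq_sub_of_hasDerivAt hd hi, Real.arctan_neg, Real.arctan_one,
    Real.arctan_zero]
  ring

/-- `∫_{-1}^1 (π / 2 - 2 arctan |τ|) / (4 (1 + τ ^ 2)) dτ = π ^ 2 / 32`. -/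
theorem ge_int : ∫ τ in (-1 : ℝ)..1, (Real.pi / 2 - 2 * Real.arctan |τ|) / (4 * (1 + τ ^ 2)) = Real.pi ^ 2 / 32 := by
  have hc : Continuous (fun τ : ℝ => (Real.pi / 2 - 2 * Real.arctan |τ|) /
      (4 * (1 + τ ^ 2))) := by
    refine Continuous.div (by fun_prop) (by fun_prop) fun τ => by positivity
  rw [← intervalIntegral.integral_add_adjacent_intervals (b := 0) (hc.intervalIntegrable _ _)
    (hc.intervalIntegrable _ _), geB_neg, geB_pos]
  ring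

end Pool.Agent.Wd33b62c
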