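import Pool.Agent.W_d33b62t5_h98.GeD

/-!
# Geometry: the area of a slice (MP_d33b62, T5)
-/

set_option autoImplicit false

open MeasureTheory

namespace Pool.Agent.Wd33b62c

private theorem gec_ang {a θ : ℝ} (ha0 : 0 ≤ a) (ha1 : a ≤ 1) (hθ : |θ| < Real.pi) :
    (0 < Real.cos θ ∧ |Real.sin θ| * (1 + a) ≤ Real.cos θ * (1 - a)) ↔
      |θ| ≤ Real.pi / 4 - Real.arctan a := by
  have hpi := Real.pi_pos
  have h0 : 0 ≤ Real.arctan a := Real.arctan_nonneg.2 ha0
  have h1 : Real.arctan a ≤ Real.pi / 4 := by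
    rw [← Real.arctan_one]
    exact Real.arctan_mono ha1
  have hc : 0 < Real.cos (Real.arctan a) := Real.cos_arctan_pos a
  have hs : Real.sin (Real.arctan a) = a * Real.cos (Real.arctan a) := by
    have h2 := Real.tan_arctan a
    rw [Real.tan_eq_sin_div_cos, div_eq_iff hc.ne'] at h2
    exact h2
  have e1 : |Real.sin θ| = Real.sin |θ| := Real.abs_sin_eq_sin_abs_of_abs_le_pi hθ.le
  have e2 : Real.cos θ = Real.cos |θ| := (Real.cos_abs θ).symm
  have key : Real.sin (|θ| - (Real.pi / 4 - Real.arctan a)) =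
      (√2 / 2 * Real.cos (Real.arctan a)) *
        (|Real.sin θ| * (1 + a) - Real.cos θ * (1 - a)) := by
    rw [Real.sin_sub, Real.cos_sub, Real.sin_sub, Real.cos_pi_div_four, Real.sin_pi_div_four, hs,
      e1, e2]
    ring
  have hpos : 0 < √2 / 2 * Real.cos (Real.arctan a) := by positivity
  constructor
  · rintro ⟨-, h⟩
    by_contra hcon
    push Not at hcon
    have h3 : 0 < Real.sin (|θ| - (Real.pi / 4 - Real.arctan a)) :=
      Real.sin_pos_of_pos_of_lt_pi (by linarith) (by linarith)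
    rw [key] at h3
    have h4 := (pos_iff_pos_of_mul_pos h3).1 hpos
    linarith
  · intro h
    refine ⟨?_, ?_⟩
    · rw [e2]
      refine Real.cos_pos_of_mem_Ioo ⟨?_, ?_⟩
      · linarith [abs_nonneg θ]
      · linarith
    · by_contra hcon
      push Not at hcon
      have h3 : Real.sin (|θ| - (Real.pi / 4 - Real.arctan a)) ≤ 0 :=
        Real.sin_nonpos_of_nonpos_of_neg_pi_le (by linarith) (by linarith [abs_nonneg θ])
      rw [key] at h3
      have h4 : 0 < (√2 / 2 * Real.cos (Real.arctan a)) *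
        (|Real.sin θ| * (1 + a) - Real.cos θ * (1 - a)) := mul_pos hpos (by linarith)
      linarith

private theorem gec_rad {w r : ℝ} (hw : 0 < w) (hr : 0 < r) :
    (1 / 2 ≤ r ^ 2 * w ∧ r ^ 2 * w ≤ 1) ↔ r ∈ Set.Icc √(1 / (2 * w)) √(1 / w) := by
  have e1 : (1 / (2 * w) ≤ r ^ 2) ↔ (1 / 2 ≤ r ^ 2 * w) := by
    rw [div_le_iff₀ (by positivity)]
    constructor
    · intro h
      linarith
    · intro h
      linarith
  rw [Set.mem_Icc, Real.sqrt_le_left hr.le, Real.le_sqrt' hr, le_div_iff₀ hw, e1]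

private theorem gec_int {a b : ℝ} (ha : 0 ≤ a) (hab : a ≤ b) :
    ∫⁻ r in Set.Icc a b, ENNReal.ofReal r = ENNReal.ofReal ((b ^ 2 - a ^ 2) / 2) := by
  rw [← ofReal_integral_eq_lintegral_ofReal]
  · rw [integral_Icc_eq_integral_Ioc, ← intervalIntegral.integral_of_le hab, integral_id]
  · exact continuous_id.continuousOn.integrableOn_Icc
  · filter_upwards [ae_restrict_mem measurableSet_Icc] with r hr
    exact ha.trans hr.1

/-- The area of a slice: polar coordinates: `|θ| ≤ arctan((1 - |τ|) / (1 + |τ|)) = π / 4 - arctan |τ|`,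
`r ^ 2 ∈ [1 / (2 (1 + τ ^ 2)), 1 / (1 + τ ^ 2)]`. (Empty up to measure zero for `|τ| ≥ 1`.) -/
theorem ge_area (τ : ℝ) (hτ : |τ| ≤ 1) :
    volume (Sl τ) = ENNReal.ofReal ((Real.pi / 2 - 2 * Real.arctan |τ|) / (4 * (1 + τ ^ 2))) := by
  have hpi := Real.pi_pos
  have hw : 0 < 1 + τ ^ 2 := by positivity
  have h0 : 0 ≤ Real.arctan |τ| := Real.arctan_nonneg.2 (abs_nonneg τ)
  have h1 : Real.arctan |τ| ≤ Real.pi / 4 := by
    rw [← Real.arctan_one]
    exact Real.arctan_mono hτ
  have hmeas : MeasurableSet (Sl τ) := by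
    have c1 : Measurable fun p : ℝ × ℝ => p.1 := measurable_fst
    have c2 : Measurable fun p : ℝ × ℝ => |p.2| * (1 + |τ|) := by fun_prop
    have c3 : Measurable fun p : ℝ × ℝ => p.1 * (1 - |τ|) := by fun_prop
    have c4 : Measurable fun p : ℝ × ℝ => (p.1 ^ 2 + p.2 ^ 2) * (1 + τ ^ 2) := by fun_prop
    exact (measurableSet_lt measurable_const c1).inter ((measurableSet_le c2 c3).inter
      ((measurableSet_le measurable_const c4).inter (measurableSet_le c4 measurable_const)))
  set A : Set ℝ := Set.Icc √(1 / (2 * (1 + τ ^ 2))) √(1 / (1 + τ ^ 2)) with hA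
  set B : Set ℝ := Set.Icc (-(Real.pi / 4 - Real.arctan |τ|)) (Real.pi / 4 - Real.arctan |τ|)
    with hB
  have hsub : A ×ˢ B ⊆ polarCoord.target := by
    rintro ⟨r, θ⟩ ⟨hr, hθ⟩
    rw [polarCoord_target]
    refine ⟨lt_of_lt_of_le (Real.sqrt_pos.2 (by positivity)) hr.1, ?_, ?_⟩
    · have := hθ.1
      simp only at this
      linarith
    · have := hθ.2
      simp only at this
      linarith
  have hmT : MeasurableSet (A ×ˢ B) := measurableSet_Icc.prod measurableSet_Icc
  have hiff : ∀ p ∈ polarCoord.target, (polarCoord.symm p ∈ Sl τ ↔ p ∈ A ×ˢ B) := by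
    rintro ⟨r, θ⟩ hp
    rw [polarCoord_target] at hp
    obtain ⟨hr, hθ1, hθ2⟩ := hp
    simp only [Set.mem_Ioi] at hr hθ1 hθ2
    rw [polarCoord_symm_apply]
    have e1 : (r * Real.cos θ) ^ 2 + (r * Real.sin θ) ^ 2 = r ^ 2 := by
      have := Real.sin_sq_add_cos_sq θ
      linear_combination r ^ 2 * this
    have e2 : |r * Real.sin θ| = r * |Real.sin θ| := by rw [abs_mul, abs_of_pos hr]
    have hang := gec_ang (abs_nonneg τ) hτ (θ := θ) (abs_lt.2 ⟨hθ1, hθ2⟩)
    have hrad := gec_rad hw hr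
    simp only [Sl, Set.mem_ofPred_eq, Set.mem_prod, e1, e2]
    rw [← hrad, hB, Set.mem_Icc, ← abs_le, ← hang]
    constructor
    · rintro ⟨a1, a2, a3, a4⟩
      refine ⟨⟨a3, a4⟩, (mul_pos_iff_of_pos_left hr).1 a1, ?_⟩
      have : r * (|Real.sin θ| * (1 + |τ|)) ≤ r * (Real.cos θ * (1 - |τ|)) := by
        calc r * (|Real.sin θ| * (1 + |τ|)) = r * |Real.sin θ| * (1 + |τ|) := by ring
          _ ≤ _ := a2
          _ = _ := by ring
      exact le_of_mul_le_mul_left this hr
    · rintro ⟨⟨a3, a4⟩, a1, a2⟩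
      refine ⟨mul_pos hr a1, ?_, a3, a4⟩
      calc r * |Real.sin θ| * (1 + |τ|) = r * (|Real.sin θ| * (1 + |τ|)) := by ring
        _ ≤ r * (Real.cos θ * (1 - |τ|)) := mul_le_mul_of_nonneg_left a2 hr.le
        _ = _ := by ring
  have e0 : volume (Sl τ) = ∫⁻ p, (Sl τ).indicator (fun _ => (1 : ENNReal)) p := by
    rw [lintegral_indicator hmeas, setLIntegral_one]
  rw [e0, ← lintegral_comp_polarCoord_symm]
  have e3 : ∫⁻ p in polarCoord.target, ENNReal.ofReal p.1 •
      (Sl τ).indicator (fun _ => (1 : ENNReal)) (polarCoord.symm p) =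
      ∫⁻ p in polarCoord.target, (A ×ˢ B).indicator (fun p => ENNReal.ofReal p.1) p := by
    refine setLIntegral_congr_fun polarCoord.open_target.measurableSet ?_
    intro p hp
    simp only
    by_cases hT : p ∈ A ×ˢ B
    · rw [Set.indicator_of_mem hT, Set.indicator_of_mem ((hiff p hp).2 hT), smul_eq_mul, mul_one]
    · rw [Set.indicator_of_notMem hT, Set.indicator_of_notMem (fun h => hT ((hiff p hp).1 h)),
        smul_zero]
  rw [e3, lintegral_indicator hmT, Measure.restrict_restrict hmT,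
    Set.inter_eq_self_of_subset_left hsub, Measure.volume_eq_prod, ← Measure.prod_restrict]
  have e4 := lintegral_prod_mul (μ := (volume : Measure ℝ).restrict A)
    (ν := (volume : Measure ℝ).restrict B) (f := fun r => ENNReal.ofReal r)
    (g := fun _ => (1 : ENNReal)) ENNReal.measurable_ofReal.aemeasurable
    measurable_const.aemeasurable
  simp only [mul_one] at e4
  rw [e4, setLIntegral_one, hA, hB, gec_int (Real.sqrt_nonneg _)
    (Real.sqrt_le_sqrt (by
      apply one_div_le_one_div_of_le hw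
      linarith)), Real.volume_Icc, ← ENNReal.ofReal_mul]
  · congr 1
    rw [Real.sq_sqrt (by positivity), Real.sq_sqrt (by positivity)]
    field_simp
    ring
  · have : √(1 / (2 * (1 + τ ^ 2))) ^ 2 ≤ √(1 / (1 + τ ^ 2)) ^ 2 := by
      rw [Real.sq_sqrt (by positivity), Real.sq_sqrt (by positivity)]
      apply one_div_le_one_div_of_le hw
      linarith
    linarith

end Pool.Agent.Wd33b62c
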