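import Mathlib

/-!
# Geometry: definitions; `c = W / 2`, `s = (u, v)`, `κ = (k, t)`, `z = s + c κ`, `z' = s - c κ`, `s · κ = 0` in the limit (MP_d33b62, T5)
-/

set_option autoImplicit false

open MeasureTheory

namespace Pool.Agent.Wd33b62c

/-- The region of `(u, v, k, t)`, relaxed by `η`. -/
def R4 (c η : ℝ) : Set (ℝ × ℝ × ℝ × ℝ) := {q | |q.1 * q.2.2.1 + q.2.1 * q.2.2.2| ≤ η ∧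
  |q.2.1 + c * q.2.2.2| ≤ q.1 + c * q.2.2.1 + η ∧ |q.2.1 - c * q.2.2.2| ≤ q.1 - c * q.2.2.1 + η ∧
  1 / 2 - η ≤ (q.1 + c * q.2.2.1) ^ 2 + (q.2.1 + c * q.2.2.2) ^ 2 ∧
  (q.1 + c * q.2.2.1) ^ 2 + (q.2.1 + c * q.2.2.2) ^ 2 ≤ 1 + η ∧
  1 / 2 - η ≤ (q.1 - c * q.2.2.1) ^ 2 + (q.2.1 - c * q.2.2.2) ^ 2 ∧
  (q.1 - c * q.2.2.1) ^ 2 + (q.2.1 - c * q.2.2.2) ^ 2 ≤ 1 + η}

/-- The limit region of `(u, v, t)`. -/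
def E3 (c : ℝ) : Set (ℝ × ℝ × ℝ) := {p | ∃ k : ℝ, (p.1, p.2.1, k, p.2.2) ∈ R4 c 0}

/-- The slices. -/
def Sl (τ : ℝ) : Set (ℝ × ℝ) := {p | 0 < p.1 ∧ |p.2| * (1 + |τ|) ≤ p.1 * (1 - |τ|) ∧
  1 / 2 ≤ (p.1 ^ 2 + p.2 ^ 2) * (1 + τ ^ 2) ∧ (p.1 ^ 2 + p.2 ^ 2) * (1 + τ ^ 2) ≤ 1}

end Pool.Agent.Wd33b62c
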