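import Pool.Agent.W_d33b62t5_h98.GeA

/-!
# Geometry: the relaxed region (MP_d33b62, T5)
-/

set_option autoImplicit false

open MeasureTheory

namespace Pool.Agent.Wd33b62c

/-- The relaxed region is near the limit region.
Proof. Otherwise there are points of `R4 c (1 / n)` outside of `U`; they are bounded (`ge_bd`), a limit point lies in
`R4 c 0`, its projection in `E3 ⊆ U`, `U` open. -/
theorem ge_rel (c : ℝ) (hc : 1 ≤ c) (U : Set (ℝ × ℝ × ℝ)) (hU : IsOpen U) (hE : E3 c ⊆ U) :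
    ∃ η : ℝ, 0 < η ∧ η ≤ 1 / 100 ∧ ∀ u v k t : ℝ, (u, v, k, t) ∈ R4 c η → (u, v, t) ∈ U := by
  by_contra hcon
  have h1 : ∀ n : ℕ, ∃ q : ℝ × ℝ × ℝ × ℝ, q ∈ R4 c (1 / ((n : ℝ) + 100)) ∧
      (q.1, q.2.1, q.2.2.2) ∉ U := by
    intro n
    by_contra hn
    apply hcon
    have hn0 : (0 : ℝ) ≤ n := Nat.cast_nonneg n
    refine ⟨1 / ((n : ℝ) + 100), by positivity, ?_, fun u v k t h => ?_⟩
    · exact one_div_le_one_div_of_le (by norm_num) (by linarith)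
    · by_contra hU'
      exact hn ⟨(u, v, k, t), h, hU'⟩
  choose q hq hqU using h1
  have hK : IsCompact ((Set.Icc (-(11 / 10) : ℝ) (11 / 10)) ×ˢ (Set.Icc (-(11 / 10) : ℝ) (11 / 10)) ×ˢ
      (Set.Icc (-(11 / 10) : ℝ) (11 / 10)) ×ˢ (Set.Icc (-(11 / 10) : ℝ) (11 / 10))) :=
    isCompact_Icc.prod (isCompact_Icc.prod (isCompact_Icc.prod isCompact_Icc))
  have hqK : ∀ n, q n ∈ ((Set.Icc (-(11 / 10) : ℝ) (11 / 10)) ×ˢ (Set.Icc (-(11 / 10) : ℝ) (11 / 10)) ×ˢ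
      (Set.Icc (-(11 / 10) : ℝ) (11 / 10)) ×ˢ (Set.Icc (-(11 / 10) : ℝ) (11 / 10))) := by
    intro n
    have hn0 : (0 : ℝ) ≤ n := Nat.cast_nonneg n
    obtain ⟨a1, a2, a3, a4, a5⟩ := ge_bd c (1 / ((n : ℝ) + 100)) hc (by positivity)
      (one_div_le_one_div_of_le (by norm_num) (by linarith)) (q n).1 (q n).2.1 (q n).2.2.1
      (q n).2.2.2 (hq n)
    refine ⟨⟨by linarith, a2⟩, abs_le.1 a3, abs_le.1 a4, abs_le.1 a5⟩
  obtain ⟨a, -, φ, hφ, hlim⟩ := hK.tendsto_subseq hqK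
  have he : Filter.Tendsto (fun n : ℕ => 1 / (((φ n : ℕ) : ℝ) + 100)) Filter.atTop
      (nhds (0 : ℝ)) := by
    have h2 : Filter.Tendsto (fun n : ℕ => (((φ n : ℕ) : ℝ) + 100)) Filter.atTop
        Filter.atTop :=
      Filter.tendsto_atTop_add_const_right _ _
        (tendsto_natCast_atTop_atTop.comp hφ.tendsto_atTop)
    have h3 := tendsto_inv_atTop_zero.comp h2
    refine h3.congr fun n => ?_
    rw [one_div]
    rfl
  have hlim2 : Filter.Tendsto (fun n : ℕ => (q (φ n), 1 / (((φ n : ℕ) : ℝ) + 100))) Filter.atTop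
      (nhds (a, (0 : ℝ))) := hlim.prodMk_nhds he
  have key : ∀ (f g : (ℝ × ℝ × ℝ × ℝ) × ℝ → ℝ), Continuous f → Continuous g →
      (∀ n : ℕ, f (q (φ n), 1 / (((φ n : ℕ) : ℝ) + 100)) ≤
        g (q (φ n), 1 / (((φ n : ℕ) : ℝ) + 100))) → f (a, 0) ≤ g (a, 0) :=
    fun f g hf hg h => le_of_tendsto_of_tendsto' ((hf.tendsto _).comp hlim2)
      ((hg.tendsto _).comp hlim2) h
  have haR : a ∈ R4 c 0 := by
    refine ⟨key (fun p => |p.1.1 * p.1.2.2.1 + p.1.2.1 * p.1.2.2.2|) (fun p => p.2)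
        (by fun_prop) (by fun_prop) (fun n => (hq (φ n)).1),
      key (fun p => |p.1.2.1 + c * p.1.2.2.2|) (fun p => p.1.1 + c * p.1.2.2.1 + p.2)
        (by fun_prop) (by fun_prop) (fun n => (hq (φ n)).2.1),
      key (fun p => |p.1.2.1 - c * p.1.2.2.2|) (fun p => p.1.1 - c * p.1.2.2.1 + p.2)
        (by fun_prop) (by fun_prop) (fun n => (hq (φ n)).2.2.1),
      key (fun p => 1 / 2 - p.2)
        (fun p => (p.1.1 + c * p.1.2.2.1) ^ 2 + (p.1.2.1 + c * p.1.2.2.2) ^ 2)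
        (by fun_prop) (by fun_prop) (fun n => (hq (φ n)).2.2.2.1),
      key (fun p => (p.1.1 + c * p.1.2.2.1) ^ 2 + (p.1.2.1 + c * p.1.2.2.2) ^ 2)
        (fun p => 1 + p.2)
        (by fun_prop) (by fun_prop) (fun n => (hq (φ n)).2.2.2.2.1),
      key (fun p => 1 / 2 - p.2)
        (fun p => (p.1.1 - c * p.1.2.2.1) ^ 2 + (p.1.2.1 - c * p.1.2.2.2) ^ 2)
        (by fun_prop) (by fun_prop) (fun n => (hq (φ n)).2.2.2.2.2.1),
      key (fun p => (p.1.1 - c * p.1.2.2.1) ^ 2 + (p.1.2.1 - c * p.1.2.2.2) ^ 2)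
        (fun p => 1 + p.2)
        (by fun_prop) (by fun_prop) (fun n => (hq (φ n)).2.2.2.2.2.2)⟩
  have haU : (a.1, a.2.1, a.2.2.2) ∈ U := hE ⟨a.2.2.1, haR⟩
  have hcont : Continuous fun p : ℝ × ℝ × ℝ × ℝ => (p.1, p.2.1, p.2.2.2) := by fun_prop
  have h4 : Filter.Tendsto (fun n => ((q (φ n)).1, (q (φ n)).2.1, (q (φ n)).2.2.2))
      Filter.atTop (nhds (a.1, a.2.1, a.2.2.2)) :=
    (hcont.tendsto a).comp hlim
  have h5 : ∀ᶠ n in Filter.atTop, ((q (φ n)).1, (q (φ n)).2.1, (q (φ n)).2.2.2) ∈ U :=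
    h4.eventually_mem (hU.mem_nhds haU)
  obtain ⟨n, hn⟩ := h5.exists
  exact hqU (φ n) hn

end Pool.Agent.Wd33b62c
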