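import Mathlib

/-!
# Geometry: upper Riemann sums (MP_d33b62, T5)
-/

set_option autoImplicit false

open MeasureTheory

namespace Pool.Agent.Wd33b62c

/-- The half-open cell with index `i` of the mesh `1 / m`. -/
def ger_cell (m : ℕ) (i : ℤ × ℤ × ℤ) : Set (ℝ × ℝ × ℝ) :=
  Set.Ioc ((i.1 : ℝ) / m) (((i.1 : ℝ) + 1) / m) ×ˢ
    (Set.Ioc ((i.2.1 : ℝ) / m) (((i.2.1 : ℝ) + 1) / m) ×ˢ
      Set.Ioc ((i.2.2 : ℝ) / m) (((i.2.2 : ℝ) + 1) / m))

theorem ger_mem (m : ℕ) (hm : 0 < m) (i : ℤ × ℤ × ℤ) (p : ℝ × ℝ × ℝ) :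
    p ∈ ger_cell m i ↔ ((i.1 : ℝ) < m * p.1 ∧ m * p.1 ≤ i.1 + 1 ∧ (i.2.1 : ℝ) < m * p.2.1 ∧
        m * p.2.1 ≤ i.2.1 + 1 ∧ (i.2.2 : ℝ) < m * p.2.2 ∧ m * p.2.2 ≤ i.2.2 + 1) := by
  have hm' : (0 : ℝ) < m := by exact_mod_cast hm
  simp only [ger_cell, Set.mem_prod, Set.mem_Ioc, div_lt_iff₀ hm', le_div_iff₀ hm']
  constructor
  · rintro ⟨⟨a, b⟩, ⟨c, d⟩, e, f⟩
    exact ⟨by linarith, by linarith, by linarith, by linarith, by linarith, by linarith⟩
  · rintro ⟨a, b, c, d, e, f⟩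
    exact ⟨⟨by linarith, by linarith⟩, ⟨by linarith, by linarith⟩, by linarith, by linarith⟩

theorem ger_meas (m : ℕ) (i : ℤ × ℤ × ℤ) : MeasurableSet (ger_cell m i) :=
  measurableSet_Ioc.prod (measurableSet_Ioc.prod measurableSet_Ioc)

theorem ger_vol (m : ℕ) (hm : 0 < m) (i : ℤ × ℤ × ℤ) :
    volume (ger_cell m i) = ENNReal.ofReal (1 / (m : ℝ) ^ 3) := by
  have hm' : (0 : ℝ) < m := by exact_mod_cast hm
  have h : ∀ a : ℝ, (a + 1) / m - a / m = 1 / m := fun a => by ring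
  rw [ger_cell, Measure.volume_eq_prod, Measure.prod_prod, Measure.volume_eq_prod,
    Measure.prod_prod, Real.volume_Ioc, Real.volume_Ioc, Real.volume_Ioc, h, h, h,
    ← ENNReal.ofReal_mul (by positivity), ← ENNReal.ofReal_mul (by positivity)]
  congr 1
  field_simp

theorem ger_disj (m : ℕ) (hm : 0 < m) (S : Set (ℤ × ℤ × ℤ)) :
    S.Pairwise (Function.onFun Disjoint (ger_cell m)) := by
  intro i _ j _ hij
  rw [Function.onFun, Set.disjoint_left]
  intro p hi hj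
  rw [ger_mem m hm] at hi hj
  obtain ⟨a, b, c, d, e, f⟩ := hi
  obtain ⟨a', b', c', d', e', f'⟩ := hj
  have key : ∀ (x y : ℤ) (t : ℝ), (x : ℝ) < t → t ≤ x + 1 → (y : ℝ) < t → t ≤ y + 1 → x = y := by
    intro x y t h1 h2 h3 h4
    have h5 : (x : ℝ) < y + 1 := lt_of_lt_of_le h1 h4
    have h6 : (y : ℝ) < x + 1 := lt_of_lt_of_le h3 h2
    have h7 : x < y + 1 := by exact_mod_cast h5
    have h8 : y < x + 1 := by exact_mod_cast h6
    omega
  exact hij (Prod.ext (key _ _ _ a b a' b') (Prod.ext (key _ _ _ c d c' d') (key _ _ _ e f e' f')))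

theorem ger_dist (m : ℕ) (hm : 0 < m) (i : ℤ × ℤ × ℤ) (p q : ℝ × ℝ × ℝ) (hp : p ∈ ger_cell m i)
    (hq : q ∈ ger_cell m i) : dist p q ≤ 1 / m := by
  have hm' : (0 : ℝ) < m := by exact_mod_cast hm
  rw [ger_mem m hm] at hp hq
  obtain ⟨a, b, c, d, e, f⟩ := hp
  obtain ⟨a', b', c', d', e', f'⟩ := hq
  have key : ∀ (x t s : ℝ), x < m * t → m * t ≤ x + 1 → x < m * s → m * s ≤ x + 1 →
      dist t s ≤ 1 / m := by
    intro x t s h1 h2 h3 h4
    rw [Real.dist_eq, le_div_iff₀ hm', abs_sub_comm, ← abs_of_pos hm', ← abs_mul, abs_le]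
    constructor <;> nlinarith
  rw [Prod.dist_eq, Prod.dist_eq, max_le_iff, max_le_iff]
  exact ⟨key _ _ _ a b a' b', key _ _ _ c d c' d', key _ _ _ e f e' f'⟩

/-- **Upper Riemann sums over a compact set.** The cells of the mesh `1 / m` that meet a neighbourhood of `K`.
Proof. `1 / u` is continuous near `K`; there is `ρ > 0` with `∫_{thickening ρ K} 1 / u ≤ ∫_K 1 / u + ε / 2`
(`tendsto_measure_cthickening` or outer regularity); take `U = thickening (ρ / 2) K`; for `m` large the cells that meet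
`U` lie in `thickening ρ K`, are disjoint, have volume `m ^ (- 3)`, and `1 / i.1 ≤ (1 + 8 / m) / (m u)` on the cell. -/
theorem ge_rie (K : Set (ℝ × ℝ × ℝ)) (hK : IsCompact K) (hu : ∀ p ∈ K, 1 / 2 ≤ p.1) (ε : ℝ) (hε : 0 < ε) :
    ∃ U : Set (ℝ × ℝ × ℝ), IsOpen U ∧ K ⊆ U ∧ ∃ m0 : ℕ, ∀ m : ℕ, m0 ≤ m → ∀ S : Finset (ℤ × ℤ × ℤ),
      (∀ i ∈ S, ∃ p ∈ U, (i.1 : ℝ) < m * p.1 ∧ m * p.1 ≤ i.1 + 1 ∧ (i.2.1 : ℝ) < m * p.2.1 ∧
        m * p.2.1 ≤ i.2.1 + 1 ∧ (i.2.2 : ℝ) < m * p.2.2 ∧ m * p.2.2 ≤ i.2.2 + 1) →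
      ∑ i ∈ S, 1 / ((m : ℝ) ^ 2 * i.1) ≤ (∫ p in K, 1 / p.1) + ε := by
  have hKf : volume K ≠ ⊤ := hK.measure_lt_top.ne
  -- the radius
  have h1 := tendsto_measure_cthickening_of_isCompact (μ := (volume : Measure (ℝ × ℝ × ℝ))) hK
  have h2 : Filter.Tendsto (fun r => (volume (Metric.cthickening r K)).toReal) (nhds 0)
      (nhds (volume K).toReal) := (ENNReal.tendsto_toReal hKf).comp h1
  have h3 : ∀ᶠ r in nhds (0 : ℝ), (volume (Metric.cthickening r K)).toReal < (volume K).toReal + ε / 6 :=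
    h2.eventually (gt_mem_nhds (by linarith))
  obtain ⟨r0, hr0, h4⟩ := Metric.eventually_nhds_iff.1 h3
  obtain ⟨ρ, hρ⟩ : ∃ ρ : ℝ, ρ = min (r0 / 2) (1 / 8) := ⟨_, rfl⟩
  have hρ0 : 0 < ρ := by rw [hρ]; exact lt_min (by linarith) (by norm_num)
  have hρ8 : ρ ≤ 1 / 8 := by rw [hρ]; exact min_le_right _ _
  have hρr : ρ < r0 := by rw [hρ]; exact lt_of_le_of_lt (min_le_left _ _) (by linarith)
  obtain ⟨T, hT⟩ : ∃ T : Set (ℝ × ℝ × ℝ), T = Metric.cthickening ρ K := ⟨_, rfl⟩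
  have hTc : IsCompact T := by rw [hT]; exact hK.cthickening
  have hTm : MeasurableSet T := hTc.measurableSet
  have hTf : volume T ≠ ⊤ := hTc.measure_lt_top.ne
  have hKT : K ⊆ T := by rw [hT]; exact Metric.self_subset_cthickening K
  have hvol : (volume T).toReal < (volume K).toReal + ε / 6 := by
    rw [hT]
    exact h4 (by rw [Real.dist_eq, sub_zero, abs_of_pos hρ0]; exact hρr)
  have hTu : ∀ p ∈ T, 3 / 8 ≤ p.1 := by
    intro p hp
    rw [hT, hK.cthickening_eq_biUnion_closedBall hρ0.le] at hp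
    obtain ⟨q, hq, hpq⟩ := Set.mem_iUnion₂.1 hp
    rw [Metric.mem_closedBall, Prod.dist_eq] at hpq
    have := (max_le_iff.1 hpq).1
    rw [Real.dist_eq] at this
    have h5 := (abs_le.1 this).1
    have h6 := hu q hq
    linarith
  have hcont : ContinuousOn (fun p : ℝ × ℝ × ℝ => 1 / p.1) T := by
    apply ContinuousOn.div continuousOn_const continuous_fst.continuousOn
    intro p hp
    have := hTu p hp
    intro h0
    rw [h0] at this
    norm_num at this
  have hint : IntegrableOn (fun p : ℝ × ℝ × ℝ => 1 / p.1) T := hcont.integrableOn_compact hTc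
  have hintK : IntegrableOn (fun p : ℝ × ℝ × ℝ => 1 / p.1) K := hint.mono_set hKT
  have h7 : (∫ p in T, 1 / p.1) ≤ (∫ p in K, 1 / p.1) + ε / 2 := by
    have e1 := setIntegral_sdiff hK.measurableSet hint hKT
    have e2 : ‖∫ p in T \ K, 1 / p.1‖ ≤ 3 * volume.real (T \ K) := by
      apply norm_setIntegral_le_of_norm_le_const
      · exact lt_of_le_of_lt (measure_mono Set.sdiff_subset) hTc.measure_lt_top
      · intro p hp
        have := hTu p hp.1
        rw [Real.norm_eq_abs, abs_of_nonneg (by positivity)]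
        rw [div_le_iff₀ (by linarith)]
        linarith
    have e3 : volume.real (T \ K) = volume.real T - volume.real K :=
      measureReal_sdiff hKT hK.measurableSet
    have e4 : volume.real T = (volume T).toReal := rfl
    have e5 : volume.real K = (volume K).toReal := rfl
    rw [Real.norm_eq_abs] at e2
    have e6 := (abs_le.1 e2).2
    rw [e1, e3, e4, e5] at e6
    linarith
  refine ⟨Metric.thickening (ρ / 2) K, Metric.isOpen_thickening,
    Metric.self_subset_thickening (by linarith) K, ?_⟩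
  obtain ⟨n1, hn1⟩ := exists_nat_gt (2 / ρ)
  obtain ⟨n2, hn2⟩ := exists_nat_gt (32 * (volume T).toReal / ε)
  refine ⟨max 8 (max n1 n2), fun m hm S hS => ?_⟩
  have hm8 : 8 ≤ m := le_trans (le_max_left _ _) hm
  have hmn1 : n1 ≤ m := le_trans (le_trans (le_max_left _ _) (le_max_right _ _)) hm
  have hmn2 : n2 ≤ m := le_trans (le_trans (le_max_right _ _) (le_max_right _ _)) hm
  have hm0 : 0 < m := by omega
  have hm' : (0 : ℝ) < m := by exact_mod_cast hm0
  have hm8' : (8 : ℝ) ≤ m := by exact_mod_cast hm8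
  have hmr : 1 / (m : ℝ) < ρ / 2 := by
    have h8 : 2 / ρ < (m : ℝ) := lt_of_lt_of_le hn1 (by exact_mod_cast hmn1)
    rw [div_lt_iff₀ hρ0] at h8
    rw [div_lt_div_iff₀ hm' (by norm_num)]
    linarith
  have hmv : 16 / (m : ℝ) * (volume T).toReal ≤ ε / 2 := by
    have h8 : 32 * (volume T).toReal / ε < (m : ℝ) := lt_of_lt_of_le hn2 (by exact_mod_cast hmn2)
    rw [div_lt_iff₀ hε] at h8
    rw [div_mul_eq_mul_div, div_le_iff₀ hm']
    linarith
  -- cells lie in `T`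
  have hcell : ∀ i ∈ S, ger_cell m i ⊆ T := by
    intro i hi p hp
    obtain ⟨q, hq, hq2⟩ := hS i hi
    have hq3 : q ∈ ger_cell m i := (ger_mem m hm0 i q).2 hq2
    obtain ⟨z, hz, hqz⟩ := Metric.mem_thickening_iff.1 hq
    have h9 := ger_dist m hm0 i p q hp hq3
    rw [hT]
    refine Metric.mem_cthickening_of_dist_le p z ρ K hz ?_
    have := dist_triangle p q z
    linarith
  -- the function
  have hG : IntegrableOn (fun p : ℝ × ℝ × ℝ => 1 / p.1 + 16 / (m : ℝ)) T :=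
    hint.add (integrableOn_const hTf)
  have hterm : ∀ i ∈ S, 1 / ((m : ℝ) ^ 2 * i.1) ≤
      ∫ p in ger_cell m i, (1 / p.1 + 16 / (m : ℝ)) := by
    intro i hi
    have hv := ger_vol m hm0 i
    have hvr : volume.real (ger_cell m i) = 1 / (m : ℝ) ^ 3 := by
      rw [Measure.real, hv, ENNReal.toReal_ofReal (by positivity)]
    have hvf : volume (ger_cell m i) ≠ ⊤ := by rw [hv]; exact ENNReal.ofReal_ne_top
    have hi1 : (m : ℝ) / 4 ≤ i.1 := by
      obtain ⟨q, hq, hq2⟩ := hS i hi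
      have hq3 : q ∈ ger_cell m i := (ger_mem m hm0 i q).2 hq2
      have h10 := hTu q (hcell i hi hq3)
      have h11 := hq2.2.1
      nlinarith
    have hi0 : (0 : ℝ) < i.1 := by linarith
    have e1 : 1 / ((m : ℝ) ^ 2 * i.1) = ∫ _p in ger_cell m i, (m : ℝ) / i.1 := by
      rw [setIntegral_const, hvr, smul_eq_mul]
      field_simp
    rw [e1]
    refine setIntegral_mono_on (integrableOn_const hvf) (hG.mono_set (hcell i hi)) (ger_meas m i) ?_
    intro p hp
    have h12 := hTu p (hcell i hi hp)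
    have h13 := ((ger_mem m hm0 i p).1 hp).2.1
    have h14 : (m : ℝ) / (i.1 + 1) ≤ 1 / p.1 := by
      rw [div_le_div_iff₀ (by linarith) (by linarith)]
      linarith
    have h15 : (m : ℝ) / i.1 - m / (i.1 + 1) ≤ 16 / m := by
      have e2 : (m : ℝ) / i.1 - m / (i.1 + 1) = m / (i.1 * (i.1 + 1)) := by
        field_simp
        ring
      rw [e2, div_le_div_iff₀ (by positivity) hm']
      nlinarith
    linarith
  calc ∑ i ∈ S, 1 / ((m : ℝ) ^ 2 * i.1)
      ≤ ∑ i ∈ S, ∫ p in ger_cell m i, (1 / p.1 + 16 / (m : ℝ)) := Finset.sum_le_sum hterm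
    _ = ∫ p in ⋃ i ∈ S, ger_cell m i, (1 / p.1 + 16 / (m : ℝ)) :=
        (integral_biUnion_finset S (fun i _ => ger_meas m i) (ger_disj m hm0 S)
          (fun i hi => hG.mono_set (hcell i hi))).symm
    _ ≤ ∫ p in T, (1 / p.1 + 16 / (m : ℝ)) := by
        refine setIntegral_mono_set hG ?_ ?_
        · refine (ae_restrict_iff' hTm).2 (Filter.Eventually.of_forall fun p hp => ?_)
          have := hTu p hp
          have h16 : (0 : ℝ) ≤ 1 / p.1 := by positivity
          have h17 : (0 : ℝ) ≤ 16 / m := by positivity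
          show (0 : ℝ) ≤ 1 / p.1 + 16 / m
          linarith
        · exact Filter.Eventually.of_forall (Set.iUnion₂_subset hcell)
    _ = (∫ p in T, 1 / p.1) + 16 / (m : ℝ) * (volume T).toReal := by
        rw [integral_add hint (integrableOn_const hTf), setIntegral_const, smul_eq_mul, mul_comm]
        rfl
    _ ≤ (∫ p in K, 1 / p.1) + ε := by linarith

end Pool.Agent.Wd33b62c
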