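import Pool.Agent.W_d33b62t5_h98.GeA
import Pool.Agent.W_d33b62t5_h98.GeB
import Pool.Agent.W_d33b62t5_h98.GeC

/-!
# Geometry: the volume (MP_d33b62, T5)
-/

set_option autoImplicit false

open MeasureTheory

namespace Pool.Agent.Wd33b62c

/-- Linear change of variables. -/
theorem geV_cv (a : ℝ) (ha : 0 < a) (G : ℝ → ENNReal) (hG : Measurable G) :
    ∫⁻ t, G t = ENNReal.ofReal a * ∫⁻ τ, G (a * τ) := by
  have h := Real.smul_map_volume_mul_left (a := a) ha.ne'
  calc ∫⁻ t, G t = ∫⁻ t, G t ∂(ENNReal.ofReal |a| • Measure.map (a * ·) volume) := by rw [h]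
    _ = ENNReal.ofReal |a| * ∫⁻ t, G t ∂(Measure.map (a * ·) volume) := by
        rw [lintegral_smul_measure]; rfl
    _ = ENNReal.ofReal a * ∫⁻ τ, G (a * τ) := by
        rw [lintegral_map hG (measurable_const_mul a), abs_of_pos ha]

/-- The slices are measurable jointly. -/
theorem geV_meas : MeasurableSet {q : (ℝ × ℝ) × ℝ | q.1 ∈ Sl q.2} := by
  have h : {q : (ℝ × ℝ) × ℝ | q.1 ∈ Sl q.2} = {q : (ℝ × ℝ) × ℝ | 0 < q.1.1} ∩
      ({q : (ℝ × ℝ) × ℝ | |q.1.2| * (1 + |q.2|) ≤ q.1.1 * (1 - |q.2|)} ∩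
      ({q : (ℝ × ℝ) × ℝ | 1 / 2 ≤ (q.1.1 ^ 2 + q.1.2 ^ 2) * (1 + q.2 ^ 2)} ∩
      {q : (ℝ × ℝ) × ℝ | (q.1.1 ^ 2 + q.1.2 ^ 2) * (1 + q.2 ^ 2) ≤ 1})) := by
    ext q; simp [Sl]
  rw [h]
  refine MeasurableSet.inter ?_ (MeasurableSet.inter ?_ (MeasurableSet.inter ?_ ?_))
  · exact measurableSet_lt (by fun_prop) (by fun_prop)
  · exact measurableSet_le (by fun_prop) (by fun_prop)
  · exact measurableSet_le (by fun_prop) (by fun_prop)
  · exact measurableSet_le (by fun_prop) (by fun_prop)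

/-- **The volume.** `∫_{E3} du dv dt / u = π ^ 2 / (32 c)`.
Proof. Tonelli with `t` inside, `t = u τ / c`, `dt = (u / c) dτ`: the integral is `(1 / c) ∫ area(Sl τ) dτ`. -/
theorem ge_vol (c : ℝ) (hc : 1 ≤ c) : ∫ p in E3 c, 1 / p.1 = Real.pi ^ 2 / (32 * c) := by
  have hc0 : 0 < c := by linarith
  have hE : MeasurableSet (E3 c) := (ge_cpt c hc).isClosed.measurableSet
  set F : ℝ × ℝ × ℝ → ENNReal := (E3 c).indicator (fun p => ENNReal.ofReal (1 / p.1)) with hFd
  have hF : Measurable F :=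
    (show Measurable (fun p : ℝ × ℝ × ℝ => ENNReal.ofReal (1 / p.1)) by fun_prop).indicator hE
  have h1 : ∫ p in E3 c, 1 / p.1 = (∫⁻ p, F p).toReal := by
    rw [integral_eq_lintegral_of_nonneg_ae, ← lintegral_indicator hE]
    · filter_upwards [ae_restrict_mem hE] with p hp
      have := ge_u c hc p hp
      have h0 : 0 < p.1 := by linarith
      simp only [Pi.zero_apply]
      positivity
    · exact (show Measurable (fun p : ℝ × ℝ × ℝ => 1 / p.1) by fun_prop).aestronglyMeasurable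
  set I : (ℝ × ℝ) × ℝ → ENNReal := {q : (ℝ × ℝ) × ℝ | q.1 ∈ Sl q.2}.indicator 1 with hId
  have hI : Measurable I := measurable_one.indicator geV_meas
  -- the inner integral
  have h2 : ∀ u v : ℝ, ∫⁻ t, F (u, v, t) = ENNReal.ofReal (1 / c) * ∫⁻ τ, I ((u, v), τ) := by
    intro u v
    by_cases hu : 0 < u
    · have ha : 0 < u / c := by positivity
      have hm : Measurable (fun t : ℝ => F (u, v, t)) := hF.comp (by fun_prop)
      rw [geV_cv (u / c) ha _ hm]
      have h3 : ∀ τ : ℝ, F (u, v, u / c * τ) = ENNReal.ofReal (1 / u) * I ((u, v), τ) := by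
        intro τ
        have e : u / c * τ = u * τ / c := by ring
        rw [e]
        have hiff := ge_tau c hc u v τ hu
        by_cases hmem : (u, v, u * τ / c) ∈ E3 c
        · have hs : (u, v) ∈ Sl τ := ⟨hu, hiff.1 hmem⟩
          have : ((u, v), τ) ∈ {q : (ℝ × ℝ) × ℝ | q.1 ∈ Sl q.2} := hs
          rw [hFd, hId, Set.indicator_of_mem hmem, Set.indicator_of_mem this]
          simp
        · have hs : ((u, v), τ) ∉ {q : (ℝ × ℝ) × ℝ | q.1 ∈ Sl q.2} := by
            intro hs
            exact hmem (hiff.2 hs.2)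
          rw [hFd, hId, Set.indicator_of_notMem hmem, Set.indicator_of_notMem hs]
          simp
      simp only [h3]
      have hm2 : Measurable (fun τ : ℝ => I ((u, v), τ)) := hI.comp (by fun_prop)
      rw [lintegral_const_mul _ hm2, ← mul_assoc, ← ENNReal.ofReal_mul ha.le]
      congr 2
      field_simp
    · have hz : ∀ t : ℝ, F (u, v, t) = 0 := by
        intro t
        rw [hFd, Set.indicator_of_notMem]
        intro hmem
        have := ge_u c hc _ hmem
        simp only at this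
        linarith
      have hz2 : ∀ τ : ℝ, I ((u, v), τ) = 0 := by
        intro τ
        rw [hId, Set.indicator_of_notMem]
        intro hs
        exact hu hs.1
      simp [hz, hz2]
  -- the area of the slices
  have h4 : ∀ τ : ℝ, ∫⁻ q : ℝ × ℝ, I (q, τ) = volume (Sl τ) := by
    intro τ
    have hS : MeasurableSet (Sl τ) := by
      have : Sl τ = (fun q : ℝ × ℝ => (q, τ)) ⁻¹' {q : (ℝ × ℝ) × ℝ | q.1 ∈ Sl q.2} := rfl
      rw [this]
      exact geV_meas.preimage (by fun_prop)
    have : (fun q : ℝ × ℝ => I (q, τ)) = (Sl τ).indicator 1 := by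
      ext q; rfl
    rw [this, lintegral_indicator_one hS]
  set g : ℝ → ℝ := fun τ => (Real.pi / 2 - 2 * Real.arctan |τ|) / (4 * (1 + τ ^ 2)) with hg
  have h5 : ∀ τ : ℝ, volume (Sl τ) = (Set.Ioc (-1 : ℝ) 1).indicator (fun τ => ENNReal.ofReal (g τ)) τ ∨ τ = -1 := by
    intro τ
    by_cases hτ : |τ| ≤ 1
    · by_cases h6 : τ = -1
      · exact Or.inr h6
      · left
        rw [abs_le] at hτ
        have hmem : τ ∈ Set.Ioc (-1 : ℝ) 1 := ⟨lt_of_le_of_ne hτ.1 (Ne.symm h6), hτ.2⟩
        rw [Set.indicator_of_mem hmem, ge_area τ (abs_le.2 hτ)]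
    · left
      have hmem : τ ∉ Set.Ioc (-1 : ℝ) 1 := by
        intro h
        exact hτ (abs_le.2 ⟨h.1.le, h.2⟩)
      rw [Set.indicator_of_notMem hmem]
      have : Sl τ = ∅ := by
        ext q
        simp only [Sl, Set.mem_setOf_eq, Set.mem_empty_iff_false, iff_false]
        rintro ⟨h0, h7, -⟩
        push Not at hτ
        have : 0 ≤ |q.2| * (1 + |τ|) := by positivity
        nlinarith
      rw [this, measure_empty]
  have h8 : ∫⁻ τ, volume (Sl τ) = ENNReal.ofReal (Real.pi ^ 2 / 32) := by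
    have h9 : ∫⁻ τ, volume (Sl τ) = ∫⁻ τ, (Set.Ioc (-1 : ℝ) 1).indicator (fun τ => ENNReal.ofReal (g τ)) τ := by
      apply lintegral_congr_ae
      have : ∀ᵐ τ : ℝ, τ ≠ -1 := by
        have : (volume : Measure ℝ) {(-1 : ℝ)} = 0 := by simp
        exact (measure_eq_zero_iff_ae_notMem.1 this)
      filter_upwards [this] with τ hτ
      rcases h5 τ with h | h
      · exact h
      · exact absurd h hτ
    have hgc : Continuous g := by
      rw [hg]
      refine Continuous.div ?_ ?_ ?_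
      · exact continuous_const.sub (continuous_const.mul (Real.continuous_arctan.comp continuous_abs))
      · fun_prop
      · intro τ; positivity
    rw [h9, lintegral_indicator measurableSet_Ioc, ← ofReal_integral_eq_lintegral_ofReal]
    · rw [← intervalIntegral.integral_of_le (by norm_num), ge_int]
    · exact (hgc.integrableOn_Icc (a := -1) (b := 1)).mono_set Set.Ioc_subset_Icc_self
    · filter_upwards [ae_restrict_mem measurableSet_Ioc] with τ hτ
      have h10 : |τ| ≤ 1 := abs_le.2 ⟨hτ.1.le, hτ.2⟩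
      have h11 : Real.arctan |τ| ≤ Real.arctan 1 := Real.arctan_mono h10
      rw [Real.arctan_one] at h11
      simp only [Pi.zero_apply, hg]
      apply div_nonneg
      · linarith
      · positivity
  have h12 : ∫⁻ p, F p = ENNReal.ofReal (1 / c) * ENNReal.ofReal (Real.pi ^ 2 / 32) := by
    rw [Measure.volume_eq_prod, lintegral_prod _ hF.aemeasurable]
    have hin : ∀ u : ℝ, ∫⁻ y : ℝ × ℝ, F (u, y) = ∫⁻ v, ENNReal.ofReal (1 / c) * ∫⁻ τ, I ((u, v), τ) := by
      intro u
      have hm : Measurable (fun y : ℝ × ℝ => F (u, y)) := hF.comp (by fun_prop)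
      rw [Measure.volume_eq_prod, lintegral_prod _ hm.aemeasurable]
      exact lintegral_congr (fun v => h2 u v)
    simp only [hin]
    have hm3 : Measurable (fun q : ℝ × ℝ => ∫⁻ τ, I (q, τ)) := hI.lintegral_prod_right'
    have h13 : ∫⁻ u, ∫⁻ v, ENNReal.ofReal (1 / c) * ∫⁻ τ, I ((u, v), τ) =
        ∫⁻ q : ℝ × ℝ, ENNReal.ofReal (1 / c) * ∫⁻ τ, I (q, τ) := by
      rw [Measure.volume_eq_prod, lintegral_prod _ (hm3.const_mul _).aemeasurable]
    rw [h13, lintegral_const_mul _ hm3]
    congr 1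
    rw [lintegral_lintegral_swap (f := fun q τ => I (q, τ)) hI.aemeasurable]
    simp only [h4]
    exact h8
  rw [h1, h12, ← ENNReal.ofReal_mul (by positivity), ENNReal.toReal_ofReal (by positivity)]
  field_simp

end Pool.Agent.Wd33b62c
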