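import Pool.Agent.W_d33b62t5_h98.GeL
import Pool.Agent.W_d33b62t5_h98.GeR
import Pool.Agent.W_d33b62t5_h98.GeV

/-!
# Geometry: the covering by cubes (MP_d33b62, T5)
-/

set_option autoImplicit false

open MeasureTheory

namespace Pool.Agent.Wd33b62c

/-- **The covering by cubes.** -/
theorem ge_main (c : ℝ) (hc : 1 ≤ c) (ε : ℝ) (hε : 0 < ε) : ∃ (m : ℕ) (η : ℝ) (S : Finset (ℤ × ℤ × ℤ)), 10 ≤ m ∧
    0 < η ∧ (∀ u v k t : ℝ, (u, v, k, t) ∈ R4 c η → (⌈m * u⌉ - 1, ⌈m * v⌉ - 1, ⌈m * t⌉ - 1) ∈ S) ∧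
    (∀ i ∈ S, (m : ℤ) ≤ 4 * i.1 ∧ i.1 + 1 ≤ 2 * m ∧ -(2 * m : ℤ) ≤ i.2.1 ∧ i.2.1 + 1 ≤ 2 * m ∧
      -(2 * m : ℤ) ≤ i.2.2 ∧ i.2.2 + 1 ≤ 2 * m) ∧
    ∑ i ∈ S, 1 / ((m : ℝ) ^ 2 * i.1) ≤ Real.pi ^ 2 / (32 * c) + ε := by
  classical
  obtain ⟨U, hUo, hEU, m0, hm0⟩ := ge_rie (E3 c) (ge_cpt c hc) (ge_u c hc) ε hε
  obtain ⟨η, hη0, hη, hrel⟩ := ge_rel c hc U hUo hEU
  obtain ⟨m, hm1, hm2⟩ : ∃ m : ℕ, m0 ≤ m ∧ 10 ≤ m := ⟨max m0 10, le_max_left _ _, le_max_right _ _⟩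
  have hmR : (10 : ℝ) ≤ m := by exact_mod_cast hm2
  have hm' : (0 : ℝ) < m := by linarith
  obtain ⟨S, hS⟩ : ∃ S : Finset (ℤ × ℤ × ℤ), S = ((Finset.Icc (-(2 * m : ℤ)) (2 * m)) ×ˢ
      ((Finset.Icc (-(2 * m : ℤ)) (2 * m)) ×ˢ (Finset.Icc (-(2 * m : ℤ)) (2 * m)))).filter
      (fun i => ∃ u v k t : ℝ, (u, v, k, t) ∈ R4 c η ∧
        i = (⌈m * u⌉ - 1, ⌈m * v⌉ - 1, ⌈m * t⌉ - 1)) := ⟨_, rfl⟩
  have hceil : ∀ x : ℝ, ((⌈x⌉ - 1 : ℤ) : ℝ) < x ∧ x ≤ ((⌈x⌉ - 1 : ℤ) : ℝ) + 1 := by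
    intro x
    push_cast
    refine ⟨?_, ?_⟩
    · have := Int.ceil_lt_add_one x
      linarith
    · have := Int.le_ceil x
      linarith
  have hbd : ∀ u v k t : ℝ, (u, v, k, t) ∈ R4 c η →
      ((m : ℤ) ≤ 4 * (⌈m * u⌉ - 1) ∧ (⌈m * u⌉ - 1) + 1 ≤ 2 * (m : ℤ)) ∧
      (-(2 * m : ℤ) ≤ ⌈m * v⌉ - 1 ∧ (⌈m * v⌉ - 1) + 1 ≤ 2 * (m : ℤ)) ∧
      (-(2 * m : ℤ) ≤ ⌈m * t⌉ - 1 ∧ (⌈m * t⌉ - 1) + 1 ≤ 2 * (m : ℤ)) := by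
    intro u v k t h
    obtain ⟨a1, a2, a3, a4, a5⟩ := ge_bd c η hc hη0.le hη u v k t h
    have key : ∀ x : ℝ, |x| ≤ 11 / 10 →
        (-(2 * m : ℤ) ≤ ⌈m * x⌉ - 1 ∧ (⌈m * x⌉ - 1) + 1 ≤ 2 * (m : ℤ)) := by
      intro x hx
      obtain ⟨b1, b2⟩ := abs_le.1 hx
      obtain ⟨c1, c2⟩ := hceil (m * x)
      have d1 : (m : ℝ) * x ≤ m * (11 / 10) := mul_le_mul_of_nonneg_left b2 hm'.le
      have d2 : (m : ℝ) * -(11 / 10) ≤ m * x := mul_le_mul_of_nonneg_left b1 hm'.le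
      constructor
      · have : ((-(2 * m : ℤ) : ℤ) : ℝ) ≤ ((⌈m * x⌉ - 1 : ℤ) : ℝ) := by
          push_cast at c2 ⊢
          linarith
        exact_mod_cast this
      · have : (((⌈m * x⌉ - 1) + 1 : ℤ) : ℝ) ≤ ((2 * m : ℤ) : ℝ) := by
          push_cast at c1 ⊢
          linarith
        exact_mod_cast this
    refine ⟨⟨?_, (key u (abs_le.2 ⟨by linarith, a2⟩)).2⟩, key v a3, key t a5⟩
    obtain ⟨c1, c2⟩ := hceil (m * u)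
    have d1 : (m : ℝ) * (2 / 5) ≤ m * u := mul_le_mul_of_nonneg_left a1 hm'.le
    have : ((m : ℤ) : ℝ) ≤ ((4 * (⌈m * u⌉ - 1) : ℤ) : ℝ) := by
      push_cast at c2 ⊢
      linarith
    exact_mod_cast this
  refine ⟨m, η, S, hm2, hη0, ?_, ?_, ?_⟩
  · intro u v k t h
    obtain ⟨⟨a1, a2⟩, ⟨a3, a4⟩, a5, a6⟩ := hbd u v k t h
    rw [hS, Finset.mem_filter]
    refine ⟨?_, u, v, k, t, h, rfl⟩
    simp only [Finset.mem_product, Finset.mem_Icc]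
    refine ⟨⟨by omega, by omega⟩, ⟨by omega, by omega⟩, by omega, by omega⟩
  · intro i hi
    rw [hS, Finset.mem_filter] at hi
    obtain ⟨-, u, v, k, t, h, rfl⟩ := hi
    obtain ⟨⟨a1, a2⟩, ⟨a3, a4⟩, a5, a6⟩ := hbd u v k t h
    exact ⟨a1, a2, a3, a4, a5, a6⟩
  · have h1 := hm0 m hm1 S (by
      intro i hi
      rw [hS, Finset.mem_filter] at hi
      obtain ⟨-, u, v, k, t, h, rfl⟩ := hi
      exact ⟨(u, v, t), hrel u v k t h, (hceil (m * u)).1, (hceil (m * u)).2,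
        (hceil (m * v)).1, (hceil (m * v)).2, (hceil (m * t)).1, (hceil (m * t)).2⟩)
    rwa [ge_vol c hc] at h1

end Pool.Agent.Wd33b62c
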