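import Pool.Agent.W_d33b62t5_h98.Kp
import Pool.Agent.W_d33b62t5_h98.CoB

/-!
# The hyperbola `x y = H mod Q` in progressions (MP_d33b62, T5)
-/

set_option autoImplicit false

open Finset

namespace Pool.Agent.Wd33b62c

open Classical in
/-- The points `(x, y) = (x0 + M ξ, y0 + M η)` of the hyperbola `x y = H mod Q` with `x` prime to `Q`, `x = σ mod D`. -/
noncomputable def CG (Q M D : ℕ) (x0 σ y0 H a b c d : ℤ) : ℕ :=
  (((Ioc a b) ×ˢ (Ioc c d)).filter (fun q : ℤ × ℤ => IsCoprime (x0 + M * q.1) (Q : ℤ) ∧ (D : ℤ) ∣ x0 + M * q.1 - σ ∧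
    (Q : ℤ) ∣ (x0 + M * q.1) * (y0 + M * q.2) - H)).card

open Classical in
/-- The number of the admissible `ξ`. -/
noncomputable def CX (Q M D : ℕ) (x0 σ a b : ℤ) : ℕ :=
  ((Ioc a b).filter (fun x : ℤ => IsCoprime (x0 + M * x) (Q : ℤ) ∧ (D : ℤ) ∣ x0 + M * x - σ)).card

/-- Divisibility by `D ∣ Q` for the representative. -/
theorem HyA_dvd (Q D : ℕ) [NeZero Q] (hD : D ∣ Q) (z σ : ℤ) :
    (D : ℤ) ∣ (((z : ZMod Q).val : ℤ) - σ) ↔ (D : ℤ) ∣ z - σ := by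
  have h1 : (D : ℤ) ∣ ((z : ZMod Q).val : ℤ) - z := by
    rw [ZMod.val_intCast]
    have h2 : (Q : ℤ) ∣ z % Q - z := ⟨-(z / Q), by
      have := Int.emod_add_mul_ediv z Q
      linarith⟩
    exact (Int.natCast_dvd_natCast.2 hD).trans h2
  constructor
  · intro h
    have h3 := dvd_sub h h1
    have e : ((z : ZMod Q).val : ℤ) - σ - (((z : ZMod Q).val : ℤ) - z) = z - σ := by ring
    rwa [e] at h3
  · intro h
    have h3 := dvd_add h h1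
    have e : z - σ + (((z : ZMod Q).val : ℤ) - z) = ((z : ZMod Q).val : ℤ) - σ := by ring
    rwa [e] at h3

/-- The greatest common divisor for a product with a unit. -/
theorem HyA_gcd (Q : ℕ) [NeZero Q] (t m : ZMod Q) (hm : IsUnit m) (H : ℤ) :
    Nat.gcd (t * m * (H : ZMod Q)).val Q ≤ Nat.gcd t.val Q * Int.gcd H Q := by
  have hQ : 0 < Q := Nat.pos_of_ne_zero (NeZero.ne Q)
  have e1 : Int.gcd H Q = Nat.gcd (H : ZMod Q).val Q := by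
    rw [← Int.gcd_emod H Q, ← ZMod.val_intCast H]
    exact Int.gcd_natCast_natCast _ _
  have e2 : (t * m * (H : ZMod Q)).val = (t.val * m.val * (H : ZMod Q).val) % Q := by
    rw [← ZMod.val_natCast]
    congr 1
    push_cast
    rw [ZMod.natCast_zmod_val, ZMod.natCast_zmod_val, ZMod.natCast_zmod_val]
  have e3 : Nat.gcd ((t.val * m.val * (H : ZMod Q).val) % Q) Q =
      Nat.gcd (t.val * m.val * (H : ZMod Q).val) Q := by
    rw [← Nat.gcd_rec, Nat.gcd_comm]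
  have e4 : Nat.gcd m.val Q = 1 := by
    have h1 := (ZMod.isUnit_iff_coprime m.val Q).1 (by rwa [ZMod.natCast_zmod_val])
    exact h1
  rw [e1, e2, e3]
  have h1 := Nat.gcd_mul_left_dvd_mul_gcd Q (t.val * m.val) (H : ZMod Q).val
  have h2 := Nat.gcd_mul_left_dvd_mul_gcd Q t.val m.val
  rw [e4, mul_one] at h2
  refine Nat.le_of_dvd ?_ (h1.trans (Nat.mul_dvd_mul h2 dvd_rfl))
  exact Nat.mul_pos (Nat.gcd_pos_of_pos_right _ hQ) (Nat.gcd_pos_of_pos_right _ hQ)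

/-- The exponential sum. -/
theorem HyA_sum (Q D : ℕ) [NeZero Q] (x0 y0 H m m' u t : ZMod Q) (hm : m * m' = 1) (σ : ℤ)
    (A : Finset (ZMod Q))
    (hA : ∀ x, x ∈ A ↔ IsUnit (x0 + m * x) ∧ (D : ℤ) ∣ (((x0 + m * x).val : ℤ) - σ)) :
    ∑ x ∈ A, (ZMod.stdAddChar (u * x + t * (m' * (H * (x0 + m * x)⁻¹ - y0))) : ℂ) =
      ZMod.stdAddChar (-(u * m' * x0) - t * m' * y0) * KP Q D σ (u * m') (t * m' * H) := by
  classical
  unfold KP
  rw [← sum_filter, mul_sum]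
  have hm2 : ∀ v : ZMod Q, x0 + m * (m' * (v - x0)) = v := fun v => by
    rw [← mul_assoc, hm]
    ring
  have hm3 : ∀ v : ZMod Q, m' * (x0 + m * v - x0) = v := fun v => by
    have : m' * (x0 + m * v - x0) = (m * m') * v := by ring
    rw [this, hm, one_mul]
  symm
  refine sum_bij (fun v _ => m' * ((v : ZMod Q) - x0)) ?_ ?_ ?_ ?_
  · intro v hv
    rw [mem_filter] at hv
    rw [hA, hm2]
    exact ⟨v.isUnit, hv.2⟩
  · intro v _ v' _ h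
    have h1 := congrArg (fun z => x0 + m * z) h
    simp only [hm2] at h1
    exact Units.ext h1
  · intro x hx
    rw [hA] at hx
    obtain ⟨⟨v, hv⟩, h2⟩ := hx
    refine ⟨v, ?_, ?_⟩
    · rw [mem_filter]
      refine ⟨mem_univ _, ?_⟩
      rw [hv]
      exact h2
    · rw [hv, hm3]
  · intro v _
    rw [hm2, ← AddChar.map_add_eq_mul, ← ZMod.inv_coe_unit]
    congr 1
    ring

/-- **The hyperbola in progressions.**
Proof. `co_main` with `A = {ξ mod Q : x0 + M ξ a unit, = σ mod D}` and `c(ξ) = M⁻¹ (H (x0 + M ξ)⁻¹ - y0)`. For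
`u, t` with `t ≠ 0` substitute `x = x0 + M ξ` (a bijection of `ZMod Q`, `M` is prime to `Q`):
`∑_{ξ ∈ A} e(u ξ + t c(ξ)) = e(const) KP Q D σ (u M⁻¹) (t M⁻¹ H)`; by `klP` its fourth power is at most
`2 gcd(t H, Q) Q³ τ³ ≤ gcd(t, Q) B⁴ ≤ (gcd(t, Q) B)⁴`. -/
theorem hy_main (Q M D : ℕ) (hQ : 0 < Q) (hM : 0 < M) (hco : Nat.Coprime Q M) (hD : D ∣ Q) (x0 y0 σ H : ℤ) (B : ℝ)
    (hB0 : 0 ≤ B) (hB : 2 * (Int.gcd H Q : ℝ) * (Q : ℝ) ^ 3 * (Q.divisors.card : ℝ) ^ 3 ≤ B ^ 4) (a b c d : ℤ)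
    (hab : a ≤ b) (hcd : c ≤ d) :
    |(CG Q M D x0 σ y0 H a b c d : ℝ) - ((d - c : ℤ) : ℝ) / Q * (CX Q M D x0 σ a b : ℝ)| ≤
      (((b - a : ℤ) : ℝ) / Q + 1 + Real.log Q) * (1 + Real.log Q) * (Q.divisors.card : ℝ) * B := by
  classical
  have iQ : NeZero Q := ⟨hQ.ne'⟩
  obtain ⟨m', hm'⟩ : ∃ m' : ZMod Q, ((M : ℕ) : ZMod Q) * m' = 1 :=
    ⟨((M : ℕ) : ZMod Q)⁻¹, ZMod.coe_mul_inv_eq_one M hco.symm⟩
  have hu' : IsUnit m' := IsUnit.of_mul_eq_one ((M : ℕ) : ZMod Q) (by rw [mul_comm]; exact hm')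
  obtain ⟨A, hA⟩ : ∃ A : Finset (ZMod Q), ∀ x, x ∈ A ↔
      IsUnit ((x0 : ZMod Q) + ((M : ℕ) : ZMod Q) * x) ∧
      (D : ℤ) ∣ ((((x0 : ZMod Q) + ((M : ℕ) : ZMod Q) * x).val : ℤ) - σ) :=
    ⟨univ.filter fun x => IsUnit ((x0 : ZMod Q) + ((M : ℕ) : ZMod Q) * x) ∧
      (D : ℤ) ∣ ((((x0 : ZMod Q) + ((M : ℕ) : ZMod Q) * x).val : ℤ) - σ), fun x => by simp⟩
  have hcast : ∀ x : ℤ, (x0 : ZMod Q) + ((M : ℕ) : ZMod Q) * (x : ZMod Q) =
      ((x0 + M * x : ℤ) : ZMod Q) := fun x => by push_cast; ring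
  have hA1 : ∀ x : ℤ, (x : ZMod Q) ∈ A ↔ IsCoprime (x0 + M * x) (Q : ℤ) ∧
      (D : ℤ) ∣ x0 + M * x - σ := fun x => by
    rw [hA, hcast, ZMod.coe_int_isUnit_iff_isCoprime, isCoprime_comm, HyA_dvd Q D hD]
  have hK : ∀ u t : ZMod Q, t ≠ 0 → ‖∑ x ∈ A, (ZMod.stdAddChar (u * x + t *
      (fun x : ZMod Q => m' * ((H : ZMod Q) * ((x0 : ZMod Q) + ((M : ℕ) : ZMod Q) * x)⁻¹ -
        (y0 : ZMod Q))) x) : ℂ)‖ ≤ (Nat.gcd t.val Q : ℝ) * B := by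
    intro u t _
    have h1 := HyA_sum Q D (x0 : ZMod Q) (y0 : ZMod Q) (H : ZMod Q) ((M : ℕ) : ZMod Q) m' u t hm' σ
      A hA
    rw [h1, norm_mul, CoA_norm, one_mul]
    have h2 := klP Q D hD σ (u * m') (t * m' * (H : ZMod Q))
    have h3 := HyA_gcd Q t m' hu' H
    have hg : (1 : ℝ) ≤ (Nat.gcd t.val Q : ℝ) := by
      exact_mod_cast Nat.gcd_pos_of_pos_right _ hQ
    refine le_of_pow_le_pow_left₀ four_ne_zero (by positivity) (h2.trans ?_)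
    have h4 : (Nat.gcd (t * m' * (H : ZMod Q)).val Q : ℝ) ≤
        (Nat.gcd t.val Q : ℝ) * (Int.gcd H Q : ℝ) := by exact_mod_cast h3
    calc 2 * (Nat.gcd (t * m' * (H : ZMod Q)).val Q : ℝ) * (Q : ℝ) ^ 3 *
          (Q.divisors.card : ℝ) ^ 3
        ≤ 2 * ((Nat.gcd t.val Q : ℝ) * (Int.gcd H Q : ℝ)) * (Q : ℝ) ^ 3 *
          (Q.divisors.card : ℝ) ^ 3 := by gcongr
      _ = (Nat.gcd t.val Q : ℝ) * (2 * (Int.gcd H Q : ℝ) * (Q : ℝ) ^ 3 *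
          (Q.divisors.card : ℝ) ^ 3) := by ring
      _ ≤ (Nat.gcd t.val Q : ℝ) * B ^ 4 := by gcongr
      _ ≤ (Nat.gcd t.val Q : ℝ) ^ 4 * B ^ 4 := by
          refine mul_le_mul_of_nonneg_right ?_ (by positivity)
          exact le_self_pow₀ hg four_ne_zero
      _ = ((Nat.gcd t.val Q : ℝ) * B) ^ 4 := by ring
  have hmain := co_main Q A (fun x : ZMod Q => m' * ((H : ZMod Q) *
    ((x0 : ZMod Q) + ((M : ℕ) : ZMod Q) * x)⁻¹ - (y0 : ZMod Q))) B hB0 hK a b c d hab hcd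
  have e1 : CX Q M D x0 σ a b = ((Ioc a b).filter (fun x : ℤ => (x : ZMod Q) ∈ A)).card := by
    unfold CX
    congr 1
    exact filter_congr fun x _ => (hA1 x).symm
  have e2 : CG Q M D x0 σ y0 H a b c d = (((Ioc a b) ×ˢ (Ioc c d)).filter (fun q : ℤ × ℤ =>
      (q.1 : ZMod Q) ∈ A ∧ (q.2 : ZMod Q) = m' * ((H : ZMod Q) *
        ((x0 : ZMod Q) + ((M : ℕ) : ZMod Q) * (q.1 : ZMod Q))⁻¹ - (y0 : ZMod Q)))).card := by
    unfold CG
    congr 1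
    refine filter_congr fun q _ => ?_
    rw [← and_assoc, ← hA1 q.1]
    refine and_congr_right fun hq => ?_
    obtain ⟨v, hv⟩ := ((hA _).1 hq).1
    rw [← hv, ZMod.inv_coe_unit]
    rw [← ZMod.intCast_zmod_eq_zero_iff_dvd, Int.cast_sub, sub_eq_zero, Int.cast_mul, ← hcast, ← hv]
    have e3 : ((y0 + M * q.2 : ℤ) : ZMod Q) = (y0 : ZMod Q) + ((M : ℕ) : ZMod Q) * (q.2 : ZMod Q) := by
      push_cast
      ring
    rw [e3]
    have hv1 : (v : ZMod Q) * ((v⁻¹ : (ZMod Q)ˣ) : ZMod Q) = 1 := v.mul_inv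
    constructor
    · intro h
      have h5 : (y0 : ZMod Q) + ((M : ℕ) : ZMod Q) * (q.2 : ZMod Q) =
          (H : ZMod Q) * ((v⁻¹ : (ZMod Q)ˣ) : ZMod Q) := by
        calc (y0 : ZMod Q) + ((M : ℕ) : ZMod Q) * (q.2 : ZMod Q)
            = ((v : ZMod Q) * ((v⁻¹ : (ZMod Q)ˣ) : ZMod Q)) *
              ((y0 : ZMod Q) + ((M : ℕ) : ZMod Q) * (q.2 : ZMod Q)) := by rw [hv1, one_mul]
          _ = ((v : ZMod Q) * ((y0 : ZMod Q) + ((M : ℕ) : ZMod Q) * (q.2 : ZMod Q))) *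
              ((v⁻¹ : (ZMod Q)ˣ) : ZMod Q) := by ring
          _ = _ := by rw [h]
      calc (q.2 : ZMod Q) = (((M : ℕ) : ZMod Q) * m') * (q.2 : ZMod Q) := by rw [hm', one_mul]
        _ = m' * (((y0 : ZMod Q) + ((M : ℕ) : ZMod Q) * (q.2 : ZMod Q)) - (y0 : ZMod Q)) := by ring
        _ = _ := by rw [h5]
    · intro h
      rw [h]
      calc (v : ZMod Q) * ((y0 : ZMod Q) + ((M : ℕ) : ZMod Q) *
            (m' * ((H : ZMod Q) * ((v⁻¹ : (ZMod Q)ˣ) : ZMod Q) - (y0 : ZMod Q))))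
          = (v : ZMod Q) * ((y0 : ZMod Q) + (((M : ℕ) : ZMod Q) *
            m') * ((H : ZMod Q) * ((v⁻¹ : (ZMod Q)ˣ) : ZMod Q) - (y0 : ZMod Q))) := by ring
        _ = (H : ZMod Q) * ((v : ZMod Q) * ((v⁻¹ : (ZMod Q)ˣ) : ZMod Q)) := by
            rw [hm']
            ring
        _ = (H : ZMod Q) := by rw [hv1, mul_one]
  rw [e1, e2]
  exact hmain

end Pool.Agent.Wd33b62c
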