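import Pool.Agent.W_d33b62t5_h98.HyA

/-!
# The number of the admissible abscissas (MP_d33b62, T5)
-/

set_option autoImplicit false

open Finset

namespace Pool.Agent.Wd33b62c

open ArithmeticFunction in
/-- `∑_{e ∣ s, (e, M) = 1} μ(e) / e`. -/
noncomputable def phM (M s : ℕ) : ℝ := ∑ e ∈ s.divisors.filter (fun e => Nat.Coprime e M), ((moebius e : ℤ) : ℝ) / e

open ArithmeticFunction in
theorem HyB_moeb (g : ℕ) : ∑ e ∈ g.divisors, (moebius e : ℤ) = if g = 1 then 1 else 0 := by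
  have h := congrArg (fun f : ArithmeticFunction ℤ => f g) moebius_mul_coe_zeta
  simp only [coe_mul_zeta_apply] at h
  rw [h, one_apply]

/-- One class in an interval. -/
theorem HyB_class (a b r m : ℤ) (hm : 0 < m) (hab : a ≤ b) :
    |(((Ioc a b).filter (fun x : ℤ => x ≡ r [ZMOD m])).card : ℝ) - ((b - a : ℤ) : ℝ) / m| ≤ 1 := by
  have h := Int.Ioc_filter_modEq_card a b hm r
  have hmq : (0 : ℚ) < m := by exact_mod_cast hm
  have habq : (a : ℚ) ≤ b := by exact_mod_cast hab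
  have h1 : ⌊((a : ℚ) - r) / (m : ℚ)⌋ ≤ ⌊((b : ℚ) - r) / (m : ℚ)⌋ := by
    apply Int.floor_le_floor
    gcongr
  rw [max_eq_left (by linarith)] at h
  have h2 := Int.floor_le (((b : ℚ) - r) / m)
  have h3 := Int.lt_floor_add_one (((b : ℚ) - r) / m)
  have h4 := Int.floor_le (((a : ℚ) - r) / m)
  have h5 := Int.lt_floor_add_one (((a : ℚ) - r) / m)
  have h6 : |(((Ioc a b).filter (fun x : ℤ => x ≡ r [ZMOD m])).card : ℚ) - ((b - a : ℤ) : ℚ) / m| ≤ 1 := by
    have e1 : (((Ioc a b).filter (fun x : ℤ => x ≡ r [ZMOD m])).card : ℚ) =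
        ((⌊((b : ℚ) - r) / (m : ℚ)⌋ - ⌊((a : ℚ) - r) / (m : ℚ)⌋ : ℤ) : ℚ) := by
      rw [← h]
      push_cast
      rfl
    rw [e1]
    push_cast
    have e2 : ((b : ℚ) - a) / m = ((b : ℚ) - r) / m - ((a : ℚ) - r) / m := by ring
    rw [e2, abs_le]
    constructor <;> linarith
  have h7 : ((|(((Ioc a b).filter (fun x : ℤ => x ≡ r [ZMOD m])).card : ℚ) - ((b - a : ℤ) : ℚ) / m| : ℚ) : ℝ) ≤
      ((1 : ℚ) : ℝ) := by exact_mod_cast h6
  push_cast at h7 ⊢
  exact h7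

/-- The condition for `e` prime to `D` is one class modulo `e D`. -/
theorem HyB_crt (M D e : ℕ) (hDM : Nat.Coprime D M) (heM : Nat.Coprime e M) (heD : Nat.Coprime e D)
    (x0 σ : ℤ) : ∃ r : ℤ, ∀ x : ℤ, ((D : ℤ) ∣ x0 + M * x - σ ∧ (e : ℤ) ∣ x0 + M * x) ↔
      x ≡ r [ZMOD ((e * D : ℕ) : ℤ)] := by
  have h1 : IsCoprime (e : ℤ) (D : ℤ) := Nat.isCoprime_iff_coprime.2 heD
  have h2 : IsCoprime ((e * D : ℕ) : ℤ) (M : ℤ) :=
    Nat.isCoprime_iff_coprime.2 (Nat.Coprime.mul_left heM hDM)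
  obtain ⟨u, v, huv⟩ := h1
  obtain ⟨s, t, hst⟩ := id h2
  refine ⟨t * (u * e * σ - x0), fun x => ?_⟩
  have key : (((e * D : ℕ) : ℤ) ∣ x0 + M * x - u * e * σ) ↔ x ≡ t * (u * e * σ - x0) [ZMOD ((e * D : ℕ) : ℤ)] := by
    rw [Int.modEq_iff_dvd]
    have e1 : (M : ℤ) * (t * (u * e * σ - x0) - x) =
        -(x0 + M * x - u * e * σ) + ((e * D : ℕ) : ℤ) * (-(s * (u * e * σ - x0))) := by
      linear_combination (u * e * σ - x0) * hst
    constructor
    · intro h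
      have h3 : ((e * D : ℕ) : ℤ) ∣ (M : ℤ) * (t * (u * e * σ - x0) - x) := by
        rw [e1]
        exact dvd_add ((dvd_neg).2 h) (Dvd.intro _ rfl)
      exact h2.dvd_of_dvd_mul_left h3
    · intro h
      have h3 : ((e * D : ℕ) : ℤ) ∣ (M : ℤ) * (t * (u * e * σ - x0) - x) := Dvd.dvd.mul_left h _
      rw [e1] at h3
      have h4 := (dvd_add_left (Dvd.intro _ rfl)).1 h3
      exact (dvd_neg).1 h4
  rw [← key]
  constructor
  · rintro ⟨h3, h4⟩
    have h5 : (e : ℤ) ∣ x0 + M * x - u * e * σ := dvd_sub h4 ⟨u * σ, by ring⟩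
    have h6 : (D : ℤ) ∣ x0 + M * x - u * e * σ := by
      have e2 : x0 + M * x - u * e * σ = (x0 + M * x - σ) + (D : ℤ) * (v * σ) := by
        linear_combination (-σ) * huv
      rw [e2]
      exact dvd_add h3 (Dvd.intro _ rfl)
    push_cast
    exact IsCoprime.mul_dvd ⟨u, v, huv⟩ h5 h6
  · intro h
    push_cast at h
    have h5 : (e : ℤ) ∣ x0 + M * x - u * e * σ := (Dvd.intro _ rfl).trans h
    have h6 : (D : ℤ) ∣ x0 + M * x - u * e * σ := (Dvd.intro_left _ rfl).trans h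
    refine ⟨?_, ?_⟩
    · have e2 : x0 + M * x - σ = (x0 + M * x - u * e * σ) + (D : ℤ) * (-(v * σ)) := by
        linear_combination σ * huv
      rw [e2]
      exact dvd_add h6 (Dvd.intro _ rfl)
    · have e2 : x0 + M * x = (x0 + M * x - u * e * σ) + (e : ℤ) * (u * σ) := by ring
      rw [e2]
      exact dvd_add h5 (Dvd.intro _ rfl)

open ArithmeticFunction in
/-- Proof. The number is `∑_{e ∣ Q} μ(e) #{ξ : e ∣ x0 + M ξ, D ∣ x0 + M ξ - σ}`; here `gcd(e, D)` divides `σ`, so only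
the `e` prime to `D` contribute; for them it is one class of `ξ` modulo `e D` (`M` is prime to `Q`):
`(b - a) / (e D) + θ`, `|θ| ≤ 1` (`Int.Ioc_filter_modEq_card`). -/
theorem hy_cnt (Q M D : ℕ) (hQ : 0 < Q) (hM : 0 < M) (hco : Nat.Coprime Q M) (hD : D ∣ Q) (x0 σ : ℤ)
    (hσ : IsCoprime σ (D : ℤ)) (a b : ℤ) (hab : a ≤ b) :
    |(CX Q M D x0 σ a b : ℝ) - ((b - a : ℤ) : ℝ) / D * phM D Q| ≤ Q.divisors.card := by
  classical
  have hD0 : 0 < D := Nat.pos_of_dvd_of_pos hD hQ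
  let cnt : ℕ → ℕ := fun e => ((Ioc a b).filter (fun x : ℤ => (D : ℤ) ∣ x0 + M * x - σ ∧
    (e : ℤ) ∣ x0 + M * x)).card
  -- inclusion-exclusion
  have hCX : (CX Q M D x0 σ a b : ℤ) = ∑ e ∈ Q.divisors, (moebius e : ℤ) * cnt e := by
    have h1 : ∀ x : ℤ, (if IsCoprime (x0 + M * x) (Q : ℤ) ∧ (D : ℤ) ∣ x0 + M * x - σ then (1 : ℤ) else 0) =
        ∑ e ∈ Q.divisors, (moebius e : ℤ) *
          (if ((D : ℤ) ∣ x0 + M * x - σ ∧ (e : ℤ) ∣ x0 + M * x) then (1 : ℤ) else 0) := by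
      intro x
      by_cases hP : (D : ℤ) ∣ x0 + M * x - σ
      · have hg : 0 < Int.gcd (x0 + M * x) (Q : ℤ) := Int.gcd_pos_of_ne_zero_right _ (by exact_mod_cast hQ.ne')
        have h2 : ∑ e ∈ Q.divisors, (moebius e : ℤ) *
            (if ((D : ℤ) ∣ x0 + M * x - σ ∧ (e : ℤ) ∣ x0 + M * x) then (1 : ℤ) else 0) =
            ∑ e ∈ (Int.gcd (x0 + M * x) (Q : ℤ)).divisors, (moebius e : ℤ) := by
          have h3 : (Int.gcd (x0 + M * x) (Q : ℤ)).divisors = Q.divisors.filter (fun e : ℕ => (e : ℤ) ∣ x0 + M * x) := by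
            ext e
            rw [mem_filter, Nat.mem_divisors, Nat.mem_divisors]
            constructor
            · rintro ⟨h4, -⟩
              have h5 : (e : ℤ) ∣ (Int.gcd (x0 + M * x) (Q : ℤ) : ℤ) := by exact_mod_cast h4
              refine ⟨⟨?_, hQ.ne'⟩, h5.trans (Int.gcd_dvd_left _ _)⟩
              exact_mod_cast h5.trans (Int.gcd_dvd_right _ _)
            · rintro ⟨⟨h4, -⟩, h5⟩
              refine ⟨?_, hg.ne'⟩
              have h6 : (e : ℤ) ∣ (Q : ℤ) := by exact_mod_cast h4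
              exact_mod_cast Int.dvd_coe_gcd h5 h6
          rw [h3, sum_filter]
          refine sum_congr rfl fun e _ => ?_
          by_cases h4 : (e : ℤ) ∣ x0 + M * x
          · rw [if_pos ⟨hP, h4⟩, if_pos h4, mul_one]
          · rw [if_neg (fun h => h4 h.2), if_neg h4, mul_zero]
        rw [h2, HyB_moeb _]
        by_cases h4 : Int.gcd (x0 + M * x) (Q : ℤ) = 1
        · rw [if_pos h4, if_pos ⟨Int.isCoprime_iff_gcd_eq_one.2 h4, hP⟩]
        · rw [if_neg h4, if_neg (fun h => h4 (Int.isCoprime_iff_gcd_eq_one.1 h.1))]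
      · rw [if_neg (fun h => hP h.2)]
        refine (sum_eq_zero fun e _ => ?_).symm
        rw [if_neg (fun h => hP h.1), mul_zero]
    have h2 : (CX Q M D x0 σ a b : ℤ) = ∑ x ∈ Ioc a b,
        (if IsCoprime (x0 + M * x) (Q : ℤ) ∧ (D : ℤ) ∣ x0 + M * x - σ then (1 : ℤ) else 0) := by
      unfold CX
      rw [card_filter]
      push_cast
      rfl
    rw [h2, sum_congr rfl fun x _ => h1 x, sum_comm]
    refine sum_congr rfl fun e _ => ?_
    rw [← mul_sum]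
    congr 1
    show _ = (((Ioc a b).filter (fun x : ℤ => (D : ℤ) ∣ x0 + M * x - σ ∧
      (e : ℤ) ∣ x0 + M * x)).card : ℤ)
    rw [card_filter]
    push_cast
    rfl
  have hCXr : (CX Q M D x0 σ a b : ℝ) = ∑ e ∈ Q.divisors, ((moebius e : ℤ) : ℝ) * (cnt e : ℝ) := by
    have h1 : ((CX Q M D x0 σ a b : ℤ) : ℝ) = ((∑ e ∈ Q.divisors, (moebius e : ℤ) * cnt e : ℤ) : ℝ) := by
      rw [hCX]
    push_cast at h1
    exact h1
  have hph : ((b - a : ℤ) : ℝ) / D * phM D Q = ∑ e ∈ Q.divisors,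
      (if Nat.Coprime e D then ((moebius e : ℤ) : ℝ) * (((b - a : ℤ) : ℝ) / ((e * D : ℕ) : ℝ)) else 0) := by
    unfold phM
    rw [mul_sum, sum_filter]
    refine sum_congr rfl fun e he => ?_
    have he0 : (e : ℝ) ≠ 0 := by
      have := Nat.pos_of_mem_divisors he
      positivity
    have hD1 : (D : ℝ) ≠ 0 := by positivity
    by_cases h : Nat.Coprime e D
    · rw [if_pos h, if_pos h]
      push_cast
      field_simp
    · rw [if_neg h, if_neg h]
  rw [hCXr, hph, ← sum_sub_distrib]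
  refine (abs_sum_le_sum_abs _ _).trans ?_
  have hone : ((Q.divisors.card : ℕ) : ℝ) = ∑ e ∈ Q.divisors, (1 : ℝ) := by
    rw [sum_const, nsmul_eq_mul, mul_one]
  rw [hone]
  refine sum_le_sum fun e he => ?_
  have heQ : e ∣ Q := (Nat.mem_divisors.1 he).1
  have he0 : 0 < e := Nat.pos_of_mem_divisors he
  by_cases h : Nat.Coprime e D
  · rw [if_pos h]
    obtain ⟨r, hr⟩ := HyB_crt M D e (Nat.Coprime.coprime_dvd_left hD hco) (Nat.Coprime.coprime_dvd_left heQ hco) h x0 σ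
    have h1 : cnt e = ((Ioc a b).filter (fun x : ℤ => x ≡ r [ZMOD ((e * D : ℕ) : ℤ)])).card := by
      show ((Ioc a b).filter (fun x : ℤ => (D : ℤ) ∣ x0 + M * x - σ ∧ (e : ℤ) ∣ x0 + M * x)).card = _
      congr 1
      exact filter_congr fun x _ => hr x
    have h2 := HyB_class a b r ((e * D : ℕ) : ℤ) (by exact_mod_cast Nat.mul_pos he0 hD0) hab
    rw [← h1] at h2
    rw [← mul_sub, abs_mul]
    have h3 : |((moebius e : ℤ) : ℝ)| ≤ 1 := by
      have := abs_moebius_le_one (n := e)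
      exact_mod_cast this
    have h4 : |(cnt e : ℝ) - ((b - a : ℤ) : ℝ) / ((e * D : ℕ) : ℝ)| ≤ 1 := by
      have e1 : (((e * D : ℕ) : ℤ) : ℝ) = ((e * D : ℕ) : ℝ) := by push_cast; ring
      rw [e1] at h2
      exact h2
    calc _ ≤ (1 : ℝ) * 1 := mul_le_mul h3 h4 (abs_nonneg _) zero_le_one
      _ = 1 := one_mul 1
  · rw [if_neg h, sub_zero]
    have h1 : cnt e = 0 := by
      show ((Ioc a b).filter (fun x : ℤ => (D : ℤ) ∣ x0 + M * x - σ ∧ (e : ℤ) ∣ x0 + M * x)).card = 0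
      rw [card_eq_zero, filter_eq_empty_iff]
      rintro x - ⟨h2, h3⟩
      obtain ⟨p, hp, hpe, hpD⟩ := Nat.Prime.not_coprime_iff_dvd.1 h
      have h4 : (p : ℤ) ∣ x0 + M * x := (Int.natCast_dvd_natCast.2 hpe).trans h3
      have h5 : (p : ℤ) ∣ x0 + M * x - σ := (Int.natCast_dvd_natCast.2 hpD).trans h2
      have h6 : (p : ℤ) ∣ σ := (dvd_sub_right h4).1 h5
      have h7 : (p : ℤ) ∣ (D : ℤ) := Int.natCast_dvd_natCast.2 hpD
      have h8 : IsUnit (p : ℤ) := hσ.isUnit_of_dvd' h6 h7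
      rw [Int.isUnit_iff] at h8
      have := hp.two_le
      omega
    rw [h1, Nat.cast_zero, mul_zero, abs_zero]
    exact zero_le_one

open ArithmeticFunction in
/-- `0 ≤ phM ≤ 1`: it is `∏_{p ∣ s, p ∤ M} (1 - 1 / p)`. -/
theorem phM_bd (M s : ℕ) (hs : 0 < s) : 0 ≤ phM M s ∧ phM M s ≤ 1 := by
  classical
  let T : Finset ℕ := s.primeFactors.filter fun p => ¬ p ∣ M
  have hT : ∀ p ∈ T, p.Prime ∧ p ∣ s ∧ ¬ p ∣ M := by
    intro p hp
    rw [mem_filter, Nat.mem_primeFactors] at hp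
    exact ⟨hp.1.1, hp.1.2.1, hp.2⟩
  let n : ℕ := ∏ p ∈ T, p
  have hn0 : n ≠ 0 := prod_ne_zero_iff.2 fun p hp => (hT p hp).1.ne_zero
  have hpf : n.primeFactors = T := Nat.primeFactors_prod fun p hp => (hT p hp).1
  have hsq : Squarefree n := by
    refine Finset.squarefree_prod_of_pairwise_isCoprime ?_ fun p hp => (hT p hp).1.squarefree
    intro p hp q hq hpq
    exact Nat.coprime_iff_isRelPrime.1 ((Nat.coprime_primes (hT p hp).1 (hT q hq).1).2 hpq)
  let f : ArithmeticFunction ℝ := ⟨fun k => ((k : ℕ) : ℝ)⁻¹, by simp⟩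
  have hf1 : ∀ k, f k = ((k : ℕ) : ℝ)⁻¹ := fun k => rfl
  have hf : f.IsMultiplicative := by
    refine ⟨by rw [hf1]; simp, fun {k l} _ => ?_⟩
    rw [hf1, hf1, hf1]
    push_cast
    rw [mul_inv]
  have h1 := hf.prodPrimeFactors_one_sub_of_squarefree f hsq
  have hnM : Nat.Coprime n M := by
    refine Nat.Coprime.prod_left fun p hp => ?_
    exact (Nat.Prime.coprime_iff_not_dvd (hT p hp).1).2 (hT p hp).2.2
  have hns : n ∣ s := by
    have h2 : n ∣ ∏ p ∈ s.primeFactors, p := prod_dvd_prod_of_subset _ _ _ (filter_subset _ _)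
    exact h2.trans (Nat.prod_primeFactors_dvd s)
  have h2 : phM M s = ∏ p ∈ T, (1 - f p) := by
    rw [hpf] at h1
    rw [h1]
    unfold phM
    symm
    have h3 : ∀ e : ℕ, ((moebius e : ℤ) : ℝ) / e = ((moebius e : ℤ) : ℝ) * f e := by
      intro e
      rw [hf1, div_eq_mul_inv]
    rw [sum_congr rfl fun e _ => h3 e]
    refine sum_subset ?_ ?_
    · intro e he
      rw [Nat.mem_divisors] at he
      rw [mem_filter, Nat.mem_divisors]
      exact ⟨⟨he.1.trans hns, hs.ne'⟩, Nat.Coprime.coprime_dvd_left he.1 hnM⟩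
    · intro e he he'
      rw [mem_filter, Nat.mem_divisors] at he
      have h4 : moebius e = 0 := by
        by_contra h5
        have h6 : Squarefree e := moebius_ne_zero_iff_squarefree.1 h5
        apply he'
        rw [Nat.mem_divisors]
        refine ⟨?_, hn0⟩
        rw [← Nat.prod_primeFactors_of_squarefree h6]
        refine prod_dvd_prod_of_subset _ _ _ fun p hp => ?_
        rw [Nat.mem_primeFactors] at hp
        rw [mem_filter, Nat.mem_primeFactors]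
        refine ⟨⟨hp.1, hp.2.1.trans he.1.1, hs.ne'⟩, fun hpM => ?_⟩
        have h7 : p ∣ Nat.gcd e M := Nat.dvd_gcd hp.2.1 hpM
        rw [he.2] at h7
        exact hp.1.one_lt.ne' (Nat.dvd_one.1 h7)
      rw [h4, Int.cast_zero, zero_mul]
  have h3 : ∀ p ∈ T, 0 ≤ 1 - f p ∧ 1 - f p ≤ 1 := by
    intro p hp
    have h4 : (1 : ℝ) ≤ p := by exact_mod_cast (hT p hp).1.one_lt.le
    have h5 : ((p : ℕ) : ℝ)⁻¹ ≤ 1 := inv_le_one_of_one_le₀ h4
    have h6 : (0 : ℝ) ≤ ((p : ℕ) : ℝ)⁻¹ := by positivity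
    rw [hf1]
    constructor <;> linarith
  rw [h2]
  exact ⟨prod_nonneg fun p hp => (h3 p hp).1, prod_le_one (fun p hp => (h3 p hp).1) fun p hp => (h3 p hp).2⟩

end Pool.Agent.Wd33b62c
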