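import Pool.Agent.W_d33b62f_h37.Kl

/-!
# Kloosterman sums over a residue class (MP_d33b62, T5)
-/

set_option autoImplicit false

open Finset

namespace Pool.Agent.Wd33b62c

/-- The Kloosterman sum restricted to `x = σ mod D` (used for `D ∣ q`). -/
noncomputable def KP (q : ℕ) [NeZero q] (D : ℕ) (σ : ℤ) (a b : ZMod q) : ℂ := by
  classical
  exact ∑ x : (ZMod q)ˣ, if (D : ℤ) ∣ (((x : ZMod q).val : ℤ) - σ) then
    (ZMod.stdAddChar (a * (x : ZMod q) + b * ((x⁻¹ : (ZMod q)ˣ) : ZMod q)) : ℂ) else 0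

/-- Orthogonality: `∑_{r < D} e(r n / D) = D [D ∣ n]`. -/
theorem Kp_orth (q : ℕ) [NeZero q] (D h : ℕ) (hq : q = D * h) (n : ℤ) :
    ∑ r ∈ range D, (ZMod.stdAddChar (((r * h : ℕ) : ZMod q) * (n : ZMod q)) : ℂ) =
      if (D : ℤ) ∣ n then (D : ℂ) else 0 := by
  have hq0 : q ≠ 0 := NeZero.ne q
  have hh0 : h ≠ 0 := by
    rintro rfl
    exact hq0 (by rw [hq, Nat.mul_zero])
  have hpow : ∀ r : ℕ, (ZMod.stdAddChar (((r * h : ℕ) : ZMod q) * (n : ZMod q)) : ℂ) =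
      (ZMod.stdAddChar ((h : ZMod q) * (n : ZMod q)) : ℂ) ^ r := by
    intro r
    rw [← AddChar.map_nsmul_eq_pow]
    congr 1
    rw [nsmul_eq_mul]
    push_cast
    ring
  rw [Finset.sum_congr rfl fun r _ => hpow r]
  have hone : (ZMod.stdAddChar ((h : ZMod q) * (n : ZMod q)) : ℂ) = 1 ↔ (D : ℤ) ∣ n := by
    rw [← AddChar.map_zero_eq_one (ZMod.stdAddChar (N := q)), ZMod.injective_stdAddChar.eq_iff]
    have h1 : (h : ZMod q) * (n : ZMod q) = (((h : ℤ) * n : ℤ) : ZMod q) := by push_cast; ring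
    rw [h1, ZMod.intCast_zmod_eq_zero_iff_dvd, hq]
    push_cast
    rw [mul_comm (D : ℤ) (h : ℤ)]
    exact mul_dvd_mul_iff_left (by exact_mod_cast hh0)
  by_cases hd : (D : ℤ) ∣ n
  · rw [if_pos hd, hone.2 hd]
    simp
  · rw [if_neg hd]
    have hne : (ZMod.stdAddChar ((h : ZMod q) * (n : ZMod q)) : ℂ) ≠ 1 := fun hc => hd (hone.1 hc)
    have hD : (ZMod.stdAddChar ((h : ZMod q) * (n : ZMod q)) : ℂ) ^ D = 1 := by
      rw [← hpow D, ← hq]
      simp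
    rw [geom_sum_eq hne, hD]
    simp

/-- The sum over a residue class as an average. -/
theorem Kp_eq (q : ℕ) [NeZero q] (D h : ℕ) (hq : q = D * h) (σ : ℤ) (a b : ZMod q) :
    (D : ℂ) * KP q D σ a b = ∑ r ∈ range D,
      (ZMod.stdAddChar (-(((r * h : ℕ) : ZMod q) * (σ : ZMod q))) : ℂ) *
        W33f.Kl q (a + ((r * h : ℕ) : ZMod q)) b := by
  classical
  have h1 : ∀ r ∈ range D, (ZMod.stdAddChar (-(((r * h : ℕ) : ZMod q) * (σ : ZMod q))) : ℂ) *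
        W33f.Kl q (a + ((r * h : ℕ) : ZMod q)) b = ∑ x : (ZMod q)ˣ,
          (ZMod.stdAddChar (((r * h : ℕ) : ZMod q) *
            ((((x : ZMod q).val : ℤ) - σ : ℤ) : ZMod q)) : ℂ) *
          (ZMod.stdAddChar (a * (x : ZMod q) + b * ((x⁻¹ : (ZMod q)ˣ) : ZMod q)) : ℂ) := by
    intro r _
    rw [W33f.Kl_def, Finset.mul_sum]
    refine Finset.sum_congr rfl fun x _ => ?_
    rw [← AddChar.map_add_eq_mul, ← AddChar.map_add_eq_mul]
    congr 1
    push_cast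
    rw [ZMod.natCast_zmod_val]
    ring
  rw [Finset.sum_congr rfl h1, Finset.sum_comm]
  unfold KP
  rw [Finset.mul_sum]
  refine Finset.sum_congr rfl fun x _ => ?_
  rw [← Finset.sum_mul, Kp_orth q D h hq]
  split_ifs
  · rfl
  · rw [mul_zero, zero_mul]

/-- The Kloosterman bound for the sum over a residue class modulo `D ∣ q`.
Proof. `[D ∣ n] = (1 / D) ∑_{r < D} e(r n / D)`, `e(r n / D) = stdAddChar ((r (q / D)) n)`: `KP` is an average of the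
numbers `e(- r σ / D) Kl q (a + r (q / D)) b`; use `W33f.Kl_pow_four_le` and `gcd(gcd(a, b), q) ≤ gcd(b, q)`. -/
theorem klP (q : ℕ) [NeZero q] (D : ℕ) (hD : D ∣ q) (σ : ℤ) (a b : ZMod q) :
    ‖KP q D σ a b‖ ^ 4 ≤ 2 * (Nat.gcd b.val q : ℝ) * (q : ℝ) ^ 3 * (q.divisors.card : ℝ) ^ 3 := by
  obtain ⟨h, hq⟩ := hD
  have hq0 : q ≠ 0 := NeZero.ne q
  have hD0 : D ≠ 0 := by
    rintro rfl
    exact hq0 (by rw [hq, Nat.zero_mul])
  have hne : (range D).Nonempty := Finset.nonempty_range_iff.2 hD0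
  obtain ⟨r, -, hr⟩ := Finset.exists_max_image (range D)
    (fun r : ℕ => ‖W33f.Kl q (a + ((r * h : ℕ) : ZMod q)) b‖) hne
  have hDpos : (0 : ℝ) < (D : ℝ) := by exact_mod_cast Nat.pos_of_ne_zero hD0
  have h1 : ‖KP q D σ a b‖ ≤ ‖W33f.Kl q (a + ((r * h : ℕ) : ZMod q)) b‖ := by
    have h2 : (D : ℝ) * ‖KP q D σ a b‖ ≤ (D : ℝ) * ‖W33f.Kl q (a + ((r * h : ℕ) : ZMod q)) b‖ := by
      calc (D : ℝ) * ‖KP q D σ a b‖ = ‖(D : ℂ) * KP q D σ a b‖ := by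
            rw [norm_mul, Complex.norm_natCast]
        _ ≤ ∑ s ∈ range D, ‖(ZMod.stdAddChar (-(((s * h : ℕ) : ZMod q) * (σ : ZMod q))) : ℂ) *
              W33f.Kl q (a + ((s * h : ℕ) : ZMod q)) b‖ := by
            rw [Kp_eq q D h hq]
            exact norm_sum_le _ _
        _ ≤ ∑ s ∈ range D, ‖W33f.Kl q (a + ((r * h : ℕ) : ZMod q)) b‖ := by
            refine Finset.sum_le_sum fun s hs => ?_
            rw [norm_mul, AddChar.norm_apply, one_mul]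
            exact hr s hs
        _ = (D : ℝ) * ‖W33f.Kl q (a + ((r * h : ℕ) : ZMod q)) b‖ := by
            rw [Finset.sum_const, Finset.card_range, nsmul_eq_mul]
    exact le_of_mul_le_mul_left h2 hDpos
  have h3 := W33f.Kl_pow_four_le q (a + ((r * h : ℕ) : ZMod q)) b
  have h4 : Nat.gcd (Nat.gcd (a + ((r * h : ℕ) : ZMod q)).val b.val) q ≤ Nat.gcd b.val q := by
    refine Nat.le_of_dvd (Nat.gcd_pos_of_pos_right _ (Nat.pos_of_ne_zero hq0)) ?_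
    exact Nat.dvd_gcd ((Nat.gcd_dvd_left _ _).trans (Nat.gcd_dvd_right _ _)) (Nat.gcd_dvd_right _ _)
  have h5 : ((Nat.gcd (Nat.gcd (a + ((r * h : ℕ) : ZMod q)).val b.val) q : ℕ) : ℝ) ≤
      (Nat.gcd b.val q : ℝ) := by exact_mod_cast h4
  calc ‖KP q D σ a b‖ ^ 4 ≤ ‖W33f.Kl q (a + ((r * h : ℕ) : ZMod q)) b‖ ^ 4 := by
        gcongr
    _ ≤ _ := h3
    _ ≤ 2 * (Nat.gcd b.val q : ℝ) * (q.divisors.card : ℝ) ^ 3 * (q : ℝ) ^ 3 := by
        gcongr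
    _ = _ := by ring

end Pool.Agent.Wd33b62c
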