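import Pool.Agent.W_d33b62t5_h98.BxB
import Pool.Agent.W_d33b62t5_h98.CrM
import Pool.Agent.W_d33b62t5_h98.CrW
import Pool.Agent.W_d33b62t5_h98.CrA
import Pool.Agent.W_d33b62t5_h98.CrP

/-!
# Local densities (MP_d33b62, T5)
-/

set_option autoImplicit false

open Finset

namespace Pool.Agent.Wd33b62c

/-- The parameters of a pair of circles. -/
structure Par (k : ℕ) where
  W : ℕ
  a : ℕ
  a' : ℕ
  r1 : ℤ
  r2 : ℤ
  h : ℤ
  l1 : ℤ
  l2 : ℤ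
  l1' : ℤ
  l2' : ℤ
  c : Fin k → ℤ

/-- Consistency of the parameters. -/
structure Par.ok {k : ℕ} (D : Par k) : Prop where
  hW : 4 ∣ D.W
  W0 : 0 < D.W
  hr : IsCoprime D.r1 (D.W : ℤ)
  ap : D.a.Prime
  ap' : D.a'.Prime
  ne : D.a ≠ D.a'
  aW : ¬ D.a ∣ D.W
  aW' : ¬ D.a' ∣ D.W
  ah : ¬ (D.a : ℤ) ∣ D.h
  ah' : ¬ (D.a' : ℤ) ∣ D.h
  al : ¬ ((D.a : ℤ) ∣ D.l1 ∧ (D.a : ℤ) ∣ D.l2)
  al' : ¬ ((D.a' : ℤ) ∣ D.l1' ∧ (D.a' : ℤ) ∣ D.l2')
  h0 : D.h ≠ 0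

/-- The admissible sieve primes. -/
structure Par.sp {k : ℕ} (D : Par k) (p : ℕ) : Prop where
  pp : p.Prime
  pW : ¬ p ∣ D.W
  pa : p ≠ D.a
  pa' : p ≠ D.a'
  ph : ¬ (p : ℤ) ∣ D.h
  pc : ∀ l l', l ≠ l' → ¬ (p : ℤ) ∣ D.c l - D.c l'
  pc0 : ∀ l, ¬ (p : ℤ) ∣ D.c l
  pc1 : ∀ l, ¬ (p : ℤ) ∣ D.c l - 4 * D.W * D.h

/-- All conditions, `S` = the set of the sieve primes imposed. -/
def Par.PL {k : ℕ} (D : Par k) (S : Finset ℕ) : Pd := fun s1 s2 k1 k2 => PW D.W D.r1 D.r2 D.h s1 s2 k1 k2 ∧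
  PA D.W D.a D.h D.l1 D.l2 1 s1 s2 k1 k2 ∧ PA D.W D.a' D.h D.l1' D.l2' (-1) s1 s2 k1 k2 ∧
  ∀ p ∈ S, PP D.W p D.h D.c s1 s2 k1 k2

/-- The density of a sieve prime. -/
noncomputable def gg (k p : ℕ) : ℝ := k * ((p : ℝ) - ((ZMod.χ₄ p : ℤ) : ℝ)) ^ 2 / ((p : ℝ) ^ 3 - p)

/-- `m = a a' ∏ p ∈ S, p`. -/
def Par.mm {k : ℕ} (D : Par k) (S : Finset ℕ) : ℕ := D.a * D.a' * ∏ p ∈ S, p

theorem loA_dvd (p : ℕ) (h : ℤ) (hp : ¬ (p : ℤ) ∣ h) : ¬ p ∣ h.natAbs := by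
  intro h1
  exact hp (Int.natCast_dvd.2 h1)

theorem loA_per {m n : ℕ} {P : Pd} (hP : Per m P) (hmn : m ∣ n) : Per n P := by
  intro x1 x2 x3 x4 y1 y2 y3 y4 h1 h2 h3 h4
  have h : (m : ℤ) ∣ (n : ℤ) := Int.natCast_dvd_natCast.2 hmn
  exact hP _ _ _ _ _ _ _ _ (h.trans h1) (h.trans h2) (h.trans h3) (h.trans h4)

theorem loA_per_PL {k : ℕ} (D : Par k) (S : Finset ℕ) : Per (D.W * D.mm S) (D.PL S) := by
  have hW : Per (D.W * D.mm S) (PW D.W D.r1 D.r2 D.h) := loA_per (cr_perW _ _ _ _) (dvd_mul_right _ _)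
  have ha : Per (D.W * D.mm S) (PA D.W D.a D.h D.l1 D.l2 1) := by
    refine loA_per (cr_perA _ _ _ _ _ _) ?_
    unfold Par.mm
    exact Dvd.dvd.mul_left ((dvd_mul_right _ _).mul_right _) _
  have ha' : Per (D.W * D.mm S) (PA D.W D.a' D.h D.l1' D.l2' (-1)) := by
    refine loA_per (cr_perA _ _ _ _ _ _) ?_
    unfold Par.mm
    exact Dvd.dvd.mul_left ((dvd_mul_left _ _).mul_right _) _
  have hp : ∀ p ∈ S, Per (D.W * D.mm S) (PP D.W p D.h D.c) := by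
    intro p hp
    refine loA_per (cr_perP _ _ _ _) ?_
    unfold Par.mm
    exact Dvd.dvd.mul_left ((Finset.dvd_prod_of_mem (fun p => p) hp).mul_left _) _
  intro x1 x2 x3 x4 y1 y2 y3 y4 h1 h2 h3 h4
  unfold Par.PL
  rw [hW _ _ _ _ _ _ _ _ h1 h2 h3 h4, ha _ _ _ _ _ _ _ _ h1 h2 h3 h4, ha' _ _ _ _ _ _ _ _ h1 h2 h3 h4]
  refine and_congr Iff.rfl (and_congr Iff.rfl (and_congr Iff.rfl ?_))
  refine forall_congr' fun p => forall_congr' fun hpS => ?_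
  exact hp p hpS _ _ _ _ _ _ _ _ h1 h2 h3 h4

theorem loA_unit (W : ℕ) (hW : 4 ∣ W) (r x1 x3 : ℤ) (hr : IsCoprime r (W : ℤ))
    (h : (W : ℤ) ∣ x1 - (r + (W / 2 : ℕ) * x3)) : IsCoprime x1 (W : ℤ) := by
  obtain ⟨v, rfl⟩ := hW
  rw [show 4 * v / 2 = 2 * v by omega] at h
  push_cast at hr h ⊢
  obtain ⟨t, ht⟩ := h
  have h1 : IsCoprime r (2 * (v : ℤ)) := by
    have : (4 : ℤ) * v = 2 * v * 2 := by ring
    rw [this] at hr
    exact hr.of_mul_right_left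
  have h2 : IsCoprime x1 (2 * (v : ℤ)) := by
    have e : x1 = r + 2 * (v : ℤ) * (x3 + 2 * t) := by linear_combination ht
    rw [e]
    exact h1.add_mul_left_left _
  have h3 : IsCoprime x1 (2 * (v : ℤ) * (2 * v)) := h2.mul_right h2
  have e : 2 * (v : ℤ) * (2 * v) = 4 * v * v := by ring
  rw [e] at h3
  exact h3.of_mul_right_left

/-- The hypotheses of `bx_main`. -/
theorem lo_hyp {k : ℕ} (D : Par k) (hD : D.ok) (S : Finset ℕ) (hS : ∀ p ∈ S, D.sp p) :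
    Squarefree (D.mm S) ∧ Nat.Coprime D.W (D.mm S) ∧ Nat.Coprime D.h.natAbs (D.mm S) ∧
    Per (D.W * D.mm S) (D.PL S) ∧
    (∀ x1 x2 x3 x4 : ℤ, D.PL S x1 x2 x3 x4 → ((D.W * D.mm S : ℕ) : ℤ) ∣ x1 * x3 + x2 * x4 - D.h ∧
      IsCoprime x1 (D.W : ℤ)) := by
  have c1 : Nat.Coprime D.a D.a' := (Nat.coprime_primes hD.ap hD.ap').2 hD.ne
  have c2 : ∀ p ∈ S, Nat.Coprime D.a p := fun p hp =>
    (Nat.coprime_primes hD.ap (hS p hp).pp).2 (Ne.symm (hS p hp).pa)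
  have c3 : ∀ p ∈ S, Nat.Coprime D.a' p := fun p hp =>
    (Nat.coprime_primes hD.ap' (hS p hp).pp).2 (Ne.symm (hS p hp).pa')
  have c4 : ∀ p ∈ S, ∀ q ∈ S, p ≠ q → Nat.Coprime p q := fun p hp q hq hpq =>
    (Nat.coprime_primes (hS p hp).pp (hS q hq).pp).2 hpq
  have w1 : Nat.Coprime D.W D.a := ((Nat.Prime.coprime_iff_not_dvd hD.ap).2 hD.aW).symm
  have w2 : Nat.Coprime D.W D.a' := ((Nat.Prime.coprime_iff_not_dvd hD.ap').2 hD.aW').symm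
  have w3 : ∀ p ∈ S, Nat.Coprime D.W p := fun p hp =>
    ((Nat.Prime.coprime_iff_not_dvd (hS p hp).pp).2 (hS p hp).pW).symm
  have cP : Nat.Coprime (D.a * D.a') (∏ p ∈ S, p) :=
    Nat.Coprime.mul_left (Nat.Coprime.prod_right c2) (Nat.Coprime.prod_right c3)
  have cW : Nat.Coprime D.W (D.mm S) := by
    unfold Par.mm
    exact Nat.Coprime.mul_right (Nat.Coprime.mul_right w1 w2) (Nat.Coprime.prod_right w3)
  refine ⟨?_, cW, ?_, loA_per_PL D S, ?_⟩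
  · unfold Par.mm
    rw [Nat.squarefree_mul cP, Nat.squarefree_mul c1]
    refine ⟨⟨hD.ap.squarefree, hD.ap'.squarefree⟩, ?_⟩
    refine Finset.squarefree_prod_of_pairwise_isCoprime (fun p hp q hq hpq ↦ ?_)
      fun p hp ↦ (hS p hp).pp.squarefree
    simp only [Function.onFun, ← Nat.coprime_iff_isRelPrime]
    exact c4 p hp q hq hpq
  · unfold Par.mm
    refine Nat.Coprime.mul_right (Nat.Coprime.mul_right ?_ ?_) (Nat.Coprime.prod_right fun p hp => ?_)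
    · exact ((Nat.Prime.coprime_iff_not_dvd hD.ap).2 (loA_dvd _ _ hD.ah)).symm
    · exact ((Nat.Prime.coprime_iff_not_dvd hD.ap').2 (loA_dvd _ _ hD.ah')).symm
    · exact ((Nat.Prime.coprime_iff_not_dvd (hS p hp).pp).2 (loA_dvd _ _ (hS p hp).ph)).symm
  · intro x1 x2 x3 x4 hx
    obtain ⟨hw, ha, ha', hp⟩ := hx
    refine ⟨?_, loA_unit D.W hD.hW D.r1 x1 x3 hD.hr hw.1⟩
    rw [Int.natCast_dvd]
    refine Nat.Coprime.mul_dvd_of_dvd_of_dvd cW (Int.natCast_dvd.1 hw.2.2) ?_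
    unfold Par.mm
    refine Nat.Coprime.mul_dvd_of_dvd_of_dvd cP
      (Nat.Coprime.mul_dvd_of_dvd_of_dvd c1 (Int.natCast_dvd.1 ha.1) (Int.natCast_dvd.1 ha'.1)) ?_
    refine Finset.prod_dvd_of_isRelPrime (fun p hp q hq hpq ↦ ?_) (fun p hpS => Int.natCast_dvd.1 (hp p hpS).1)
    simp only [Function.onFun, ← Nat.coprime_iff_isRelPrime]
    exact c4 p hp q hq hpq

theorem loA_mm_insert {k : ℕ} (D : Par k) (p : ℕ) (S : Finset ℕ) (hp : p ∉ S) :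
    D.W * D.mm (insert p S) = D.W * D.mm S * p := by
  unfold Par.mm
  rw [Finset.prod_insert hp]
  ring

/-- The number of classes. Induction on `S` (`cr_mul`, `cr_P`). -/
theorem lo_card {k : ℕ} (D : Par k) (hD : D.ok) (S : Finset ℕ) (hS : ∀ p ∈ S, D.sp p) :
    ((Cl (D.W * D.mm S) (D.PL S)).card : ℝ) = ((Cl (D.W * D.mm ∅) (D.PL ∅)).card : ℝ) *
      ∏ p ∈ S, ((k : ℝ) * ((p : ℝ) - ((ZMod.χ₄ p : ℤ) : ℝ)) ^ 2) := by
  classical
  induction S using Finset.induction_on with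
  | empty => simp
  | insert p S hp ih =>
    have hS' : ∀ q ∈ S, D.sp q := fun q hq => hS q (Finset.mem_insert_of_mem hq)
    have hs : D.sp p := hS p (Finset.mem_insert_self _ _)
    have ih := ih hS'
    obtain ⟨-, cW, -, hper, -⟩ := lo_hyp D hD S hS'
    have hPL : D.PL (insert p S) = fun x1 x2 x3 x4 => D.PL S x1 x2 x3 x4 ∧ PP D.W p D.h D.c x1 x2 x3 x4 := by
      funext x1 x2 x3 x4
      apply propext
      unfold Par.PL
      constructor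
      · rintro ⟨h1, h2, h3, h4⟩
        exact ⟨⟨h1, h2, h3, fun q hq => h4 q (Finset.mem_insert_of_mem hq)⟩, h4 p (Finset.mem_insert_self _ _)⟩
      · rintro ⟨⟨h1, h2, h3, h4⟩, h5⟩
        refine ⟨h1, h2, h3, fun q hq => ?_⟩
        rcases Finset.mem_insert.1 hq with rfl | hq
        · exact h5
        · exact h4 q hq
    have hp2 : p ≠ 2 := by
      rintro rfl
      exact hs.pW ((by norm_num : (2 : ℕ) ∣ 4).trans hD.hW)
    have hcop : Nat.Coprime (D.W * D.mm S) p := by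
      unfold Par.mm
      refine Nat.Coprime.mul_left ((Nat.Prime.coprime_iff_not_dvd hs.pp).2 hs.pW).symm ?_
      refine Nat.Coprime.mul_left (Nat.Coprime.mul_left ?_ ?_) (Nat.Coprime.prod_left fun q hq => ?_)
      · exact (Nat.coprime_primes hD.ap hs.pp).2 (Ne.symm hs.pa)
      · exact (Nat.coprime_primes hD.ap' hs.pp).2 (Ne.symm hs.pa')
      · refine (Nat.coprime_primes (hS' q hq).pp hs.pp).2 ?_
        rintro rfl
        exact hp hq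
    have hm0 : 0 < D.W * D.mm S := by
      unfold Par.mm
      exact Nat.mul_pos hD.W0 (Nat.mul_pos (Nat.mul_pos hD.ap.pos hD.ap'.pos)
        (Finset.prod_pos fun q hq => (hS' q hq).pp.pos))
    rw [hPL, loA_mm_insert D p S hp, cr_mul _ _ hm0 hs.pp.pos hcop _ _ hper (cr_perP _ _ _ _)]
    have hP := cr_P D.W p hD.hW hs.pp hp2 hs.pW D.h hs.ph D.c hs.pc hs.pc0 hs.pc1
    have hP' : (((Cl p (PP D.W p D.h D.c)).card : ℕ) : ℝ) = (k : ℝ) * ((p : ℝ) - ((ZMod.χ₄ p : ℤ) : ℝ)) ^ 2 := by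
      exact_mod_cast hP
    rw [Nat.cast_mul, ih, hP', Finset.prod_insert hp]
    ring

/-- The constant of the pair. -/
noncomputable def Par.K0 {k : ℕ} (D : Par k) : ℝ :=
  cM (D.W * D.mm ∅) * ((Cl (D.W * D.mm ∅) (D.PL ∅)).card : ℝ) / ((D.W * D.mm ∅ : ℕ) : ℝ) ^ 3 * GG D.W D.h

theorem loA_GG (W m : ℕ) (h : ℤ) (hc : Nat.Coprime h.natAbs m) : GG (W * m) h = GG W h := by
  unfold GG
  congr 1
  apply Finset.filter_congr
  intro g hg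
  have h1 : Nat.Coprime g m := Nat.Coprime.coprime_dvd_left (Nat.dvd_of_mem_divisors hg) hc
  constructor
  · intro h2
    exact Nat.Coprime.coprime_mul_right_right h2
  · intro h2
    exact Nat.Coprime.mul_right h2 h1

/-- **The densities are multiplicative.** `lo_card`, `cm_prod`; `GG (W m) h = GG W h`, as `h` is prime to `m`. -/
theorem lo_ratio {k : ℕ} (D : Par k) (hD : D.ok) (S : Finset ℕ) (hS : ∀ p ∈ S, D.sp p) :
    cM (D.W * D.mm S) * ((Cl (D.W * D.mm S) (D.PL S)).card : ℝ) / ((D.W * D.mm S : ℕ) : ℝ) ^ 3 *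
      GG (D.W * D.mm S) D.h = D.K0 * ∏ p ∈ S, gg k p := by
  obtain ⟨-, -, ch, -, -⟩ := lo_hyp D hD S hS
  obtain ⟨-, -, ch0, -, -⟩ := lo_hyp D hD ∅ (by simp)
  rw [loA_GG _ _ _ ch, lo_card D hD S hS]
  unfold Par.K0
  have hm0 : 0 < D.W * D.mm ∅ := by
    unfold Par.mm
    exact Nat.mul_pos hD.W0 (Nat.mul_pos (Nat.mul_pos hD.ap.pos hD.ap'.pos) (by simp))
  have hmm : D.W * D.mm S = D.W * D.mm ∅ * ∏ p ∈ S, p := by
    unfold Par.mm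
    simp only [Finset.prod_empty, mul_one]
    ring
  have hS1 : ∀ p ∈ S, p.Prime ∧ ¬ p ∣ D.W * D.mm ∅ := by
    intro p hp
    have hs := hS p hp
    refine ⟨hs.pp, ?_⟩
    unfold Par.mm
    simp only [Finset.prod_empty, mul_one]
    rw [hs.pp.dvd_mul, hs.pp.dvd_mul]
    rintro (h1 | h1 | h1)
    · exact hs.pW h1
    · exact hs.pa ((Nat.prime_dvd_prime_iff_eq hs.pp hD.ap).1 h1)
    · exact hs.pa' ((Nat.prime_dvd_prime_iff_eq hs.pp hD.ap').1 h1)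
  have hcm := cm_prod (D.W * D.mm ∅) hm0 S hS1
  rw [← hmm] at hcm
  have hg : ∏ p ∈ S, gg k p = (∏ p ∈ S, ((k : ℝ) * ((p : ℝ) - ((ZMod.χ₄ p : ℤ) : ℝ)) ^ 2)) /
      ((∏ p ∈ S, (p : ℝ)) ^ 3 * ∏ p ∈ S, (1 - 1 / (p : ℝ) ^ 2)) := by
    rw [← Finset.prod_pow, ← Finset.prod_mul_distrib, ← Finset.prod_div_distrib]
    refine Finset.prod_congr rfl fun p hp => ?_
    unfold gg
    have hp0 : (p : ℝ) ≠ 0 := by exact_mod_cast (hS p hp).pp.ne_zero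
    congr 1
    field_simp
  have n1 : (∏ p ∈ S, (p : ℝ)) ≠ 0 := Finset.prod_ne_zero_iff.2 fun p hp => by
    exact_mod_cast (hS p hp).pp.ne_zero
  have n2 : (∏ p ∈ S, (1 - 1 / (p : ℝ) ^ 2)) ≠ 0 := Finset.prod_ne_zero_iff.2 fun p hp => by
    have h2 : (2 : ℝ) ≤ p := by exact_mod_cast (hS p hp).pp.two_le
    have h3 : 1 / (p : ℝ) ^ 2 ≤ 1 / 4 := by
      apply one_div_le_one_div_of_le (by norm_num)
      nlinarith
    linarith
  have n3 : ((D.W * D.mm ∅ : ℕ) : ℝ) ≠ 0 := by exact_mod_cast hm0.ne'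
  have hmmR : ((D.W * D.mm S : ℕ) : ℝ) = ((D.W * D.mm ∅ : ℕ) : ℝ) * ∏ p ∈ S, (p : ℝ) := by
    rw [hmm]
    push_cast
    rfl
  rw [hg, hcm, hmmR]
  field_simp

end Pool.Agent.Wd33b62c
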