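import Pool.Agent.W_d33b62t5_h98.LoA

/-!
# The constant of the pair: upper bound (MP_d33b62, T5)
-/

set_option autoImplicit false

open Finset

namespace Pool.Agent.Wd33b62c

/-- `n ↦ 1 / n`. -/
noncomputable def loB_f : ℕ →* ℝ where
  toFun n := (1 : ℝ) / n
  map_one' := by norm_num
  map_mul' a b := by
    push_cast
    rw [one_div_mul_one_div]

theorem loB_fa (n : ℕ) : loB_f n = (1 : ℝ) / n := rfl

theorem loB_sum (s T : Finset ℕ) (hs : ∀ p ∈ s, p.Prime) (hT : ∀ g ∈ T, g ∈ Nat.factoredNumbers s) :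
    ∑ g ∈ T, (1 : ℝ) / g ≤ ∏ p ∈ s, (1 + 2 / (p : ℝ)) := by
  classical
  have h1 : ∀ {p : ℕ}, p.Prime → ‖loB_f p‖ < 1 := by
    intro p hp
    have h2 : (2 : ℝ) ≤ p := by exact_mod_cast hp.two_le
    rw [loB_fa, Real.norm_of_nonneg (by positivity), div_lt_one (by linarith)]
    linarith
  obtain ⟨h2, h3⟩ := EulerProduct.summable_and_hasSum_factoredNumbers_prod_filter_prime_geometric h1 s
  have h4 : ∑ g ∈ T, (1 : ℝ) / g ≤ ∏ p ∈ s with p.Prime, (1 - loB_f p)⁻¹ := by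
    rw [← h3.tsum_eq]
    have h5 := h3.summable.sum_le_tsum (T.attach.image (fun g => (⟨g.1, hT g.1 g.2⟩ : Nat.factoredNumbers s)))
      (fun g _ => by
        rw [loB_fa]
        positivity)
    refine le_trans (le_of_eq ?_) h5
    rw [sum_image]
    · rw [← sum_attach]
      exact sum_congr rfl fun g _ => by rw [loB_fa]
    · intro x _ y _ hxy
      exact Subtype.ext (congrArg (fun z : Nat.factoredNumbers s => z.1) hxy)
  refine h4.trans ?_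
  rw [filter_true_of_mem hs]
  refine prod_le_prod (fun p hp => ?_) (fun p hp => ?_)
  · have h5 : (2 : ℝ) ≤ p := by exact_mod_cast (hs p hp).two_le
    have h6 : (1 : ℝ) / p ≤ 1 := by
      rw [div_le_one (by linarith)]
      linarith
    rw [loB_fa]
    exact inv_nonneg.2 (by linarith)
  · have h5 : (2 : ℝ) ≤ p := by exact_mod_cast (hs p hp).two_le
    have hp0 : (0 : ℝ) < p := by linarith
    rw [loB_fa]
    have h6 : 0 < 1 - 1 / (p : ℝ) := by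
      rw [sub_pos, div_lt_one hp0]
      linarith
    rw [inv_le_comm₀ h6 (by positivity), inv_eq_one_div, div_le_iff₀ (by positivity)]
    have h7 : (1 - 1 / (p : ℝ)) * (1 + 2 / p) = 1 + 1 / p * (1 - 2 / p) := by
      field_simp
      ring
    rw [h7]
    have h8 : 2 / (p : ℝ) ≤ 1 := by
      rw [div_le_one hp0]
      exact h5
    have h9 : 0 ≤ 1 / (p : ℝ) * (1 - 2 / p) := mul_nonneg (by positivity) (by linarith)
    linarith

/-- `GG W h ≤ ∏_{p ∣ h, p ∤ W} (1 - 1 / p)⁻¹ ≤ ∏ (1 + 2 / p)`. -/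
theorem lo_GG (W : ℕ) (h : ℤ) (_ : h ≠ 0) :
    GG W h ≤ ∏ p ∈ h.natAbs.primeFactors.filter (fun p => ¬ p ∣ W), (1 + 2 / (p : ℝ)) := by
  unfold GG
  refine loB_sum _ _ ?_ ?_
  · intro p hp
    exact Nat.prime_of_mem_primeFactors (mem_filter.1 hp).1
  · intro g hg
    rw [mem_filter, Nat.mem_divisors] at hg
    rw [Nat.mem_factoredNumbers']
    intro p hp hpg
    rw [mem_filter, Nat.mem_primeFactors]
    refine ⟨⟨hp, hpg.trans hg.1.1, hg.1.2⟩, fun hpW => ?_⟩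
    have := Nat.dvd_gcd hpg hpW
    rw [hg.2] at this
    exact hp.one_lt.ne' (Nat.dvd_one.1 this)

theorem lo_GG0 (W : ℕ) (h : ℤ) : 0 ≤ GG W h := by
  unfold GG
  exact sum_nonneg fun g _ => by positivity

theorem loB_cl (m : ℕ) (P Q : Pd) (h : ∀ a b c d : ℤ, P a b c d ↔ Q a b c d) : Cl m P = Cl m Q := by
  ext q
  rw [crM_mem, crM_mem, h]

theorem loB_per (m n : ℕ) (P Q : Pd) (hP : Per m P) (hQ : Per n Q) :
    Per (m * n) (fun a b c d => P a b c d ∧ Q a b c d) := by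
  intro x1 x2 x3 x4 y1 y2 y3 y4 h1 h2 h3 h4
  have hm : (m : ℤ) ∣ ((m * n : ℕ) : ℤ) := by push_cast; exact dvd_mul_right _ _
  have hn : (n : ℤ) ∣ ((m * n : ℕ) : ℤ) := by push_cast; exact dvd_mul_left _ _
  exact and_congr (hP x1 x2 x3 x4 y1 y2 y3 y4 (hm.trans h1) (hm.trans h2) (hm.trans h3) (hm.trans h4))
    (hQ x1 x2 x3 x4 y1 y2 y3 y4 (hn.trans h1) (hn.trans h2) (hn.trans h3) (hn.trans h4))

theorem loB_card {k : ℕ} (D : Par k) (hD : D.ok) :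
    (Cl (D.W * D.mm ∅) (D.PL ∅)).card ≤ D.W * ((D.a ^ 2 + 3 * D.a) * (D.a' ^ 2 + 3 * D.a')) := by
  have hmm : D.mm ∅ = D.a * D.a' := by
    unfold Par.mm
    rw [prod_empty, mul_one]
  have hc1 : Nat.Coprime D.a D.a' := (Nat.coprime_primes hD.ap hD.ap').2 hD.ne
  have hc2 : Nat.Coprime D.W (D.a * D.a') := by
    refine Nat.Coprime.mul_right ?_ ?_
    · exact ((Nat.Prime.coprime_iff_not_dvd hD.ap).2 hD.aW).symm
    · exact ((Nat.Prime.coprime_iff_not_dvd hD.ap').2 hD.aW').symm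
  have ha2 : D.a ≠ 2 := by
    intro h
    apply hD.aW
    rw [h]
    exact dvd_trans (by norm_num) hD.hW
  have ha2' : D.a' ≠ 2 := by
    intro h
    apply hD.aW'
    rw [h]
    exact dvd_trans (by norm_num) hD.hW
  have hpa := cr_perA D.W D.a D.h D.l1 D.l2 1
  have hpa' := cr_perA D.W D.a' D.h D.l1' D.l2' (-1)
  have e1 : Cl (D.W * D.mm ∅) (D.PL ∅) = Cl (D.W * (D.a * D.a')) (fun a b c d =>
      PW D.W D.r1 D.r2 D.h a b c d ∧ (PA D.W D.a D.h D.l1 D.l2 1 a b c d ∧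
        PA D.W D.a' D.h D.l1' D.l2' (-1) a b c d)) := by
    rw [hmm]
    refine loB_cl _ _ _ fun a b c d => ?_
    unfold Par.PL
    constructor
    · rintro ⟨h1, h2, h3, _⟩
      exact ⟨h1, h2, h3⟩
    · rintro ⟨h1, h2, h3⟩
      exact ⟨h1, h2, h3, fun p hp => absurd hp (notMem_empty p)⟩
  rw [e1, cr_mul D.W (D.a * D.a') hD.W0 (Nat.mul_pos hD.ap.pos hD.ap'.pos) hc2 (PW D.W D.r1 D.r2 D.h)
      (fun a b c d => PA D.W D.a D.h D.l1 D.l2 1 a b c d ∧ PA D.W D.a' D.h D.l1' D.l2' (-1) a b c d)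
      (cr_perW _ _ _ _) (loB_per _ _ _ _ hpa hpa'),
    cr_mul D.a D.a' hD.ap.pos hD.ap'.pos hc1 _ _ hpa hpa']
  refine Nat.mul_le_mul (cr_W D.W hD.hW hD.W0 _ _ _ hD.hr) (Nat.mul_le_mul ?_ ?_)
  · exact cr_A D.W D.a hD.hW hD.ap ha2 hD.aW _ _ _ _ (Or.inl rfl) hD.ah hD.al
  · exact cr_A D.W D.a' hD.hW hD.ap' ha2' hD.aW' _ _ _ _ (Or.inr rfl) hD.ah' hD.al'

/-- Proof. `cM ≤ 1`, `cr_mul` twice, `cr_W` (at most `W` classes), `cr_A` (at most `a² + 3 a`). -/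
theorem lo_up {k : ℕ} (D : Par k) (hD : D.ok) : 0 ≤ D.K0 ∧
    D.K0 ≤ 1 / ((D.W : ℝ) ^ 2 * D.a * D.a') * ((1 + 3 / (D.a : ℝ)) * (1 + 3 / (D.a' : ℝ))) * GG D.W D.h := by
  have hW0 : (0 : ℝ) < D.W := by exact_mod_cast hD.W0
  have ha0 : (0 : ℝ) < D.a := by exact_mod_cast hD.ap.pos
  have ha0' : (0 : ℝ) < D.a' := by exact_mod_cast hD.ap'.pos
  have hmm : D.mm ∅ = D.a * D.a' := by
    unfold Par.mm
    rw [prod_empty, mul_one]
  have hm0 : 0 < D.W * D.mm ∅ := by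
    rw [hmm]
    exact Nat.mul_pos hD.W0 (Nat.mul_pos hD.ap.pos hD.ap'.pos)
  obtain ⟨h1, h2⟩ := cm_bd (D.W * D.mm ∅) hm0
  have hG := lo_GG0 D.W D.h
  have hm0' : (0 : ℝ) < ((D.W * D.mm ∅ : ℕ) : ℝ) := by exact_mod_cast hm0
  unfold Par.K0
  refine ⟨mul_nonneg (div_nonneg (mul_nonneg h1 (Nat.cast_nonneg _)) (by positivity)) hG, ?_⟩
  refine mul_le_mul_of_nonneg_right ?_ hG
  have hc : ((Cl (D.W * D.mm ∅) (D.PL ∅)).card : ℝ) ≤
      D.W * (((D.a : ℝ) ^ 2 + 3 * D.a) * ((D.a' : ℝ) ^ 2 + 3 * D.a')) := by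
    exact_mod_cast loB_card D hD
  have h3 : cM (D.W * D.mm ∅) * ((Cl (D.W * D.mm ∅) (D.PL ∅)).card : ℝ) ≤
      D.W * (((D.a : ℝ) ^ 2 + 3 * D.a) * ((D.a' : ℝ) ^ 2 + 3 * D.a')) := by
    refine le_trans (mul_le_mul_of_nonneg_right h2 (Nat.cast_nonneg _)) ?_
    rw [one_mul]
    exact hc
  refine (div_le_div_of_nonneg_right h3 (by positivity)).trans (le_of_eq ?_)
  rw [hmm]
  push_cast
  field_simp

end Pool.Agent.Wd33b62c
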