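import Pool.Agent.W_d33b62t5_h98.LoA
import Pool.Agent.W_d33b62f_h37.Df

/-!
# Products over the sieve primes (MP_d33b62, T5)
-/

set_option autoImplicit false

open Finset

namespace Pool.Agent.Wd33b62c

open Pool.Agent.W33f

theorem pr_chi (p : ℕ) : (-1 : ℝ) ≤ ((ZMod.χ₄ p : ℤ) : ℝ) ∧ ((ZMod.χ₄ p : ℤ) : ℝ) ≤ 1 := by
  have h1 : ∀ a : ZMod 4, -1 ≤ ZMod.χ₄ a ∧ ZMod.χ₄ a ≤ 1 := by decide
  obtain ⟨h2, h3⟩ := h1 (p : ZMod 4)
  exact ⟨by exact_mod_cast h2, by exact_mod_cast h3⟩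

theorem pr_gg_bd (k p : ℕ) (hp : 3 ≤ p) :
    (k : ℝ) * (p - 1) / (p * (p + 1)) ≤ gg k p ∧ gg k p ≤ (k : ℝ) * (p + 1) / (p * (p - 1)) := by
  have hp' : (3 : ℝ) ≤ p := by exact_mod_cast hp
  have hk : (0 : ℝ) ≤ k := Nat.cast_nonneg k
  obtain ⟨h1, h2⟩ := pr_chi p
  have e : (p : ℝ) ^ 3 - p = p * ((p - 1) * (p + 1)) := by ring
  have hp0 : (0 : ℝ) < p := by linarith
  have hp1 : (0 : ℝ) < (p : ℝ) - 1 := by linarith
  have hp2 : (0 : ℝ) < (p : ℝ) + 1 := by linarith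
  unfold gg
  rw [e]
  generalize ((ZMod.χ₄ p : ℤ) : ℝ) = χ at *
  constructor
  · rw [div_le_div_iff₀ (by positivity) (by positivity)]
    have h3 : ((p : ℝ) - 1) ^ 2 ≤ (p - χ) ^ 2 := by nlinarith
    calc (k : ℝ) * (p - 1) * (p * ((p - 1) * (p + 1))) = k * (p * (p + 1)) * (p - 1) ^ 2 := by ring
      _ ≤ k * (p * (p + 1)) * (p - χ) ^ 2 := mul_le_mul_of_nonneg_left h3 (by positivity)
      _ = k * (p - χ) ^ 2 * (p * (p + 1)) := by ring
  · rw [div_le_div_iff₀ (by positivity) (by positivity)]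
    have h3 : (p - χ) ^ 2 ≤ ((p : ℝ) + 1) ^ 2 := by nlinarith
    calc (k : ℝ) * (p - χ) ^ 2 * (p * (p - 1)) = (k : ℝ) * (p * (p - 1)) * (p - χ) ^ 2 := by ring
      _ ≤ (k : ℝ) * (p * (p - 1)) * (p + 1) ^ 2 := mul_le_mul_of_nonneg_left h3 (by positivity)
      _ = (k : ℝ) * (p + 1) * (p * ((p - 1) * (p + 1))) := by ring

/-- `(p - 1) ^ 2 ≤ (p - χ) ^ 2 ≤ (p + 1) ^ 2`. -/
theorem pr_gg (k p : ℕ) (hp : 3 ≤ p) (hk : 4 * k ≤ p) : 0 ≤ gg k p ∧ gg k p ≤ 3 / 4 ∧ gg k p ≤ (2 * k : ℝ) / p ∧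
    1 - gg k p ≤ (1 - (k : ℝ) / p) * (1 + 4 * k / (p : ℝ) ^ 2) := by
  obtain ⟨h1, h2⟩ := pr_gg_bd k p hp
  have hp' : (3 : ℝ) ≤ p := by exact_mod_cast hp
  have hk0 : (0 : ℝ) ≤ k := Nat.cast_nonneg k
  have hk' : (4 : ℝ) * k ≤ p := by exact_mod_cast hk
  have hp0 : (0 : ℝ) < p := by linarith
  have hp1 : (0 : ℝ) < (p : ℝ) - 1 := by linarith
  have hp2 : (0 : ℝ) < (p : ℝ) + 1 := by linarith
  refine ⟨le_trans (by positivity) h1, h2.trans ?_, h2.trans ?_, ?_⟩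
  · rw [div_le_div_iff₀ (by positivity) (by positivity)]
    nlinarith [mul_nonneg hk0 hp0.le]
  · rw [div_le_div_iff₀ (by positivity) (by positivity)]
    nlinarith [mul_nonneg hk0 (mul_nonneg hp0.le (by linarith : (0 : ℝ) ≤ (p : ℝ) - 3))]
  · have h3 : 1 - (k : ℝ) * (p - 1) / (p * (p + 1)) ≤ (1 - (k : ℝ) / p) * (1 + 4 * k / (p : ℝ) ^ 2) := by
      rw [← sub_nonneg]
      have e : (1 - (k : ℝ) / p) * (1 + 4 * k / (p : ℝ) ^ 2) - (1 - (k : ℝ) * (p - 1) / (p * (p + 1))) =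
          (k : ℝ) * (2 * p * (p + 2) - 4 * k * (p + 1)) / (p ^ 3 * (p + 1)) := by
        field_simp
        ring
      rw [e]
      refine div_nonneg (mul_nonneg hk0 ?_) (by positivity)
      nlinarith
    linarith

theorem pr_mem {w : ℕ} {z : ℝ} {p : ℕ} (h : p ∈ Pw w z) : p.Prime ∧ w < p ∧ p < ⌈z⌉₊ := by
  unfold Pw at h
  rw [mem_filter, mem_range] at h
  exact ⟨h.2.1, h.2.2, h.1⟩

theorem pr_sq (w : ℕ) (hw : 1 ≤ w) (P : Finset ℕ) (hP : ∀ p ∈ P, w < p) : ∑ p ∈ P, 1 / (p : ℝ) ^ 2 ≤ 1 / (w : ℝ) := by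
  have h1 : ∀ m : ℕ, w ≤ m → ∑ n ∈ Ioc w m, 1 / (n : ℝ) ^ 2 ≤ 1 / (w : ℝ) - 1 / (m : ℝ) := by
    intro m hm
    induction m, hm using Nat.le_induction with
    | base => simp
    | succ m hm ih =>
      rw [sum_Ioc_succ_top hm]
      have hm0 : (0 : ℝ) < m := by exact_mod_cast (by omega : 0 < m)
      have h2 : 1 / ((m + 1 : ℕ) : ℝ) ^ 2 ≤ 1 / (m : ℝ) - 1 / ((m + 1 : ℕ) : ℝ) := by
        push_cast
        rw [div_sub_div _ _ hm0.ne' (by positivity), div_le_div_iff₀ (by positivity) (by positivity)]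
        nlinarith
      linarith
  have h2 : P ⊆ Ioc w (max w (P.sup id)) := fun p hp => by
    rw [mem_Ioc]
    exact ⟨hP p hp, (le_sup (f := id) hp).trans (le_max_right _ _)⟩
  refine (sum_le_sum_of_subset_of_nonneg h2 fun _ _ _ => by positivity).trans ((h1 _ (le_max_left _ _)).trans ?_)
  have h3 : (0 : ℝ) ≤ 1 / (max w (P.sup id) : ℕ) := by positivity
  linarith

/-- Proof. `pr_gg`, `∏_{p > w} (1 + 4 k / p²) ≤ exp(4 k / w) ≤ 1 + 8 k / w`, `(1 - k / p)⁻¹ ≤ 1 + 2 k / p`. -/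
theorem pr_main (k w : ℕ) (hw : 4 * k ≤ w) (hw3 : 3 ≤ w) (z : ℝ) (P : Finset ℕ) (hP : P ⊆ Pw w z) :
    ∏ p ∈ P, (1 - gg k p) ≤ (1 + 8 * k / (w : ℝ)) * VV k w z * ∏ p ∈ Pw w z \ P, (1 + 2 * k / (p : ℝ)) := by
  have hk0 : (0 : ℝ) ≤ k := Nat.cast_nonneg k
  have hw0 : (0 : ℝ) < w := by exact_mod_cast (by omega : 0 < w)
  have hwk : (4 : ℝ) * k ≤ w := by exact_mod_cast hw
  have hbig : ∀ p ∈ Pw w z, (0 : ℝ) < p ∧ (4 : ℝ) * k ≤ p ∧ 3 ≤ p ∧ 4 * k ≤ p := by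
    intro p hp
    obtain ⟨-, h1, -⟩ := pr_mem hp
    exact ⟨by exact_mod_cast (by omega : 0 < p), by exact_mod_cast (by omega : 4 * k ≤ p), by omega, by omega⟩
  have hfac : ∀ p ∈ Pw w z, (3 : ℝ) / 4 ≤ 1 - (k : ℝ) / p := by
    intro p hp
    obtain ⟨h1, h2, -, -⟩ := hbig p hp
    have : (k : ℝ) / p ≤ 1 / 4 := by rw [div_le_div_iff₀ h1 (by norm_num)]; linarith
    linarith
  have hA : ∏ p ∈ P, (1 - gg k p) ≤ (∏ p ∈ P, (1 - (k : ℝ) / p)) * ∏ p ∈ P, (1 + 4 * k / (p : ℝ) ^ 2) := by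
    rw [← prod_mul_distrib]
    refine prod_le_prod (fun p hp => ?_) fun p hp => ?_
    · obtain ⟨h1, h2, h3, h4⟩ := hbig p (hP hp)
      have := (pr_gg k p h3 h4).2.1
      linarith
    · obtain ⟨h1, h2, h3, h4⟩ := hbig p (hP hp)
      exact (pr_gg k p h3 h4).2.2.2
  have hB : ∏ p ∈ P, (1 + 4 * k / (p : ℝ) ^ 2) ≤ 1 + 8 * k / (w : ℝ) := by
    have h1 : ∏ p ∈ P, (1 + 4 * k / (p : ℝ) ^ 2) ≤ Real.exp (∑ p ∈ P, 4 * (k : ℝ) / (p : ℝ) ^ 2) := by
      rw [Real.exp_sum]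
      refine prod_le_prod (fun p _ => by positivity) fun p _ => ?_
      rw [add_comm]
      exact Real.add_one_le_exp _
    have h2 : ∑ p ∈ P, 4 * (k : ℝ) / (p : ℝ) ^ 2 ≤ 4 * (k : ℝ) / w := by
      have h3 := pr_sq w (by omega) P fun p hp => (pr_mem (hP hp)).2.1
      calc ∑ p ∈ P, 4 * (k : ℝ) / (p : ℝ) ^ 2 = 4 * (k : ℝ) * ∑ p ∈ P, 1 / (p : ℝ) ^ 2 := by
            rw [mul_sum]
            exact sum_congr rfl fun p _ => by ring
        _ ≤ 4 * (k : ℝ) * (1 / (w : ℝ)) := mul_le_mul_of_nonneg_left h3 (by positivity)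
        _ = 4 * (k : ℝ) / w := by ring
    refine h1.trans ((Real.exp_le_exp.2 h2).trans ?_)
    have h4 : 4 * (k : ℝ) / w ≤ 1 := by rw [div_le_one hw0]; exact hwk
    have h5 : 0 ≤ 4 * (k : ℝ) / w := by positivity
    have h6 := Real.exp_bound' h5 h4 (n := 1) (by norm_num)
    simp only [Finset.sum_range_one, pow_zero, Nat.factorial_zero, Nat.cast_one, div_one, pow_one,
      Nat.factorial_one, one_mul] at h6
    have e : 1 + 8 * (k : ℝ) / w = 1 + 2 * (4 * k / w) := by ring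
    rw [e]
    norm_num at h6
    linarith
  have hC : ∏ p ∈ P, (1 - (k : ℝ) / p) ≤ VV k w z * ∏ p ∈ Pw w z \ P, (1 + 2 * k / (p : ℝ)) := by
    unfold VV
    rw [← prod_sdiff hP, mul_comm (∏ p ∈ Pw w z \ P, (1 - (k : ℝ) / p)), mul_assoc, ← prod_mul_distrib]
    refine le_mul_of_one_le_right (prod_nonneg fun p hp => by have := hfac p (hP hp); linarith) ?_
    have h1 : ∀ p ∈ Pw w z \ P, (1 : ℝ) ≤ (1 - (k : ℝ) / p) * (1 + 2 * k / (p : ℝ)) := by
      intro p hp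
      obtain ⟨h1, h2, h3, h4⟩ := hbig p (mem_sdiff.1 hp).1
      have h5 := hfac p (mem_sdiff.1 hp).1
      have e : (1 - (k : ℝ) / p) * (1 + 2 * k / (p : ℝ)) = 1 + ((k : ℝ) / p) * (1 - 2 * ((k : ℝ) / p)) := by ring
      rw [e]
      have h6 : 0 ≤ (k : ℝ) / p := by positivity
      nlinarith
    calc (1 : ℝ) = ∏ p ∈ Pw w z \ P, 1 := by rw [prod_const_one]
      _ ≤ _ := prod_le_prod (fun _ _ => zero_le_one) h1
  have hV : 0 ≤ ∏ p ∈ P, (1 - (k : ℝ) / p) := prod_nonneg fun p hp => by have := hfac p (hP hp); linarith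
  calc ∏ p ∈ P, (1 - gg k p) ≤ (∏ p ∈ P, (1 - (k : ℝ) / p)) * ∏ p ∈ P, (1 + 4 * k / (p : ℝ) ^ 2) := hA
    _ ≤ (VV k w z * ∏ p ∈ Pw w z \ P, (1 + 2 * k / (p : ℝ))) * (1 + 8 * k / (w : ℝ)) :=
        mul_le_mul hC hB (prod_nonneg fun p _ => by positivity) (hV.trans hC)
    _ = _ := by ring

/-- A trivial lower bound: `1 - k / p ≥ (1 - 1 / p) ^ (2 k)`, `∏_{2 ≤ n < z} (1 - 1 / n) ≥ 1 / z`. -/
theorem pr_low (k w : ℕ) (hw : 2 * k ≤ w) (z : ℝ) (hz : 2 ≤ z) : 1 / z ^ (2 * k) ≤ VV k w z := by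
  have hz0 : 0 < z := by linarith
  have h1 : ∀ m : ℕ, 1 ≤ m → ∏ n ∈ Ioc 1 m, (1 - 1 / (n : ℝ)) = 1 / (m : ℝ) := by
    intro m hm
    induction m, hm using Nat.le_induction with
    | base => simp
    | succ m hm ih =>
      rw [prod_Ioc_succ_top hm, ih]
      have hm0 : (m : ℝ) ≠ 0 := by exact_mod_cast (by omega : m ≠ 0)
      have hm1 : ((m : ℝ) + 1) ≠ 0 := by positivity
      push_cast
      field_simp
      ring
  have hf : ∀ n : ℕ, 1 ≤ n → (0 : ℝ) ≤ 1 - 1 / (n : ℝ) ∧ 1 - 1 / (n : ℝ) ≤ 1 := by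
    intro n hn
    have hn' : (1 : ℝ) ≤ n := by exact_mod_cast hn
    have h2 : 1 / (n : ℝ) ≤ 1 := by rw [div_le_one (by linarith)]; exact hn'
    have h3 : 0 ≤ 1 / (n : ℝ) := by positivity
    exact ⟨by linarith, by linarith⟩
  set m := ⌈z⌉₊ - 1 with hm
  have hceil : 2 ≤ ⌈z⌉₊ := by
    have : (2 : ℝ) ≤ ⌈z⌉₊ := hz.trans (Nat.le_ceil z)
    exact_mod_cast this
  have hm1 : 1 ≤ m := by omega
  have hmz : (m : ℝ) ≤ z := by
    have h2 : (⌈z⌉₊ : ℝ) < z + 1 := Nat.ceil_lt_add_one hz0.le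
    have h3 : (m : ℝ) + 1 = ⌈z⌉₊ := by exact_mod_cast (by omega : m + 1 = ⌈z⌉₊)
    linarith
  have hsub : Pw w z ⊆ Ioc 1 m := fun p hp => by
    obtain ⟨h2, h3, h4⟩ := pr_mem hp
    rw [mem_Ioc]
    exact ⟨h2.one_lt, by omega⟩
  have h2 : 1 / z ≤ ∏ p ∈ Pw w z, (1 - 1 / (p : ℝ)) := by
    calc 1 / z ≤ 1 / (m : ℝ) := one_div_le_one_div_of_le (by exact_mod_cast hm1) hmz
      _ = ∏ n ∈ Ioc 1 m, (1 - 1 / (n : ℝ)) := (h1 m hm1).symm
      _ = (∏ n ∈ Ioc 1 m \ Pw w z, (1 - 1 / (n : ℝ))) * ∏ p ∈ Pw w z, (1 - 1 / (p : ℝ)) := (prod_sdiff hsub).symm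
      _ ≤ 1 * ∏ p ∈ Pw w z, (1 - 1 / (p : ℝ)) := by
          refine mul_le_mul_of_nonneg_right ?_ (prod_nonneg fun p hp => (hf p (pr_mem hp).1.one_lt.le).1)
          refine prod_le_one (fun p hp => ?_) fun p hp => ?_
          · rw [mem_sdiff, mem_Ioc] at hp
            exact (hf p hp.1.1.le).1
          · rw [mem_sdiff, mem_Ioc] at hp
            exact (hf p hp.1.1.le).2
      _ = _ := one_mul _
  calc 1 / z ^ (2 * k) = (1 / z) ^ (2 * k) := by rw [one_div_pow]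
    _ ≤ (∏ p ∈ Pw w z, (1 - 1 / (p : ℝ))) ^ (2 * k) := pow_le_pow_left₀ (by positivity) h2 _
    _ = ∏ p ∈ Pw w z, (1 - 1 / (p : ℝ)) ^ (2 * k) := (prod_pow _ _ _).symm
    _ ≤ VV k w z := by
        unfold VV
        refine prod_le_prod (fun p hp => pow_nonneg (hf p (pr_mem hp).1.one_lt.le).1 _) fun p hp => ?_
        obtain ⟨h3, h4, h5⟩ := pr_mem hp
        have hp0 : (0 : ℝ) < p := by exact_mod_cast h3.pos
        have hk0 : (0 : ℝ) ≤ k := Nat.cast_nonneg k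
        have hkp : (k : ℝ) / p ≤ 1 / 2 := by
          rw [div_le_div_iff₀ hp0 (by norm_num)]
          have : (2 * k : ℝ) ≤ p := by exact_mod_cast (by omega : 2 * k ≤ p)
          linarith
        have hx : 0 ≤ (k : ℝ) / p := by positivity
        have h6 : 1 - 1 / (p : ℝ) ≤ Real.exp (-(1 / (p : ℝ))) := by
          have := Real.add_one_le_exp (-(1 / (p : ℝ)))
          linarith
        calc (1 - 1 / (p : ℝ)) ^ (2 * k) ≤ (Real.exp (-(1 / (p : ℝ)))) ^ (2 * k) :=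
              pow_le_pow_left₀ (hf p h3.one_lt.le).1 h6 _
          _ = (Real.exp (2 * ((k : ℝ) / p)))⁻¹ := by
              rw [← Real.exp_nat_mul, ← Real.exp_neg]
              congr 1
              push_cast
              ring
          _ ≤ (1 + 2 * ((k : ℝ) / p))⁻¹ := by
              refine inv_anti₀ (by positivity) ?_
              have := Real.add_one_le_exp (2 * ((k : ℝ) / p))
              linarith
          _ ≤ 1 - (k : ℝ) / p := by
              rw [inv_le_iff_one_le_mul₀ (by positivity)]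
              nlinarith

/-- The bad primes.
Proof. A bad prime divides `h`, some `c l` or some `c l - 4 W h`; `(1 + 2 k / p) (1 + 2 / p) ≤ 1 + CC k / p`; for
`p > w` one has `p ∣ h` iff `p ∣ 4 W h`. -/
theorem pr_bad (k w W : ℕ) (hW : ∀ p : ℕ, p.Prime → (p ∣ W ↔ p ≤ w)) (hW4 : 4 ∣ W) (h : ℤ) (hh : h ≠ 0)
    (c : Fin k → ℤ) (hc : ∀ l, c l ≠ 0)
    (hc1 : ∀ l, c l - 4 * W * h ≠ 0) (z : ℝ) (P : Finset ℕ) (hP : ∀ p ∈ Pw w z, p ∉ P →
      (p : ℤ) ∣ h ∨ ∃ l, (p : ℤ) ∣ c l ∨ (p : ℤ) ∣ c l - 4 * W * h) :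
    (∏ p ∈ Pw w z \ P, (1 + 2 * k / (p : ℝ))) * ∏ p ∈ h.natAbs.primeFactors.filter (fun p => ¬ p ∣ W), (1 + 2 / (p : ℝ)) ≤
      EE (CC k) w (4 * W * h) * ∏ l, (EE (CC k) w (c l) * EE (CC k) w (c l - 4 * W * h)) := by
  classical
  have hk0 : (0 : ℝ) ≤ k := Nat.cast_nonneg k
  set f : ℕ → ℝ := fun p => 1 + 2 * k / (p : ℝ) with hf
  have hf1 : ∀ p, 1 ≤ f p := fun p => by
    have : 0 ≤ 2 * (k : ℝ) / (p : ℝ) := by positivity
    simp only [hf]
    linarith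
  have hsub : ∀ (B : Finset ℕ) (Q : ℕ → Prop) [DecidablePred Q] (S : Finset ℕ), (∀ p ∈ B, Q p → p ∈ S) →
      ∏ p ∈ B, (if Q p then f p else 1) ≤ ∏ p ∈ S, f p := by
    intro B Q _ S hS
    rw [← prod_filter]
    refine prod_le_prod_of_subset_of_one_le (fun p hp => ?_) (fun p _ => zero_le_one.trans (hf1 p)) (fun p _ _ => hf1 p)
    rw [mem_filter] at hp
    exact hS p hp.1 hp.2
  -- the pointwise bound
  set g : ℕ → ℝ := fun p => (if (p : ℤ) ∣ h then f p else 1) *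
    ∏ l, ((if (p : ℤ) ∣ c l then f p else 1) * (if (p : ℤ) ∣ c l - 4 * W * h then f p else 1)) with hg
  have hite : ∀ (p : ℕ) (Q : Prop) [Decidable Q], (1 : ℝ) ≤ if Q then f p else 1 := by
    intro p Q _
    split_ifs
    · exact hf1 p
    · exact le_refl _
  have hone : ∀ (p : ℕ) (l : Fin k), (1 : ℝ) ≤ (if (p : ℤ) ∣ c l then f p else 1) *
      (if (p : ℤ) ∣ c l - 4 * W * h then f p else 1) := by
    intro p l
    exact one_le_mul_of_one_le_of_one_le (hite p _) (hite p _)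
  have hpr : ∀ p : ℕ, (1 : ℝ) ≤ ∏ l, ((if (p : ℤ) ∣ c l then f p else 1) *
      (if (p : ℤ) ∣ c l - 4 * W * h then f p else 1)) := by
    intro p
    calc (1 : ℝ) = ∏ l : Fin k, 1 := by rw [prod_const_one]
      _ ≤ _ := prod_le_prod (fun _ _ => zero_le_one) fun l _ => hone p l
  have hpt : ∀ p ∈ Pw w z \ P, f p ≤ g p := by
    intro p hp
    rw [mem_sdiff] at hp
    rcases hP p hp.1 hp.2 with h1 | ⟨l, hl⟩
    · simp only [hg, if_pos h1]
      exact le_mul_of_one_le_right (zero_le_one.trans (hf1 p)) (hpr p)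
    · have h2 : f p ≤ (if (p : ℤ) ∣ c l then f p else 1) * (if (p : ℤ) ∣ c l - 4 * W * h then f p else 1) := by
        rcases hl with hl | hl
        · rw [if_pos hl]
          exact le_mul_of_one_le_right (zero_le_one.trans (hf1 p)) (hite p _)
        · rw [if_pos hl]
          exact le_mul_of_one_le_left (zero_le_one.trans (hf1 p)) (hite p _)
      have h3 : f p ≤ ∏ l, ((if (p : ℤ) ∣ c l then f p else 1) *
          (if (p : ℤ) ∣ c l - 4 * W * h then f p else 1)) := by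
        rw [← mul_prod_erase univ _ (mem_univ l)]
        refine h2.trans (le_mul_of_one_le_right (zero_le_one.trans (hone p l)) ?_)
        calc (1 : ℝ) = ∏ l ∈ univ.erase l, 1 := by rw [prod_const_one]
          _ ≤ _ := prod_le_prod (fun _ _ => zero_le_one) fun l _ => hone p l
      exact h3.trans (le_mul_of_one_le_left (zero_le_one.trans (hpr p)) (hite p _))
  have hpd : ∀ (m : ℤ), m ≠ 0 → ∀ p ∈ Pw w z \ P, (p : ℤ) ∣ m → p ∈ m.natAbs.primeFactors.filter (w < ·) := by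
    intro m hm p hp hd
    rw [mem_sdiff] at hp
    obtain ⟨h1, h2, -⟩ := pr_mem hp.1
    rw [mem_filter, Nat.mem_primeFactors]
    exact ⟨⟨h1, Int.natCast_dvd.1 hd, Int.natAbs_ne_zero.2 hm⟩, h2⟩
  have hCC : ∀ p : ℕ, f p ≤ 1 + CC k / (p : ℝ) := by
    intro p
    simp only [hf, CC]
    have : 2 * (k : ℝ) / (p : ℝ) ≤ (10 * k + 20) / (p : ℝ) :=
      div_le_div_of_nonneg_right (by linarith) (Nat.cast_nonneg p)
    linarith
  have hEE : ∀ m : ℤ, ∏ p ∈ m.natAbs.primeFactors.filter (w < ·), f p ≤ EE (CC k) w m := by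
    intro m
    unfold EE
    exact prod_le_prod (fun p _ => zero_le_one.trans (hf1 p)) fun p _ => hCC p
  have hEE0 : ∀ m : ℤ, 0 ≤ EE (CC k) w m := fun m =>
    (prod_nonneg fun p _ => zero_le_one.trans (hf1 p)).trans (hEE m)
  have hT : ∏ p ∈ Pw w z \ P, f p ≤ (∏ p ∈ h.natAbs.primeFactors.filter (w < ·), f p) *
      ∏ l, (EE (CC k) w (c l) * EE (CC k) w (c l - 4 * W * h)) := by
    refine (prod_le_prod (fun p _ => zero_le_one.trans (hf1 p)) hpt).trans ?_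
    simp only [hg]
    rw [prod_mul_distrib, prod_comm]
    refine mul_le_mul ?_ ?_ (prod_nonneg fun l _ => prod_nonneg fun p _ => zero_le_one.trans (hone p l))
      (prod_nonneg fun p _ => zero_le_one.trans (hf1 p))
    · exact hsub _ _ _ fun p hp hd => hpd h hh p hp hd
    · refine prod_le_prod (fun l _ => prod_nonneg fun p _ => zero_le_one.trans (hone p l)) fun l _ => ?_
      rw [prod_mul_distrib]
      refine mul_le_mul ?_ ?_ (prod_nonneg fun p _ => zero_le_one.trans (hite p _)) (hEE0 _)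
      · exact (hsub _ _ _ fun p hp hd => hpd (c l) (hc l) p hp hd).trans (hEE _)
      · exact (hsub _ _ _ fun p hp hd => hpd (c l - 4 * W * h) (hc1 l) p hp hd).trans (hEE _)
  have hS : h.natAbs.primeFactors.filter (fun p => ¬ p ∣ W) = h.natAbs.primeFactors.filter (w < ·) := by
    refine filter_congr fun p hp => ?_
    rw [hW p (Nat.prime_of_mem_primeFactors hp), not_le]
  have hS2 : (4 * (W : ℤ) * h).natAbs.primeFactors.filter (w < ·) = h.natAbs.primeFactors.filter (w < ·) := by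
    have hW0 : W ≠ 0 := by
      rintro rfl
      obtain ⟨p, hp1, hp2⟩ := Nat.exists_infinite_primes (w + 1)
      have := (hW p hp2).1 (dvd_zero p)
      omega
    ext p
    simp only [mem_filter, Nat.mem_primeFactors]
    constructor
    · rintro ⟨⟨h1, h2, -⟩, h3⟩
      refine ⟨⟨h1, ?_, Int.natAbs_ne_zero.2 hh⟩, h3⟩
      rw [Int.natAbs_mul] at h2
      rcases (Nat.Prime.dvd_mul h1).1 h2 with h4 | h4
      · exfalso
        have h5 : p ∣ 4 * W := by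
          rw [Int.natAbs_mul] at h4
          simpa using h4
        have h6 : p ∣ W := by
          rcases (Nat.Prime.dvd_mul h1).1 h5 with h7 | h7
          · exact h7.trans hW4
          · exact h7
        have := (hW p h1).1 h6
        omega
      · exact h4
    · rintro ⟨⟨h1, h2, -⟩, h3⟩
      refine ⟨⟨h1, ?_, ?_⟩, h3⟩
      · rw [Int.natAbs_mul]
        exact h2.mul_left _
      · rw [Int.natAbs_ne_zero]
        have : (W : ℤ) ≠ 0 := by exact_mod_cast hW0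
        exact mul_ne_zero (mul_ne_zero (by norm_num) this) hh
  have hfin : (∏ p ∈ h.natAbs.primeFactors.filter (w < ·), f p) *
      ∏ p ∈ h.natAbs.primeFactors.filter (w < ·), (1 + 2 / (p : ℝ)) ≤ EE (CC k) w (4 * W * h) := by
    unfold EE
    rw [hS2, ← prod_mul_distrib]
    refine prod_le_prod (fun p _ => mul_nonneg (zero_le_one.trans (hf1 p)) (by positivity)) fun p hp => ?_
    have hp1 : (1 : ℝ) ≤ p := by
      exact_mod_cast (Nat.prime_of_mem_primeFactors (mem_filter.1 hp).1).one_lt.le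
    simp only [hf, CC]
    have hx : 0 ≤ (k : ℝ) / p := by positivity
    have h1 : (k : ℝ) / p * (1 / p) ≤ (k : ℝ) / p * 1 :=
      mul_le_mul_of_nonneg_left (by rw [div_le_one (by linarith)]; exact hp1) hx
    have h2 : 0 ≤ 1 / (p : ℝ) := by positivity
    have e1 : (1 + 2 * (k : ℝ) / p) * (1 + 2 / (p : ℝ)) = 1 + 2 * (k / p) + 2 * (1 / p) + 4 * ((k : ℝ) / p * (1 / p)) := by
      ring
    have e2 : (10 * (k : ℝ) + 20) / p = 10 * (k / p) + 20 * (1 / p) := by ring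
    rw [e1, e2]
    linarith
  rw [hS]
  calc _ ≤ ((∏ p ∈ h.natAbs.primeFactors.filter (w < ·), f p) *
      ∏ l, (EE (CC k) w (c l) * EE (CC k) w (c l - 4 * W * h))) *
        ∏ p ∈ h.natAbs.primeFactors.filter (w < ·), (1 + 2 / (p : ℝ)) :=
        mul_le_mul_of_nonneg_right hT (prod_nonneg fun p _ => by positivity)
    _ = ((∏ p ∈ h.natAbs.primeFactors.filter (w < ·), f p) *
        ∏ p ∈ h.natAbs.primeFactors.filter (w < ·), (1 + 2 / (p : ℝ))) *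
        ∏ l, (EE (CC k) w (c l) * EE (CC k) w (c l - 4 * W * h)) := by ring
    _ ≤ _ := mul_le_mul_of_nonneg_right hfin (prod_nonneg fun l _ => mul_nonneg (hEE0 _) (hEE0 _))

end Pool.Agent.Wd33b62c
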