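import Pool.Agent.W_d33b62t5_h98.SmA
import Pool.Agent.W_d33b62t5_h98.FxC

/-!
# The sum over `s1` (MP_d33b62, T5)
-/

set_option autoImplicit false

open Finset

namespace Pool.Agent.Wd33b62c

/-- `∑_{g ∣ h, (g, M) = 1} 1 / g`. -/
noncomputable def GG (M : ℕ) (h : ℤ) : ℝ := ∑ g ∈ h.natAbs.divisors.filter (fun g => Nat.Coprime g M), (1 : ℝ) / g

theorem smB_count (M q : ℕ) (hM : 0 < M) (hq : 0 < q) (hco : Nat.Coprime M q) (r : ℤ) (a b : ℕ)
    (hab : a ≤ b) :
    |((((Ioc a b).filter (fun s : ℕ => (M : ℤ) ∣ (s : ℤ) - r)).filter (fun s => q ∣ s)).card : ℝ) -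
      ((b : ℝ) - a) / (M * q)| ≤ 1 := by
  have hM' : (0 : ℤ) < M := by exact_mod_cast hM
  obtain ⟨r0, hr0⟩ : ∃ r0 : ℕ, (M : ℤ) ∣ (r0 : ℤ) - r := by
    refine ⟨(r % M).toNat, ?_⟩
    rw [Int.toNat_of_nonneg (Int.emod_nonneg _ hM'.ne')]
    have := Int.emod_add_mul_ediv r M
    exact ⟨-(r / M), by linarith⟩
  obtain ⟨x0, hx1, hx2⟩ : ∃ x0 : ℕ, x0 ≡ r0 [MOD M] ∧ x0 ≡ 0 [MOD q] :=
    ⟨_, (Nat.chineseRemainder hco r0 0).2⟩
  have hset : ((Ioc a b).filter (fun s : ℕ => (M : ℤ) ∣ (s : ℤ) - r)).filter (fun s => q ∣ s) =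
      (Ioc a b).filter (fun s => s ≡ x0 [MOD M * q]) := by
    ext s
    simp only [mem_filter]
    rw [and_assoc]
    apply and_congr_right
    intro _
    rw [← Nat.modEq_and_modEq_iff_modEq_mul hco]
    have e1 := Nat.modEq_iff_dvd.1 hx1
    apply and_congr
    · rw [Nat.modEq_iff_dvd]
      constructor
      · intro h
        have : (x0 : ℤ) - s = (r0 - r) - (r0 - x0) - (s - r) := by ring
        rw [this]
        exact dvd_sub (dvd_sub hr0 e1) h
      · intro h
        have : (s : ℤ) - r = (r0 - r) - (r0 - x0) - (x0 - s) := by ring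
        rw [this]
        exact dvd_sub (dvd_sub hr0 e1) h
    · constructor
      · intro h
        exact ((Nat.modEq_zero_iff_dvd).2 h).trans hx2.symm
      · intro h
        exact (Nat.modEq_zero_iff_dvd).1 (h.trans hx2)
  rw [hset]
  have hQ : 0 < M * q := Nat.mul_pos hM hq
  have hc := Nat.Ioc_filter_modEq_card a b hQ x0
  have hQ' : (0 : ℚ) < ((M * q : ℕ) : ℚ) := by exact_mod_cast hQ
  have hle : ((a : ℚ) - x0) / ((M * q : ℕ) : ℚ) ≤ ((b : ℚ) - x0) / ((M * q : ℕ) : ℚ) := by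
    apply div_le_div_of_nonneg_right _ hQ'.le
    have : (a : ℚ) ≤ b := by exact_mod_cast hab
    linarith
  have hfl := Int.floor_le_floor hle
  rw [max_eq_left (by linarith)] at hc
  have hc' : (((Ioc a b).filter (fun s => s ≡ x0 [MOD M * q])).card : ℚ) =
      ⌊((b : ℚ) - x0) / ((M * q : ℕ) : ℚ)⌋ - ⌊((a : ℚ) - x0) / ((M * q : ℕ) : ℚ)⌋ := by
    exact_mod_cast hc
  have key : |(((Ioc a b).filter (fun s => s ≡ x0 [MOD M * q])).card : ℚ) -
      ((b : ℚ) - a) / (M * q)| ≤ 1 := by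
    rw [hc']
    have e2 : ((b : ℚ) - a) / (M * q) = ((b : ℚ) - x0) / ((M * q : ℕ) : ℚ) -
        ((a : ℚ) - x0) / ((M * q : ℕ) : ℚ) := by
      push_cast
      ring
    rw [e2]
    have f1 := Int.floor_le (((b : ℚ) - x0) / ((M * q : ℕ) : ℚ))
    have f2 := Int.lt_floor_add_one (((b : ℚ) - x0) / ((M * q : ℕ) : ℚ))
    have f3 := Int.floor_le (((a : ℚ) - x0) / ((M * q : ℕ) : ℚ))
    have f4 := Int.lt_floor_add_one (((a : ℚ) - x0) / ((M * q : ℕ) : ℚ))
    rw [abs_le]
    constructor <;> linarith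
  have key' : ((|(((Ioc a b).filter (fun s => s ≡ x0 [MOD M * q])).card : ℚ) -
      ((b : ℚ) - a) / (M * q)| : ℚ) : ℝ) ≤ ((1 : ℚ) : ℝ) := by exact_mod_cast key
  push_cast at key'
  exact key'

open ArithmeticFunction in
/-- the weights -/
noncomputable def smB_w (M e : ℕ) : ℝ := if Nat.Coprime e M then ((moebius e : ℤ) : ℝ) / e else 0

theorem smB_w_abs (M e : ℕ) : |smB_w M e| ≤ 1 / e := by
  unfold smB_w
  split_ifs
  · rw [abs_div, Nat.abs_cast]
    apply div_le_div_of_nonneg_right _ (Nat.cast_nonneg _)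
    have := ArithmeticFunction.abs_moebius_le_one (n := e)
    exact_mod_cast this
  · rw [abs_zero]
    positivity

theorem smB_w_div (M e : ℕ) : smB_w M e / e = cMt M e := by
  unfold smB_w cMt
  split_ifs
  · rw [div_div, sq]
  · simp

theorem smB_fM (M : ℕ) (h : ℤ) (hh : h ≠ 0) (r : ℤ) (hc : Nat.Coprime (Int.gcd r h) M) (b s : ℕ)
    (hs : 0 < s) (hsb : s ≤ b) (hsr : (M : ℤ) ∣ (s : ℤ) - r) :
    fM M h s = ∑ g ∈ h.natAbs.divisors.filter (fun g => Nat.Coprime g M), ∑ e ∈ range (b + 1),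
      if g * e ∣ s then smB_w M e else 0 := by
  have hH : h.natAbs ≠ 0 := Int.natAbs_ne_zero.2 hh
  have h1 : (Nat.gcd s h.natAbs).divisors =
      (h.natAbs.divisors.filter (fun g => Nat.Coprime g M)).filter (fun g => g ∣ s) := by
    ext g
    simp only [mem_filter, Nat.mem_divisors]
    constructor
    · rintro ⟨hg, -⟩
      have hgs := hg.trans (Nat.gcd_dvd_left _ _)
      have hgh := hg.trans (Nat.gcd_dvd_right _ _)
      refine ⟨⟨⟨hgh, hH⟩, ?_⟩, hgs⟩
      rw [Nat.Coprime]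
      apply Nat.eq_one_of_dvd_one
      rw [← hc]
      apply Nat.dvd_gcd _ (Nat.gcd_dvd_right _ _)
      have d1 : ((Nat.gcd g M : ℕ) : ℤ) ∣ r := by
        have e1 : ((Nat.gcd g M : ℕ) : ℤ) ∣ (s : ℤ) - r :=
          (Int.natCast_dvd_natCast.2 (Nat.gcd_dvd_right _ _)).trans hsr
        have e2 : ((Nat.gcd g M : ℕ) : ℤ) ∣ (s : ℤ) :=
          Int.natCast_dvd_natCast.2 ((Nat.gcd_dvd_left _ _).trans hgs)
        have : r = (s : ℤ) - (s - r) := by ring
        rw [this]
        exact dvd_sub e2 e1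
      have d2 : ((Nat.gcd g M : ℕ) : ℤ) ∣ h := by
        rw [Int.natCast_dvd]
        exact (Nat.gcd_dvd_left _ _).trans hgh
      exact_mod_cast Int.dvd_coe_gcd d1 d2
    · rintro ⟨⟨⟨hg, -⟩, -⟩, hgs⟩
      exact ⟨Nat.dvd_gcd hgs hg, Nat.gcd_ne_zero_left hs.ne'⟩
  unfold fM
  rw [h1, sum_filter]
  apply sum_congr rfl
  intro g hg
  have hg0 : 0 < g := Nat.pos_of_mem_divisors (mem_filter.1 hg).1
  split_ifs with hgs
  · unfold phM
    rw [← sum_filter]
    have e1 : (range (b + 1)).filter (fun e => g * e ∣ s) = (s / g).divisors := by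
      ext e
      have hsg : s / g ≠ 0 := (Nat.div_pos (Nat.le_of_dvd hs hgs) hg0).ne'
      rw [mem_filter, mem_range, Nat.mem_divisors, Nat.dvd_div_iff_mul_dvd hgs]
      constructor
      · rintro ⟨-, h2⟩
        exact ⟨h2, hsg⟩
      · rintro ⟨h2, -⟩
        refine ⟨?_, h2⟩
        have h3 := Nat.le_of_dvd hs h2
        have h4 : e ≤ g * e := Nat.le_mul_of_pos_left e hg0
        omega
    rw [e1, sum_filter]
    apply sum_congr rfl
    intro e _
    rfl
  · symm
    apply sum_eq_zero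
    intro e _
    rw [if_neg]
    intro h2
    exact hgs ((Dvd.intro _ rfl).trans h2)

theorem smB_harm (b : ℕ) : ∑ e ∈ range (b + 1), (1 : ℝ) / e ≤ 1 + Real.log b := by
  rw [sum_range_succ']
  have h := harmonic_le_one_add_log b
  have e : ((harmonic b : ℚ) : ℝ) = ∑ i ∈ range b, (1 : ℝ) / ((i + 1 : ℕ) : ℝ) := by
    rw [harmonic]
    push_cast
    apply sum_congr rfl
    intro i _
    rw [one_div]
  rw [e] at h
  simpa using h

/-- **The sum over `s1`.**
Proof. `fM M h s = ∑ μ(e) / e` over the pairs `(g, e)` with `g ∣ h`, `g e ∣ s`, `(e, M) = 1`. For `s = r mod M` also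
`(g, M) = 1` (`g` divides `s` and `h`, so `gcd(g, M)` divides `gcd(r, h, M) = 1`). For given `g, e` prime to `M` the
`s ∈ (a, b]` with `s = r mod M`, `g e ∣ s` form one class modulo `M g e`: `(b - a) / (M g e) + θ`, and there are none
for `g e > b`. So the sum is `(b - a) / M ∑_g 1 / g ∑_{e ≤ 2 X} μ(e) / e² + O(|h| (1 + log X))`; `cm_tail`. -/
theorem sm_main : ∃ C : ℝ, 1 ≤ C ∧ ∀ (X : ℝ) (M : ℕ) (h r : ℤ), 1 ≤ X → 0 < M → h ≠ 0 →
    Nat.Coprime (Int.gcd r h) M → ∀ a b : ℕ, a ≤ b → (b : ℝ) ≤ 2 * X →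
    |∑ s ∈ (Ioc a b).filter (fun s : ℕ => (M : ℤ) ∣ (s : ℤ) - r), fM M h s -
      ((b : ℝ) - a) / M * cM M * GG M h| ≤ C * |(h : ℝ)| * (1 + Real.log X) := by
  refine ⟨3, by norm_num, ?_⟩
  intro X M h r hX hM hh hc a b hab hbX
  have hlogX : 0 ≤ Real.log X := Real.log_nonneg hX
  have hH0 : h.natAbs ≠ 0 := Int.natAbs_ne_zero.2 hh
  have hHr : |(h : ℝ)| = (h.natAbs : ℝ) := by
    rw [Nat.cast_natAbs, Int.cast_abs]
  rcases Nat.eq_zero_or_pos b with rfl | hb
  · have ha : a = 0 := by omega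
    subst ha
    simp only [Ioc_self, filter_empty, sum_empty, Nat.cast_zero, sub_self, zero_div, zero_mul,
      abs_zero]
    positivity
  obtain ⟨D, hD⟩ : ∃ D, D = h.natAbs.divisors.filter (fun g => Nat.Coprime g M) := ⟨_, rfl⟩
  obtain ⟨S, hS⟩ : ∃ S, S = (Ioc a b).filter (fun s : ℕ => (M : ℤ) ∣ (s : ℤ) - r) := ⟨_, rfl⟩
  have hDcard : (D.card : ℝ) ≤ h.natAbs := by
    have h1 : D.card ≤ h.natAbs.divisors.card := by
      rw [hD]
      exact card_filter_le _ _
    have h2 : h.natAbs.divisors.card ≤ h.natAbs := Nat.card_divisors_le_self _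
    exact_mod_cast h1.trans h2
  have hDpos : ∀ g ∈ D, 0 < g := fun g hg => by
    rw [hD] at hg
    exact Nat.pos_of_mem_divisors (mem_filter.1 hg).1
  have hDco : ∀ g ∈ D, Nat.Coprime g M := fun g hg => by
    rw [hD] at hg
    exact (mem_filter.1 hg).2
  have hGG : GG M h = ∑ g ∈ D, (1 : ℝ) / g := by rw [hD]; rfl
  have hGG0 : 0 ≤ GG M h := by
    rw [hGG]
    exact sum_nonneg fun g _ => by positivity
  have hGG1 : GG M h ≤ h.natAbs := by
    rw [hGG]
    calc ∑ g ∈ D, (1 : ℝ) / g ≤ ∑ _g ∈ D, (1 : ℝ) := by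
          apply sum_le_sum
          intro g hg
          rw [div_le_one (by exact_mod_cast hDpos g hg)]
          exact_mod_cast hDpos g hg
      _ = D.card := by simp
      _ ≤ h.natAbs := hDcard
  -- the expansion
  have hexp : ∑ s ∈ S, fM M h s = ∑ g ∈ D, ∑ e ∈ range (b + 1),
      smB_w M e * ((S.filter (fun s => g * e ∣ s)).card : ℝ) := by
    have h1 : ∀ s ∈ S, fM M h s = ∑ g ∈ D, ∑ e ∈ range (b + 1),
        if g * e ∣ s then smB_w M e else 0 := by
      intro s hs
      rw [hS, mem_filter, mem_Ioc] at hs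
      rw [hD]
      exact smB_fM M h hh r hc b s (by omega) hs.1.2 hs.2
    rw [sum_congr rfl h1, sum_comm]
    apply sum_congr rfl
    intro g _
    rw [sum_comm]
    apply sum_congr rfl
    intro e _
    rw [← sum_filter, sum_const, nsmul_eq_mul, mul_comm]
  have hb' : (0 : ℝ) < b := by exact_mod_cast hb
  have hM' : (0 : ℝ) < M := by exact_mod_cast hM
  have hM1 : (1 : ℝ) ≤ M := by exact_mod_cast hM
  have hab' : (a : ℝ) ≤ b := by exact_mod_cast hab
  have ha0 : (0 : ℝ) ≤ a := Nat.cast_nonneg _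
  -- the main term
  have hmain : ∑ g ∈ D, ∑ e ∈ range (b + 1), smB_w M e * (((b : ℝ) - a) / (M * ((g * e : ℕ) : ℝ))) =
      ((b : ℝ) - a) / M * (∑ e ∈ range (b + 1), cMt M e) * GG M h := by
    rw [hGG, mul_assoc, sum_mul_sum, mul_sum, sum_comm]
    rw [sum_comm]
    rw [show ∑ i ∈ range (b + 1), ((b : ℝ) - a) / M * ∑ j ∈ D, cMt M i * (1 / (j : ℝ)) =
      ∑ i ∈ range (b + 1), ∑ j ∈ D, ((b : ℝ) - a) / M * (cMt M i * (1 / (j : ℝ))) from
      sum_congr rfl fun i _ => mul_sum _ _ _]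
    rw [sum_comm]
    apply sum_congr rfl
    intro g _
    apply sum_congr rfl
    intro e _
    rw [← smB_w_div]
    push_cast
    rw [div_mul_eq_div_div, div_mul_eq_div_div]
    ring
  -- the error of the counts
  have herr : |∑ s ∈ S, fM M h s - ((b : ℝ) - a) / M * (∑ e ∈ range (b + 1), cMt M e) * GG M h| ≤
      h.natAbs * (1 + Real.log b) := by
    rw [hexp, ← hmain, ← sum_sub_distrib]
    calc |∑ g ∈ D, (∑ e ∈ range (b + 1), smB_w M e * ((S.filter (fun s => g * e ∣ s)).card : ℝ) -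
          ∑ e ∈ range (b + 1), smB_w M e * (((b : ℝ) - a) / (M * ((g * e : ℕ) : ℝ))))|
        ≤ ∑ g ∈ D, |∑ e ∈ range (b + 1), smB_w M e * ((S.filter (fun s => g * e ∣ s)).card : ℝ) -
          ∑ e ∈ range (b + 1), smB_w M e * (((b : ℝ) - a) / (M * ((g * e : ℕ) : ℝ)))| :=
          abs_sum_le_sum_abs _ _
      _ ≤ ∑ _g ∈ D, (1 + Real.log b) := by
          apply sum_le_sum
          intro g hg
          rw [← sum_sub_distrib]
          refine (abs_sum_le_sum_abs _ _).trans (le_trans (sum_le_sum ?_) (smB_harm b))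
          intro e _
          rw [← mul_sub, abs_mul]
          by_cases hw : smB_w M e = 0
          · rw [hw, abs_zero, zero_mul]
            positivity
          · have hco : Nat.Coprime e M := by
              by_contra hne
              exact hw (by rw [smB_w, if_neg hne])
            have he : 0 < e := by
              rcases Nat.eq_zero_or_pos e with rfl | he
              · exfalso
                apply hw
                rw [smB_w]
                split_ifs <;> simp
              · exact he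
            have h2 := smB_count M (g * e) hM (Nat.mul_pos (hDpos g hg) he)
              (Nat.Coprime.mul_right (hDco g hg).symm hco.symm) r a b hab
            rw [← hS] at h2
            calc |smB_w M e| * _ ≤ 1 / e * 1 :=
                  mul_le_mul (smB_w_abs M e) h2 (abs_nonneg _) (by positivity)
              _ = 1 / e := mul_one _
      _ = D.card * (1 + Real.log b) := by rw [sum_const, nsmul_eq_mul]
      _ ≤ h.natAbs * (1 + Real.log b) := by
          apply mul_le_mul_of_nonneg_right hDcard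
          have : 0 ≤ Real.log b := Real.log_nonneg (by exact_mod_cast hb)
          linarith
  -- the tail
  have htail : |((b : ℝ) - a) / M * (∑ e ∈ range (b + 1), cMt M e) * GG M h -
      ((b : ℝ) - a) / M * cM M * GG M h| ≤ h.natAbs := by
    have e1 : ((b : ℝ) - a) / M * (∑ e ∈ range (b + 1), cMt M e) * GG M h -
        ((b : ℝ) - a) / M * cM M * GG M h =
        -(((b : ℝ) - a) / M * GG M h * (cM M - ∑ e ∈ range (b + 1), cMt M e)) := by ring
    rw [e1, abs_neg, abs_mul, abs_of_nonneg (mul_nonneg (div_nonneg (by linarith) hM'.le) hGG0)]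
    calc ((b : ℝ) - a) / M * GG M h * |cM M - ∑ e ∈ range (b + 1), cMt M e|
        ≤ (b * h.natAbs) * (1 / b) := by
          apply mul_le_mul _ (cm_tail M b hb) (abs_nonneg _) (by positivity)
          apply mul_le_mul _ hGG1 hGG0 hb'.le
          rw [div_le_iff₀ hM']
          nlinarith
      _ = h.natAbs := by field_simp
  have hlogb : Real.log b ≤ 1 + Real.log X := by
    have h1 : Real.log b ≤ Real.log (2 * X) := Real.log_le_log hb' hbX
    rw [Real.log_mul (by norm_num) (by linarith)] at h1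
    have h2 : Real.log 2 ≤ 1 := by
      have := Real.log_two_lt_d9
      linarith
    linarith
  rw [← hS]
  have htri := abs_sub_le (∑ s ∈ S, fM M h s)
    (((b : ℝ) - a) / M * (∑ e ∈ range (b + 1), cMt M e) * GG M h)
    (((b : ℝ) - a) / M * cM M * GG M h)
  rw [hHr]
  have hHn : (0 : ℝ) ≤ h.natAbs := Nat.cast_nonneg _
  calc _ ≤ _ := htri
    _ ≤ h.natAbs * (1 + Real.log b) + h.natAbs := add_le_add herr htail
    _ ≤ h.natAbs * (1 + (1 + Real.log X)) + h.natAbs := by
        have := mul_le_mul_of_nonneg_left (add_le_add_right hlogb 1) hHn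
        linarith
    _ ≤ 3 * h.natAbs * (1 + Real.log X) := by nlinarith

end Pool.Agent.Wd33b62c
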