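import Pool.Agent.W_d33b62t5_h98.LoB
import Pool.Agent.W_d33b62t5_h98.Pr
import Pool.Agent.W_d33b62f_h37.Sv

/-!
# The sieve in a box (MP_d33b62, T5)
-/

set_option autoImplicit false

open Finset

namespace Pool.Agent.Wd33b62c

open Pool.Agent.W33f

open Classical in
/-- The weight of the sifted points of a box. -/
noncomputable def Par.WS {k : ℕ} (D : Par k) (P : Finset ℕ) (a1 b1 : ℕ) (a b c d : ℤ) : ℝ :=
  ∑ q ∈ (BX D.h a1 b1 a b c d).filter (fun q => D.PL ∅ q.1 q.2.1 (KK D.h q) q.2.2 ∧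
    ∀ p ∈ P, ¬ PP D.W p D.h D.c q.1 q.2.1 (KK D.h q) q.2.2), (q.1 : ℝ)

open Classical in
/-- The weight of the points of a box with all the conditions of `S`. -/
theorem t5A_WX {k : ℕ} (D : Par k) (S : Finset ℕ) (a1 b1 : ℕ) (a b c d : ℤ) :
    ∑ q ∈ ((BX D.h a1 b1 a b c d).filter (fun q => D.PL ∅ q.1 q.2.1 (KK D.h q) q.2.2)).filter
      (fun q => ∀ p ∈ S, PP D.W p D.h D.c q.1 q.2.1 (KK D.h q) q.2.2), (q.1 : ℝ) =
      WX (D.PL S) D.h a1 b1 a b c d := by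
  unfold WX
  rw [filter_filter]
  refine sum_congr ?_ fun _ _ => rfl
  refine filter_congr fun q _ => ?_
  unfold Par.PL
  constructor
  · rintro ⟨⟨h1, h2, h3, _⟩, h4⟩
    exact ⟨h1, h2, h3, h4⟩
  · rintro ⟨h1, h2, h3, h4⟩
    exact ⟨⟨h1, h2, h3, fun p hp => absurd hp (notMem_empty p)⟩, h4⟩

open Classical in
theorem t5A_WS {k : ℕ} (D : Par k) (P : Finset ℕ) (a1 b1 : ℕ) (a b c d : ℤ) :
    D.WS P a1 b1 a b c d =
    ∑ q ∈ ((BX D.h a1 b1 a b c d).filter (fun q => D.PL ∅ q.1 q.2.1 (KK D.h q) q.2.2)).filter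
      (fun q => ∀ p ∈ P, ¬ PP D.W p D.h D.c q.1 q.2.1 (KK D.h q) q.2.2), (q.1 : ℝ) := by
  unfold Par.WS
  rw [filter_filter]

/-- **The sieve in a box.**
Proof. `sieveW` with `κ = 2 k`, `g = gg k`, weights `s1`, `bad p q = PP ...`; for `S ⊆ P` the weight of
`{q : ∀ p ∈ S, bad p q}` is `WX (D.PL S)`; `bx_main` with `m = D.mm S` (`lo_hyp`), `lo_ratio`; the error is at most
`C X^(14/5) (W a a' z^(4b+5))^5 h²` and there are at most `z^(4b+5)` sets (`card_sets`). -/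
theorem t5_sieve (k : ℕ) : ∃ C : ℝ, 1 ≤ C ∧ ∀ (X z : ℝ) (b₀ : ℕ) (D : Par k) (P : Finset ℕ), 1 ≤ X → 2 ≤ z → 1 ≤ b₀ →
    D.ok → |(D.h : ℝ)| ≤ X → (∀ p ∈ P, D.sp p ∧ (p : ℝ) < z ∧ 3 ≤ p ∧ 4 * k ≤ p) →
    ∀ (a1 b1 : ℕ) (a b c d : ℤ), a1 ≤ b1 → (∀ s ∈ Ioc a1 b1, X / 4 ≤ (s : ℝ)) → (b1 : ℝ) ≤ 2 * X → a ≤ b → c ≤ d →
      ((b - a : ℤ) : ℝ) ≤ 4 * X → ((d - c : ℤ) : ℝ) ≤ 4 * X →
      D.WS P a1 b1 a b c d ≤ ((b1 : ℝ) - a1) * ((b - a : ℤ) : ℝ) * ((d - c : ℤ) : ℝ) * D.K0 *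
        (∏ p ∈ P, (1 - gg k p)) * (1 + C * Real.exp (-b₀)) +
        C * X ^ (14 / 5 : ℝ) * ((D.W : ℝ) * D.a * D.a') ^ 5 * (z ^ (4 * b₀ + 5)) ^ 6 * (D.h : ℝ) ^ 2 := by
  classical
  obtain ⟨C1, hC1, h1⟩ := sieveW (2 * k : ℝ) (by positivity)
  obtain ⟨C2, hC2, h2⟩ := bx_main
  refine ⟨C1 + C2, by linarith, ?_⟩
  intro X z b₀ D P hX hz hb0 hD hh hP a1 b1 a b c d hab1 hs hb1 hab hcd hba hdc
  have hg : ∀ p ∈ P, 0 ≤ gg k p ∧ gg k p ≤ 3 / 4 ∧ gg k p ≤ (2 * k : ℝ) / p ∧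
      1 - gg k p ≤ (1 - (k : ℝ) / p) * (1 + 4 * k / (p : ℝ) ^ 2) := fun p hp =>
    pr_gg k p (hP p hp).2.2.1 (hP p hp).2.2.2
  have hK0 : 0 ≤ D.K0 := (lo_up D hD).1
  set V : ℝ := ((b1 : ℝ) - a1) * ((b - a : ℤ) : ℝ) * ((d - c : ℤ) : ℝ) with hV
  have hV0 : 0 ≤ V := by
    have e1 : (0 : ℝ) ≤ (b1 : ℝ) - a1 := by
      have : (a1 : ℝ) ≤ b1 := by exact_mod_cast hab1
      linarith
    have e2 : (0 : ℝ) ≤ ((b - a : ℤ) : ℝ) := by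
      have : 0 ≤ b - a := by linarith
      exact_mod_cast this
    have e3 : (0 : ℝ) ≤ ((d - c : ℤ) : ℝ) := by
      have : 0 ≤ d - c := by linarith
      exact_mod_cast this
    positivity
  set Z : ℝ := z ^ (4 * b₀ + 5) with hZ
  have hZ0 : 0 ≤ Z := by
    have : 0 ≤ z := by linarith
    positivity
  set E0 : ℝ := C2 * X ^ (14 / 5 : ℝ) * ((D.W : ℝ) * D.a * D.a') ^ 5 * Z ^ 5 * (D.h : ℝ) ^ 2 with hE0
  have hE0' : 0 ≤ E0 := by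
    have : 0 ≤ X := by linarith
    positivity
  have key := (h1 z b₀ P (gg k) hz hb0 (fun p hp => ⟨(hP p hp).1.pp, (hP p hp).2.1, (hg p hp).1,
    (hg p hp).2.1, (hg p hp).2.2.1⟩) (ℕ × ℤ × ℤ)
    ((BX D.h a1 b1 a b c d).filter (fun q => D.PL ∅ q.1 q.2.1 (KK D.h q) q.2.2))
    (fun q => (q.1 : ℝ)) (fun p q => PP D.W p D.h D.c q.1 q.2.1 (KK D.h q) q.2.2)
    (V * D.K0) (fun _ => E0) (mul_nonneg hV0 hK0) (fun q _ => Nat.cast_nonneg q.1) ?_).1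
  · have e1 : D.WS P a1 b1 a b c d ≤ V * D.K0 * (∏ p ∈ P, (1 - gg k p)) * (1 + C1 * Real.exp (-b₀)) +
        ∑ S ∈ P.powerset.filter (fun S => ((∏ p ∈ S, p : ℕ) : ℝ) ≤ z ^ (4 * b₀ + 5)), E0 := by
      rw [t5A_WS]
      convert key using 2
    refine e1.trans ?_
    have e2 : ∑ S ∈ P.powerset.filter (fun S => ((∏ p ∈ S, p : ℕ) : ℝ) ≤ z ^ (4 * b₀ + 5)), E0 ≤
        Z * E0 := by
      rw [sum_const, nsmul_eq_mul]
      exact mul_le_mul_of_nonneg_right (card_sets P (fun p hp => (hP p hp).1.pp) _ hZ0) hE0'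
    have e3 : Z * E0 ≤ (C1 + C2) * X ^ (14 / 5 : ℝ) * ((D.W : ℝ) * D.a * D.a') ^ 5 * Z ^ 6 *
        (D.h : ℝ) ^ 2 := by
      have hX0 : 0 ≤ X ^ (14 / 5 : ℝ) := Real.rpow_nonneg (by linarith) _
      have : Z * E0 = C2 * (X ^ (14 / 5 : ℝ) * ((D.W : ℝ) * D.a * D.a') ^ 5 * Z ^ 6 *
        (D.h : ℝ) ^ 2) := by
        rw [hE0]; ring
      rw [this]
      have h5 : 0 ≤ X ^ (14 / 5 : ℝ) * ((D.W : ℝ) * D.a * D.a') ^ 5 * Z ^ 6 * (D.h : ℝ) ^ 2 := by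
        positivity
      nlinarith [mul_nonneg (zero_le_one.trans hC1) h5]
    have e4 : V * D.K0 * (∏ p ∈ P, (1 - gg k p)) * (1 + C1 * Real.exp (-b₀)) ≤
        V * D.K0 * (∏ p ∈ P, (1 - gg k p)) * (1 + (C1 + C2) * Real.exp (-b₀)) := by
      refine mul_le_mul_of_nonneg_left ?_ ?_
      · have := Real.exp_pos (-(b₀ : ℝ))
        nlinarith
      · refine mul_nonneg (mul_nonneg hV0 hK0) (prod_nonneg fun p hp => ?_)
        linarith [(hg p hp).2.1]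
    linarith
  · intro S hS hSZ
    have hSp : ∀ p ∈ S, D.sp p := fun p hp => (hP p (hS hp)).1
    obtain ⟨l1, l2, l3, l4, l5⟩ := lo_hyp D hD S hSp
    have m1 := h2 X D.W (D.mm S) D.h (D.PL S) hX hD.W0 l1 l2 hD.h0 hh l3 l4 l5 a1 b1 a b c d hab1 hs
      hb1 hab hcd hba hdc
    rw [lo_ratio D hD S hSp, ← hV, ← mul_assoc] at m1
    have m2 := t5A_WX D S a1 b1 a b c d
    have m3 : ∑ q ∈ ((BX D.h a1 b1 a b c d).filter (fun q => D.PL ∅ q.1 q.2.1 (KK D.h q) q.2.2)).filter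
      (fun q => ∀ p ∈ S, PP D.W p D.h D.c q.1 q.2.1 (KK D.h q) q.2.2), (q.1 : ℝ) =
      WX (D.PL S) D.h a1 b1 a b c d := by
      rw [← m2]
    have m4 : (((D.W * D.mm S : ℕ) : ℝ)) ^ 5 ≤ ((D.W : ℝ) * D.a * D.a') ^ 5 * Z ^ 5 := by
      rw [← mul_pow]
      refine pow_le_pow_left₀ (Nat.cast_nonneg _) ?_ 5
      unfold Par.mm
      have : ((D.W * (D.a * D.a' * ∏ p ∈ S, p) : ℕ) : ℝ) =
          ((D.W : ℝ) * D.a * D.a') * ((∏ p ∈ S, p : ℕ) : ℝ) := by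
        push_cast
        ring
      rw [this]
      exact mul_le_mul_of_nonneg_left hSZ (by positivity)
    have m5 : C2 * X ^ (14 / 5 : ℝ) * ((D.W * D.mm S : ℕ) : ℝ) ^ 5 * (D.h : ℝ) ^ 2 ≤ E0 := by
      have hX0 : 0 ≤ X ^ (14 / 5 : ℝ) := Real.rpow_nonneg (by linarith) _
      have : E0 = C2 * X ^ (14 / 5 : ℝ) * (((D.W : ℝ) * D.a * D.a') ^ 5 * Z ^ 5) * (D.h : ℝ) ^ 2 := by
        rw [hE0]; ring
      rw [this]
      refine mul_le_mul_of_nonneg_right (mul_le_mul_of_nonneg_left m4 ?_) (sq_nonneg _)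
      exact mul_nonneg (by linarith) hX0
    refine le_trans (le_of_eq ?_) (m1.trans m5)
    congr 1
    congr 1

end Pool.Agent.Wd33b62c
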