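import Pool.Agent.W_d33b62t5_h98.T5A
import Pool.Agent.W_d33b62t5_h98.GeM

/-!
# From pairs of points to boxes (MP_d33b62, T5)
-/

set_option autoImplicit false

open Finset

namespace Pool.Agent.Wd33b62c

open Pool.Agent.W33f

/-- The conditions on a pair `q = (z, z')`; `hi = h i`, `c l = h i + a - h l`. -/
structure Par.Cnd {k : ℕ} (D : Par k) (hi : ℤ) (Y : ℕ) (P : Finset ℕ) (q : (ℤ × ℤ) × (ℤ × ℤ)) : Prop where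
  c1 : (D.W : ℤ) ∣ q.1.1 - D.r1
  c2 : (D.W : ℤ) ∣ q.1.2 - D.r2
  c3 : (D.W : ℤ) ∣ q.2.1 - D.r1
  c4 : (D.W : ℤ) ∣ q.2.2 - D.r2
  cone : |q.1.2| < q.1.1
  cone' : |q.2.2| < q.2.1
  li : (D.a : ℤ) ∣ D.l1 * q.1.1 + D.l2 * q.1.2
  li' : (D.a' : ℤ) ∣ D.l1' * q.2.1 + D.l2' * q.2.2
  eq : 2 * nm q.1 - D.a = 2 * nm q.2 - D.a'
  lo : (Y : ℤ) < 2 * nm q.1 - hi - D.a
  hi : 2 * nm q.1 - hi - D.a ≤ 2 * Y
  sif : ∀ p ∈ P, ∀ l, ¬ (p : ℤ) ∣ 2 * nm q.1 - D.c l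

/-- The coordinates `(s1, s2, κ1, κ2)` of a pair. -/
def cs (W : ℕ) (q : (ℤ × ℤ) × (ℤ × ℤ)) : ℤ × ℤ × ℤ × ℤ :=
  ((q.1.1 + q.2.1) / 2, (q.1.2 + q.2.2) / 2, (q.1.1 - q.2.1) / (W : ℤ), (q.1.2 - q.2.2) / (W : ℤ))

/-- Halving. -/
theorem T5B_half (x y W w : ℤ) (hW : W = 2 * w) (hw : 0 < w) (h : W ∣ x - y) :
    x = (x + y) / 2 + w * ((x - y) / W) ∧ y = (x + y) / 2 - w * ((x - y) / W) := by
  obtain ⟨c, hc⟩ := h
  have hx : x = y + W * c := by linarith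
  have h1 : (x - y) / W = c := by
    rw [hc]
    exact Int.mul_ediv_cancel_left _ (by omega)
  have h2 : (x + y) / 2 = y + w * c := by
    rw [hx, hW]
    have h3 : y + 2 * w * c + y = 2 * (y + w * c) := by ring
    rw [h3]
    exact Int.mul_ediv_cancel_left _ (by norm_num)
  rw [h1, h2, hx, hW]
  constructor <;> ring

/-- The coordinates: `z = s + (W / 2) κ`, `z' = s - (W / 2) κ`, `s · κ = h`, all conditions.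
Proof. `W ∣ z - z'` and `2 ∣ W`, so the divisions are exact; `nm z - nm z' = 2 W (s · κ) = (a - a') / 2 = 2 W h`. -/
theorem t5_cs {k : ℕ} (D : Par k) (hD : D.ok) (hh : 4 * (D.W : ℤ) * D.h = D.a - D.a') (hi : ℤ) (Y : ℕ) (P : Finset ℕ)
    (q : (ℤ × ℤ) × (ℤ × ℤ)) (hq : D.Cnd hi Y P q) :
    q.1.1 = (cs D.W q).1 + (D.W / 2 : ℕ) * (cs D.W q).2.2.1 ∧
    q.1.2 = (cs D.W q).2.1 + (D.W / 2 : ℕ) * (cs D.W q).2.2.2 ∧
    q.2.1 = (cs D.W q).1 - (D.W / 2 : ℕ) * (cs D.W q).2.2.1 ∧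
    q.2.2 = (cs D.W q).2.1 - (D.W / 2 : ℕ) * (cs D.W q).2.2.2 ∧
    (cs D.W q).1 * (cs D.W q).2.2.1 + (cs D.W q).2.1 * (cs D.W q).2.2.2 = D.h ∧ 0 < (cs D.W q).1 ∧
    D.PL ∅ (cs D.W q).1 (cs D.W q).2.1 (cs D.W q).2.2.1 (cs D.W q).2.2.2 ∧
    ∀ p ∈ P, ¬ PP D.W p D.h D.c (cs D.W q).1 (cs D.W q).2.1 (cs D.W q).2.2.1 (cs D.W q).2.2.2 := by
  have hW2 : ((D.W : ℕ) : ℤ) = 2 * ((D.W / 2 : ℕ) : ℤ) := by
    obtain ⟨v, hv⟩ := hD.hW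
    omega
  have hW0 : (0 : ℤ) < ((D.W / 2 : ℕ) : ℤ) := by
    have h1 : (0 : ℤ) < (D.W : ℤ) := by exact_mod_cast hD.W0
    omega
  have e1 : q.1.1 = (cs D.W q).1 + (D.W / 2 : ℕ) * (cs D.W q).2.2.1 ∧
      q.2.1 = (cs D.W q).1 - (D.W / 2 : ℕ) * (cs D.W q).2.2.1 := by
    have h1 : (D.W : ℤ) ∣ q.1.1 - q.2.1 := by
      have h2 := dvd_sub hq.c1 hq.c3
      rwa [sub_sub_sub_cancel_right] at h2
    have h2 := T5B_half (q.1.1) (q.2.1) (D.W : ℤ) ((D.W / 2 : ℕ) : ℤ) hW2 hW0 h1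
    exact h2
  have e2 : q.1.2 = (cs D.W q).2.1 + (D.W / 2 : ℕ) * (cs D.W q).2.2.2 ∧
      q.2.2 = (cs D.W q).2.1 - (D.W / 2 : ℕ) * (cs D.W q).2.2.2 := by
    have h1 : (D.W : ℤ) ∣ q.1.2 - q.2.2 := by
      have h2 := dvd_sub hq.c2 hq.c4
      rwa [sub_sub_sub_cancel_right] at h2
    have h2 := T5B_half (q.1.2) (q.2.2) (D.W : ℤ) ((D.W / 2 : ℕ) : ℤ) hW2 hW0 h1
    exact h2
  generalize hs1 : (cs D.W q).1 = s1 at *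
  generalize hs2 : (cs D.W q).2.1 = s2 at *
  generalize hk1 : (cs D.W q).2.2.1 = k1 at *
  generalize hk2 : (cs D.W q).2.2.2 = k2 at *
  obtain ⟨e1, e1'⟩ := e1
  obtain ⟨e2, e2'⟩ := e2
  have hsk : s1 * k1 + s2 * k2 = D.h := by
    have h1 := hq.eq
    unfold nm at h1
    rw [e1, e2, e1', e2'] at h1
    rw [hW2] at hh
    have h2 : (((D.W / 2 : ℕ) : ℤ)) * (s1 * k1 + s2 * k2) = ((D.W / 2 : ℕ) : ℤ) * D.h := by linarith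
    exact mul_left_cancel₀ hW0.ne' h2
  refine ⟨e1, e2, e1', e2', hsk, ?_, ⟨⟨?_, ?_, ?_⟩, ⟨?_, ?_⟩, ⟨?_, ?_⟩, ?_⟩, ?_⟩
  · have h1 := lt_of_le_of_lt (abs_nonneg _) hq.cone
    have h2 := lt_of_le_of_lt (abs_nonneg _) hq.cone'
    rw [e1] at h1
    rw [e1'] at h2
    linarith
  · have h1 := hq.c3
    rw [e1'] at h1
    have h2 : s1 - (D.r1 + (D.W / 2 : ℕ) * k1) = s1 - (D.W / 2 : ℕ) * k1 - D.r1 := by ring
    rw [h2]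
    exact h1
  · have h1 := hq.c4
    rw [e2'] at h1
    have h2 : s2 - (D.r2 + (D.W / 2 : ℕ) * k2) = s2 - (D.W / 2 : ℕ) * k2 - D.r2 := by ring
    rw [h2]
    exact h1
  · rw [hsk, sub_self]
    exact dvd_zero _
  · rw [hsk, sub_self]
    exact dvd_zero _
  · have h1 := hq.li
    rw [e1, e2] at h1
    rw [one_mul]
    exact h1
  · rw [hsk, sub_self]
    exact dvd_zero _
  · have h1 := hq.li'
    rw [e1', e2'] at h1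
    have h2 : D.l1' * (s1 + -1 * (D.W / 2 : ℕ) * k1) + D.l2' * (s2 + -1 * (D.W / 2 : ℕ) * k2) =
      D.l1' * (s1 - (D.W / 2 : ℕ) * k1) + D.l2' * (s2 - (D.W / 2 : ℕ) * k2) := by ring
    rw [h2]
    exact h1
  · intro p hp
    exact absurd hp (notMem_empty p)
  · rintro p hp ⟨_, l, hl⟩
    have h1 := hq.sif p hp l
    unfold nm at h1
    rw [e1, e2] at h1
    exact h1 hl

/-- The scaled coordinates lie in the relaxed region, `X = √Y`. -/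
theorem t5_R4 {k : ℕ} (D : Par k) (hD : D.ok) (hh : 4 * (D.W : ℤ) * D.h = D.a - D.a') (hi : ℤ) (Y : ℕ) (P : Finset ℕ)
    (η : ℝ) (hY : 0 < Y) (h1 : |(D.h : ℝ)| ≤ η * Y) (h2 : (hi : ℝ) + D.a ≤ η * Y) (h3 : (hi : ℝ) + D.a' ≤ η * Y)
    (h4 : 0 ≤ hi) (q : (ℤ × ℤ) × (ℤ × ℤ)) (hq : D.Cnd hi Y P q) :
    (((cs D.W q).1 : ℝ) / √Y, ((cs D.W q).2.1 : ℝ) / √Y, ((cs D.W q).2.2.1 : ℝ) / √Y, ((cs D.W q).2.2.2 : ℝ) / √Y) ∈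
      R4 ((D.W : ℝ) / 2) η := by
  obtain ⟨e1, e2, e1', e2', hsk, hpos, -, -⟩ := t5_cs D hD hh hi Y P q hq
  generalize (cs D.W q).1 = s1 at *
  generalize (cs D.W q).2.1 = s2 at *
  generalize (cs D.W q).2.2.1 = k1 at *
  generalize (cs D.W q).2.2.2 = k2 at *
  have hYr : (0 : ℝ) < Y := by exact_mod_cast hY
  have hX : 0 < √(Y : ℝ) := Real.sqrt_pos.2 hYr
  have hXX : √(Y : ℝ) * √(Y : ℝ) = Y := Real.mul_self_sqrt hYr.le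
  have hη : 0 ≤ η := by
    by_contra hcon
    push Not at hcon
    have h5 : η * Y < 0 := mul_neg_of_neg_of_pos hcon hYr
    linarith [abs_nonneg (D.h : ℝ)]
  have hWc : ((D.W / 2 : ℕ) : ℝ) = (D.W : ℝ) / 2 := by
    obtain ⟨v, hv⟩ := hD.hW
    rw [hv, show 4 * v / 2 = 2 * v by omega]
    push_cast
    ring
  -- the real coordinates
  have key : ∀ (x s κ : ℤ) (w : ℕ), x = s + (w : ℤ) * κ → (x : ℝ) = s + (w : ℝ) * κ := by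
    intro x s κ w h
    rw [h]
    push_cast
    rfl
  have key' : ∀ (x s κ : ℤ) (w : ℕ), x = s - (w : ℤ) * κ → (x : ℝ) = s - (w : ℝ) * κ := by
    intro x s κ w h
    rw [h]
    push_cast
    rfl
  have f1 : (q.1.1 : ℝ) = s1 + (D.W : ℝ) / 2 * k1 := by rw [← hWc]; exact key _ _ _ _ e1
  have f2 : (q.1.2 : ℝ) = s2 + (D.W : ℝ) / 2 * k2 := by rw [← hWc]; exact key _ _ _ _ e2
  have f1' : (q.2.1 : ℝ) = s1 - (D.W : ℝ) / 2 * k1 := by rw [← hWc]; exact key' _ _ _ _ e1'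
  have f2' : (q.2.2 : ℝ) = s2 - (D.W : ℝ) / 2 * k2 := by rw [← hWc]; exact key' _ _ _ _ e2'
  have g1 : (s1 : ℝ) / √Y + (D.W : ℝ) / 2 * ((k1 : ℝ) / √Y) = q.1.1 / √Y := by rw [f1]; ring
  have g2 : (s2 : ℝ) / √Y + (D.W : ℝ) / 2 * ((k2 : ℝ) / √Y) = q.1.2 / √Y := by rw [f2]; ring
  have g1' : (s1 : ℝ) / √Y - (D.W : ℝ) / 2 * ((k1 : ℝ) / √Y) = q.2.1 / √Y := by rw [f1']; ring
  have g2' : (s2 : ℝ) / √Y - (D.W : ℝ) / 2 * ((k2 : ℝ) / √Y) = q.2.2 / √Y := by rw [f2']; ring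
  have sq : ∀ x y : ℝ, (x / √Y) ^ 2 + (y / √Y) ^ 2 = (x ^ 2 + y ^ 2) / Y := by
    intro x y
    rw [div_pow, div_pow, ← add_div, pow_two √(Y : ℝ), hXX]
  have hlo : (Y : ℝ) < 2 * ((q.1.1 : ℝ) ^ 2 + (q.1.2 : ℝ) ^ 2) - hi - D.a := by
    have h5 := hq.lo
    unfold nm at h5
    exact_mod_cast h5
  have hhi : 2 * ((q.1.1 : ℝ) ^ 2 + (q.1.2 : ℝ) ^ 2) - hi - D.a ≤ 2 * Y := by
    have h5 := hq.hi
    unfold nm at h5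
    exact_mod_cast h5
  have heq : 2 * ((q.1.1 : ℝ) ^ 2 + (q.1.2 : ℝ) ^ 2) - D.a = 2 * ((q.2.1 : ℝ) ^ 2 + (q.2.2 : ℝ) ^ 2) - D.a' := by
    have h5 := hq.eq
    unfold nm at h5
    exact_mod_cast h5
  have h4' : (0 : ℝ) ≤ hi := by exact_mod_cast h4
  have ha : (0 : ℝ) ≤ D.a := Nat.cast_nonneg _
  have ha' : (0 : ℝ) ≤ D.a' := Nat.cast_nonneg _
  have hηY : 0 ≤ η * Y := mul_nonneg hη hYr.le
  have hcone : |(q.1.2 : ℝ)| ≤ q.1.1 := by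
    have h5 := hq.cone.le
    exact_mod_cast h5
  have hcone' : |(q.2.2 : ℝ)| ≤ q.2.1 := by
    have h5 := hq.cone'.le
    exact_mod_cast h5
  refine ⟨?_, ?_, ?_, ?_, ?_, ?_, ?_⟩
  · have h5 : (s1 : ℝ) / √Y * ((k1 : ℝ) / √Y) + (s2 : ℝ) / √Y * ((k2 : ℝ) / √Y) = D.h / Y := by
      rw [div_mul_div_comm, div_mul_div_comm, ← add_div, hXX]
      congr 1
      exact_mod_cast hsk
    show |(s1 : ℝ) / √Y * ((k1 : ℝ) / √Y) + (s2 : ℝ) / √Y * ((k2 : ℝ) / √Y)| ≤ η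
    rw [h5, abs_div, abs_of_pos hYr, div_le_iff₀ hYr]
    exact h1
  · show |(s2 : ℝ) / √Y + (D.W : ℝ) / 2 * ((k2 : ℝ) / √Y)| ≤ (s1 : ℝ) / √Y + (D.W : ℝ) / 2 * ((k1 : ℝ) / √Y) + η
    rw [g1, g2, abs_div, abs_of_pos hX]
    have h5 := div_le_div_of_nonneg_right hcone hX.le
    linarith
  · show |(s2 : ℝ) / √Y - (D.W : ℝ) / 2 * ((k2 : ℝ) / √Y)| ≤ (s1 : ℝ) / √Y - (D.W : ℝ) / 2 * ((k1 : ℝ) / √Y) + η
    rw [g1', g2', abs_div, abs_of_pos hX]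
    have h5 := div_le_div_of_nonneg_right hcone' hX.le
    linarith
  · show 1 / 2 - η ≤ ((s1 : ℝ) / √Y + (D.W : ℝ) / 2 * ((k1 : ℝ) / √Y)) ^ 2 +
      ((s2 : ℝ) / √Y + (D.W : ℝ) / 2 * ((k2 : ℝ) / √Y)) ^ 2
    rw [g1, g2, sq, le_div_iff₀ hYr]
    nlinarith
  · show ((s1 : ℝ) / √Y + (D.W : ℝ) / 2 * ((k1 : ℝ) / √Y)) ^ 2 +
      ((s2 : ℝ) / √Y + (D.W : ℝ) / 2 * ((k2 : ℝ) / √Y)) ^ 2 ≤ 1 + η
    rw [g1, g2, sq, div_le_iff₀ hYr]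
    nlinarith
  · show 1 / 2 - η ≤ ((s1 : ℝ) / √Y - (D.W : ℝ) / 2 * ((k1 : ℝ) / √Y)) ^ 2 +
      ((s2 : ℝ) / √Y - (D.W : ℝ) / 2 * ((k2 : ℝ) / √Y)) ^ 2
    rw [g1', g2', sq, le_div_iff₀ hYr]
    nlinarith
  · show ((s1 : ℝ) / √Y - (D.W : ℝ) / 2 * ((k1 : ℝ) / √Y)) ^ 2 +
      ((s2 : ℝ) / √Y - (D.W : ℝ) / 2 * ((k2 : ℝ) / √Y)) ^ 2 ≤ 1 + η
    rw [g1', g2', sq, div_le_iff₀ hYr]
    nlinarith

/-- **From pairs to boxes.** `X = √Y`, box `i`: `s1 ∈ (X i.1 / m, X (i.1 + 1) / m]` and so on; the weight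
`s1 m / (X i.1)` is at least `1`. The map `q ↦ (s1, s2, κ2)` is injective (`κ1 = KK`). -/
theorem t5_geo {k : ℕ} (D : Par k) (hD : D.ok) (hh : 4 * (D.W : ℤ) * D.h = D.a - D.a') (hi : ℤ) (Y : ℕ) (P : Finset ℕ)
    (η : ℝ) (hY : 0 < Y) (h1 : |(D.h : ℝ)| ≤ η * Y) (h2 : (hi : ℝ) + D.a ≤ η * Y) (h3 : (hi : ℝ) + D.a' ≤ η * Y)
    (h4 : 0 ≤ hi) (m : ℕ) (hm : 0 < m) (S : Finset (ℤ × ℤ × ℤ))
    (hS : ∀ u v k t : ℝ, (u, v, k, t) ∈ R4 ((D.W : ℝ) / 2) η → (⌈m * u⌉ - 1, ⌈m * v⌉ - 1, ⌈m * t⌉ - 1) ∈ S)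
    (hS1 : ∀ i ∈ S, 0 < i.1) (F : Finset ((ℤ × ℤ) × (ℤ × ℤ))) (hF : ∀ q ∈ F, D.Cnd hi Y P q) :
    (F.card : ℝ) ≤ ∑ i ∈ S, (m : ℝ) / (√Y * i.1) *
      D.WS P ⌊√Y * i.1 / m⌋₊ ⌊√Y * (i.1 + 1) / m⌋₊ ⌊√Y * i.2.1 / m⌋ ⌊√Y * (i.2.1 + 1) / m⌋
        ⌊√Y * i.2.2 / m⌋ ⌊√Y * (i.2.2 + 1) / m⌋ := by
  classical
  have hYr : (0 : ℝ) < Y := by exact_mod_cast hY
  have hX : 0 < √(Y : ℝ) := Real.sqrt_pos.2 hYr
  have hmr : (0 : ℝ) < m := by exact_mod_cast hm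
  -- the box of a pair
  let bx : (ℤ × ℤ) × (ℤ × ℤ) → ℤ × ℤ × ℤ := fun q =>
    (⌈m * (((cs D.W q).1 : ℝ) / √Y)⌉ - 1, ⌈m * (((cs D.W q).2.1 : ℝ) / √Y)⌉ - 1,
      ⌈m * (((cs D.W q).2.2.2 : ℝ) / √Y)⌉ - 1)
  have hbx : ∀ q ∈ F, bx q ∈ S := fun q hq =>
    hS _ _ _ _ (t5_R4 D hD hh hi Y P η hY h1 h2 h3 h4 q (hF q hq))
  have hint : ∀ (x n : ℤ), ⌈(m : ℝ) * ((x : ℝ) / √Y)⌉ - 1 = n →
      √Y * n / m < x ∧ (x : ℝ) ≤ √Y * (n + 1) / m := by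
    intro x n hn
    have h5 : ⌈(m : ℝ) * ((x : ℝ) / √Y)⌉ = n + 1 := by omega
    rw [Int.ceil_eq_iff] at h5
    obtain ⟨h6, h7⟩ := h5
    push_cast at h6 h7
    rw [add_sub_cancel_right, ← mul_div_assoc, lt_div_iff₀ hX] at h6
    rw [← mul_div_assoc, div_le_iff₀ hX] at h7
    constructor
    · rw [div_lt_iff₀ hmr]
      linarith
    · rw [le_div_iff₀ hmr]
      linarith
  have hcard : (F.card : ℝ) = ∑ i ∈ S, ((F.filter fun q => bx q = i).card : ℝ) := by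
    rw [card_eq_sum_card_fiberwise hbx]
    push_cast
    rfl
  rw [hcard]
  refine sum_le_sum fun i hi' => ?_
  have hi1 : (0 : ℝ) < i.1 := by exact_mod_cast hS1 i hi'
  have hw : 0 < (m : ℝ) / (√Y * i.1) := by positivity
  have hone : ∀ q ∈ F.filter (fun q => bx q = i), (1 : ℝ) ≤ (m : ℝ) / (√Y * i.1) * (((cs D.W q).1.toNat : ℕ) : ℝ) := by
    intro q hq
    rw [mem_filter] at hq
    obtain ⟨-, -, -, -, -, hpos, -, -⟩ := t5_cs D hD hh hi Y P q (hF q hq.1)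
    have h5 := (hint _ _ (congrArg Prod.fst hq.2)).1
    have h6 : (((cs D.W q).1.toNat : ℕ) : ℝ) = (cs D.W q).1 := by
      have : (((cs D.W q).1.toNat : ℕ) : ℤ) = (cs D.W q).1 := Int.toNat_of_nonneg hpos.le
      exact_mod_cast this
    rw [h6, div_mul_eq_mul_div, le_div_iff₀ (by positivity), one_mul]
    rw [div_lt_iff₀ hmr] at h5
    linarith
  rw [card_eq_sum_ones]
  push_cast
  refine le_trans (sum_le_sum hone) ?_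
  rw [← mul_sum]
  refine mul_le_mul_of_nonneg_left ?_ hw.le
  unfold Par.WS
  -- the injection
  let g : (ℤ × ℤ) × (ℤ × ℤ) → ℕ × ℤ × ℤ := fun q => ((cs D.W q).1.toNat, (cs D.W q).2.1, (cs D.W q).2.2.2)
  have hKK : ∀ q ∈ F, KK D.h (g q) = (cs D.W q).2.2.1 := by
    intro q hq
    obtain ⟨-, -, -, -, hsk, hpos, -, -⟩ := t5_cs D hD hh hi Y P q (hF q hq)
    unfold KK
    show (D.h - (cs D.W q).2.1 * (cs D.W q).2.2.2) / (((cs D.W q).1.toNat : ℕ) : ℤ) = (cs D.W q).2.2.1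
    rw [Int.toNat_of_nonneg hpos.le]
    have h5 : D.h - (cs D.W q).2.1 * (cs D.W q).2.2.2 = (cs D.W q).1 * (cs D.W q).2.2.1 := by linarith
    rw [h5]
    exact Int.mul_ediv_cancel_left _ hpos.ne'
  have hinj : Set.InjOn g (F.filter fun q => bx q = i) := by
    intro q hq q' hq' hqq
    rw [mem_coe, mem_filter] at hq hq'
    obtain ⟨e1, e2, e3, e4, -, hpos, -, -⟩ := t5_cs D hD hh hi Y P q (hF q hq.1)
    obtain ⟨e1', e2', e3', e4', -, hpos', -, -⟩ := t5_cs D hD hh hi Y P q' (hF q' hq'.1)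
    have k1 : (cs D.W q).2.2.1 = (cs D.W q').2.2.1 := by
      rw [← hKK q hq.1, ← hKK q' hq'.1, hqq]
    have k2 : (cs D.W q).1 = (cs D.W q').1 := by
      have h5 : (cs D.W q).1.toNat = (cs D.W q').1.toNat := congrArg Prod.fst hqq
      omega
    have k3 : (cs D.W q).2.1 = (cs D.W q').2.1 := congrArg (fun x => x.2.1) hqq
    have k4 : (cs D.W q).2.2.2 = (cs D.W q').2.2.2 := congrArg (fun x => x.2.2) hqq
    refine Prod.ext (Prod.ext ?_ ?_) (Prod.ext ?_ ?_)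
    · rw [e1, e1', k1, k2]
    · rw [e2, e2', k3, k4]
    · rw [e3, e3', k1, k2]
    · rw [e4, e4', k3, k4]
  have himg : ∑ q ∈ F.filter (fun q => bx q = i), (((cs D.W q).1.toNat : ℕ) : ℝ) =
      ∑ x ∈ (F.filter fun q => bx q = i).image g, (x.1 : ℝ) := by
    rw [sum_image hinj]
  rw [himg]
  refine sum_le_sum_of_subset_of_nonneg ?_ (fun x _ _ => Nat.cast_nonneg _)
  intro x hx
  rw [mem_image] at hx
  obtain ⟨q, hq, rfl⟩ := hx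
  rw [mem_filter] at hq
  obtain ⟨hqF, hqi⟩ := hq
  obtain ⟨-, -, -, -, hsk, hpos, hPL, hPP⟩ := t5_cs D hD hh hi Y P q (hF q hqF)
  have hnat : (((cs D.W q).1.toNat : ℕ) : ℤ) = (cs D.W q).1 := Int.toNat_of_nonneg hpos.le
  have hnatr : (((cs D.W q).1.toNat : ℕ) : ℝ) = (cs D.W q).1 := by exact_mod_cast hnat
  rw [mem_filter]
  refine ⟨?_, ?_, ?_⟩
  · unfold BX
    rw [mem_filter, mem_product, mem_product, mem_Ioc, mem_Ioc, mem_Ioc]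
    obtain ⟨a1, a2⟩ := hint _ _ (congrArg Prod.fst hqi)
    obtain ⟨b1, b2⟩ := hint _ _ (congrArg (fun x => x.2.1) hqi)
    obtain ⟨c1, c2⟩ := hint _ _ (congrArg (fun x => x.2.2) hqi)
    refine ⟨⟨⟨?_, ?_⟩, ⟨?_, ?_⟩, ⟨?_, ?_⟩⟩, ?_⟩
    · show ⌊√Y * i.1 / m⌋₊ < (cs D.W q).1.toNat
      refine (Nat.floor_lt (by positivity)).2 ?_
      rw [hnatr]
      exact a1
    · show (cs D.W q).1.toNat ≤ ⌊√Y * (i.1 + 1) / m⌋₊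
      refine Nat.le_floor ?_
      rw [hnatr]
      exact a2
    · exact Int.floor_lt.2 b1
    · exact Int.le_floor.2 b2
    · exact Int.floor_lt.2 c1
    · exact Int.le_floor.2 c2
    · show (((cs D.W q).1.toNat : ℕ) : ℤ) ∣ D.h - (cs D.W q).2.1 * (cs D.W q).2.2.2
      rw [hnat]
      exact ⟨(cs D.W q).2.2.1, by linarith⟩
  · show D.PL ∅ (((cs D.W q).1.toNat : ℕ) : ℤ) (cs D.W q).2.1 (KK D.h (g q)) (cs D.W q).2.2.2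
    rw [hnat, hKK q hqF]
    exact hPL
  · intro p hp
    show ¬ PP D.W p D.h D.c (((cs D.W q).1.toNat : ℕ) : ℤ) (cs D.W q).2.1 (KK D.h (g q)) (cs D.W q).2.2.2
    rw [hnat, hKK q hqF]
    exact hPP p hp

end Pool.Agent.Wd33b62c
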