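import Pool.Agent.W_d33b62t5_h98.T5C1

/-!
# The correlation lemma (MP_d33b62, T5)
-/

set_option autoImplicit false

open Finset Filter

namespace Pool.Agent.Wd33b62c

open Pool.Agent.W33f

/-- The level of the sieve. -/
theorem t5c_b (c₁ : ℝ) (h0 : 0 < c₁) (h1 : c₁ ≤ 1 / 2000) : ∃ b₀ : ℕ, 1 ≤ b₀ ∧ (4 * (b₀ : ℝ) + 5) * c₁ ≤ 1 / 100 ∧
    Real.exp (-(b₀ : ℝ)) ≤ 10 * Real.exp (-(1 / (400 * c₁))) := by
  have h2 : 5 ≤ 1 / (400 * c₁) := by
    rw [le_div_iff₀ (by positivity)]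
    linarith
  refine ⟨⌊1 / (400 * c₁) - 5 / 4⌋₊, ?_, ?_, ?_⟩
  · apply Nat.le_floor
    push_cast
    linarith
  · have h3 := Nat.floor_le (show 0 ≤ 1 / (400 * c₁) - 5 / 4 by linarith)
    have h4 : 4 * (1 / (400 * c₁)) * c₁ = 1 / 100 := by
      field_simp
      norm_num
    nlinarith
  · have h3 := Nat.lt_floor_add_one (1 / (400 * c₁) - 5 / 4)
    have h4 : Real.exp (-((⌊1 / (400 * c₁) - 5 / 4⌋₊ : ℕ) : ℝ)) ≤ Real.exp (9 / 4 + -(1 / (400 * c₁))) := by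
      apply Real.exp_le_exp.2
      linarith
    refine h4.trans ?_
    rw [Real.exp_add]
    have h5 : Real.exp (9 / 4) ≤ 10 := by
      have e1 : Real.exp (9 / 4) ^ 4 = Real.exp 1 ^ 9 := by
        rw [← Real.exp_nat_mul, ← Real.exp_nat_mul]
        norm_num
      have e2 : Real.exp 1 ^ 9 ≤ 2.7182818286 ^ 9 := pow_le_pow_left₀ (Real.exp_pos 1).le Real.exp_one_lt_d9.le 9
      by_contra hcon
      rw [not_le] at hcon
      have e3 : (10 : ℝ) ^ 4 < Real.exp (9 / 4) ^ 4 := pow_lt_pow_left₀ hcon (by norm_num) (by norm_num)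
      rw [e1] at e3
      have e4 : (2.7182818286 : ℝ) ^ 9 ≤ 10 ^ 4 := by norm_num
      linarith
    exact mul_le_mul_of_nonneg_right h5 (Real.exp_pos _).le

/-- The factor `(1 + x) (1 + A / w) (1 + G q)`. -/
theorem t5c_fac (x A G q w ε : ℝ) (hx0 : 0 ≤ x) (hA : 0 ≤ A) (hG : 0 ≤ G) (hq0 : 0 ≤ q) (hq1 : q ≤ 1) (hw : 1 ≤ w)
    (hx : x * ((1 + A) * (1 + G)) ≤ ε / 2) :
    (1 + x) * ((1 + A / w) * (1 + G * q)) ≤ 1 + G * q + (A + G * A) / w + ε / 2 := by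
  have hw0 : 0 < w := by linarith
  have h1 : A / w ≤ A := div_le_self hA hw
  have h1' : 0 ≤ A / w := by positivity
  have h2 : G * q ≤ G := by nlinarith
  have h2' : 0 ≤ G * q := by positivity
  have h3 : (1 + A / w) * (1 + G * q) ≤ (1 + A) * (1 + G) :=
    mul_le_mul (by linarith) (by linarith) (by linarith) (by linarith)
  have h4 : x * ((1 + A / w) * (1 + G * q)) ≤ ε / 2 := (mul_le_mul_of_nonneg_left h3 hx0).trans hx
  have h5 : A / w * (G * q) ≤ G * A / w := by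
    have : A / w * (G * q) ≤ A / w * G := mul_le_mul_of_nonneg_left h2 h1'
    refine this.trans (le_of_eq ?_)
    ring
  have h6 : (A + G * A) / w = A / w + G * A / w := add_div _ _ _
  rw [h6]
  nlinarith

/-- The asymptotic requirements. -/
theorem t5c_ev (η Y₁ c₁ K : ℝ) (w N : ℕ) (hη : 0 < η) (hc : 0 < c₁) : ∃ Y₀ : ℕ, ∀ Y : ℕ, Y₀ ≤ Y → Y₁ ≤ (Y : ℝ) ∧
    2 ≤ (Y : ℝ) ^ c₁ ∧ Real.log Y ^ N + w ≤ η * Y ∧ Real.log Y ^ N ≤ √Y ∧
    K * Real.log Y ^ (14 * N) ≤ (Y : ℝ) ^ (3 / 100 : ℝ) ∧ 1 ≤ Real.log Y := by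
  have hl : ∀ (n : ℕ) (r : ℝ), 0 < r → ∀ c : ℝ, 0 < c →
      ∀ᶠ y : ℝ in atTop, Real.log y ^ n ≤ c * y ^ r := by
    intro n r hr c hc
    have h1 := (isLittleO_log_rpow_rpow_atTop (n : ℝ) hr).bound hc
    filter_upwards [h1, eventually_ge_atTop (1 : ℝ)] with y hy hy1
    have h2 : 0 ≤ Real.log y := Real.log_nonneg hy1
    rw [Real.rpow_natCast, Real.norm_of_nonneg (by positivity), Real.norm_of_nonneg (by positivity)] at hy
    exact hy
  have hev : ∀ᶠ y : ℝ in atTop, Y₁ ≤ y ∧ 2 ≤ y ^ c₁ ∧ Real.log y ^ N + w ≤ η * y ∧ Real.log y ^ N ≤ √y ∧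
      K * Real.log y ^ (14 * N) ≤ y ^ (3 / 100 : ℝ) ∧ 1 ≤ Real.log y := by
    have e1 := hl N 1 one_pos (η / 2) (by linarith)
    have e2 := hl N (1 / 2) (by norm_num) 1 one_pos
    have e3 := hl (14 * N) (3 / 100) (by norm_num) (1 / (|K| + 1)) (by positivity)
    have e4 : ∀ᶠ y : ℝ in atTop, 2 * w / η ≤ y := eventually_ge_atTop _
    have e5 := (tendsto_rpow_atTop hc).eventually_ge_atTop 2
    have e6 := Real.tendsto_log_atTop.eventually_ge_atTop 1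
    filter_upwards [e1, e2, e3, e4, e5, e6, eventually_ge_atTop Y₁, eventually_ge_atTop (1 : ℝ)] with y y1 y2 y3 y4 y5 y6 y7 y8
    refine ⟨y7, y5, ?_, ?_, ?_, y6⟩
    · rw [Real.rpow_one] at y1
      rw [div_le_iff₀ hη] at y4
      linarith
    · rw [Real.sqrt_eq_rpow]
      linarith
    · have hK : K ≤ |K| + 1 := by linarith [le_abs_self K]
      have hL : 0 ≤ Real.log y ^ (14 * N) := by positivity
      have h7 : (|K| + 1) * Real.log y ^ (14 * N) ≤ y ^ (3 / 100 : ℝ) := by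
        have := mul_le_mul_of_nonneg_left y3 (show 0 ≤ |K| + 1 by positivity)
        have h8 : (|K| + 1) * (1 / (|K| + 1) * y ^ (3 / 100 : ℝ)) = y ^ (3 / 100 : ℝ) := by field_simp
        linarith
      exact (mul_le_mul_of_nonneg_right hK hL).trans h7
  obtain ⟨Y₀, hY₀⟩ := (tendsto_natCast_atTop_atTop.eventually hev).exists_forall_of_atTop
  exact ⟨Y₀, fun Y hY => hY₀ Y hY⟩

theorem t5c_EE (C : ℝ) (hC : 0 ≤ C) (w : ℕ) (m : ℤ) : 1 ≤ EE C w m := by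
  unfold EE
  refine Finset.prod_induction _ (fun x : ℝ => 1 ≤ x) (fun a b ha hb => one_le_mul_of_one_le_of_one_le ha hb) le_rfl ?_
  intro p _
  have : 0 ≤ C / p := by positivity
  linarith

/-- The error term. -/
theorem t5c_err (k N b₀ : ℕ) (Y N₀ ε c₁ h a a' W V L : ℝ) (hY : 1 ≤ Y) (hN₀ : 0 ≤ N₀) (hε : 0 < ε) (hc : 0 < c₁)
    (hW : 1 ≤ W) (ha : 1 ≤ a) (ha' : 1 ≤ a') (haL : a ≤ L ^ N) (haL' : a' ≤ L ^ N) (hh : |h| ≤ L ^ N)
    (hb : (4 * (b₀ : ℝ) + 5) * c₁ ≤ 1 / 100) (hk : 2 * (k : ℝ) * c₁ ≤ 1 / 100) (hV : 1 / (Y ^ c₁) ^ (2 * k) ≤ V)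
    (hK : 32 * N₀ * W ^ 8 / ε * L ^ (14 * N) ≤ Y ^ (3 / 100 : ℝ)) :
    N₀ * Y ^ (9 / 10 : ℝ) * (W * a * a') ^ 5 * ((Y ^ c₁) ^ (4 * b₀ + 5)) ^ 6 * h ^ 2 ≤
      ε / 2 * (Real.pi ^ 2 * Y / (16 * W ^ 3 * a * a') * V) := by
  have hY0 : 0 < Y := by linarith
  have hW0 : 0 < W := by linarith
  have ha0 : 0 < a := by linarith
  have ha0' : 0 < a' := by linarith
  set P : ℝ := L ^ N with hP
  have hP1 : 1 ≤ P := ha.trans haL
  have hP0 : 0 < P := by linarith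
  have hz1 : (Y ^ c₁) ^ (4 * b₀ + 5) ≤ Y ^ (1 / 100 : ℝ) := by
    rw [← Real.rpow_natCast, ← Real.rpow_mul hY0.le]
    apply Real.rpow_le_rpow_of_exponent_le hY
    push_cast
    linarith
  have hz2 : ((Y ^ c₁) ^ (4 * b₀ + 5)) ^ 6 ≤ Y ^ (6 / 100 : ℝ) := by
    have h1 := pow_le_pow_left₀ (by positivity) hz1 6
    refine h1.trans (le_of_eq ?_)
    rw [← Real.rpow_natCast, ← Real.rpow_mul hY0.le]
    norm_num
  have hz3 : Y ^ (-(1 / 100 : ℝ)) ≤ V := by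
    refine le_trans ?_ hV
    rw [Real.rpow_neg hY0.le, ← one_div]
    apply one_div_le_one_div_of_le (by positivity)
    rw [← Real.rpow_natCast, ← Real.rpow_mul hY0.le]
    apply Real.rpow_le_rpow_of_exponent_le hY
    push_cast
    linarith
  have h5 : (W * a * a') ^ 5 ≤ (W * P * P) ^ 5 := by
    apply pow_le_pow_left₀ (by positivity)
    apply mul_le_mul (mul_le_mul_of_nonneg_left haL hW0.le) haL' ha0'.le (by positivity)
  have h6 : h ^ 2 ≤ P ^ 2 := by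
    rw [← sq_abs]
    exact pow_le_pow_left₀ (abs_nonneg h) hh 2
  have h7 : N₀ * Y ^ (9 / 10 : ℝ) * (W * a * a') ^ 5 * ((Y ^ c₁) ^ (4 * b₀ + 5)) ^ 6 * h ^ 2 ≤
      N₀ * Y ^ (9 / 10 : ℝ) * (W * P * P) ^ 5 * Y ^ (6 / 100 : ℝ) * P ^ 2 := by
    apply mul_le_mul _ h6 (by positivity) (by positivity)
    apply mul_le_mul _ hz2 (by positivity) (by positivity)
    exact mul_le_mul_of_nonneg_left h5 (by positivity)
  have h8 : N₀ * Y ^ (9 / 10 : ℝ) * (W * P * P) ^ 5 * Y ^ (6 / 100 : ℝ) * P ^ 2 =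
      (N₀ * W ^ 5 * P ^ 12) * Y ^ (96 / 100 : ℝ) := by
    have e : Y ^ (96 / 100 : ℝ) = Y ^ (9 / 10 : ℝ) * Y ^ (6 / 100 : ℝ) := by
      rw [← Real.rpow_add hY0]
      norm_num
    rw [e]
    ring
  have h9 : 1 / (16 * W ^ 3 * P ^ 2) * Y ^ (99 / 100 : ℝ) ≤ Real.pi ^ 2 * Y / (16 * W ^ 3 * a * a') * V := by
    have e1 : Y ^ (99 / 100 : ℝ) = Y * Y ^ (-(1 / 100 : ℝ)) := by
      have : Y * Y ^ (-(1 / 100 : ℝ)) = Y ^ (1 : ℝ) * Y ^ (-(1 / 100 : ℝ)) := by rw [Real.rpow_one]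
      rw [this, ← Real.rpow_add hY0]
      norm_num
    rw [e1, ← mul_assoc]
    refine mul_le_mul ?_ hz3 (by positivity) (by positivity)
    rw [one_div, ← div_eq_inv_mul]
    have e2 : 1 ≤ Real.pi ^ 2 := by nlinarith [Real.pi_gt_three]
    have e3 : Y ≤ Real.pi ^ 2 * Y := by nlinarith
    apply div_le_div₀ (by positivity) e3 (by positivity)
    have e4 : a * a' ≤ P * P := mul_le_mul haL haL' ha0'.le hP0.le
    have e5 := mul_le_mul_of_nonneg_left e4 (show 0 ≤ 16 * W ^ 3 by positivity)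
    nlinarith
  refine h7.trans (h8.le.trans ?_)
  refine le_trans ?_ (mul_le_mul_of_nonneg_left h9 (by linarith))
  have e6 : Y ^ (99 / 100 : ℝ) = Y ^ (96 / 100 : ℝ) * Y ^ (3 / 100 : ℝ) := by
    rw [← Real.rpow_add hY0]
    norm_num
  have e7 : L ^ (14 * N) = P ^ 14 := by rw [hP, ← pow_mul, mul_comm]
  rw [e7] at hK
  rw [e6]
  have e8 := mul_le_mul_of_nonneg_left hK (show 0 ≤ ε / (32 * W ^ 3 * P ^ 2) * Y ^ (96 / 100 : ℝ) by positivity)
  refine le_trans (le_of_eq ?_) (e8.trans (le_of_eq ?_))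
  · field_simp
  · field_simp
    ring

/-- The final comparison. -/
theorem t5c_fin (F Y W a a' K0 Pi G e0 E V H1 H2 EEs q G3 f3 A x ε w M : ℝ) (hF : F ≤ Y * M * K0 * Pi * (1 + G * e0) + E)
    (hY : 0 ≤ Y) (hW : 0 < W) (ha : 0 < a) (ha' : 0 < a') (hM : M = Real.pi ^ 2 / (16 * W) * (1 + x)) (hx : 0 ≤ x)
    (hK : K0 ≤ 1 / (W ^ 2 * a * a') * G3 * H1) (hG3 : 0 ≤ G3) (hH1 : 0 ≤ H1) (hPi0 : 0 ≤ Pi)
    (hPi : Pi ≤ f3 * V * H2) (hf3 : 0 ≤ f3) (hV : 0 ≤ V) (hH : H2 * H1 ≤ EEs) (hE1 : 1 ≤ EEs)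
    (hG : 0 ≤ G) (he0 : 0 ≤ e0) (he : e0 ≤ 10 * q) (hgf : G3 * f3 ≤ 1 + A / w)
    (hfac : (1 + x) * ((1 + A / w) * (1 + 10 * G * q)) ≤ 1 + 10 * G * q + (A + 10 * G * A) / w + ε / 2)
    (hq0 : 0 ≤ q) (hE : E ≤ ε / 2 * (Real.pi ^ 2 * Y / (16 * W ^ 3 * a * a') * V)) (hε : 0 < ε) :
    F ≤ (1 + 10 * G * q + (A + 10 * G * A) / w + ε) * (Real.pi ^ 2 * Y / (16 * W ^ 3 * a * a')) * V * EEs := by
  set B : ℝ := Real.pi ^ 2 * Y / (16 * W ^ 3 * a * a') with hB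
  have hB0 : 0 ≤ B := by positivity
  have h1 : K0 * Pi ≤ 1 / (W ^ 2 * a * a') * (G3 * f3) * V * EEs := by
    have e1 : K0 * Pi ≤ (1 / (W ^ 2 * a * a') * G3 * H1) * (f3 * V * H2) :=
      mul_le_mul hK hPi hPi0 (by positivity)
    have e2 : (1 / (W ^ 2 * a * a') * G3 * H1) * (f3 * V * H2) = 1 / (W ^ 2 * a * a') * (G3 * f3) * V * (H2 * H1) := by
      ring
    rw [e2] at e1
    exact e1.trans (mul_le_mul_of_nonneg_left hH (by positivity))
  have h2 : 1 + G * e0 ≤ 1 + 10 * G * q := by nlinarith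
  have hM0 : 0 ≤ M := by rw [hM]; positivity
  have hEE0 : 0 ≤ EEs := by linarith
  have h3 : Y * M * K0 * Pi * (1 + G * e0) ≤ B * V * EEs * ((1 + x) * ((1 + A / w) * (1 + 10 * G * q))) := by
    have e1 : Y * M * K0 * Pi * (1 + G * e0) ≤
        (Y * M * (1 / (W ^ 2 * a * a') * (G3 * f3) * V * EEs)) * (1 + 10 * G * q) := by
      refine mul_le_mul ?_ h2 (by positivity) (by positivity)
      have := mul_le_mul_of_nonneg_left h1 (show 0 ≤ Y * M by positivity)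
      linarith
    have e2 : (Y * M * (1 / (W ^ 2 * a * a') * (G3 * f3) * V * EEs)) * (1 + 10 * G * q) =
        B * V * EEs * (1 + x) * (1 + 10 * G * q) * (G3 * f3) := by
      rw [hM, hB]
      field_simp
    rw [e2] at e1
    refine e1.trans ?_
    have e3 := mul_le_mul_of_nonneg_left hgf (show 0 ≤ B * V * EEs * (1 + x) * (1 + 10 * G * q) by positivity)
    refine e3.trans (le_of_eq ?_)
    ring
  have h4 := mul_le_mul_of_nonneg_left hfac (show 0 ≤ B * V * EEs by positivity)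
  have h5 : ε / 2 * (B * V) ≤ ε / 2 * (B * V * EEs) := by
    apply mul_le_mul_of_nonneg_left _ (by linarith)
    exact le_mul_of_one_le_right (by positivity) hE1
  have h6 : F ≤ B * V * EEs * (1 + 10 * G * q + (A + 10 * G * A) / w + ε / 2) + ε / 2 * (B * V * EEs) := by
    linarith
  refine h6.trans (le_of_eq ?_)
  ring

/-- **The correlation lemma.** `z = Y ^ c₁`.
Proof. `t5_sum` with `P = {p ∈ Pw w z : p ∤ h, p ∤ c l, p ∤ c l - 4 W h}` and `b₀ ≈ 1 / (400 c₁)`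
(`z ^ (4 b₀ + 5) ≤ Y ^ (1/100)`), `lo_up`, `lo_GG`, `pr_main`, `pr_bad`; the error term is at most `ε` times the main
term, as `VV k w z ≥ z ^ (- 2 k) ≥ Y ^ (- 1/100)` (`pr_low`, `c₁` small) and `a, a' ≤ (log Y) ^ N`. -/
theorem t5_main (k : ℕ) : ∃ C : ℝ, 1 ≤ C ∧ ∀ c₁ : ℝ, 0 < c₁ → c₁ ≤ 1 / C → ∀ w W : ℕ, C ≤ w → Wok w W → ∀ (N : ℕ) (ε : ℝ),
    0 < ε → ∃ Y₀ : ℕ, ∀ Y ≥ Y₀, ∀ (D : Par k) (hi : ℤ), D.W = W → D.ok → 4 * (D.W : ℤ) * D.h = D.a - D.a' →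
      w < D.a → w < D.a' → (D.a : ℝ) ≤ Real.log Y ^ N → (D.a' : ℝ) ≤ Real.log Y ^ N → 0 ≤ hi → hi ≤ w →
      (∀ l l', l ≠ l' → D.c l ≠ D.c l' ∧ |D.c l - D.c l'| ≤ w) → (∀ l, 0 < D.c l ∧ 0 < D.c l - 4 * D.W * D.h) →
      (∃ i, D.c i = D.a) →
      ∀ F : Finset ((ℤ × ℤ) × (ℤ × ℤ)), (∀ q ∈ F, D.Cnd hi Y (Pw w ((Y : ℝ) ^ c₁)) q) →
        (F.card : ℝ) ≤ (1 + C * Real.exp (-(1 / (C * c₁))) + C / w + ε) *
          (Real.pi ^ 2 * Y / (16 * W ^ 3 * D.a * D.a')) * VV k w ((Y : ℝ) ^ c₁) *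
          (EE (CC k) w (D.a - D.a') * ∏ l, (EE (CC k) w (D.c l) * EE (CC k) w (D.c l - 4 * D.W * D.h))) := by
  classical
  obtain ⟨G, hG1, hS⟩ := t5_sum k
  have hG0 : 0 ≤ G := by linarith
  set A : ℝ := 15 + 128 * k with hA
  have hk0 : (0 : ℝ) ≤ k := Nat.cast_nonneg k
  have hA0 : 0 ≤ A := by positivity
  have hGA : 0 ≤ 10 * G * A := by positivity
  refine ⟨2000 + 400 * k + 10 * G + A + 10 * G * A, by linarith, ?_⟩
  intro c₁ hc hc1 w W hw hWok N ε hε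
  set C : ℝ := 2000 + 400 * k + 10 * G + A + 10 * G * A with hC
  have hC0 : 0 < C := by positivity
  have hcC : C * c₁ ≤ 1 := by
    rw [le_div_iff₀ hC0] at hc1
    linarith
  have hc2000 : c₁ ≤ 1 / 2000 := by
    have : 2000 * c₁ ≤ C * c₁ := mul_le_mul_of_nonneg_right (by linarith) hc.le
    linarith
  have hck : 2 * (k : ℝ) * c₁ ≤ 1 / 100 := by
    have : 400 * (k : ℝ) * c₁ ≤ C * c₁ := mul_le_mul_of_nonneg_right (by linarith) hc.le
    nlinarith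
  obtain ⟨b₀, hb1, hb2, hb3⟩ := t5c_b c₁ hc hc2000
  have hwr : (2000 : ℝ) ≤ w := by linarith
  have hwk : 4 * k ≤ w := by
    have : (4 * k : ℝ) ≤ w := by linarith
    exact_mod_cast this
  have hw3 : 3 ≤ w := by
    have : (3 : ℝ) ≤ w := by linarith
    exact_mod_cast this
  have hw1 : (1 : ℝ) ≤ w := by linarith
  have hw0 : (0 : ℝ) < w := by linarith
  have h8W := hWok.2.1
  have hW4 : 4 ∣ W := dvd_trans (by norm_num) h8W
  have hW0 : 0 < W := by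
    rcases Nat.eq_zero_or_pos W with h | h
    · exact absurd (h ▸ dvd_zero 16) hWok.2.2
    · exact h
  have hWr : (1 : ℝ) ≤ W := by exact_mod_cast hW0
  have hW0r : (0 : ℝ) < W := by linarith
  have hW2 : 2 ≤ W := by
    have := Nat.le_of_dvd hW0 hW4
    omega
  set q : ℝ := Real.exp (-(1 / (400 * c₁))) with hq
  have hq0 : 0 ≤ q := (Real.exp_pos _).le
  have hq1 : q ≤ 1 := Real.exp_le_one_iff.2 (by
    have : 0 ≤ 1 / (400 * c₁) := by positivity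
    linarith)
  set x : ℝ := ε / (2 * ((1 + A) * (1 + 10 * G))) with hx
  have hx0 : 0 < x := by positivity
  have hxe : x * ((1 + A) * (1 + 10 * G)) ≤ ε / 2 := by
    rw [hx]
    apply le_of_eq
    field_simp
  have hfac := t5c_fac x A (10 * G) q w ε hx0.le hA0 (by positivity) hq0 hq1 hw1 hxe
  obtain ⟨η, Y₁, N₀, hη, hN₀, hsum⟩ := hS W (Real.pi ^ 2 / (16 * W) * x) hW2 (by positivity)
  obtain ⟨Y₀, hY₀⟩ := t5c_ev η Y₁ c₁ (32 * N₀ * W ^ 8 / ε) w N hη hc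
  refine ⟨max Y₀ 1, ?_⟩
  intro Y hY D hi hDW hD hh haw haw' haN haN' hhi hhiw hcc hc0 hci F hF
  obtain ⟨e1, e2, e3, e4, e5, e6⟩ := hY₀ Y ((le_max_left _ _).trans hY)
  have hY1 : 1 ≤ Y := (le_max_right _ _).trans hY
  have hY1r : (1 : ℝ) ≤ Y := by exact_mod_cast hY1
  set z : ℝ := (Y : ℝ) ^ c₁ with hz
  set P : Finset ℕ := (Pw w z).filter (fun p => ¬ (p : ℤ) ∣ D.h ∧ ∀ l, ¬ (p : ℤ) ∣ D.c l ∧
    ¬ (p : ℤ) ∣ D.c l - 4 * D.W * D.h) with hP
  have hPsub : P ⊆ Pw w z := filter_subset _ _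
  have hPw : ∀ p ∈ Pw w z, p.Prime ∧ w < p ∧ (p : ℝ) < z := by
    intro p hp
    rw [Pw, mem_filter, mem_range] at hp
    exact ⟨hp.2.1, hp.2.2, Nat.lt_ceil.1 hp.1⟩
  have ha1 : (1 : ℝ) ≤ D.a := by
    have : 1 ≤ D.a := by omega
    exact_mod_cast this
  have ha1' : (1 : ℝ) ≤ D.a' := by
    have : 1 ≤ D.a' := by omega
    exact_mod_cast this
  have hsp : ∀ p ∈ P, D.sp p ∧ (p : ℝ) < z ∧ 3 ≤ p ∧ 4 * k ≤ p := by
    intro p hp
    rw [hP, mem_filter] at hp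
    obtain ⟨hp1, hp2, hp3⟩ := hp
    obtain ⟨f1, f2, f3⟩ := hPw p hp1
    refine ⟨⟨f1, ?_, ?_, ?_, hp2, ?_, fun l => (hp3 l).1, fun l => (hp3 l).2⟩, f3, by omega, by omega⟩
    · rw [hDW, hWok.1 p f1]
      omega
    · obtain ⟨i, hi⟩ := hci
      intro h
      apply (hp3 i).1
      rw [hi, h]
    · obtain ⟨i, hi⟩ := hci
      intro h
      apply (hp3 i).2
      rw [hi, hh, h]
      exact ⟨1, by ring⟩
    · intro l l' hl hd
      obtain ⟨g1, g2⟩ := hcc l l' hl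
      have g3 := Int.le_of_dvd (abs_pos.2 (sub_ne_zero.2 g1)) ((dvd_abs _ _).2 hd)
      have g4 : (w : ℤ) < p := by exact_mod_cast f2
      linarith
  have hdiff : |(D.h : ℝ)| ≤ Real.log Y ^ N := by
    have g1 : (4 * (W : ℝ)) * D.h = D.a - D.a' := by
      have := congrArg (fun t : ℤ => (t : ℝ)) hh
      push_cast at this
      rw [hDW] at this
      exact this
    have g2 : |(D.a : ℝ) - D.a'| ≤ Real.log Y ^ N := by
      rw [abs_le]
      constructor <;> linarith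
    rw [← g1, abs_mul, abs_of_nonneg (by positivity : (0 : ℝ) ≤ 4 * W)] at g2
    have g3 : 0 ≤ |(D.h : ℝ)| := abs_nonneg _
    nlinarith
  have hhiw' : (hi : ℝ) ≤ w := by exact_mod_cast hhiw
  have hhi' : (0 : ℝ) ≤ hi := by exact_mod_cast hhi
  have hF' : ∀ q ∈ F, D.Cnd hi Y P q := by
    intro q hq
    have := hF q hq
    exact { this with sif := fun p hp => this.sif p (hPsub hp) }
  have hmain := hsum Y z b₀ D P hi e1 e2 hb1 hDW hD hh (by linarith) (by linarith) hhi (by linarith) (by linarith)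
    hsp F hF'
  have hup := lo_up D hD
  have hGG := lo_GG D.W D.h hD.h0
  have hGG0 := lo_GG0 D.W D.h
  have hPi0 := t5c_K k P fun p hp => (hsp p hp).2.2
  have hPi := pr_main k w hwk hw3 z P hPsub
  have hbad := pr_bad k w W hWok.1 hW4 D.h hD.h0 D.c (fun l => (hc0 l).1.ne')
    (fun l => by
      have := (hc0 l).2.ne'
      rw [hDW] at this
      exact this) z P (by
    intro p hp hpP
    by_contra hcon
    rw [not_or, not_exists] at hcon
    apply hpP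
    rw [hP, mem_filter]
    refine ⟨hp, hcon.1, fun l => ?_⟩
    have := hcon.2 l
    rw [not_or] at this
    rw [hDW]
    exact this)
  have hlow := pr_low k w (by omega) z e2
  have hz0 : 0 < z := by linarith
  have hV0 : 0 ≤ VV k w z := le_trans (by positivity) hlow
  have herr := t5c_err k N b₀ Y N₀ ε c₁ D.h D.a D.a' W (VV k w z) (Real.log Y) hY1r hN₀.le hε hc hWr ha1 ha1' haN haN'
    hdiff hb2 hck hlow e5
  have hCC0 : 0 ≤ CC k := by
    unfold CC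
    positivity
  have hEE1 : 1 ≤ EE (CC k) w (D.a - D.a') * ∏ l, (EE (CC k) w (D.c l) * EE (CC k) w (D.c l - 4 * D.W * D.h)) := by
    refine one_le_mul_of_one_le_of_one_le (t5c_EE _ hCC0 _ _) ?_
    refine Finset.prod_induction _ (fun x : ℝ => 1 ≤ x) (fun a b ha hb => one_le_mul_of_one_le_of_one_le ha hb) le_rfl ?_
    intro l _
    exact one_le_mul_of_one_le_of_one_le (t5c_EE _ hCC0 _ _) (t5c_EE _ hCC0 _ _)
  have hh' : 4 * (W : ℤ) * D.h = D.a - D.a' := by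
    rw [← hDW]
    exact hh
  rw [hh'] at hbad
  have h3a : (1 + 3 / (D.a : ℝ)) * (1 + 3 / (D.a' : ℝ)) ≤ 1 + 15 / w := by
    have g1 : 3 / (D.a : ℝ) ≤ 3 / w := by
      apply div_le_div_of_nonneg_left (by norm_num) hw0
      exact_mod_cast haw.le
    have g2 : 3 / (D.a' : ℝ) ≤ 3 / w := by
      apply div_le_div_of_nonneg_left (by norm_num) hw0
      exact_mod_cast haw'.le
    have g3 : (1 + 3 / (D.a : ℝ)) * (1 + 3 / (D.a' : ℝ)) ≤ (1 + 3 / w) * (1 + 3 / w) :=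
      mul_le_mul (by linarith) (by linarith) (by positivity) (by positivity)
    refine g3.trans ?_
    have g4 : (3 : ℝ) / w ≤ 3 := div_le_self (by norm_num) hw1
    have g5 : (0 : ℝ) ≤ 3 / w := by positivity
    have g6 : (15 : ℝ) / w = 5 * (3 / w) := by ring
    rw [g6]
    nlinarith
  have hgf : (1 + 3 / (D.a : ℝ)) * (1 + 3 / (D.a' : ℝ)) * (1 + 8 * k / (w : ℝ)) ≤ 1 + A / w := by
    have g1 : (0 : ℝ) ≤ 8 * k / w := by positivity
    have g2 := mul_le_mul_of_nonneg_right h3a (show 0 ≤ 1 + 8 * (k : ℝ) / w by linarith)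
    refine g2.trans ?_
    have g3 : (15 : ℝ) / w ≤ 15 := div_le_self (by norm_num) hw1
    have g4 : 15 / (w : ℝ) * (8 * k / w) ≤ 15 * (8 * k / w) := mul_le_mul_of_nonneg_right g3 g1
    have g5 : A / w = 15 / w + 16 * (8 * k / w) := by
      rw [hA]
      ring
    rw [g5]
    nlinarith
  have hfin := t5c_fin (F.card) Y W D.a D.a' D.K0
    (∏ p ∈ P, (1 - gg k p)) G (Real.exp (-(b₀ : ℝ)))
    (N₀ * (Y : ℝ) ^ (9 / 10 : ℝ) * ((D.W : ℝ) * D.a * D.a') ^ 5 * (z ^ (4 * b₀ + 5)) ^ 6 * (D.h : ℝ) ^ 2)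
    (VV k w z) (∏ p ∈ D.h.natAbs.primeFactors.filter (fun p => ¬ p ∣ W), (1 + 2 / (p : ℝ)))
    (∏ p ∈ Pw w z \ P, (1 + 2 * k / (p : ℝ)))
    (EE (CC k) w (D.a - D.a') * ∏ l, (EE (CC k) w (D.c l) * EE (CC k) w (D.c l - 4 * D.W * D.h))) q
    ((1 + 3 / (D.a : ℝ)) * (1 + 3 / (D.a' : ℝ))) (1 + 8 * k / (w : ℝ)) A x ε w
    (Real.pi ^ 2 / (16 * W) + Real.pi ^ 2 / (16 * W) * x) hmain (by linarith) hW0r (by linarith) (by linarith)
    (by ring) hx0.le (by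
      refine hup.2.trans ?_
      rw [hDW]
      rw [hDW] at hGG
      exact mul_le_mul_of_nonneg_left hGG (by positivity)) (by positivity)
    (prod_nonneg fun p _ => by positivity) hPi0 hPi (by positivity) hV0
    (by
      rw [hDW, hh']
      exact hbad) hEE1 hG0 (Real.exp_pos _).le hb3 hgf hfac hq0 (by
      rw [hDW]
      exact herr) hε
  refine hfin.trans ?_
  have g1 : 1 + 10 * G * q + (A + 10 * G * A) / w + ε ≤ 1 + C * Real.exp (-(1 / (C * c₁))) + C / w + ε := by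
    have g2 : q ≤ Real.exp (-(1 / (C * c₁))) := by
      rw [hq]
      apply Real.exp_le_exp.2
      apply neg_le_neg
      apply one_div_le_one_div_of_le (by positivity)
      exact mul_le_mul_of_nonneg_right (by linarith) hc.le
    have g3 : 10 * G * q ≤ C * Real.exp (-(1 / (C * c₁))) := mul_le_mul (by linarith) g2 hq0 hC0.le
    have g4 : (A + 10 * G * A) / w ≤ C / w := div_le_div_of_nonneg_right (by linarith) hw0.le
    linarith
  have g2 : 0 ≤ Real.pi ^ 2 * Y / (16 * (W : ℝ) ^ 3 * D.a * D.a') := by positivity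
  have g3 := mul_le_mul_of_nonneg_right (mul_le_mul_of_nonneg_right (mul_le_mul_of_nonneg_right g1 g2) hV0)
    (show 0 ≤ EE (CC k) w (D.a - D.a') * ∏ l, (EE (CC k) w (D.c l) * EE (CC k) w (D.c l - 4 * D.W * D.h)) by linarith)
  exact g3

end Pool.Agent.Wd33b62c
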