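import Pool.Agent.W_d33b62t5_h98.T5B

/-!
# The correlation lemma: sum over the boxes (MP_d33b62, T5)
-/

set_option autoImplicit false

open Finset

namespace Pool.Agent.Wd33b62c

open Pool.Agent.W33f

/-- Lengths of the intervals of the mesh. -/
theorem t5c_len (X : ℝ) (hX : 0 ≤ X) (m : ℕ) (hm : 0 < m) (i : ℤ) :
    (0 : ℝ) ≤ ((⌊X * (i + 1) / m⌋ - ⌊X * i / m⌋ : ℤ) : ℝ) ∧ ((⌊X * (i + 1) / m⌋ - ⌊X * i / m⌋ : ℤ) : ℝ) ≤ X / m + 1 ∧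
      ⌊X * i / m⌋ ≤ ⌊X * (i + 1) / m⌋ := by
  have hm' : (0 : ℝ) < m := by exact_mod_cast hm
  have h1 : X * (i + 1) / m = X * i / m + X / m := by field_simp
  have h0 : 0 ≤ X / m := by positivity
  have h2 : ⌊X * i / m⌋ ≤ ⌊X * (i + 1) / m⌋ := by
    apply Int.floor_mono
    rw [h1]
    linarith
  refine ⟨?_, ?_, h2⟩
  · have : (0 : ℤ) ≤ ⌊X * (i + 1) / m⌋ - ⌊X * i / m⌋ := by linarith
    exact_mod_cast this
  · have h3 := Int.floor_le (X * (i + 1) / m)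
    have h4 := Int.lt_floor_add_one (X * i / m)
    push_cast
    linarith

theorem t5c_lenN (X : ℝ) (hX : 0 ≤ X) (m : ℕ) (hm : 0 < m) (i : ℤ) (hi : 0 < i) :
    (0 : ℝ) ≤ (⌊X * (i + 1) / m⌋₊ : ℝ) - ⌊X * i / m⌋₊ ∧ (⌊X * (i + 1) / m⌋₊ : ℝ) - ⌊X * i / m⌋₊ ≤ X / m + 1 ∧
      ⌊X * i / m⌋₊ ≤ ⌊X * (i + 1) / m⌋₊ := by
  have hm' : (0 : ℝ) < m := by exact_mod_cast hm
  have hi' : (0 : ℝ) < i := by exact_mod_cast hi
  have h1 : X * (i + 1) / m = X * i / m + X / m := by field_simp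
  have h0 : 0 ≤ X / m := by positivity
  have h2 : ⌊X * i / m⌋₊ ≤ ⌊X * (i + 1) / m⌋₊ := by
    apply Nat.floor_mono
    rw [h1]
    linarith
  refine ⟨?_, ?_, h2⟩
  · have : (⌊X * i / m⌋₊ : ℝ) ≤ ⌊X * (i + 1) / m⌋₊ := by exact_mod_cast h2
    linarith
  · have h3 := Nat.floor_le (show 0 ≤ X * (i + 1) / m by positivity)
    have h4 := Nat.lt_floor_add_one (X * i / m)
    linarith

/-- One box. -/
theorem t5c_one (X T K : ℝ) (hX : 1 ≤ X) (m : ℕ) (hm : 0 < m) (i : ℝ) (hi : 0 < i) (l1 l2 l3 V : ℝ)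
    (h1' : l1 ≤ X / m + 1) (h2 : 0 ≤ l2) (h2' : l2 ≤ X / m + 1) (h3 : 0 ≤ l3) (h3' : l3 ≤ X / m + 1)
    (hK : 0 ≤ K) (hV : V ≤ l1 * l2 * l3 * K + T * X ^ (14 / 5 : ℝ)) :
    (m : ℝ) / (X * i) * V ≤ X ^ 2 * (1 + m / X) ^ 3 * K * (1 / ((m : ℝ) ^ 2 * i)) + T * X ^ (9 / 5 : ℝ) * (m / i) := by
  have hm' : (0 : ℝ) < m := by exact_mod_cast hm
  have hX0 : 0 < X := by linarith
  have hL : 0 ≤ X / m + 1 := by positivity
  have hl : l1 * l2 * l3 ≤ (X / m + 1) ^ 3 := by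
    have e1 : l1 * l2 ≤ (X / m + 1) * (X / m + 1) := mul_le_mul h1' h2' h2 hL
    have e2 : l1 * l2 * l3 ≤ (X / m + 1) * (X / m + 1) * (X / m + 1) := mul_le_mul e1 h3' h3 (by positivity)
    calc _ ≤ _ := e2
      _ = _ := by ring
  have hV2 : V ≤ (X / m + 1) ^ 3 * K + T * X ^ (14 / 5 : ℝ) := by
    have := mul_le_mul_of_nonneg_right hl hK
    linarith
  have hp : (0 : ℝ) ≤ m / (X * i) := by positivity
  have h4 := mul_le_mul_of_nonneg_left hV2 hp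
  refine h4.trans (le_of_eq ?_)
  have h5 : X ^ (14 / 5 : ℝ) = X ^ (9 / 5 : ℝ) * X := by
    rw [show (14 / 5 : ℝ) = 9 / 5 + 1 by norm_num, Real.rpow_add hX0, Real.rpow_one]
  rw [h5]
  have h6 : (m : ℝ) ≠ 0 := hm'.ne'
  have h7 : X ≠ 0 := hX0.ne'
  have h8 : i ≠ 0 := hi.ne'
  field_simp

/-- Cubes. -/
theorem t5c_cube (x : ℝ) (h0 : 0 ≤ x) (h1 : x ≤ 1) : (1 + x) ^ 3 ≤ 1 + 7 * x := by
  nlinarith [mul_nonneg h0 h0, mul_nonneg h0 (sub_nonneg.2 h1), mul_nonneg (mul_nonneg h0 h0) (sub_nonneg.2 h1)]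

theorem t5c_K (k : ℕ) (P : Finset ℕ) (hP : ∀ p ∈ P, 3 ≤ p ∧ 4 * k ≤ p) : 0 ≤ ∏ p ∈ P, (1 - gg k p) := by
  refine prod_nonneg fun p hp => ?_
  have := (pr_gg k p (hP p hp).1 (hP p hp).2).2.1
  linarith

/-- **Sum over the boxes.** `X = √Y`.
Proof. `ge_main` with `c = W / 2` and `ε`; `t5_geo`; `t5_sieve` in every box (lengths `≤ X / m + 1`,
`X / 4 ≤ X i.1 / m < s1`); `(m / (X i.1)) (X / m + 1)³ = X² (1 + m / X)³ / (m² i.1)` and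
`∑ 1 / (m² i.1) ≤ π² / (16 W) + ε`; `(1 + m / X)³ ≤ 1 + ε` for large `Y`. -/
theorem t5_sum (k : ℕ) : ∃ C : ℝ, 1 ≤ C ∧ ∀ (W : ℕ) (ε : ℝ), 2 ≤ W → 0 < ε → ∃ (η Y₀ N : ℝ), 0 < η ∧ 0 < N ∧
    ∀ (Y : ℕ) (z : ℝ) (b₀ : ℕ) (D : Par k) (P : Finset ℕ) (hi : ℤ), Y₀ ≤ Y → 2 ≤ z → 1 ≤ b₀ → D.W = W → D.ok →
      4 * (D.W : ℤ) * D.h = D.a - D.a' → |(D.h : ℝ)| ≤ η * Y → |(D.h : ℝ)| ≤ √Y → 0 ≤ hi → (hi : ℝ) + D.a ≤ η * Y →
      (hi : ℝ) + D.a' ≤ η * Y → (∀ p ∈ P, D.sp p ∧ (p : ℝ) < z ∧ 3 ≤ p ∧ 4 * k ≤ p) →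
      ∀ F : Finset ((ℤ × ℤ) × (ℤ × ℤ)), (∀ q ∈ F, D.Cnd hi Y P q) →
        (F.card : ℝ) ≤ Y * (Real.pi ^ 2 / (16 * W) + ε) * D.K0 * (∏ p ∈ P, (1 - gg k p)) * (1 + C * Real.exp (-b₀)) +
          N * (Y : ℝ) ^ (9 / 10 : ℝ) * ((D.W : ℝ) * D.a * D.a') ^ 5 * (z ^ (4 * b₀ + 5)) ^ 6 * (D.h : ℝ) ^ 2 := by
  obtain ⟨C, hC1, hC⟩ := t5_sieve k
  refine ⟨C, hC1, ?_⟩
  intro W ε hW hε
  have hWr : (2 : ℝ) ≤ W := by exact_mod_cast hW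
  obtain ⟨m, η, S, hm, hη, hcov, hS, hsum⟩ := ge_main ((W : ℝ) / 2) (by linarith) (ε / 2) (by linarith)
  have hm0 : 0 < m := by omega
  have hmr : (10 : ℝ) ≤ m := by exact_mod_cast hm
  have hm' : (0 : ℝ) < m := by linarith
  set A : ℝ := Real.pi ^ 2 / (16 * W) + ε / 2 with hA
  have hA0 : 0 < A := by positivity
  have hsum' : ∑ i ∈ S, 1 / ((m : ℝ) ^ 2 * i.1) ≤ A := by
    refine hsum.trans (le_of_eq ?_)
    rw [hA]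
    congr 2
    ring
  have hi0 : ∀ i ∈ S, 0 < i.1 := by
    intro i hi
    have := (hS i hi).1
    have h2 : (10 : ℤ) ≤ m := by exact_mod_cast hm
    omega
  have hi0' : ∀ i ∈ S, (0 : ℝ) < i.1 := fun i hi => by exact_mod_cast hi0 i hi
  set N₀ : ℝ := ∑ i ∈ S, (m : ℝ) / i.1 with hN₀
  have hN0 : 0 ≤ N₀ := sum_nonneg fun i hi => by
    have := hi0' i hi
    positivity
  refine ⟨η, (14 * m * A / ε + m + 1) ^ 2, C * N₀ + 1, hη, by positivity, ?_⟩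
  intro Y z b₀ D P hi hY hz hb hDW hD hh h1 h1' hhi h2 h3 hP F hF
  have hX1 : 14 * m * A / ε + m + 1 ≤ √(Y : ℝ) := by
    apply Real.le_sqrt_of_sq_le
    exact hY
  set X : ℝ := √(Y : ℝ) with hX
  have hXX : X ^ 2 = Y := Real.sq_sqrt (Nat.cast_nonneg Y)
  have hq : 0 ≤ 14 * m * A / ε := by positivity
  have hXm : (m : ℝ) ≤ X := by linarith
  have hX10 : 10 ≤ X := by linarith
  have hX0 : 0 < X := by linarith
  have hYpos : 0 < Y := by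
    rcases Nat.eq_zero_or_pos Y with h | h
    · rw [h] at hXX
      have : X = 0 := by
        have : X ^ 2 = 0 := by rw [hXX]; simp
        exact pow_eq_zero_iff (two_ne_zero) |>.1 this
      linarith
    · exact h
  have hgeo := t5_geo D hD hh hi Y P η hYpos h1 h2 h3 hhi m hm0 S (by rw [hDW]; exact hcov) hi0 F hF
  refine hgeo.trans ?_
  rw [← hX]
  have hK0 := (lo_up D hD).1
  set E : ℝ := D.K0 * (∏ p ∈ P, (1 - gg k p)) * (1 + C * Real.exp (-b₀)) with hE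
  have hE0 : 0 ≤ E := by
    rw [hE]
    have h5 := t5c_K k P fun p hp => (hP p hp).2.2
    have h6 := Real.exp_pos (-(b₀ : ℝ))
    positivity
  set T : ℝ := C * ((D.W : ℝ) * D.a * D.a') ^ 5 * (z ^ (4 * b₀ + 5)) ^ 6 * (D.h : ℝ) ^ 2 with hT
  have hstep : ∀ i ∈ S, (m : ℝ) / (X * i.1) *
      D.WS P ⌊X * i.1 / m⌋₊ ⌊X * (i.1 + 1) / m⌋₊ ⌊X * i.2.1 / m⌋ ⌊X * (i.2.1 + 1) / m⌋
        ⌊X * i.2.2 / m⌋ ⌊X * (i.2.2 + 1) / m⌋ ≤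
      X ^ 2 * (1 + m / X) ^ 3 * E * (1 / ((m : ℝ) ^ 2 * i.1)) + T * X ^ (9 / 5 : ℝ) * (m / i.1) := by
    intro i hiS
    obtain ⟨a1, a2, a3⟩ := t5c_lenN X hX0.le m hm0 i.1 (hi0 i hiS)
    obtain ⟨b1, b2, b3⟩ := t5c_len X hX0.le m hm0 i.2.1
    obtain ⟨c1, c2, c3⟩ := t5c_len X hX0.le m hm0 i.2.2
    have hXm4 : X / m + 1 ≤ 4 * X := by
      have : X / m ≤ X := div_le_self hX0.le (by linarith)
      linarith
    obtain ⟨d1, d2, -⟩ := hS i hiS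
    have d1' : (m : ℝ) ≤ 4 * i.1 := by exact_mod_cast d1
    have d2' : (i.1 : ℝ) + 1 ≤ 2 * m := by exact_mod_cast d2
    have hV := hC X z b₀ D P (by linarith) hz hb hD h1' hP _ _ _ _ _ _ a3 (by
        intro s hs
        rw [mem_Ioc] at hs
        have e1 : X * i.1 / m < s := (Nat.floor_lt (by have := hi0' i hiS; positivity)).1 hs.1
        have e2 : X / 4 ≤ X * i.1 / m := by
          rw [le_div_iff₀ hm']
          have e3 := mul_le_mul_of_nonneg_left d1' hX0.le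
          linarith
        exact (e2.trans_lt e1).le) (by
        have e1 := Nat.floor_le (show 0 ≤ X * (i.1 + 1) / m by have := hi0' i hiS; positivity)
        refine e1.trans ?_
        rw [div_le_iff₀ hm']
        have e3 := mul_le_mul_of_nonneg_left d2' hX0.le
        linarith) b3 c3 (b2.trans hXm4) (c2.trans hXm4)
    refine t5c_one X T E (by linarith) m hm0 i.1 (hi0' i hiS) _ _ _ _ a2 b1 b2 c1 c2 hE0 (hV.trans (le_of_eq ?_))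
    rw [hE, hT]
    ring
  refine (sum_le_sum hstep).trans ?_
  rw [sum_add_distrib, ← mul_sum, ← mul_sum, ← hN₀]
  have hx0 : 0 ≤ (m : ℝ) / X := by positivity
  have hx1 : (m : ℝ) / X ≤ 1 := by
    rw [div_le_one hX0]
    exact hXm
  have hcube := t5c_cube _ hx0 hx1
  have hmain : (1 + (m : ℝ) / X) ^ 3 * ∑ i ∈ S, 1 / ((m : ℝ) ^ 2 * i.1) ≤ Real.pi ^ 2 / (16 * W) + ε := by
    have e0 : 0 ≤ ∑ i ∈ S, 1 / ((m : ℝ) ^ 2 * i.1) := sum_nonneg fun i hi => by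
      have := hi0' i hi
      positivity
    have e1 : (1 + (m : ℝ) / X) ^ 3 * ∑ i ∈ S, 1 / ((m : ℝ) ^ 2 * i.1) ≤ (1 + 7 * (m / X)) * A :=
      mul_le_mul hcube hsum' e0 (by positivity)
    have e2 : 7 * (m / X) * A ≤ ε / 2 := by
      rw [mul_div_assoc', div_mul_eq_mul_div, div_le_iff₀ hX0]
      have e3 : 14 * m * A / ε ≤ X := by linarith
      rw [div_le_iff₀ hε] at e3
      linarith
    have e4 : A + ε / 2 = Real.pi ^ 2 / (16 * W) + ε := by rw [hA]; ring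
    nlinarith
  have hXY : X ^ (9 / 5 : ℝ) = (Y : ℝ) ^ (9 / 10 : ℝ) := by
    rw [hX, Real.sqrt_eq_rpow, ← Real.rpow_mul (Nat.cast_nonneg Y)]
    norm_num
  have hfin1 : X ^ 2 * (1 + m / X) ^ 3 * E * ∑ i ∈ S, 1 / ((m : ℝ) ^ 2 * i.1) ≤
      Y * (Real.pi ^ 2 / (16 * W) + ε) * E := by
    have e5 := mul_le_mul_of_nonneg_left hmain (show 0 ≤ X ^ 2 * E by positivity)
    rw [hXX] at e5 ⊢
    nlinarith
  have hT0 : 0 ≤ ((D.W : ℝ) * D.a * D.a') ^ 5 * (z ^ (4 * b₀ + 5)) ^ 6 * (D.h : ℝ) ^ 2 := by positivity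
  have hfin2 : T * X ^ (9 / 5 : ℝ) * N₀ ≤ (C * N₀ + 1) * (Y : ℝ) ^ (9 / 10 : ℝ) * ((D.W : ℝ) * D.a * D.a') ^ 5 *
      (z ^ (4 * b₀ + 5)) ^ 6 * (D.h : ℝ) ^ 2 := by
    rw [hXY, hT]
    have e6 : 0 ≤ (Y : ℝ) ^ (9 / 10 : ℝ) * (((D.W : ℝ) * D.a * D.a') ^ 5 * (z ^ (4 * b₀ + 5)) ^ 6 * (D.h : ℝ) ^ 2) := by
      positivity
    nlinarith
  refine (add_le_add hfin1 hfin2).trans (le_of_eq ?_)
  rw [hE]
  ring

end Pool.Agent.Wd33b62c
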